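import Pool.Agent.Lib.MP_c03ca8_nt.P3.Rb4

set_option autoImplicit false

noncomputable section

namespace Pool.Agent.Lib.MP_c03ca8_nt.P3

open Finset Real Pool.Agent.Lib.MP_c03ca8_nt.Q

theorem fifth_log (N : ℕ) (hN : 1 ≤ N) : Real.log N ^ 4 ≤ 16 * (N : ℝ) ^ 2 := by
  have h1 : (1 : ℝ) ≤ N := by exact_mod_cast hN
  have h0 : 0 ≤ Real.log N := Real.log_nonneg h1
  have hs : 0 < √(N : ℝ) := Real.sqrt_pos.2 (by linarith)
  have h2 : Real.log N ≤ 2 * √(N : ℝ) := by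
    have := Real.log_le_sub_one_of_pos hs
    rw [Real.log_sqrt (by linarith)] at this
    linarith
  calc Real.log N ^ 4 ≤ (2 * √(N : ℝ)) ^ 4 := pow_le_pow_left₀ h0 h2 4
    _ = 16 * (√(N : ℝ) ^ 2) ^ 2 := by ring
    _ = 16 * (N : ℝ) ^ 2 := by rw [Real.sq_sqrt (by linarith)]

theorem fifth_root (m : ℕ) (hm : 1 ≤ m) : ∃ n : ℕ, n ^ 5 < m ∧ m ≤ (n + 1) ^ 5 := by
  classical
  have hex : ∃ n : ℕ, m ≤ (n + 1) ^ 5 :=
    ⟨m, (Nat.le_succ m).trans (Nat.le_self_pow (by norm_num) _)⟩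
  refine ⟨Nat.find hex, ?_, Nat.find_spec hex⟩
  rcases h : Nat.find hex with _ | k
  · exact hm
  · have := Nat.find_min hex (m := k) (by omega)
    omega

theorem fifth_gap (n : ℕ) (hn : 1 ≤ n) :
    n ^ 4 ≤ (n + 1) ^ 5 - n ^ 5 ∧ (n + 1) ^ 5 - n ^ 5 ≤ 31 * n ^ 4 ∧ (n + 1) ^ 5 ≤ 32 * n ^ 5 := by
  have e : (n + 1) ^ 5 = n ^ 5 + (5 * n ^ 4 + 10 * n ^ 3 + 10 * n ^ 2 + 5 * n + 1) := by ring
  have h1 : n ≤ n ^ 2 := Nat.le_self_pow (by norm_num) n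
  have h2 : n ^ 2 ≤ n ^ 3 := Nat.pow_le_pow_right hn (by norm_num)
  have h3 : n ^ 3 ≤ n ^ 4 := Nat.pow_le_pow_right hn (by norm_num)
  have h4 : n ^ 4 ≤ n ^ 5 := Nat.pow_le_pow_right hn (by norm_num)
  omega

/-- The good integers of one interval between fifth powers. -/
theorem fifth_one {h : Fin 4 → ℕ} (hinj : Function.Injective h) {w a x0 K y N n : ℕ} {η η' C : ℝ}
    (hC : 0 < C) (hη' : 0 < η') (hη : 2 * η' ≤ η) (hw : 10 ≤ w) (hlt : ∀ l, h l < w)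
    (hcop : ∀ l, Nat.Coprime (a + h l) (primorial w))
    (hE : ∀ E : Env, E.w = w → x0 ≤ E.x → E.Good → (E.x : ℝ) ^ (4 / 5 : ℝ) ≤ E.X →
      ((gd E.h (E.H 1 ^ η') E.I).card : ℝ) ≤ C * (E.X / E.W / E.L 1 ^ 4))
    (hK : K ≤ y) (hy : 32 * (x0 + w + 31 ^ 5) ≤ y) (hn : n ≤ N) (h1 : y < (n + 1) ^ 5)
    (h2 : n ^ 5 ≤ K * y) :
    ((gd h ((y : ℝ) ^ η) (cls (n ^ 5) ((n + 1) ^ 5 - n ^ 5) (primorial w) a)).card : ℝ) ≤
      C * 496 / (primorial w * cW w ^ 4) * ((N : ℝ) ^ 4 / Real.log y ^ 4) := by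
  classical
  have hn1 : 1 ≤ n := by
    rcases n with _ | n
    · omega
    · omega
  obtain ⟨g1, g2, g3⟩ := fifth_gap n hn1
  have hn31 : 31 ≤ n := by
    by_contra hc
    have : n ^ 5 ≤ 30 ^ 5 := Nat.pow_le_pow_left (by omega) 5
    omega
  have hX : 31 * n ^ 4 ≤ n ^ 5 := by
    rw [pow_succ n 4, mul_comm]
    exact Nat.mul_le_mul_left _ hn31
  have hn0 : (0 : ℝ) < n := by exact_mod_cast hn1
  have hyR : (1024 : ℝ) ≤ y := by exact_mod_cast (by omega : 1024 ≤ y)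
  have key := hE ⟨h, w, a, n ^ 5, (n + 1) ^ 5 - n ^ 5⟩ rfl (by dsimp only; omega)
    ⟨hinj, hlt, hcop, hw, by dsimp only; omega, by dsimp only; omega⟩ (by
      dsimp only
      rw [Nat.cast_pow, ← Real.rpow_natCast, ← Real.rpow_mul hn0.le,
        show ((5 : ℕ) : ℝ) * (4 / 5) = ((4 : ℕ) : ℝ) by norm_num, Real.rpow_natCast]
      exact_mod_cast g1)
  simp only [Env.H, Env.L, Env.I, Env.W, div_one, Real.rpow_one] at key
  have hr : ((n ^ 5 : ℕ) : ℝ) ^ η' ≤ (y : ℝ) ^ η := by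
    have e1 : ((n ^ 5 : ℕ) : ℝ) ≤ (y : ℝ) ^ (2 : ℝ) := by
      rw [Real.rpow_two]
      exact_mod_cast h2.trans (by rw [sq]; exact Nat.mul_le_mul_right _ hK)
    calc ((n ^ 5 : ℕ) : ℝ) ^ η' ≤ ((y : ℝ) ^ (2 : ℝ)) ^ η' :=
          Real.rpow_le_rpow (Nat.cast_nonneg _) e1 hη'.le
      _ = (y : ℝ) ^ (2 * η') := (Real.rpow_mul (by linarith) _ _).symm
      _ ≤ (y : ℝ) ^ η := Real.rpow_le_rpow_of_exponent_le (by linarith) hη
  have hsub : gd h ((y : ℝ) ^ η) (cls (n ^ 5) ((n + 1) ^ 5 - n ^ 5) (primorial w) a) ⊆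
      gd h (((n ^ 5 : ℕ) : ℝ) ^ η') (cls (n ^ 5) ((n + 1) ^ 5 - n ^ 5) (primorial w) a) := by
    intro m hm
    simp only [gd, mem_filter] at hm ⊢
    exact ⟨hm.1, fun l => ⟨(hm.2 l).1.mono hr, (hm.2 l).2⟩⟩
  refine (Nat.cast_le.2 (card_le_card hsub)).trans (key.trans ?_)
  have hly : 0 < Real.log y := Real.log_pos (by linarith)
  have hlog : Real.log y / 2 ≤ Real.log ((n ^ 5 : ℕ) : ℝ) := by
    have e1 : (y : ℝ) ≤ 32 * ((n ^ 5 : ℕ) : ℝ) := by exact_mod_cast (h1.le.trans g3)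
    have e2 : (y : ℝ) ≤ ((n ^ 5 : ℕ) : ℝ) ^ 2 := by nlinarith
    have e3 := Real.log_le_log (by linarith) e2
    rw [Real.log_pow] at e3
    push_cast at e3 ⊢
    linarith
  have hc := cW_pos w
  have hW : (0 : ℝ) < primorial w := by exact_mod_cast primorial_pos w
  have hXR : (((n + 1) ^ 5 - n ^ 5 : ℕ) : ℝ) ≤ 31 * (N : ℝ) ^ 4 := by
    exact_mod_cast g2.trans (Nat.mul_le_mul_left _ (Nat.pow_le_pow_left hn 4))
  calc C * ((((n + 1) ^ 5 - n ^ 5 : ℕ) : ℝ) / primorial w /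
        (cW w * Real.log ((n ^ 5 : ℕ) : ℝ)) ^ 4)
      ≤ C * (31 * (N : ℝ) ^ 4 / primorial w / (cW w * (Real.log y / 2)) ^ 4) := by gcongr
    _ = _ := by field_simp; ring

open Classical in
/-- Take `η' = min (η / 2) (1 / 20)`, `w1` from `rb4` with `θ = 4 / 5`, and for large `N` put
`y = N ^ 5 / K`, so `K y ≤ N ^ 5 ≤ 2 K y`. A good `m ∈ (y, K y]` lies in `(n ^ 5, (n + 1) ^ 5]` for
one `n < N`, and `y < (n + 1) ^ 5`. If `n` is not in the set then all good `m` of this interval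
exceed `(n + 1) ^ 5 - w - 1`, so there are at most `w + 1`. Otherwise `rb4` for
`E = ⟨h, w, a, n ^ 5, (n + 1) ^ 5 - n ^ 5⟩` (`n ^ (5 η') ≤ (K y) ^ η' ≤ y ^ η`, `Rough.mono`,
`log (n ^ 5) ≥ log y / 2`) bounds their number by `C' N ^ 4 / log ^ 4 y`. Finally
`(w + 1) N ≤ δ y / (2 log ^ 4 y)`. -/
theorem fifth (h : Fin 4 → ℕ) (hinj : Function.Injective h)
    (hc : ∃ η : ℝ, 0 < η ∧ ∀ w1 : ℕ, ∃ (w a K y0 : ℕ) (δ : ℝ), w1 ≤ w ∧ 10 ≤ w ∧ (∀ l, h l < w) ∧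
      (∀ l, Nat.Coprime (a + h l) (primorial w)) ∧ 1 ≤ K ∧ 0 < δ ∧ ∀ y : ℕ, y0 ≤ y →
        δ * y / Real.log y ^ 4 ≤
          (gd h ((y : ℝ) ^ η) (cls y (K * y - y) (primorial w) a)).card) :
    ∃ c : ℝ, 0 < c ∧ ∃ N0 : ℕ, ∀ N : ℕ, N0 ≤ N →
      c * N ≤ ((Icc 1 N).filter fun n => ∃ m : ℕ, n ^ 5 < m ∧
        ∀ l, m + h l < (n + 1) ^ 5 ∧ ArithmeticFunction.cardFactors (m + h l) ≤ 3).card := by
  obtain ⟨η, hη, hc⟩ := hc
  have hη' : 0 < min (η / 2) (1 / 20) := lt_min (by linarith) (by norm_num)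
  obtain ⟨C, hC, w0, hw0⟩ := rb4 (θ := 4 / 5) (by norm_num) hη'
    (by have := min_le_right (η / 2) (1 / 20); linarith)
  obtain ⟨w, a, K, y0, δ, hw1, hw, hlt, hcop, hK, hδ, hy⟩ := hc w0
  obtain ⟨x0, hE⟩ := hw0 w hw1
  have hcw := cW_pos w
  have hW : (0 : ℝ) < primorial w := by exact_mod_cast primorial_pos w
  have hKR : (1 : ℝ) ≤ K := by exact_mod_cast hK
  obtain ⟨C', hC'⟩ : ∃ C' : ℝ, C' = C * 496 / (primorial w * cW w ^ 4) := ⟨_, rfl⟩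
  have hC0 : 0 < C' := by rw [hC']; positivity
  refine ⟨δ / (4 * K * C'), by positivity,
    K * (y0 + K + 32 * (x0 + w + 31 ^ 5)) + ⌈40000 * (w + 1) * K / δ⌉₊, fun N hN => ?_⟩
  obtain ⟨y, hyN⟩ : ∃ y, y = N ^ 5 / K := ⟨_, rfl⟩
  obtain ⟨S, hS⟩ : ∃ S, S = (Icc 1 N).filter fun n => ∃ m : ℕ, n ^ 5 < m ∧
    ∀ l, m + h l < (n + 1) ^ 5 ∧ ArithmeticFunction.cardFactors (m + h l) ≤ 3 := ⟨_, rfl⟩
  rw [← hS]
  have hy1 : y0 + K + 32 * (x0 + w + 31 ^ 5) ≤ y := by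
    rw [hyN, Nat.le_div_iff_mul_le hK, mul_comm]
    exact (le_trans (Nat.le_add_right _ _) hN).trans (Nat.le_self_pow (by norm_num) N)
  have hbig : 40000 * (w + 1) * K ≤ δ * N := by
    have e1 : 40000 * (w + 1) * K / δ ≤ (N : ℝ) :=
      (Nat.le_ceil _).trans (by exact_mod_cast le_trans (Nat.le_add_left _ _) hN)
    rwa [div_le_iff₀ hδ, mul_comm (N : ℝ)] at e1
  clear hN
  have hy2 : 32 * (x0 + w + 31 ^ 5) ≤ y := (Nat.le_add_left _ _).trans hy1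
  have hy3 : y0 + K ≤ y := (Nat.le_add_right _ _).trans hy1
  have hy4 : 1024 ≤ y :=
    le_trans (le_trans (by norm_num) (Nat.mul_le_mul_left 32 (Nat.le_add_left _ _))) hy2
  clear hy1
  have hKy : K * y ≤ N ^ 5 := by rw [hyN]; exact Nat.mul_div_le _ _
  have hKy2 : N ^ 5 ≤ 2 * (K * y) := by
    have e1 : N ^ 5 < K * (y + 1) := by rw [hyN]; exact Nat.lt_mul_div_succ _ hK
    have e2 : K * (y + 1) ≤ K * (2 * y) := Nat.mul_le_mul_left _ (by omega)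
    have e3 : K * (2 * y) = 2 * (K * y) := by ring
    omega
  have hyK : y ≤ K * y := Nat.le_mul_of_pos_left _ hK
  have hN1 : 1 ≤ N := by
    rcases N with _ | N
    · omega
    · omega
  have hNR : (1 : ℝ) ≤ N := by exact_mod_cast hN1
  have hyR : (1024 : ℝ) ≤ y := by exact_mod_cast hy4
  have hly : 0 < Real.log y := Real.log_pos (by linarith)
  obtain ⟨B, hB⟩ : ∃ B : ℝ, B = C' * ((N : ℝ) ^ 4 / Real.log y ^ 4) := ⟨_, rfl⟩
  have hB0 : 0 ≤ B := by rw [hB]; positivity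
  obtain ⟨G, hG⟩ : ∃ G, G = gd h ((y : ℝ) ^ η) (cls y (K * y - y) (primorial w) a) := ⟨_, rfl⟩
  have hmem : ∀ m ∈ G, y < m ∧ m ≤ K * y ∧ m ≡ a [MOD primorial w] ∧
      ∀ l, Rough ((y : ℝ) ^ η) (m + h l) ∧ ArithmeticFunction.cardFactors (m + h l) ≤ 3 := by
    intro m hm
    simp only [hG, gd, cls, mem_filter, mem_Ioc] at hm
    exact ⟨hm.1.1.1, by omega, hm.1.2, hm.2⟩
  have hcov : G ⊆ (range N).biUnion fun n => G.filter fun m => n ^ 5 < m ∧ m ≤ (n + 1) ^ 5 := by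
    intro m hm
    obtain ⟨m1, m2, -⟩ := hmem m hm
    obtain ⟨n, n1, n2⟩ := fifth_root m (by omega)
    refine mem_biUnion.2 ⟨n, mem_range.2 ?_, mem_filter.2 ⟨hm, n1, n2⟩⟩
    exact lt_of_pow_lt_pow_left₀ 5 (Nat.zero_le _) (by omega)
  have hone : ∀ n ∈ range N, ((G.filter fun m => n ^ 5 < m ∧ m ≤ (n + 1) ^ 5).card : ℝ) ≤
      (w + 1) + if n ∈ S then B else 0 := by
    intro n hn
    have hnN := (mem_range.1 hn).le
    rcases (G.filter fun m => n ^ 5 < m ∧ m ≤ (n + 1) ^ 5).eq_empty_or_nonempty with e | ⟨m0, hm0⟩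
    · rw [e, card_empty, Nat.cast_zero]
      split_ifs <;> positivity
    obtain ⟨hm1, hm2, hm3⟩ := mem_filter.1 hm0
    obtain ⟨m1, m2, -⟩ := hmem m0 hm1
    split_ifs with hs
    · have hsub : (G.filter fun m => n ^ 5 < m ∧ m ≤ (n + 1) ^ 5) ⊆
          gd h ((y : ℝ) ^ η) (cls (n ^ 5) ((n + 1) ^ 5 - n ^ 5) (primorial w) a) := by
        intro m hm
        obtain ⟨k1, k2, k3⟩ := mem_filter.1 hm
        obtain ⟨-, -, k4, k5⟩ := hmem m k1
        simp only [gd, cls, mem_filter, mem_Ioc]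
        exact ⟨⟨⟨k2, by omega⟩, k4⟩, k5⟩
      have := fifth_one hinj (N := N) (n := n) (K := K) (y := y) (η := η) hC hη'
        (by have := min_le_left (η / 2) (1 / 20); linarith) hw hlt hcop hE (by omega) hy2 hnN
        (by omega) (by omega)
      rw [← hC', ← hB] at this
      have h3 := (Nat.cast_le (α := ℝ)).2 (card_le_card hsub)
      have h4 : (0 : ℝ) ≤ w + 1 := by positivity
      linarith
    · have hn1 : 1 ≤ n := by
        rcases n with _ | n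
        · omega
        · omega
      have hsub : (G.filter fun m => n ^ 5 < m ∧ m ≤ (n + 1) ^ 5) ⊆
          Icc ((n + 1) ^ 5 - w) ((n + 1) ^ 5) := by
        intro m hm
        obtain ⟨k1, k2, k3⟩ := mem_filter.1 hm
        obtain ⟨-, -, -, k5⟩ := hmem m k1
        refine mem_Icc.2 ⟨?_, k3⟩
        by_contra hcon
        refine hs (hS ▸ mem_filter.2 ⟨mem_Icc.2 ⟨hn1, hnN⟩, m, k2, fun l => ⟨?_, (k5 l).2⟩⟩)
        have := hlt l
        omega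
      have h3 := card_le_card hsub
      rw [Nat.card_Icc] at h3
      rw [add_zero]
      exact_mod_cast h3.trans (by omega)
  have htot : (G.card : ℝ) ≤ N * (w + 1) + S.card * B := by
    calc (G.card : ℝ) ≤ ∑ n ∈ range N,
          ((G.filter fun m => n ^ 5 < m ∧ m ≤ (n + 1) ^ 5).card : ℝ) := by
          exact_mod_cast (card_le_card hcov).trans card_biUnion_le
      _ ≤ ∑ n ∈ range N, ((w + 1 : ℝ) + if n ∈ S then B else 0) := sum_le_sum hone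
      _ = N * (w + 1) + ((range N).filter fun n => n ∈ S).card * B := by
          rw [sum_add_distrib, ← sum_filter]
          simp only [sum_const, card_range, nsmul_eq_mul]
      _ ≤ _ := by
          gcongr
          exact fun n hn => (mem_filter.1 hn).2
  have hlow := hy y (by omega)
  rw [← hG] at hlow
  have hKyR : (N : ℝ) ^ 5 ≤ 2 * (K * y) := by exact_mod_cast hKy2
  have hl4 : Real.log y ^ 4 ≤ 10000 * (N : ℝ) ^ 2 := by
    have e1 : (y : ℝ) ≤ (N : ℝ) ^ 5 := by exact_mod_cast hyK.trans hKy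
    have e2 := Real.log_le_log (by linarith) e1
    rw [Real.log_pow] at e2
    have e3 := pow_le_pow_left₀ hly.le e2 4
    have e4 := fifth_log N hN1
    push_cast at e3
    nlinarith
  have hL : 0 < Real.log y ^ 4 := by positivity
  have hsm : N * (w + 1) * Real.log y ^ 4 ≤ δ * y / 2 := by
    have e1 : N * (w + 1) * Real.log y ^ 4 ≤ N * (w + 1) * (10000 * (N : ℝ) ^ 2) := by gcongr
    have e2 : 40000 * (w + 1) * K * (N : ℝ) ^ 3 ≤ δ * N * (N : ℝ) ^ 4 :=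
      mul_le_mul hbig (pow_le_pow_right₀ hNR (by norm_num)) (by positivity) (by positivity)
    have e3 : δ * (N : ℝ) ^ 5 ≤ δ * (2 * (K * y)) := by gcongr
    have e4 : K * (N * (w + 1) * (10000 * (N : ℝ) ^ 2)) ≤ K * (δ * y / 2) := by nlinarith
    exact e1.trans (le_of_mul_le_mul_left e4 (by linarith))
  have hfin : δ * y / 2 ≤ S.card * C' * (N : ℝ) ^ 4 := by
    have e1 := hlow.trans htot
    rw [div_le_iff₀ hL, hB] at e1
    have e2 : (N * (w + 1) + S.card * (C' * ((N : ℝ) ^ 4 / Real.log y ^ 4))) * Real.log y ^ 4 =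
        N * (w + 1) * Real.log y ^ 4 + S.card * C' * (N : ℝ) ^ 4 := by field_simp
    linarith
  rw [div_mul_eq_mul_div, div_le_iff₀ (by positivity)]
  have e3 : δ * (N : ℝ) ^ 5 ≤ δ * (2 * (K * y)) := by gcongr
  have e5 : K * (δ * y / 2) ≤ K * (S.card * C' * (N : ℝ) ^ 4) := by gcongr
  have e6 : δ * N * (N : ℝ) ^ 4 ≤ S.card * (4 * K * C') * (N : ℝ) ^ 4 := by nlinarith
  exact le_of_mul_le_mul_right e6 (by positivity)

end Pool.Agent.Lib.MP_c03ca8_nt.P3
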