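import Pool.Agent.Lib.MP_c03ca8_nt.P3.Basic

set_option autoImplicit false

noncomputable section

namespace Pool.Agent.Lib.MP_c03ca8_nt.P3

open Finset Real Pool.Agent.Lib.MP_c03ca8_nt.Q

theorem btx_in {x X : ℕ} {p k : ℕ} {P γ : ℝ} (hP : 0 < P) (hγ : 0 < γ) (h1 : P ≤ p)
    (h2 : (p : ℝ) ≤ P * (1 + γ)) (hk : k ∈ Ioc (bv_A x P) (bv_B x X P γ)) :
    p * k ∈ Ioc x (x + X) := by
  obtain ⟨k1, k2⟩ := mem_Ioc.mp hk
  have k0 : (0 : ℝ) ≤ k := Nat.cast_nonneg k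
  refine mem_Ioc.mpr ⟨?_, ?_⟩
  · have ha : (x : ℝ) / P ≤ bv_A x P := Nat.le_ceil _
    have k1' : (bv_A x P : ℝ) < k := by exact_mod_cast k1
    have : (x : ℝ) < k * P := by
      rw [← div_lt_iff₀ hP]
      linarith
    have : (x : ℝ) < p * k := by nlinarith
    exact_mod_cast this
  · have k5 : k ≤ ⌊((x : ℝ) + X) / (P * (1 + γ))⌋₊ := by
      unfold bv_B at k2
      rcases le_max_iff.mp k2 with h | h
      · omega
      · exact h
    have k6 : (k : ℝ) ≤ ((x : ℝ) + X) / (P * (1 + γ)) :=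
      (Nat.le_floor_iff (by positivity)).mp k5
    rw [le_div_iff₀ (by positivity)] at k6
    have : (p : ℝ) * k ≤ x + X := by nlinarith
    exact_mod_cast this

theorem btx_out {x X : ℕ} (hX : X ≤ x) {p k : ℕ} {P P2 γ : ℝ} (hP : 0 < P) (hγ : 0 < γ)
    (h1 : P ≤ p) (h2 : (p : ℝ) ≤ P * (1 + γ)) (h3 : (p : ℝ) ≤ P2) (hn : p * k ∈ Ioc x (x + X))
    (hk : k ∉ Ioc (bv_A x P) (bv_B x X P γ)) : p * k ∈ bv_E x X 1 0 P2 γ := by
  have hx : (0 : ℝ) ≤ x := Nat.cast_nonneg x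
  have hX0 : (0 : ℝ) ≤ X := Nat.cast_nonneg X
  have hX' : (X : ℝ) ≤ x := by exact_mod_cast hX
  have hp : (0 : ℝ) < p := hP.trans_le h1
  refine mem_filter.mpr ⟨mem_filter.mpr ⟨hn, Nat.modEq_one⟩, ?_⟩
  rw [mem_Ioc, not_and_or, not_lt, not_le] at hk
  push_cast
  rcases hk with hk | hk
  · left
    have ha : (bv_A x P : ℝ) < (x : ℝ) / P + 1 := Nat.ceil_lt_add_one (by positivity)
    have k1 : (k : ℝ) ≤ bv_A x P := by exact_mod_cast hk
    have k2 : (p : ℝ) * k ≤ p * (x / P + 1) := by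
      apply mul_le_mul_of_nonneg_left _ hp.le
      linarith
    have k3 : (p : ℝ) * (x / P) ≤ P * (1 + γ) * (x / P) :=
      mul_le_mul_of_nonneg_right h2 (by positivity)
    have k4 : P * (1 + γ) * (x / P) = (1 + γ) * x := by field_simp
    nlinarith
  · right
    have k1 : ⌊((x : ℝ) + X) / (P * (1 + γ))⌋₊ < k := (le_max_right _ _).trans_lt hk
    have k2 : ((x : ℝ) + X) / (P * (1 + γ)) < k := (Nat.floor_lt (by positivity)).mp k1
    rw [div_lt_iff₀ (by positivity)] at k2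
    have k0 : (0 : ℝ) ≤ k := Nat.cast_nonneg k
    have k3 : (k : ℝ) * P ≤ p * k := by nlinarith
    have k4 : (x : ℝ) + X < p * k * (1 + γ) := by nlinarith
    have k5 : (p : ℝ) * k ≤ x + X := by
      have := (mem_Ioc.mp hn).2
      exact_mod_cast this
    nlinarith

theorem btx_count {Y P1 γ : ℝ} (hY : 1 ≤ Y) (hP1 : 1 ≤ P1) (hγ : 0 < γ) (hγ1 : γ ≤ 1)
    (I : Finset ℕ) (hI : ∀ j ∈ I, P1 * (1 + γ) ^ j ≤ Y) :
    (I.card : ℝ) * γ ≤ 2 * (1 + Real.log Y) := by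
  have hlog : γ / 2 ≤ Real.log (1 + γ) := by
    have h := Real.one_sub_inv_le_log_of_pos (show 0 < 1 + γ by linarith)
    have : γ / 2 ≤ 1 - (1 + γ)⁻¹ := by
      rw [le_sub_iff_add_le, ← le_sub_iff_add_le', inv_eq_one_div, div_le_iff₀ (by linarith)]
      nlinarith
    linarith
  have hl0 : 0 ≤ Real.log Y := Real.log_nonneg hY
  have hsub : I ⊆ range (⌊2 * Real.log Y / γ⌋₊ + 1) := by
    intro j hj
    rw [mem_range, Nat.lt_add_one_iff]
    apply Nat.le_floor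
    have h1 : (1 + γ) ^ j ≤ Y := by
      refine le_trans ?_ (hI j hj)
      exact le_mul_of_one_le_left (by positivity) hP1
    have h2 := Real.log_le_log (by positivity) h1
    rw [Real.log_pow] at h2
    rw [le_div_iff₀ hγ]
    have : (j : ℝ) * (γ / 2) ≤ j * Real.log (1 + γ) :=
      mul_le_mul_of_nonneg_left hlog (Nat.cast_nonneg j)
    linarith
  have h3 : I.card ≤ ⌊2 * Real.log Y / γ⌋₊ + 1 := by simpa using card_le_card hsub
  have h4 : (I.card : ℝ) ≤ 2 * Real.log Y / γ + 1 := by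
    have h5 : (⌊2 * Real.log Y / γ⌋₊ : ℝ) ≤ 2 * Real.log Y / γ := Nat.floor_le (by positivity)
    have h6 : (I.card : ℝ) ≤ ⌊2 * Real.log Y / γ⌋₊ + 1 := by exact_mod_cast h3
    linarith
  have h7 := mul_le_mul_of_nonneg_right h4 hγ.le
  have h8 : (2 * Real.log Y / γ + 1) * γ = 2 * Real.log Y + γ := by field_simp
  linarith

theorem btx_num {X Q P P1 P2 γ Δ L α β D : ℝ} (hX : 0 ≤ X) (hQ : 0 ≤ Q) (hP1 : 0 < P1)
    (h1 : P1 ≤ P) (h2 : P ≤ P2) (hγ : 0 < γ) (hΔ0 : 0 ≤ Δ) (hΔ : Δ ≤ 2 * γ * P) (hL0 : 0 ≤ L)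
    (hL : L ≤ X / P) (hα : 0 ≤ α) (hβ : 0 ≤ β) (hD : 0 ≤ D) (hDy : D ≤ γ * P1)
    (hDP : D * P2 ≤ X) : bxB α β D Q Δ L ≤
      γ * (6 * α * X + 2 * β * (√(X * P2) + X / √(γ * P1) + Q * √(X / γ))) := by
  have hP : 0 < P := hP1.trans_le h1
  have hP2 : 0 < P2 := hP.trans_le h2
  have hΔL : Δ * L ≤ 2 * γ * X := by
    calc Δ * L ≤ 2 * γ * P * (X / P) := mul_le_mul hΔ hL hL0 (by positivity)
      _ = 2 * γ * X := by field_simp
  have hΔ2 : Δ ≤ 2 * γ * P2 := hΔ.trans (by gcongr)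
  have t1 : (Δ + D) * (L + D) ≤ 6 * γ * X := by
    have a1 : D ≤ γ * P := hDy.trans (by gcongr)
    have a2 : D ≤ X / P := by
      rw [le_div_iff₀ hP]
      exact (mul_le_mul_of_nonneg_left h2 hD).trans hDP
    calc (Δ + D) * (L + D) ≤ (3 * γ * P) * (2 * (X / P)) :=
          mul_le_mul (by linarith) (by linarith) (by positivity) (by positivity)
      _ = 6 * γ * X := by field_simp; ring
  have t3 : √(Δ * L) * √Δ ≤ 2 * γ * √(X * P2) := by
    rw [← Real.sqrt_mul (by positivity)]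
    apply Real.sqrt_le_iff.mpr ⟨by positivity, ?_⟩
    rw [mul_pow, Real.sq_sqrt (by positivity)]
    calc Δ * L * Δ ≤ 2 * γ * X * (2 * γ * P2) := mul_le_mul hΔL hΔ2 hΔ0 (by positivity)
      _ = _ := by ring
  have t4 : √(Δ * L) * √L ≤ 2 * γ * (X / √(γ * P1)) := by
    rw [← Real.sqrt_mul (by positivity)]
    apply Real.sqrt_le_iff.mpr ⟨by positivity, ?_⟩
    rw [mul_pow, div_pow, Real.sq_sqrt (by positivity)]
    have hL1 : L ≤ X / P1 := hL.trans (div_le_div_of_nonneg_left hX hP1 h1)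
    calc Δ * L * L ≤ 2 * γ * X * (X / P1) := mul_le_mul hΔL hL1 hL0 (by positivity)
      _ = (2 * γ) ^ 2 * (X ^ 2 / (γ * P1)) / 2 := by field_simp
      _ ≤ _ := half_le_self (by positivity)
  have t5 : √(Δ * L) ≤ 2 * γ * √(X / γ) := by
    apply Real.sqrt_le_iff.mpr ⟨by positivity, ?_⟩
    rw [mul_pow, Real.sq_sqrt (by positivity)]
    calc Δ * L ≤ 2 * γ * X := hΔL
      _ = (2 * γ) ^ 2 * (X / γ) / 2 := by field_simp
      _ ≤ _ := half_le_self (by positivity)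
  have t6 : √(Δ * L) * Q ≤ 2 * γ * √(X / γ) * Q := mul_le_mul_of_nonneg_right t5 hQ
  have t7 : √(Δ * L) * (√Δ + √L + Q) ≤
      2 * γ * (√(X * P2) + X / √(γ * P1) + Q * √(X / γ)) := by linarith
  have t8 := mul_le_mul_of_nonneg_left t1 hα
  have t9 := mul_le_mul_of_nonneg_left t7 hβ
  unfold bxB
  linarith

theorem btx_swap {p : ℕ} (hp : 0 < p) (T R : Finset ℕ) (hR : ∀ r ∈ R, p * r ∈ T)
    (f : ℕ → ℕ → ℝ) :
    ∑ m ∈ T, (if p ∣ m then (if m / p ∈ R then f (m / p) m else 0) else 0) =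
      ∑ r ∈ R, f r (p * r) := by
  simp only [← ite_and]
  rw [← sum_filter]
  symm
  refine sum_bij (fun r _ => p * r) (fun r hr => mem_filter.mpr ⟨hR r hr, Nat.dvd_mul_right p r,
    by rwa [Nat.mul_div_cancel_left r hp]⟩) (fun r _ r' _ h => Nat.eq_of_mul_eq_mul_left hp h)
    (fun m hm => ?_) (fun r _ => by rw [Nat.mul_div_cancel_left r hp])
  obtain ⟨_, h1, h2⟩ := mem_filter.mp hm
  exact ⟨m / p, h2, Nat.mul_div_cancel' h1⟩

/-- Boxes as in `bv` (copy the choice of `jx`, `Pj`, `bv_A`, `bv_B`, `bv_E` with `q = 1`,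
`bv_len`, `bv_edge`, `bv_count`, the last three terms of `bv_num`). Only primes `y ≤ p ≤ P2` count
(`Adm.supp`: `m / p ≥ y`). In the box `j` take `b r = B ⌈Pj j⌉₊ r`; the change costs
`log (1 + γ) ≤ γ` per pair `(m, p)`, and `m` has at most `G` primes. A pair with
`m / p ∉ Ioc Aj Bj` has `m` in the edge set. The number of boxes is at most
`(1 + 2 log Y) / γ`, and in each `Δ + D ≤ 3 γ Pj`, `B - A + D ≤ 2 X / Pj`. -/
theorem btx {Y G y P2 γ α β D Q Bd : ℝ} (hG : Tame Y G) (x X : ℕ) (hX : X ≤ x)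
    (hx : 2 * (x : ℝ) ≤ Y) (Θ : ℕ → ℝ) (hγ : 0 < γ) (hγ1 : γ ≤ 1) (hγy : 1 ≤ γ * y)
    (hα : 0 ≤ α) (hβ : 0 ≤ β) (hD : 0 ≤ D) (hQ : 0 ≤ Q) (hBd : 0 ≤ Bd) (hDy : D ≤ γ * y)
    (hDP : D * P2 ≤ X) (hP2 : (x : ℝ) + X ≤ P2 * y) (hP2Y : P2 ≤ Y)
    (hΘ : ∀ m ∈ Ioc x (x + X), |Θ m| ≤ Bd)
    (hbox : ∀ (J : Finset ℕ) (P0 Δ A B : ℕ) (b : ℕ → ℝ), J ⊆ Ico P0 (P0 + Δ) →
      (∀ p ∈ J, p.Prime ∧ y ≤ (p : ℝ)) → A ≤ B → (∀ r, |b r| ≤ 1) →
      (∀ r, b r ≠ 0 → Rough y r) → (∀ p ∈ J, ∀ r ∈ Ioc A B, p * r ∈ Ioc x (x + X)) →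
      |∑ p ∈ J, ∑ r ∈ Ioc A B, b r * Θ (p * r)| ≤ bxB α β D Q Δ ((B : ℝ) - A))
    {B : ℕ → ℕ → ℝ} (hB : Adm y B) :
    |∑ m ∈ Ioc x (x + X), bil y B m * Θ m| ≤
      12 * α * X * (1 + Real.log Y) + 4 * β * G * (√(X * P2) + X / √(γ * y) + Q * √(X / γ)) +
        Bd * G * (4 * γ * x + P2 + 4) := by
  classical
  have hG10 := hG.ten
  have hG0 : 0 ≤ G := by linarith
  have hx0 : (0 : ℝ) ≤ x := Nat.cast_nonneg x
  have hX0 : (0 : ℝ) ≤ X := Nat.cast_nonneg X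
  have hX' : (X : ℝ) ≤ x := by exact_mod_cast hX
  have hy1 : 1 ≤ y := by
    by_contra hc
    rw [not_le] at hc
    rcases le_or_gt y 0 with h | h
    · nlinarith
    · nlinarith
  have hP20 : 0 ≤ P2 := by
    by_contra hc
    rw [not_le] at hc
    nlinarith
  set S := (Icc 1 ⌊P2⌋₊).filter fun p : ℕ => p.Prime ∧ y ≤ (p : ℝ) with hSdef
  have hS : ∀ p ∈ S, p.Prime ∧ y ≤ (p : ℝ) ∧ (p : ℝ) ≤ P2 := fun p hp => by
    obtain ⟨h1, h2, h3⟩ := mem_filter.mp hp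
    exact ⟨h2, h3, (Nat.le_floor_iff hP20).mp (mem_Icc.mp h1).2⟩
  have hj : ∀ p : ℕ, ∃ j : ℕ, p ∈ S → y * (1 + γ) ^ j ≤ p ∧
      (p : ℝ) < y * (1 + γ) ^ j * (1 + γ) := by
    intro p
    by_cases hp : p ∈ S
    · have h1 : 1 ≤ (p : ℝ) / y := by
        rw [le_div_iff₀ (by linarith)]
        linarith [(hS p hp).2.1]
      obtain ⟨j, j1, j2⟩ := exists_nat_pow_near h1 (show 1 < 1 + γ by linarith)
      refine ⟨j, fun _ => ⟨?_, ?_⟩⟩
      · rw [le_div_iff₀ (by linarith)] at j1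
        linarith
      · rw [div_lt_iff₀ (by linarith), pow_succ] at j2
        linarith
    · exact ⟨0, fun h => absurd h hp⟩
  choose jx hjx using hj
  set Pj : ℕ → ℝ := fun j => y * (1 + γ) ^ j with hPj
  have hPj1 : ∀ j, y ≤ Pj j := fun j =>
    le_mul_of_one_le_right (by linarith) (one_le_pow₀ (by linarith))
  have hPj0 : ∀ j, 0 < Pj j := fun j => by linarith [hPj1 j]
  set I := S.image jx with hI
  have hIP : ∀ j ∈ I, Pj j ≤ P2 := by
    intro j hj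
    obtain ⟨p, hp, rfl⟩ := mem_image.mp hj
    exact (hjx p hp).1.trans (hS p hp).2.2
  set R : ℕ → Finset ℕ := fun j => Ioc (bv_A x (Pj j)) (bv_B x X (Pj j) γ) with hR
  set V : ℕ → ℕ → ℝ := fun m p =>
    if m / p ∈ R (jx p) then B ⌈Pj (jx p)⌉₊ (m / p) * Θ m else 0 with hV
  set E := bv_E x X 1 0 P2 γ with hE
  have e0 : ∀ m ∈ Ioc x (x + X), bil y B m = ∑ p ∈ S.filter (fun p => p ∣ m), B p (m / p) := by
    intro m hm
    obtain ⟨m1, m2⟩ := mem_Ioc.mp hm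
    unfold bil
    symm
    refine sum_subset (fun p hp => ?_) (fun p hp hp' => ?_)
    · obtain ⟨h1, h2⟩ := mem_filter.mp hp
      exact mem_filter.mpr ⟨Nat.mem_primeFactors.mpr ⟨(hS p h1).1, h2, by omega⟩, (hS p h1).2.1⟩
    · obtain ⟨h1, h2⟩ := mem_filter.mp hp
      obtain ⟨h3, h4, _⟩ := Nat.mem_primeFactors.mp h1
      by_contra hne
      have h5 := (hB.supp _ _ hne).2
      have h6 : (p : ℝ) * (m / p : ℕ) = m := by exact_mod_cast Nat.mul_div_cancel' h4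
      have h7 : (m : ℝ) ≤ x + X := by exact_mod_cast m2
      have h8 : (p : ℝ) * y ≤ P2 * y :=
        (mul_le_mul_of_nonneg_left h5 (Nat.cast_nonneg p)).trans (by linarith)
      exact hp' (mem_filter.mpr ⟨mem_filter.mpr ⟨mem_Icc.mpr ⟨h3.one_le,
        Nat.le_floor (le_of_mul_le_mul_right h8 (by linarith))⟩, h3, h2⟩, h4⟩)
  have e1 : ∑ m ∈ Ioc x (x + X), ∑ p ∈ S.filter (fun p => p ∣ m), V m p =
      ∑ j ∈ I, ∑ p ∈ S.filter (fun p => jx p = j), ∑ r ∈ R j, B ⌈Pj j⌉₊ r * Θ (p * r) := by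
    simp only [sum_filter (fun p => p ∣ _)]
    rw [sum_comm, ← sum_fiberwise_of_maps_to (s := S) (t := I) (g := jx)
      (fun p hp => mem_image_of_mem jx hp)]
    refine sum_congr rfl fun j _ => sum_congr rfl fun p hp => ?_
    obtain ⟨h1, rfl⟩ := mem_filter.mp hp
    exact btx_swap (hS p h1).1.pos _ _ (fun r hr => btx_in (hPj0 _) hγ (hjx p h1).1
      (hjx p h1).2.le hr) fun r m => B ⌈Pj (jx p)⌉₊ r * Θ m
  have e2 : ∀ m ∈ Ioc x (x + X), ∀ p ∈ S.filter (fun p => p ∣ m),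
      |B p (m / p) * Θ m - V m p| ≤ Bd * (γ + if m ∈ E then 1 else 0) := by
    intro m hm p hp
    obtain ⟨h1, h2⟩ := mem_filter.mp hp
    obtain ⟨k1, k2⟩ := hjx p h1
    have hi : (0 : ℝ) ≤ if m ∈ E then 1 else 0 := by split_ifs <;> norm_num
    simp only [hV]
    by_cases hr : m / p ∈ R (jx p)
    · rw [if_pos hr, ← sub_mul, abs_mul, mul_comm, abs_sub_comm]
      refine mul_le_mul (hΘ m hm) ?_ (abs_nonneg _) hBd
      have c1 : Pj (jx p) ≤ ⌈Pj (jx p)⌉₊ := Nat.le_ceil _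
      have c0 := hPj0 (jx p)
      have c2 := hB.lip ⌈Pj (jx p)⌉₊ p (m / p) (Nat.one_le_ceil_iff.mpr c0) (Nat.ceil_le.mpr k1)
      have c3 : (p : ℝ) ≤ ⌈Pj (jx p)⌉₊ * (1 + γ) := k2.le.trans (by gcongr)
      have c4 := Real.log_le_log (c0.trans_le k1) c3
      rw [Real.log_mul (by linarith) (by linarith)] at c4
      have c5 := Real.log_le_sub_one_of_pos (show 0 < 1 + γ by linarith)
      linarith
    · have c1 := btx_out hX (hPj0 _) hγ k1 k2.le (hS p h1).2.2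
        (by rwa [Nat.mul_div_cancel' h2]) hr
      rw [Nat.mul_div_cancel' h2] at c1
      rw [if_neg hr, if_pos c1, sub_zero, abs_mul, mul_comm]
      exact mul_le_mul (hΘ m hm) ((hB.bd _ _).trans (by linarith)) (abs_nonneg _) hBd
  have e3 : |∑ m ∈ Ioc x (x + X), ∑ p ∈ S.filter (fun p => p ∣ m), (B p (m / p) * Θ m - V m p)| ≤
      Bd * G * (4 * γ * x + P2 + 4) := by
    refine (abs_sum_le_sum_abs _ _).trans ((sum_le_sum (g := fun m =>
      G * (Bd * (γ + if m ∈ E then 1 else 0))) fun m hm => ?_).trans ?_)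
    · refine (abs_sum_le_sum_abs _ _).trans ((sum_le_sum (e2 m hm)).trans ?_)
      obtain ⟨m1, m2⟩ := mem_Ioc.mp hm
      have h7 : (m : ℝ) ≤ x + X := by exact_mod_cast m2
      have hi : (0 : ℝ) ≤ if m ∈ E then 1 else 0 := by split_ifs <;> norm_num
      rw [sum_const, nsmul_eq_mul]
      exact mul_le_mul_of_nonneg_right ((card_sqf_dvd (by omega) S fun p hp =>
        (hS p hp).1.prime.squarefree).trans (hG.pow m (by omega) (by linarith))) (by positivity)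
    · have c1 := bv_edge le_rfl x X 0 hP20 hγ
      have c2 : (((Ioc x (x + X)).filter fun m => m ∈ E).card : ℝ) ≤ E.card :=
        Nat.cast_le.mpr (card_le_card fun m hm => (mem_filter.mp hm).2)
      rw [← mul_sum, ← mul_sum, sum_add_distrib, sum_boole, sum_const, Nat.card_Ioc,
        add_tsub_cancel_left, nsmul_eq_mul, ← mul_assoc, mul_comm G]
      refine mul_le_mul_of_nonneg_left ?_ (by positivity)
      have c3 := mul_le_mul_of_nonneg_right hX' hγ.le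
      rw [Nat.cast_one, div_one, mul_one] at c1
      linarith
  set Z := √(X * P2) + X / √(γ * y) + Q * √(X / γ) with hZ
  have hZ0 : 0 ≤ Z := by positivity
  have b1 : ∀ j ∈ I, |∑ p ∈ S.filter (fun p => jx p = j), ∑ r ∈ R j, B ⌈Pj j⌉₊ r * Θ (p * r)| ≤
      γ * (6 * α * X + 2 * β * Z) := by
    intro j hj
    have hγj : 1 ≤ γ * Pj j := hγy.trans (mul_le_mul_of_nonneg_left (hPj1 j) hγ.le)
    have hJ : S.filter (fun p => jx p = j) ⊆
        Ico ⌈Pj j⌉₊ (⌈Pj j⌉₊ + (⌊γ * Pj j⌋₊ + 1)) := by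
      intro p hp
      obtain ⟨hp1, rfl⟩ := mem_filter.mp hp
      obtain ⟨k1, k2⟩ := hjx p hp1
      refine mem_Ico.mpr ⟨Nat.ceil_le.mpr k1, ?_⟩
      have k3 := Nat.le_ceil (Pj (jx p))
      have k4 := Nat.lt_floor_add_one (γ * Pj (jx p))
      have k5 : (p : ℝ) < Pj (jx p) * (1 + γ) := k2
      have : (p : ℝ) < ⌈Pj (jx p)⌉₊ + (⌊γ * Pj (jx p)⌋₊ + 1) := by nlinarith
      exact_mod_cast this
    refine (hbox _ _ _ _ _ (B ⌈Pj j⌉₊) hJ (fun p hp => ⟨(hS p (mem_filter.mp hp).1).1,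
      (hS p (mem_filter.mp hp).1).2.1⟩) (bv_AB x X (Pj j) γ) (hB.bd _)
      (fun r hr => (hB.supp _ r hr).1) fun p hp r hr => ?_).trans ?_
    · obtain ⟨hp1, rfl⟩ := mem_filter.mp hp
      exact btx_in (hPj0 _) hγ (hjx p hp1).1 (hjx p hp1).2.le hr
    refine btx_num hX0 hQ (by linarith) (hPj1 j) (hIP j hj) hγ (Nat.cast_nonneg _) ?_ ?_ ?_
      hα hβ hD hDy hDP
    · have := Nat.floor_le (show 0 ≤ γ * Pj j by linarith)
      push_cast
      linarith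
    · have : (bv_A x (Pj j) : ℝ) ≤ bv_B x X (Pj j) γ := Nat.cast_le.mpr (bv_AB x X (Pj j) γ)
      linarith
    · refine bv_len (hPj0 j) hγ le_rfl ?_
      exact le_mul_of_one_le_right (hPj0 j).le (by linarith)
  have b2 : |∑ m ∈ Ioc x (x + X), ∑ p ∈ S.filter (fun p => p ∣ m), V m p| ≤
      12 * α * X * (1 + Real.log Y) + 4 * β * G * Z := by
    rw [e1]
    refine (abs_sum_le_sum_abs _ _).trans ((sum_le_sum b1).trans ?_)
    rw [sum_const, nsmul_eq_mul, ← mul_assoc]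
    have hc := btx_count hG.one_le hy1 hγ hγ1 I fun j hj => (hIP j hj).trans hP2Y
    have c1 := mul_le_mul_of_nonneg_right hc (show 0 ≤ 6 * α * X + 2 * β * Z by positivity)
    have c2 := mul_le_mul_of_nonneg_right hG.log (show 0 ≤ β * Z by positivity)
    linarith
  have e5 : ∑ m ∈ Ioc x (x + X), bil y B m * Θ m =
      ∑ m ∈ Ioc x (x + X), ∑ p ∈ S.filter (fun p => p ∣ m), V m p +
        ∑ m ∈ Ioc x (x + X), ∑ p ∈ S.filter (fun p => p ∣ m), (B p (m / p) * Θ m - V m p) := by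
    rw [← sum_add_distrib]
    refine sum_congr rfl fun m hm => ?_
    rw [e0 m hm, sum_mul, sum_sub_distrib]
    ring
  rw [e5]
  exact (abs_add_le _ _).trans (add_le_add b2 e3)

end Pool.Agent.Lib.MP_c03ca8_nt.P3
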