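import Pool.Agent.Lib.MP_c03ca8_nt.P3.ChB

set_option autoImplicit false

noncomputable section

namespace Pool.Agent.Lib.MP_c03ca8_nt.P3

open Finset Real Pool.Agent.Lib.MP_c03ca8_nt.Q

theorem exg_swap {σ : Type} (S : Finset σ) (J R : Finset ℕ) (b : ℕ → ℝ) (c : σ → ℝ)
    (F : σ → ℕ → ℕ → ℝ) :
    ∑ p ∈ J, ∑ r ∈ R, b r * ∑ s ∈ S, c s * F s p r =
      ∑ s ∈ S, c s * ∑ p ∈ J, ∑ r ∈ R, b r * F s p r := by
  simp only [mul_sum]
  rw [sum_congr rfl fun p _ => sum_comm, sum_comm]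
  exact sum_congr rfl fun s _ => sum_congr rfl fun p _ => sum_congr rfl fun r _ => by ring

theorem exg_abs {σ : Type} (S : Finset σ) (c F G : σ → ℝ) (h : ∀ s ∈ S, |F s| ≤ G s) :
    |∑ s ∈ S, c s * F s| ≤ ∑ s ∈ S, |c s| * G s :=
  (abs_sum_le_sum_abs _ _).trans (sum_le_sum fun s hs => by
    rw [abs_mul]
    exact mul_le_mul_of_nonneg_left (h s hs) (abs_nonneg _))

theorem exg_one {ι : Type} (A : Finset ι) (U : Finset ℕ) {W a : ℕ} (hW : 1 ≤ W)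
    (ha : Nat.Coprime a W) (hU : ∀ q ∈ U, q.Prime ∧ Nat.Coprime W q) (u : ι → ℕ) (v : ℕ)
    (huv : ∀ q ∈ U, ∀ l ∈ A, ¬ u l ≡ v [MOD q]) (e : ℕ → ι → ℝ) (J R : Finset ℕ) (b : ℕ → ℝ)
    (hb : ∀ p ∈ J, ∀ r ∈ R, b r ≠ 0 → Nat.Coprime (p * r) W) :
    |∑ p ∈ J, ∑ r ∈ R, b r * ((if p * r ≡ a [MOD W] then 1 else 0) *
        ∏ q ∈ U, ∑ l ∈ A, e q l * xi q (u l) v (p * r))| ≤
      (∏ q ∈ U, ∑ l ∈ A, |e q l|) *
        (1 / (Nat.totient W : ℝ) * wt U * ∑ c ∈ W.divisors, Xi J R b (c * pr U)) := by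
  classical
  let w : (∀ q ∈ U, ι) → ℕ → ℕ := fun f q => if h : q ∈ U then u (f q h) else 0
  have h1 : ∀ (m : ℕ) (t : ℝ), t * ∏ q ∈ U, ∑ l ∈ A, e q l * xi q (u l) v m =
      ∑ f ∈ U.pi (fun _ => A), (∏ x ∈ U.attach, e x.1 (f x.1 x.2)) *
        (t * ∏ q ∈ U, xi q (w f q) v m) := by
    intro m t
    rw [prod_sum, mul_sum]
    refine sum_congr rfl fun f _ => ?_
    rw [prod_mul_distrib, mul_left_comm, ← prod_attach U fun q => xi q (w f q) v m]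
    congr 2
    exact prod_congr rfl fun x _ => by simp only [w, dif_pos x.2]
  simp only [h1]
  rw [exg_swap, prod_sum, sum_mul]
  refine (exg_abs _ _ _ (fun _ => 1 / (Nat.totient W : ℝ) * wt U *
    ∑ c ∈ W.divisors, Xi J R b (c * pr U)) fun f hf => ?_).trans (le_of_eq ?_)
  · refine xi_bil hW ha U hU (w f) (fun _ => v) (fun q hq => ?_) J R b hb
    simp only [w, dif_pos hq]
    exact huv q hq _ (mem_pi.1 hf q hq)
  · exact sum_congr rfl fun f _ => by rw [abs_prod]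

/-- General form, for any finite family of local factors. `Finset.prod_add` writes
`∏ (mu + nu)` as a sum over `U ⊆ P`; `U = ∅` gives the subtracted term. For `U ≠ ∅` and fixed `T`
expand `∏ q ∈ U, ∑ l ∈ A, e * xi` over the maps `U → A` (`Finset.prod_sum`), apply `xi_bil` to
each map, and fold the sum of `∏ |e|` back into `∏ q ∈ U, ∑ l ∈ A, |e T q l|`. -/
theorem loc_bil {τ ι : Type} (𝒯 : Finset τ) (A : Finset ι) (P : Finset ℕ) {W a : ℕ} (hW : 1 ≤ W)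
    (ha : Nat.Coprime a W) (hP : ∀ q ∈ P, q.Prime ∧ Nat.Coprime W q) (u : ι → ℕ) (v : ℕ)
    (huv : ∀ q ∈ P, ∀ l ∈ A, ¬ u l ≡ v [MOD q]) (Z : τ → ℝ) (μ : τ → ℕ → ℝ)
    (e : τ → ℕ → ι → ℝ) (J R : Finset ℕ) (b : ℕ → ℝ)
    (hb : ∀ p ∈ J, ∀ r ∈ R, b r ≠ 0 → Nat.Coprime (p * r) W) :
    |∑ p ∈ J, ∑ r ∈ R, b r * (if p * r ≡ a [MOD W] then
        ∑ T ∈ 𝒯, Z T * ∏ q ∈ P, (μ T q + ∑ l ∈ A, e T q l * xi q (u l) v (p * r)) -
          ∑ T ∈ 𝒯, Z T * ∏ q ∈ P, μ T q else 0)| ≤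
      1 / (Nat.totient W : ℝ) * ∑ U ∈ P.powerset.filter (fun U => U ≠ ∅),
        (wt U * ∑ T ∈ 𝒯, |Z T| * ((∏ q ∈ U, ∑ l ∈ A, |e T q l|) * ∏ q ∈ P \ U, |μ T q|)) *
          ∑ c ∈ W.divisors, Xi J R b (c * pr U) := by
  have h1 : ∀ m : ℕ, (if m ≡ a [MOD W] then
        ∑ T ∈ 𝒯, Z T * ∏ q ∈ P, (μ T q + ∑ l ∈ A, e T q l * xi q (u l) v m) -
          ∑ T ∈ 𝒯, Z T * ∏ q ∈ P, μ T q else 0) =
      ∑ s ∈ P.powerset.filter (fun U => U ≠ ∅) ×ˢ 𝒯, (Z s.2 * ∏ q ∈ P \ s.1, μ s.2 q) *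
        ((if m ≡ a [MOD W] then 1 else 0) *
          ∏ q ∈ s.1, ∑ l ∈ A, e s.2 q l * xi q (u l) v m) := by
    intro m
    split_ifs
    · rw [sum_product_right, ← sum_sub_distrib]
      refine sum_congr rfl fun T _ => ?_
      rw [prod_congr rfl fun q _ => add_comm (μ T q) _, prod_add,
        ← add_sum_erase _ _ (empty_mem_powerset P), prod_empty, sdiff_empty, one_mul, mul_add,
        add_sub_cancel_left, filter_ne', mul_sum]
      exact sum_congr rfl fun U _ => by ring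
    · simp
  simp only [h1]
  rw [exg_swap]
  refine (exg_abs _ _ _ (fun s => (∏ q ∈ s.1, ∑ l ∈ A, |e s.2 q l|) *
    (1 / (Nat.totient W : ℝ) * wt s.1 * ∑ c ∈ W.divisors, Xi J R b (c * pr s.1)))
    fun s hs => ?_).trans (le_of_eq ?_)
  · have hs' : s.1 ⊆ P := mem_powerset.1 (mem_filter.1 (mem_product.1 hs).1).1
    exact exg_one A s.1 hW ha (fun q hq => hP q (hs' hq)) u v (fun q hq => huv q (hs' hq))
      (e s.2) J R b hb
  · rw [sum_product, mul_sum]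
    refine sum_congr rfl fun U _ => ?_
    rw [mul_sum 𝒯, sum_mul, mul_sum 𝒯]
    refine sum_congr rfl fun T _ => ?_
    rw [abs_mul, abs_prod]
    ring

end Pool.Agent.Lib.MP_c03ca8_nt.P3
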