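import Pool.Agent.Lib.MP_c03ca8_nt.P3.Defs

set_option autoImplicit false

noncomputable section

namespace Pool.Agent.Lib.MP_c03ca8_nt.P3

open Finset Real Pool.Agent.Lib.MP_c03ca8_nt.Q

theorem exc_small {K : ℝ} {w : ℕ} (hK : 0 ≤ K) (hKw : K ≤ w) (hw : 1 ≤ w) {U : Finset ℕ}
    (hU : ∀ q ∈ U, w < q) (h0 : U ≠ ∅) : ∏ q ∈ U, K / (q : ℝ) ≤ K / w := by
  classical
  have hw0 : (0 : ℝ) < w := by exact_mod_cast hw
  have h1 : ∀ q ∈ U, K / (q : ℝ) ≤ K / w := fun q hq =>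
    div_le_div_of_nonneg_left hK hw0 (by exact_mod_cast (hU q hq).le)
  obtain ⟨q, hq⟩ := nonempty_iff_ne_empty.2 h0
  rw [← mul_prod_erase U _ hq]
  refine (mul_le_of_le_one_right (by positivity) ?_).trans (h1 q hq)
  exact prod_le_one (fun _ _ => by positivity) fun x hx =>
    (h1 x (mem_of_mem_erase hx)).trans ((div_le_one hw0).2 hKw)

theorem exc_big {Y G K : ℝ} (hG : Tame Y G) {j : ℕ} (hK : 0 ≤ K) (hKj : K ≤ 2 ^ j)
    {U : Finset ℕ} (hU : ∀ q ∈ U, q.Prime) (hY : (pr U : ℝ) ≤ Y) {c W : ℕ} (h0 : 0 < c)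
    (h1 : c ≤ W) :
    ∏ q ∈ U, K / (q : ℝ) ≤ G ^ j * W * (1 / (Nat.totient (c * pr U) : ℝ)) := by
  have p0 := pr_pos hU
  have p1 : (0 : ℝ) < pr U := by exact_mod_cast p0
  have t0 : (0 : ℝ) < Nat.totient (c * pr U) := by
    exact_mod_cast Nat.totient_pos.2 (Nat.mul_pos h0 p0)
  have t1 : (Nat.totient (c * pr U) : ℝ) ≤ W * pr U := by
    exact_mod_cast (Nat.totient_le _).trans (Nat.mul_le_mul_right _ h1)
  have k1 : K ^ U.card ≤ G ^ j := by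
    refine (pow_le_pow_left₀ hK hKj _).trans ?_
    rw [← pow_mul, mul_comm, pow_mul]
    exact pow_le_pow_left₀ (by positivity) (expand_pow_le hG hU hY) j
  have e : ∏ q ∈ U, K / (q : ℝ) = K ^ U.card / pr U := by
    rw [prod_div_distrib, prod_const, pr, Nat.cast_prod]
  rw [e, mul_one_div, div_le_div_iff₀ p1 t0, mul_assoc]
  exact mul_le_mul k1 t1 t0.le ((pow_nonneg hK _).trans k1)

theorem exc_gcd {W c : ℕ} {U : Finset ℕ} (hU : ∀ q ∈ U, Nat.Coprime W q) (hc : c ∣ W) :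
    Nat.gcd (c * pr U) W = c := by
  have h : Nat.Coprime (pr U) W := Nat.Coprime.prod_left fun q hq => (hU q hq).symm
  rw [h.gcd_mul_right_cancel, Nat.gcd_eq_left hc]

/-- The map `(c, U) ↦ c * pr U` is injective (`W` is coprime to the primes of `P`). If
`pr U ≤ F0` then `∏ K / q ≤ K / w` (all factors are at most `K / w ≤ 1`, `U ≠ ∅`). Otherwise
`∏ K / q = K ^ |U| / pr U ≤ G ^ j / pr U ≤ G ^ j W / k ≤ G ^ j W / φ k` with `k = c * pr U > F0`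
(`expand_pow_le`). -/
theorem split_cond {Y G K : ℝ} (hG : Tame Y G) {j w : ℕ} (hK : 0 ≤ K) (hKj : K ≤ 2 ^ j)
    (hKw : K ≤ w) (hw : 1 ≤ w) (P : Finset ℕ) (hP : ∀ q ∈ P, q.Prime ∧ w < q) {W Q F0 : ℕ}
    (hW : 1 ≤ W) (hc : ∀ q ∈ P, Nat.Coprime W q) (hQ : (Q : ℝ) ≤ Y) (ξ : ℕ → ℝ)
    (hξ : ∀ k, 0 ≤ ξ k) :
    ∑ U ∈ P.powerset.filter (fun U => U ≠ ∅ ∧ pr U ≤ Q),
        (∏ q ∈ U, K / (q : ℝ)) * ∑ c ∈ W.divisors, ξ (c * pr U) ≤
      K / w * ∑ k ∈ Icc 1 (W * F0), ξ k +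
        G ^ j * W * ∑ k ∈ (Icc 1 (W * Q)).filter (fun k : ℕ => (F0 : ℝ) < (k : ℝ)),
          1 / (Nat.totient k : ℝ) * ξ k := by
  classical
  have hG0 : (0 : ℝ) ≤ G := by linarith [hG.ten]
  have hw0 : (0 : ℝ) < w := by exact_mod_cast hw
  obtain ⟨φ, hφ⟩ : ∃ φ : ℕ → ℝ, φ = fun k => (if k ≤ W * F0 then K / w * ξ k else 0) +
      if (F0 : ℝ) < (k : ℝ) then G ^ j * W * (1 / (Nat.totient k : ℝ) * ξ k) else 0 := ⟨_, rfl⟩
  have p1 : ∀ k, 0 ≤ if k ≤ W * F0 then K / w * ξ k else 0 := fun k => by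
    have := hξ k
    split_ifs <;> positivity
  have p2 : ∀ k : ℕ, 0 ≤
      if (F0 : ℝ) < (k : ℝ) then G ^ j * W * (1 / (Nat.totient k : ℝ) * ξ k) else 0 := fun k => by
    have := hξ k
    split_ifs <;> positivity
  have hU : ∀ U ∈ P.powerset.filter (fun U => U ≠ ∅ ∧ pr U ≤ Q), U ⊆ P ∧ U ≠ ∅ ∧ pr U ≤ Q :=
    fun U h => ⟨mem_powerset.1 (mem_filter.1 h).1, (mem_filter.1 h).2⟩
  have h1 : ∀ U ∈ P.powerset.filter (fun U => U ≠ ∅ ∧ pr U ≤ Q), ∀ c ∈ W.divisors,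
      (∏ q ∈ U, K / (q : ℝ)) * ξ (c * pr U) ≤ φ (c * pr U) := by
    intro U hU' c hc'
    obtain ⟨u1, u2, u3⟩ := hU U hU'
    have c1 : c ≤ W := Nat.divisor_le hc'
    have c2 : 0 < c := Nat.pos_of_mem_divisors hc'
    rw [hφ]
    dsimp only
    by_cases h : pr U ≤ F0
    · refine le_add_of_le_of_nonneg ?_ (p2 _)
      rw [if_pos (Nat.mul_le_mul c1 h)]
      exact mul_le_mul_of_nonneg_right
        (exc_small hK hKw hw (fun q hq => (hP q (u1 hq)).2) u2) (hξ _)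
    · refine le_add_of_nonneg_of_le (p1 _) ?_
      rw [if_pos (by exact_mod_cast (not_le.1 h).trans_le (Nat.le_mul_of_pos_left _ c2)),
        ← mul_assoc]
      exact mul_le_mul_of_nonneg_right (exc_big hG hK hKj (fun q hq => (hP q (u1 hq)).1)
        ((Nat.cast_le.2 u3).trans hQ) c2 c1) (hξ _)
  have hinj : Set.InjOn (fun x : Finset ℕ × ℕ => x.2 * pr x.1)
      ((P.powerset.filter (fun U => U ≠ ∅ ∧ pr U ≤ Q)) ×ˢ W.divisors : Finset (Finset ℕ × ℕ)) := by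
    rintro ⟨U, c⟩ hx ⟨U', c'⟩ hx' h
    obtain ⟨x1, x2⟩ := mem_product.1 (mem_coe.1 hx)
    obtain ⟨y1, y2⟩ := mem_product.1 (mem_coe.1 hx')
    have e1 := exc_gcd (fun q hq => hc q ((hU U x1).1 hq)) (Nat.dvd_of_mem_divisors x2)
    have e2 := exc_gcd (fun q hq => hc q ((hU U' y1).1 hq)) (Nat.dvd_of_mem_divisors y2)
    dsimp only at h e1 e2
    have e3 : c = c' := by rw [← e1, ← e2, h]
    subst e3
    have e4 := Nat.eq_of_mul_eq_mul_left (Nat.pos_of_mem_divisors x2) h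
    rw [← primeFactors_pr fun q hq => (hP q ((hU U x1).1 hq)).1, e4,
      primeFactors_pr fun q hq => (hP q ((hU U' y1).1 hq)).1]
  calc _ ≤ ∑ U ∈ P.powerset.filter (fun U => U ≠ ∅ ∧ pr U ≤ Q), ∑ c ∈ W.divisors,
        φ (c * pr U) := sum_le_sum fun U hU' => by
          rw [mul_sum]
          exact sum_le_sum (h1 U hU')
    _ = ∑ k ∈ ((P.powerset.filter (fun U => U ≠ ∅ ∧ pr U ≤ Q)) ×ˢ W.divisors).image
        (fun x : Finset ℕ × ℕ => x.2 * pr x.1), φ k := by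
          rw [sum_image hinj, sum_product]
    _ ≤ ∑ k ∈ Icc 1 (W * Q), φ k := by
          refine sum_le_sum_of_subset_of_nonneg (fun k hk => ?_) fun k _ _ => ?_
          · obtain ⟨⟨U, c⟩, hx, rfl⟩ := mem_image.1 hk
            obtain ⟨x1, x2⟩ := mem_product.1 hx
            exact mem_Icc.2 ⟨Nat.mul_pos (Nat.pos_of_mem_divisors x2)
              (pr_pos fun q hq => (hP q ((hU U x1).1 hq)).1),
              Nat.mul_le_mul (Nat.divisor_le x2) (hU U x1).2.2⟩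
          · rw [hφ]
            exact add_nonneg (p1 k) (p2 k)
    _ ≤ _ := by
          rw [hφ, sum_add_distrib, ← sum_filter, ← sum_filter, ← mul_sum, ← mul_sum]
          refine add_le_add (mul_le_mul_of_nonneg_left ?_ (by positivity)) le_rfl
          refine sum_le_sum_of_subset_of_nonneg (fun k hk => ?_) fun k _ _ => hξ k
          exact mem_Icc.2 ⟨(mem_Icc.1 (mem_filter.1 hk).1).1, (mem_filter.1 hk).2⟩

/-- `ls_bil` with the indicator of `J` and with `b`; `box_l2`. -/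
theorem large_cond {Y G : ℝ} (hG : Tame Y G) {Q F0 : ℕ} (hQ : (Q : ℝ) ≤ Y) (hF : 1 ≤ F0)
    (J : Finset ℕ) (P0 Δ A B : ℕ) (hJ : J ⊆ Ico P0 (P0 + Δ)) (hAB : A ≤ B) (b : ℕ → ℝ)
    (hb : ∀ r, |b r| ≤ 1) :
    ∑ k ∈ (Icc 1 Q).filter (fun k : ℕ => (F0 : ℝ) < (k : ℝ)),
        1 / (Nat.totient k : ℝ) * Xi J (Ioc A B) b k ≤
      G ^ 3 * (Δ * ((B : ℝ) - A) / F0 +
        √(Δ * ((B : ℝ) - A)) * (√Δ + √((B : ℝ) - A) + Q)) := by
  classical
  have h1 := ls_bil Q P0 Δ (A + 1) (B - A) (fun n => if n ∈ J then 1 else 0) (fun n => b n)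
    (C0 := F0) (by exact_mod_cast hF)
  have h2 := box_l2 P0 Δ (fun n => if n ∈ J then 1 else 0) zero_le_one fun n _ => by
    split_ifs <;> simp
  have h3 := box_l2 (A + 1) (B - A) (fun n => (b n : ℂ)) zero_le_one fun n _ => by
    rw [Complex.norm_real]
    exact hb n
  have e1 : Ico (A + 1) (A + 1 + (B - A)) = Ioc A B := by
    ext n
    rw [mem_Ico, mem_Ioc]
    omega
  have e2 : ∀ g : ℕ → ℂ, ∑ n ∈ Ico P0 (P0 + Δ), (if n ∈ J then 1 else 0) * g n = ∑ n ∈ J, g n :=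
    fun g => by
      simp only [ite_mul, one_mul, zero_mul]
      rw [sum_ite_mem, inter_eq_right.2 hJ]
  have h4 := mul_le_mul h2 h3 (Real.sqrt_nonneg _) (by positivity)
  rw [e1] at h1 h4
  rw [Nat.cast_sub hAB] at h1 h4
  simp only [e2] at h1
  have l0 : 0 ≤ 1 + Real.log Q := add_nonneg zero_le_one (Real.log_natCast_nonneg Q)
  have l1 : 1 + Real.log Q ≤ G := by
    rcases Nat.eq_zero_or_pos Q with rfl | hq
    · have := hG.ten
      simp only [Nat.cast_zero, Real.log_zero]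
      linarith
    · exact le_trans (add_le_add le_rfl (Real.log_le_log (by exact_mod_cast hq) hQ)) hG.log
  have l2 : 10 * (1 + Real.log Q) ^ 2 ≤ G ^ 3 := by
    rw [pow_succ' G]
    exact mul_le_mul hG.ten (pow_le_pow_left₀ l0 l1 2) (by positivity) (by linarith [hG.ten])
  have hBA : (0 : ℝ) ≤ (B : ℝ) - A := sub_nonneg.2 (by exact_mod_cast hAB)
  have g0 : (0 : ℝ) ≤ G ^ 3 := pow_nonneg (by linarith [hG.ten]) 3
  refine h1.trans ((mul_le_mul (mul_le_mul_of_nonneg_right l2 (by positivity)) h4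
    (by positivity) (by positivity)).trans (le_of_eq ?_))
  have e3 : √(Δ * ((B : ℝ) - A)) * √(Δ * ((B : ℝ) - A)) = Δ * ((B : ℝ) - A) :=
    Real.mul_self_sqrt (by positivity)
  rw [mul_one, mul_one, ← Real.sqrt_mul (Nat.cast_nonneg Δ)]
  linear_combination G ^ 3 / F0 * e3

end Pool.Agent.Lib.MP_c03ca8_nt.P3
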