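import Pool.Agent.Lib.MP_c03ca8_nt.P3.SlA

set_option autoImplicit false

noncomputable section

namespace Pool.Agent.Lib.MP_c03ca8_nt.P3

open Finset Real Pool.Agent.Lib.MP_c03ca8_nt.Q

theorem slb_one {Y G Z : ℝ} (hG : Tame Y G) {P : Finset ℕ} (hP : ∀ q ∈ P, q.Prime) (h1 : 1 ≤ Z)
    (hZ : Z * Z ≤ Y) (hg : 1 ≤ gs P Z) {C : ℕ} (hC : 1 ≤ C) {A B : ℕ} (hAB : A ≤ B) (f : ℕ → ℂ)
    (hf : ∀ n, f n ≠ 0 → Rough Z n) (hf1 : ∀ n, ‖f n‖ ≤ 1) :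
    ∑ k ∈ Icc 1 C, ∑ ψ ∈ prim k, ‖∑ n ∈ Ioc A B, f n * ψ n‖ ^ 2 ≤
      (((B : ℝ) - A + 2 * G ^ 8 * Z ^ 2 * (C : ℝ) ^ 4) / gs P Z) ^ 2 := by
  classical
  have h2 := sls hG hP h1 hZ hC hAB f hf
  have h3 := rough_count (Z := Z) hG hP A (B - A) 1 0 0 one_pos (fun q _ => Nat.coprime_one_left q)
    (by linarith) (by nlinarith) ((Ioc A B).filter fun n => f n ≠ 0) (fun n hn => by
      rw [mem_filter] at hn
      refine ⟨?_, hf n hn.2⟩
      rw [cls, mem_filter, Nat.add_sub_cancel' hAB]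
      exact ⟨hn.1, Nat.modEq_one⟩)
  have h4 : ∑ n ∈ Ioc A B, ‖f n‖ ^ 2 ≤ (((Ioc A B).filter fun n => f n ≠ 0).card : ℝ) := by
    rw [card_filter, Nat.cast_sum]
    refine sum_le_sum fun n _ => ?_
    split_ifs with h
    · simpa using hf1 n
    · simp [not_not.1 h]
  rw [Nat.cast_sub hAB, Nat.cast_one, div_one] at h3
  have hl : (0 : ℝ) ≤ (B : ℝ) - A := sub_nonneg.2 (Nat.cast_le.2 hAB)
  have hC' : (1 : ℝ) ≤ (C : ℝ) ^ 4 := one_le_pow₀ (by exact_mod_cast hC)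
  have hD : 0 ≤ G ^ 8 * Z ^ 2 := by positivity
  generalize ∑ k ∈ Icc 1 C, ∑ ψ ∈ prim k, ‖∑ n ∈ Ioc A B, f n * ψ n‖ ^ 2 = S at *
  generalize (((Ioc A B).filter fun n => f n ≠ 0).card : ℝ) = N at *
  generalize ∑ n ∈ Ioc A B, ‖f n‖ ^ 2 = N' at *
  generalize (B : ℝ) - A = l at *
  generalize gs P Z = g at *
  have hD' : G ^ 8 * Z ^ 2 ≤ 2 * G ^ 8 * Z ^ 2 * (C : ℝ) ^ 4 := by nlinarith
  generalize 2 * G ^ 8 * Z ^ 2 * (C : ℝ) ^ 4 = D at *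
  have hD0 : 0 ≤ D := hD.trans hD'
  have g0 : 0 < g := by linarith
  have h5 : 0 ≤ l * g + D := by positivity
  have h6 : l * g + D ≤ (l + D) * g := by nlinarith
  have h7 : N' * g ^ 2 ≤ (l + D) * g :=
    ((mul_le_mul_of_nonneg_right h4 (by positivity)).trans h3).trans (by linarith)
  rw [div_pow, le_div_iff₀ (by positivity)]
  refine le_of_mul_le_mul_right ?_ (pow_pos g0 2)
  calc S * g ^ 2 * g ^ 2 = g ^ 2 * S * g ^ 2 := by ring
    _ ≤ (l * g + D) * N' * g ^ 2 := mul_le_mul_of_nonneg_right h2 (by positivity)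
    _ = (l * g + D) * (N' * g ^ 2) := by ring
    _ ≤ (l * g + D) * ((l + D) * g) := mul_le_mul_of_nonneg_left h7 h5
    _ ≤ (l + D) * g * ((l + D) * g) := mul_le_mul_of_nonneg_right h6 (by positivity)
    _ = _ := by ring

/-- Take `P = PP 10 ⌈Z⌉₊`; `mass` with `w = 10`, `Y = 1` gives `g = gs P Z ≥ c log Z ≥ 1` for
large `Z`. Cauchy-Schwarz over the pairs `⟨k, ψ⟩`, `sls` for the indicator of `J` on
`Ioc (P0 - 1) (P0 - 1 + Δ)` (if `P0 = 0` use `Ioc 0 Δ`; primes are positive) and for `b`, and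
`rough_count` with `Q = 1` for the two supports: each factor is at most `(length + D) / g`. -/
theorem small_cond : ∃ c Z0 : ℝ, 0 < c ∧ 1 < Z0 ∧ ∀ {Y G Z : ℝ}, Tame Y G → Z0 ≤ Z → Z * Z ≤ Y →
    ∀ {C : ℕ}, 1 ≤ C → ∀ (J : Finset ℕ) (P0 Δ A B : ℕ) (b : ℕ → ℝ), J ⊆ Ico P0 (P0 + Δ) →
    (∀ p ∈ J, p.Prime ∧ Z ≤ (p : ℝ)) → A ≤ B → (∀ r, |b r| ≤ 1) → (∀ r, b r ≠ 0 → Rough Z r) →
    ∑ k ∈ Icc 1 C, Xi J (Ioc A B) b k ≤
      c / Real.log Z ^ 2 * ((Δ + 2 * G ^ 8 * Z ^ 2 * (C : ℝ) ^ 4) *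
        ((B : ℝ) - A + 2 * G ^ 8 * Z ^ 2 * (C : ℝ) ^ 4)) := by
  classical
  obtain ⟨B0, hB0, hm⟩ := mass 10 le_rfl
  have hc := cW_pos 10
  refine ⟨1 / (3 / 10 * cW 10) ^ 2, Real.exp ((B0 + 1) / (3 / 10 * cW 10)), by positivity,
    Real.one_lt_exp_iff.2 (by positivity), ?_⟩
  intro Y G Z hG hZ0 hZ C hC J P0 Δ A B b hJ hp hAB hb hr
  have h1 : 1 < Z := lt_of_lt_of_le (Real.one_lt_exp_iff.2 (by positivity)) hZ0
  have h2 : B0 + 1 ≤ 3 / 10 * cW 10 * Real.log Z := by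
    rw [mul_comm, ← div_le_iff₀ (by positivity)]
    exact (Real.le_log_iff_exp_le (by linarith)).2 hZ0
  set P := PP 10 ⌈Z⌉₊
  have hP : ∀ q ∈ P, q.Prime := fun q hq => Nat.prime_of_mem_primesLE (mem_filter.1 hq).1
  have h3 : 3 / 10 * cW 10 * Real.log Z + 1 ≤ gs P Z := by
    have h := (abs_le.1 (hm ⌈Z⌉₊ 1 Z le_rfl h1.le (Nat.le_ceil Z))).1
    rw [filter_congr (q := fun T => (pr T : ℝ) < Z) fun T hT => and_iff_right (by
      exact_mod_cast pr_pos fun q hq => hP q (mem_powerset.1 hT hq)), div_one] at h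
    unfold gs
    push_cast at h
    linarith
  have h4 : 1 ≤ gs P Z := by linarith
  have s1 := slb_one hG hP h1.le hZ h4 hC (Nat.le_add_right (P0 - 1) Δ)
    (fun n => if n ∈ J then 1 else 0)
    (fun n hn => rough_prime (hp n (by simpa using hn)).1 (hp n (by simpa using hn)).2)
    fun n => by split_ifs <;> simp
  have s2 := slb_one hG hP h1.le hZ h4 hC hAB (fun n => (b n : ℂ))
    (fun n hn => hr n (by simpa using hn)) fun n => by simpa using hb n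
  have e : J = (Ioc (P0 - 1) (P0 - 1 + Δ)).filter (· ∈ J) := by
    ext p
    refine ⟨fun h => mem_filter.2 ⟨?_, h⟩, fun h => (mem_filter.1 h).2⟩
    have := mem_Ico.1 (hJ h)
    have := (hp p h).1.two_le
    rw [mem_Ioc]
    omega
  simp only [ite_mul, one_mul, zero_mul, ← sum_filter, ← e] at s1
  rw [Nat.cast_add, add_sub_cancel_left] at s1
  have hl : (0 : ℝ) ≤ (B : ℝ) - A := sub_nonneg.2 (Nat.cast_le.2 hAB)
  have cs := sum_mul_sq_le_sq_mul_sq ((Icc 1 C).sigma prim) (fun x => ‖∑ p ∈ J, x.2 p‖)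
    fun x => ‖∑ r ∈ Ioc A B, (b r : ℂ) * x.2 r‖
  rw [sum_sigma, sum_sigma, sum_sigma] at cs
  have h5 := cs.trans (mul_le_mul s1 s2 (by positivity) (by positivity))
  rw [← mul_pow] at h5
  refine (abs_le_of_sq_le_sq' h5 (by positivity)).2.trans ?_
  have h6 : 0 < 3 / 10 * cW 10 * Real.log Z := by linarith
  rw [div_mul_div_comm, div_div, ← mul_pow, one_div, ← div_eq_inv_mul, ← sq]
  gcongr
  linarith

end Pool.Agent.Lib.MP_c03ca8_nt.P3
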