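import Pool.Agent.Lib.MP_c03ca8_nt.P3.MapA

set_option autoImplicit false

noncomputable section

namespace Pool.Agent.Lib.MP_c03ca8_nt.P3

open Finset Real Pool.Agent.Lib.MP_c03ca8_nt.Q

theorem mapb_nonneg (p : ℕ) : 0 ≤ Real.log p / p :=
  div_nonneg (Real.log_natCast_nonneg p) (Nat.cast_nonneg p)

theorem mapb_le_one (p : ℕ) : Real.log p / p ≤ 1 :=
  div_le_one_of_le₀ (Real.log_le_self (Nat.cast_nonneg p)) (Nat.cast_nonneg p)

theorem mapb_prime {Y Z : ℝ} {p : ℕ} (hp : p ∈ pI Y Z) : p.Prime := by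
  simp only [pI, mem_filter, Nat.mem_primesLE] at hp
  exact hp.1.2

theorem mapb_split {Y Z : ℝ} (h : Y ≤ Z) (f : ℕ → ℂ) : ∑ p ∈ pI Y Z, f p =
    ∑ p ∈ Nat.primesBelow ⌈Z⌉₊, f p - ∑ p ∈ Nat.primesBelow ⌈Y⌉₊, f p := by
  apply Complex.ext
  · simp only [Complex.sub_re, Complex.re_sum]
    exact mertens_split h fun p => (f p).re
  · simp only [Complex.sub_im, Complex.im_sum]
    exact mertens_split h fun p => (f p).im

theorem mapb_dvd {d : ℕ} (hd : 1 ≤ d) (S : Finset ℕ) (hS : ∀ p ∈ S, p.Prime ∧ p ∣ d) :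
    ∑ p ∈ S, Real.log p / p ≤ om d := by
  have h1 : S ⊆ d.primeFactors := fun p hp =>
    Nat.mem_primeFactors.2 ⟨(hS p hp).1, (hS p hp).2, by omega⟩
  calc ∑ p ∈ S, Real.log p / p ≤ ∑ p ∈ S, (1 : ℝ) := sum_le_sum fun p _ => mapb_le_one p
    _ = S.card := by simp
    _ ≤ om d := by exact_mod_cast card_le_card h1

open Classical in
theorem mapb_char {W : ℕ} (hW : 1 ≤ W) (χ : DirichletCharacter ℂ W) :
    ∃ C : ℝ, 0 ≤ C ∧ ∀ Y Z : ℝ, 1 ≤ Y → Y ≤ Z →
      ‖∑ p ∈ pI Y Z, χ p * ((Real.log p / p : ℝ) : ℂ) -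
        (if χ = 1 then ((Real.log (Z / Y) : ℝ) : ℂ) else 0)‖ ≤ C := by
  by_cases hχ : χ = 1
  · obtain ⟨C, hC0, hC⟩ := mertens1
    refine ⟨C + om W, by positivity, fun Y Z hY hYZ => ?_⟩
    have h1 : ∑ p ∈ pI Y Z, χ p * ((Real.log p / p : ℝ) : ℂ) =
        ((∑ p ∈ (pI Y Z).filter (fun p => Nat.Coprime p W), Real.log p / p : ℝ) : ℂ) := by
      rw [sum_filter, Complex.ofReal_sum]
      refine sum_congr rfl fun p _ => ?_
      rw [hχ, boxa_one_apply]
      split_ifs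
      · rw [one_mul]
      · rw [zero_mul, Complex.ofReal_zero]
    rw [if_pos hχ, h1, ← Complex.ofReal_sub, Complex.norm_real, Real.norm_eq_abs]
    have h2 := sum_filter_add_sum_filter_not (pI Y Z) (fun p => Nat.Coprime p W)
      (fun p : ℕ => Real.log p / p)
    have h3 := mapb_dvd hW ((pI Y Z).filter (fun p => ¬ Nat.Coprime p W)) fun p hp => by
      have h4 := mem_filter.1 hp
      have h5 := mapb_prime h4.1
      exact ⟨h5, (Nat.Prime.dvd_iff_not_coprime h5).2 h4.2⟩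
    have h4 : 0 ≤ ∑ p ∈ (pI Y Z).filter (fun p => ¬ Nat.Coprime p W), Real.log p / p :=
      sum_nonneg fun p _ => mapb_nonneg p
    have h5 := abs_le.1 (hC Y Z hY hYZ)
    have h6 : (0 : ℝ) ≤ om W := Nat.cast_nonneg _
    rw [abs_le]
    constructor <;> linarith [h5.1, h5.2]
  · obtain ⟨C, hC⟩ := mertens_char hW χ hχ
    have hC0 : 0 ≤ C := (norm_nonneg _).trans (hC 0)
    refine ⟨C + C, by positivity, fun Y Z hY hYZ => ?_⟩
    rw [if_neg hχ, sub_zero, mapb_split hYZ]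
    exact (norm_sub_le _ _).trans (add_le_add (hC _) (hC _))

/-- `char_orth`, `mertens_split`, `mertens_char` for the finitely many `χ ≠ 1`; the trivial
character gives `mertens1` up to the primes of `W` (`boxa_one_apply`, `log p / p ≤ 1`). -/
theorem mertens_ap {W : ℕ} (hW : 1 ≤ W) : ∃ C : ℝ, 0 ≤ C ∧ ∀ a : ℕ, Nat.Coprime a W →
    ∀ Y Z : ℝ, 1 ≤ Y → Y ≤ Z →
    |∑ p ∈ (pI Y Z).filter (fun p => p ≡ a [MOD W]), Real.log p / p -
      Real.log (Z / Y) / Nat.totient W| ≤ C := by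
  classical
  have : NeZero W := ⟨by omega⟩
  choose C hC0 hC using mapb_char hW
  refine ⟨∑ χ, C χ, sum_nonneg fun χ _ => hC0 χ, fun a ha Y Z hY hYZ => ?_⟩
  have ht : 0 < Nat.totient W := Nat.totient_pos.2 (by omega)
  have hu : IsUnit (a : ZMod W) := (ZMod.isUnit_iff_coprime a W).2 ha
  have hu2 : IsUnit (a : ZMod W)⁻¹ :=
    IsUnit.of_mul_eq_one (a : ZMod W) (ZMod.inv_mul_of_unit _ hu)
  have h1 : ((∑ p ∈ (pI Y Z).filter (fun p => p ≡ a [MOD W]), Real.log p / p : ℝ) : ℂ) =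
      1 / (Nat.totient W : ℂ) * ∑ χ : DirichletCharacter ℂ W, χ (a : ZMod W)⁻¹ *
        ∑ p ∈ pI Y Z, χ p * ((Real.log p / p : ℝ) : ℂ) := by
    rw [sum_filter, Complex.ofReal_sum]
    have h2 : ∀ p : ℕ, ((if p ≡ a [MOD W] then Real.log p / p else 0 : ℝ) : ℂ) =
        1 / (Nat.totient W : ℂ) * ∑ χ : DirichletCharacter ℂ W,
          χ (a : ZMod W)⁻¹ * (χ p * ((Real.log p / p : ℝ) : ℂ)) := by
      intro p
      have h3 : ((if p ≡ a [MOD W] then Real.log p / p else 0 : ℝ) : ℂ) =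
          (if p ≡ a [MOD W] then (1 : ℂ) else 0) * ((Real.log p / p : ℝ) : ℂ) := by
        split_ifs
        · rw [one_mul]
        · rw [zero_mul, Complex.ofReal_zero]
      rw [h3, char_orth hW ha, mul_assoc, sum_mul]
      simp only [mul_assoc]
    simp only [h2]
    rw [← mul_sum, sum_comm]
    simp only [mul_sum]
  have h2 : ((Real.log (Z / Y) / Nat.totient W : ℝ) : ℂ) =
      1 / (Nat.totient W : ℂ) * ∑ χ : DirichletCharacter ℂ W, χ (a : ZMod W)⁻¹ *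
        (if χ = 1 then ((Real.log (Z / Y) : ℝ) : ℂ) else 0) := by
    rw [sum_eq_single (1 : DirichletCharacter ℂ W)]
    · rw [if_pos rfl, MulChar.one_apply hu2, Complex.ofReal_div, Complex.ofReal_natCast]
      ring
    · intro χ _ hχ
      rw [if_neg hχ, mul_zero]
    · intro h
      exact absurd (mem_univ _) h
  rw [← Real.norm_eq_abs, ← Complex.norm_real, Complex.ofReal_sub, h1, h2, ← mul_sub,
    ← sum_sub_distrib, norm_mul]
  have h3 : ‖1 / (Nat.totient W : ℂ)‖ ≤ 1 := by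
    rw [norm_div, norm_one, Complex.norm_natCast]
    exact div_le_one_of_le₀ (by exact_mod_cast ht) (Nat.cast_nonneg _)
  refine (mul_le_of_le_one_left (norm_nonneg _) h3).trans ((norm_sum_le _ _).trans ?_)
  refine sum_le_sum fun χ _ => ?_
  rw [← mul_sub, norm_mul]
  refine (mul_le_of_le_one_left (norm_nonneg _) (χ.norm_le_one _)).trans ?_
  have h4 := hC χ Y Z hY hYZ
  by_cases h5 : χ = 1
  · rw [if_pos h5] at h4 ⊢
    exact h4
  · rw [if_neg h5] at h4 ⊢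
    exact h4

/-- For `d` coprime to `W` the condition `d * q ≡ a` is one reduced class; at most `om d` primes
divide `d`, and `log q / q ≤ 1`. -/
theorem mertens_ap' {W : ℕ} (hW : 1 ≤ W) : ∃ C : ℝ, 0 ≤ C ∧ ∀ a d : ℕ, Nat.Coprime a W →
    Nat.Coprime d W → 1 ≤ d → ∀ Y Z : ℝ, 1 ≤ Y → Y ≤ Z →
    Real.log (Z / Y) / Nat.totient W - C - om d ≤
      ∑ q ∈ (pI Y Z).filter (fun q => d * q ≡ a [MOD W] ∧ ¬ q ∣ d), Real.log q / q := by
  have : NeZero W := ⟨by omega⟩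
  obtain ⟨C, hC0, hC⟩ := mertens_ap hW
  refine ⟨C, hC0, fun a d ha hd hd1 Y Z hY hYZ => ?_⟩
  have hu : IsUnit (a : ZMod W) := (ZMod.isUnit_iff_coprime a W).2 ha
  have hdu : IsUnit (d : ZMod W) := (ZMod.isUnit_iff_coprime d W).2 hd
  obtain ⟨b, hb⟩ : ∃ b : ℕ, (b : ZMod W) = (d : ZMod W)⁻¹ * a :=
    ⟨_, ZMod.natCast_zmod_val _⟩
  have hdb : (d : ZMod W) * b = a := by
    rw [hb, ← mul_assoc, ZMod.mul_inv_of_unit _ hdu, one_mul]
  have hbu : Nat.Coprime b W := by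
    rw [← ZMod.isUnit_iff_coprime]
    rw [← hdb] at hu
    exact isUnit_of_mul_isUnit_right hu
  have h1 := abs_le.1 (hC b hbu Y Z hY hYZ)
  have h2 := sum_filter_add_sum_filter_not ((pI Y Z).filter (fun p => p ≡ b [MOD W]))
    (fun p => p ∣ d) (fun p : ℕ => Real.log p / p)
  have h3 := mapb_dvd hd1 (((pI Y Z).filter (fun p => p ≡ b [MOD W])).filter (fun p => p ∣ d))
    fun p hp => ⟨mapb_prime (mem_filter.1 (mem_filter.1 hp).1).1, (mem_filter.1 hp).2⟩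
  have h4 : ∑ p ∈ ((pI Y Z).filter (fun p => p ≡ b [MOD W])).filter (fun p => ¬ p ∣ d),
      Real.log p / p ≤
      ∑ q ∈ (pI Y Z).filter (fun q => d * q ≡ a [MOD W] ∧ ¬ q ∣ d), Real.log q / q := by
    refine sum_le_sum_of_subset_of_nonneg (fun p hp => ?_) fun p _ _ => mapb_nonneg p
    have h5 := mem_filter.1 hp
    have h6 := mem_filter.1 h5.1
    refine mem_filter.2 ⟨h6.1, ?_, h5.2⟩
    rw [← ZMod.natCast_eq_natCast_iff, Nat.cast_mul, (ZMod.natCast_eq_natCast_iff _ _ _).2 h6.2,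
      hdb]
  linarith [h1.1]

end Pool.Agent.Lib.MP_c03ca8_nt.P3
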