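import Pool.Agent.Lib.MP_c03ca8_nt.P3.Basic

set_option autoImplicit false

noncomputable section

namespace Pool.Agent.Lib.MP_c03ca8_nt.P3

open Finset Real Pool.Agent.Lib.MP_c03ca8_nt.Q

theorem rep_inj {α β : Type} {S : Finset α} {T : Finset β} {f : α → ℝ} {g : β → ℝ} (φ : α → β)
    (hφ : Set.InjOn φ S) (hm : ∀ k ∈ S, φ k ∈ T) (h : ∀ k ∈ S, f k ≤ g (φ k))
    (hg : ∀ j ∈ T, 0 ≤ g j) : ∑ k ∈ S, f k ≤ ∑ j ∈ T, g j := by
  classical
  refine (sum_le_sum h).trans ?_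
  rw [← sum_image hφ]
  exact sum_le_sum_of_subset_of_nonneg (image_subset_iff.2 hm) fun j hj _ => hg j hj

/-- Downward strong induction on `x ∈ [y, Z]` (with `Ioc x Z`, `log (Z / x)`, `Ioc x (2 Z)` and the
fixed `1 / y`): the first tile gives `C X / x` with `X = ⌈γ x⌉₊`, `X / x ≤ 2 γ ≤ 1`, and
`t ≤ (1 + t) log (1 + t)`. -/
theorem tile {f g : ℕ → ℝ} (hf : ∀ n, 0 ≤ f n) (hg : ∀ n, 0 ≤ g n) {γ C : ℝ} (hγ : 0 < γ)
    (hγ2 : 2 * γ ≤ 1) (hC : 0 ≤ C) {y Z : ℕ} (hy : 1 ≤ γ * y) (hyZ : y ≤ Z)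
    (h : ∀ x : ℕ, y ≤ x → x ≤ Z → ∑ n ∈ Ioc x (x + ⌈γ * x⌉₊), f n ≤
      C * ⌈γ * x⌉₊ + ∑ n ∈ Ioc x (x + ⌈γ * x⌉₊), g n) :
    ∑ n ∈ Ioc y Z, f n / n ≤
      C * ((1 + 2 * γ) * Real.log (Z / y) + 2 * γ) + 1 / y * ∑ n ∈ Ioc y (2 * Z), g n := by
  have hy0 : (0 : ℝ) < y := pos_of_mul_pos_left (b := γ) (by linarith) hγ.le
  have key : ∀ k x : ℕ, Z - x = k → y ≤ x → x ≤ Z → ∑ n ∈ Ioc x Z, f n / n ≤
      C * ((1 + 2 * γ) * Real.log (Z / x) + 2 * γ) + 1 / y * ∑ n ∈ Ioc x (2 * Z), g n := by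
    intro k
    induction k using Nat.strong_induction_on with
    | _ k ih =>
      intro x hk h1 h2
      have h3 := h x h1 h2
      have hyx : (y : ℝ) ≤ x := by exact_mod_cast h1
      have hx0 : (0 : ℝ) < x := hy0.trans_le hyx
      have hγx : 1 ≤ γ * x := hy.trans (mul_le_mul_of_nonneg_left hyx hγ.le)
      have hX1 : (⌈γ * x⌉₊ : ℝ) ≤ 2 * γ * x := by
        linarith [Nat.ceil_lt_add_one (show 0 ≤ γ * x by positivity)]
      have hX0 : 0 < ⌈γ * x⌉₊ := Nat.ceil_pos.2 (by positivity)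
      generalize ⌈γ * x⌉₊ = X at h3 hX1 hX0
      have hXx : X ≤ x := by
        have : (X : ℝ) ≤ x := hX1.trans (mul_le_of_le_one_left hx0.le hγ2)
        exact_mod_cast this
      have ht : (X : ℝ) / x ≤ 2 * γ := (div_le_iff₀ hx0).2 hX1
      have h4 : ∑ n ∈ Ioc x (x + X), f n / n ≤
          C * (X / x) + 1 / y * ∑ n ∈ Ioc x (x + X), g n := by
        have e1 : ∑ n ∈ Ioc x (x + X), f n / n ≤ (∑ n ∈ Ioc x (x + X), f n) / x := by
          rw [sum_div]
          exact sum_le_sum fun n hn => div_le_div_of_nonneg_left (hf n) hx0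
            (by exact_mod_cast (mem_Ioc.1 hn).1.le)
        refine e1.trans ((div_le_div_of_nonneg_right h3 hx0.le).trans ?_)
        rw [add_div, mul_div_assoc, one_div_mul_eq_div]
        exact add_le_add le_rfl
          (div_le_div_of_nonneg_left (sum_nonneg fun n _ => hg n) hy0 hyx)
      rcases le_total Z (x + X) with h5 | h5
      · have e1 : ∑ n ∈ Ioc x Z, f n / n ≤ ∑ n ∈ Ioc x (x + X), f n / n :=
          sum_le_sum_of_subset_of_nonneg (Ioc_subset_Ioc_right h5) fun n _ _ =>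
            div_nonneg (hf n) (Nat.cast_nonneg n)
        have e2 : ∑ n ∈ Ioc x (x + X), g n ≤ ∑ n ∈ Ioc x (2 * Z), g n :=
          sum_le_sum_of_subset_of_nonneg (Ioc_subset_Ioc_right (by omega)) fun n _ _ => hg n
        have e3 : 0 ≤ (1 + 2 * γ) * Real.log (Z / x) := mul_nonneg (by positivity)
          (Real.log_nonneg ((one_le_div hx0).2 (by exact_mod_cast h2)))
        exact (e1.trans h4).trans (add_le_add (mul_le_mul_of_nonneg_left (by linarith) hC)
          (mul_le_mul_of_nonneg_left e2 (by positivity)))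
      · have e1 := ih (Z - (x + X)) (by omega) (x + X) rfl (by omega) h5
        rw [← sum_Ioc_consecutive _ (Nat.le_add_right x X) h5,
          ← sum_Ioc_consecutive g (Nat.le_add_right x X) (show x + X ≤ 2 * Z by omega)]
        have hZ : (0 : ℝ) < Z := hx0.trans_le (by exact_mod_cast h2)
        have hX : (0 : ℝ) ≤ X / x := by positivity
        have e2 : Real.log (Z / x) = Real.log (Z / (x + X : ℕ)) + Real.log (1 + X / x) := by
          rw [← Real.log_mul (by positivity) (by positivity)]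
          congr 1
          push_cast
          field_simp
        have e3 : (X : ℝ) / x ≤ (1 + X / x) * Real.log (1 + X / x) := by
          have := mul_le_mul_of_nonneg_left (Real.one_sub_inv_le_log_of_pos
            (show (0 : ℝ) < 1 + X / x by positivity)) (show (0 : ℝ) ≤ 1 + X / x by positivity)
          rw [mul_sub, mul_inv_cancel₀ (by positivity)] at this
          linarith
        have e4 : (X : ℝ) / x ≤ (1 + 2 * γ) * Real.log (1 + X / x) :=
          e3.trans (mul_le_mul_of_nonneg_right (by linarith) (Real.log_nonneg (by linarith)))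
        have e5 := mul_le_mul_of_nonneg_left e4 hC
        rw [e2]
        linarith
  exact key _ y rfl le_rfl hyZ

/-- The map `(d, q) ↦ (d * q, q)` is injective into the pairs `(m, q)` with `q` a prime of `m`,
and `∑ q ∣ m, log q ≤ log m` (`point_log_sum`). -/
theorem rep {ρ : ℕ → ℝ} (hρ : ∀ m, 0 ≤ ρ m) (Ms D : Finset ℕ) (Qs : ℕ → Finset ℕ) {Z : ℝ}
    (hM : ∀ m ∈ Ms, 1 ≤ m ∧ (m : ℝ) ≤ Z) (hQ : ∀ d ∈ D, ∀ q ∈ Qs d, q.Prime ∧ d * q ∈ Ms) :
    ∑ d ∈ D, ∑ q ∈ Qs d, ρ (d * q) / d * (Real.log q / q) ≤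
      Real.log Z * ∑ m ∈ Ms, ρ m / m := by
  have h1 : ∑ d ∈ D, ∑ q ∈ Qs d, ρ (d * q) / d * (Real.log q / q) ≤
      ∑ m ∈ Ms, ∑ q ∈ m.primeFactors, ρ m / m * Real.log q := by
    rw [sum_sigma', sum_sigma']
    refine rep_inj (fun x => ⟨x.1 * x.2, x.2⟩) (fun x hx x' _ e => ?_) (fun x hx => ?_)
      (fun x _ => le_of_eq ?_) fun x _ =>
        mul_nonneg (div_nonneg (hρ _) (Nat.cast_nonneg _)) (Real.log_natCast_nonneg _)
    · obtain ⟨d, q⟩ := x
      obtain ⟨d', q'⟩ := x'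
      rw [mem_coe, mem_sigma] at hx
      simp only [Sigma.mk.injEq, heq_eq_eq] at e ⊢
      obtain ⟨e1, rfl⟩ := e
      exact ⟨Nat.eq_of_mul_eq_mul_right (hQ d hx.1 q hx.2).1.pos e1, rfl⟩
    · rw [mem_sigma] at hx ⊢
      have h2 := hQ _ hx.1 _ hx.2
      exact ⟨h2.2, Nat.mem_primeFactors.2 ⟨h2.1, dvd_mul_left _ _,
        Nat.one_le_iff_ne_zero.1 (hM _ h2.2).1⟩⟩
    · push_cast
      ring
  refine h1.trans ?_
  rw [mul_sum]
  refine sum_le_sum fun m hm => ?_
  rw [← mul_sum, mul_comm]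
  refine mul_le_mul_of_nonneg_right ((point_log_sum (hM m hm).1 fun p hp =>
    ⟨Nat.prime_of_mem_primeFactors hp, Nat.dvd_of_mem_primeFactors hp⟩).trans
    (Real.log_le_log (by exact_mod_cast (hM m hm).1) (hM m hm).2))
    (div_nonneg (hρ _) (Nat.cast_nonneg _))

theorem rep_cP {H : ℝ} {a p : ℕ} (h : p ∈ cP H a) :
    p.Prime ∧ H ^ a ≤ (p : ℝ) ∧ (p : ℝ) < H ^ (a + 1) :=
  ⟨Nat.prime_of_mem_primesLE (mem_filter.1 h).1, (mem_filter.1 h).2⟩

theorem rep_DD {H : ℝ} {N d : ℕ} (h1 : 1 ≤ d) (h2 : (d : ℝ) ≤ H ^ (N - 1)) (h3 : Squarefree d)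
    (h4 : Rough H d) (h5 : om d ≤ 2) : d ∈ DD H N := by
  classical
  exact mem_filter.2 ⟨mem_Icc.2 ⟨h1, Nat.le_floor h2⟩, h3, h4, h5⟩

/-- Split `DD` by `om d = 0, 1, 2`. The cells are disjoint (`point_cell_unique`); a product of two
different primes comes from at most two ordered pairs. -/
theorem sg_le {H : ℝ} (hH : 1 < H) (N : ℕ) {φ : ℕ → ℝ} (hφ : ∀ d, 0 ≤ φ d) :
    Sg H N φ ≤ ∑ d ∈ DD H N, φ d / d := by
  have hn : ∀ d : ℕ, 0 ≤ φ d / d := fun d => div_nonneg (hφ d) (Nat.cast_nonneg d)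
  have h0 : φ 1 ≤ ∑ d ∈ (DD H N).filter (fun d => om d = 0), φ d / d := by
    have := single_le_sum (s := (DD H N).filter fun d => om d = 0) (a := 1) (fun d _ => hn d)
      (mem_filter.2 ⟨rep_DD le_rfl (by exact_mod_cast one_le_pow₀ hH.le) squarefree_one
        (fun q hq hd => absurd (Nat.dvd_one.1 hd) hq.ne_one) (by simp [om]), by simp [om]⟩)
    simpa using this
  have h1 : ∑ a ∈ Ico 1 (N - 1), ∑ p ∈ cP H a, φ p / p ≤
      ∑ d ∈ ((DD H N).filter fun d => ¬om d = 0).filter (fun d => om d = 1), φ d / d := by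
    rw [sum_sigma']
    refine rep_inj (fun x => x.2) (fun x hx x' hx' e => ?_) (fun x hx => ?_) (fun x _ => le_rfl)
      fun d _ => hn d
    · obtain ⟨a, p⟩ := x
      obtain ⟨a', p'⟩ := x'
      rw [mem_coe, mem_sigma] at hx hx'
      obtain rfl : p = p' := e
      obtain rfl : a = a' := point_cell_unique hH (rep_cP hx.2).2 (rep_cP hx'.2).2
      rfl
    · rw [mem_sigma, mem_Ico] at hx
      obtain ⟨hp, h2, h3⟩ := rep_cP hx.2
      have e : om x.2 = 1 := by rw [om, hp.primeFactors, card_singleton]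
      refine mem_filter.2 ⟨mem_filter.2 ⟨rep_DD hp.pos (h3.le.trans
        (pow_le_pow_right₀ hH.le (by omega))) hp.squarefree (rough_prime hp
        ((le_self_pow₀ hH.le (by omega)).trans h2)) (by omega), by omega⟩, e⟩
  have h2 : ∑ a ∈ Ico 1 N, ∑ b ∈ Ico 1 (N - 2 - a), ∑ p ∈ cP H a, ∑ p' ∈ (cP H b).erase p,
      φ (p * p') / (p * p') ≤
      ∑ d ∈ (((DD H N).filter fun d => ¬om d = 0).filter fun d => ¬om d = 1),
        ∑ _p ∈ d.primeFactors, φ d / d := by
    simp only [sum_sigma']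
    refine rep_inj (fun x => ⟨x.2.2.1 * x.2.2.2, x.2.2.1⟩) (fun x hx x' hx' e => ?_)
      (fun x hx => ?_) (fun x _ => le_of_eq (by push_cast; rfl)) fun d _ => hn _
    · obtain ⟨a, b, p, q⟩ := x
      obtain ⟨a', b', p', q'⟩ := x'
      simp only [mem_coe, mem_sigma, mem_erase] at hx hx'
      simp only [Sigma.mk.injEq, heq_eq_eq] at e
      obtain ⟨e1, rfl⟩ := e
      obtain rfl : q = q' := Nat.eq_of_mul_eq_mul_left (rep_cP hx.2.2.1).1.pos e1
      obtain rfl : a = a' := point_cell_unique hH (rep_cP hx.2.2.1).2 (rep_cP hx'.2.2.1).2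
      obtain rfl : b = b' := point_cell_unique hH (rep_cP hx.2.2.2.2).2 (rep_cP hx'.2.2.2.2).2
      rfl
    · obtain ⟨a, b, p, q⟩ := x
      simp only [mem_sigma, mem_erase, mem_Ico] at hx
      obtain ⟨ha, hb, hp, hne, hq⟩ := hx
      obtain ⟨hp, p1, p2⟩ := rep_cP hp
      obtain ⟨hq, q1, q2⟩ := rep_cP hq
      have hc : Nat.Coprime p q := (Nat.coprime_primes hp hq).2 hne.symm
      have e : om (p * q) = 2 := by
        rw [om_mul hp hq.ne_zero (hp.coprime_iff_not_dvd.1 hc), om, hq.primeFactors,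
          card_singleton]
      have hle : ((p * q : ℕ) : ℝ) ≤ H ^ (N - 1) := by
        push_cast
        refine (mul_le_mul p2.le q2.le (Nat.cast_nonneg _) (by positivity)).trans ?_
        rw [← pow_add]
        exact pow_le_pow_right₀ hH.le (by omega)
      refine mem_sigma.2 ⟨mem_filter.2 ⟨mem_filter.2 ⟨rep_DD (Nat.mul_pos hp.pos hq.pos) hle
        ((Nat.squarefree_mul hc).2 ⟨hp.squarefree, hq.squarefree⟩)
        ((rough_prime hp ((le_self_pow₀ hH.le (by omega)).trans p1)).mul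
          (rough_prime hq ((le_self_pow₀ hH.le (by omega)).trans q1))) e.le, ?_⟩, ?_⟩,
        Nat.mem_primeFactors.2 ⟨hp, dvd_mul_right _ _, mul_ne_zero hp.ne_zero hq.ne_zero⟩⟩
      · simp [e]
      · simp [e]
  have h3 : ∑ d ∈ (((DD H N).filter fun d => ¬om d = 0).filter fun d => ¬om d = 1),
      ∑ _p ∈ d.primeFactors, φ d / d ≤
      2 * ∑ d ∈ (((DD H N).filter fun d => ¬om d = 0).filter fun d => ¬om d = 1), φ d / d := by
    rw [mul_sum]
    refine sum_le_sum fun d hd => ?_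
    classical
    have e : om d ≤ 2 := (mem_filter.1 (mem_filter.1 (mem_filter.1 hd).1).1).2.2.2
    rw [sum_const, nsmul_eq_mul]
    exact mul_le_mul_of_nonneg_right (by exact_mod_cast e) (hn d)
  rw [← sum_filter_add_sum_filter_not (DD H N) (fun d => om d = 0),
    ← sum_filter_add_sum_filter_not ((DD H N).filter fun d => ¬om d = 0) (fun d => om d = 1), Sg]
  linarith

end Pool.Agent.Lib.MP_c03ca8_nt.P3
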