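import Pool.Agent.Lib.MP_c03ca8_nt.P3.ZDefs

set_option autoImplicit false

namespace Pool.Agent.Lib.MP_c03ca8_nt.P3

def z3 : Z3 where
  N := 201
  T := 94
  U := 60
  M := 60
  tg := 0x1250001db0002b10003ad0004d100061c00078c00091f000ad0000c9d000e8300107e00128c0014ab0016e0001932001ba2001e2f0020d80023a0002684002988002cab002ff00033580036e5003a99003e750042820046c4004b3c004fef0054dd005a0b005f7c006531006b3000717b007817007f0600864e008df20095f7009e6300a73a00b08300ba4200c47f00cf4000da8c00e66d00f2eb01000d010ddf011c71012bc9013bf7014d06015f130172430186a0
  tom := 0x2210001ee0001ed00021800024c00027d0002ab0002da00030000032a00034f00037700039c0003bf0003e100040200042100044000045d0004790004930004ac0004c20004d70004ea0004fb00050a00051600052100052900052f00053300053500053600053400053200052e00052900052300051c00051500050c0005020004f80004ed0004e20004d50004c80004ba0004ac00049d00048d00047d00046c00045a00044700043300041c0004040003e8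
  tl := 0xf42400f42400f42400f42400f42400f42400f42400f42400f42400f42400f42400f42400f42400f42400f42400f42400f42400f42400f42400f42400f42400f42400f42400f42400f42400f42400f42400f42400f42400f42400f42400f42400f42400f42400f42400008dd0004720002a81001b72001281000ccd0008f800064a00045b0002eb0001d40000fa00004d000000000000000000000000000000000000000000000000000000000000000000000000000000000000000000000000000000000000000000000000000000000000000000000000000000000000000000000000000000000000000000000000000000000000000000000000000000000000000000000000000000000000000000000000000000000000000000000000

theorem z3_ok1 : z3.ok1 = true := by decide +kernel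

theorem z3_ok2 : z3.ok2 = true := by decide +kernel

end Pool.Agent.Lib.MP_c03ca8_nt.P3
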