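import Pool.Agent.Lib.MP_c03ca8_nt.P3.Defs

set_option autoImplicit false

noncomputable section

namespace Pool.Agent.Lib.MP_c03ca8_nt.P3

open Finset Real Pool.Agent.Lib.MP_c03ca8_nt.Q

theorem ev1_of {θ : ℝ} {Φ : Env → Prop} (hθ : θ < 1) (h : Ev θ Φ) : Ev1 Φ := by
  exact ⟨θ, hθ, h⟩

theorem Ev1.mono {Φ Ψ : Env → Prop} (h : Ev1 Φ) (hi : ∀ E : Env, E.Good → Φ E → Ψ E) :
    Ev1 Ψ := by
  obtain ⟨θ, hθ, h⟩ := h
  exact ⟨θ, hθ, h.mono fun E hE _ hΦ => hi E hE hΦ⟩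

/-- Take the larger exponent; `1 ≤ x` by `Good`. -/
theorem Ev1.and {Φ Ψ : Env → Prop} (h : Ev1 Φ) (h' : Ev1 Ψ) : Ev1 fun E => Φ E ∧ Ψ E := by
  obtain ⟨θ, hθ, h⟩ := h
  obtain ⟨θ', hθ', h'⟩ := h'
  have up : ∀ {a b : ℝ} {Ξ : Env → Prop}, a ≤ b → Ev a Ξ → Ev b Ξ := by
    intro a b Ξ hab h
    obtain ⟨w0, h⟩ := h
    refine ⟨w0, fun w hw => ?_⟩
    obtain ⟨x0, h⟩ := h w hw
    refine ⟨x0, fun E h1 h2 h3 h4 => h E h1 h2 h3 (le_trans ?_ h4)⟩
    have hx : (1 : ℝ) ≤ E.x := by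
      have := h3.w10
      have := h3.wx
      exact_mod_cast (by omega : 1 ≤ E.x)
    exact Real.rpow_le_rpow_of_exponent_le hx hab
  exact ⟨max θ θ', max_lt hθ hθ', (up (le_max_left _ _) h).and (up (le_max_right _ _) h')⟩

/-- Finitely many statements. -/
theorem ev1_all {ι : Type} (s : Finset ι) {Φ : ι → Env → Prop} (h : ∀ a ∈ s, Ev1 (Φ a)) :
    Ev1 fun E => ∀ a ∈ s, Φ a E := by
  classical
  induction s using Finset.induction_on with
  | empty => exact ⟨0, by norm_num, 0, fun _ _ => ⟨0, fun _ _ _ _ _ a ha => by simp at ha⟩⟩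
  | insert a s _ ih =>
    refine ((h a (mem_insert_self _ _)).and
      (ih fun b hb => h b (mem_insert_of_mem hb))).mono fun E _ hE b hb => ?_
    rcases mem_insert.1 hb with rfl | hb
    · exact hE.1
    · exact hE.2 b hb

theorem supp_dlt : Supp dlt 2 := by
  intro r
  unfold dlt
  split_ifs with h
  · subst h
    norm_num
  · simp

theorem supp_low (Z : ℝ) : Supp (low Z) Z := by
  intro r
  unfold low
  split_ifs with h
  · simp [h]
  · simp

theorem abs_zo_le {z : Slot → ℕ → ℝ} (hz : ∀ s r, |z s r| ≤ 1) (i : Fin 4) (s : Slot) (r : ℕ) :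
    |zo z i s r| ≤ 1 := by
  unfold zo
  split_ifs
  · exact (supp_dlt r).1
  · exact hz s r

/-- `pr T = 1` only for `T = ∅`. -/
theorem dlt_pr {T : Finset ℕ} (hT : ∀ q ∈ T, q.Prime) : dlt (pr T) = if T = ∅ then 1 else 0 := by
  unfold dlt
  have : pr T = 1 ↔ T = ∅ := by
    constructor
    · intro h
      rw [← primeFactors_pr hT, h, Nat.primeFactors_one]
    · rintro rfl
      simp [pr]
  simp only [this]

theorem sv_dlt {P : Finset ℕ} (hP : ∀ q ∈ P, q.Prime) (m : ℕ) : sv P dlt m = 1 := by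
  unfold sv
  rw [Finset.sum_eq_single ∅]
  · simp [dlt, pr]
  · intro T hT hne
    rw [dlt_pr fun q hq => hP q (mem_powerset.1 hT hq), if_neg hne, zero_mul]
  · intro h
    exact absurd (empty_mem_powerset P) h

theorem ip_dlt {P : Finset ℕ} (hP : ∀ q ∈ P, q.Prime) : ip P dlt dlt = 1 := by
  unfold ip
  rw [Finset.sum_eq_single ∅]
  · simp [dlt, pr, wt]
  · intro T hT hne
    rw [dlt_pr fun q hq => hP q (mem_powerset.1 hT hq), if_neg hne, zero_mul, zero_mul]
  · intro h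
    exact absurd (empty_mem_powerset P) h

theorem pw_split {P : Finset ℕ} (hP : ∀ q ∈ P, q.Prime) (h : Fin 4 → ℕ) (z : Slot → ℕ → ℝ)
    (i : Fin 4) (n : ℕ) :
    Pw P h z n = sv P (z (i, false)) (n + h i) * sv P (z (i, true)) (n + h i) *
      Pw P h (zo z i) n := by
  unfold Pw
  rw [Fintype.prod_prod_type, Fintype.prod_prod_type, ← Finset.mul_prod_erase univ _ (mem_univ i),
    ← Finset.mul_prod_erase univ _ (mem_univ i)]
  have e : ∏ l ∈ univ.erase i, ∏ b : Bool, sv P (zo z i (l, b)) (n + h l) =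
      ∏ l ∈ univ.erase i, ∏ b : Bool, sv P (z (l, b)) (n + h l) := by
    refine Finset.prod_congr rfl fun l hl => Finset.prod_congr rfl fun b _ => ?_
    simp only [zo, if_neg (Finset.ne_of_mem_erase hl)]
  rw [e]
  generalize ∏ l ∈ univ.erase i, ∏ b : Bool, sv P (z (l, b)) (n + h l) = R
  simp only [Fintype.prod_bool, zo, if_true, sv_dlt hP]
  ring

/-- A prime of `T` is at most `pr T < Z`, so it does not divide `m`. -/
theorem sv_low {P : Finset ℕ} (hP : ∀ q ∈ P, q.Prime) {Z : ℝ} {m : ℕ} (hm : Rough Z m) :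
    sv P (low Z) m = gs P Z := by
  unfold sv gs
  rw [Finset.sum_filter]
  refine Finset.sum_congr rfl fun T hT => ?_
  have hT' : ∀ q ∈ T, q.Prime := fun q hq => hP q (mem_powerset.1 hT hq)
  unfold low
  split_ifs with h
  · rw [one_mul]
    refine Finset.prod_congr rfl fun q hq => ?_
    unfold zl
    rw [if_neg]
    intro hd
    have h1 := hm q (hT' q hq) hd
    have h2 : q ≤ pr T := Nat.le_of_dvd (pr_pos hT') (Finset.dvd_prod_of_mem _ hq)
    have h3 : (q : ℝ) ≤ pr T := by exact_mod_cast h2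
    linarith
  · rw [zero_mul]

theorem ip_low (P : Finset ℕ) (Z : ℝ) : ip P (low Z) (low Z) = gs P Z := by
  unfold ip gs
  rw [Finset.sum_filter]
  refine Finset.sum_congr rfl fun T _ => ?_
  unfold low
  split_ifs <;> simp

theorem gs_nonneg {P : Finset ℕ} (hP : ∀ q ∈ P, q.Prime) (Z : ℝ) : 0 ≤ gs P Z := by
  exact Finset.sum_nonneg fun T hT =>
    expand_wt_nonneg fun q hq => hP q (mem_powerset.1 (mem_filter.1 hT).1 hq)

theorem gs_le_mert {P : Finset ℕ} (hP : ∀ q ∈ P, q.Prime) (Z : ℝ) : gs P Z ≤ mert P := by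
  unfold gs mert
  rw [Finset.prod_one_add]
  exact Finset.sum_le_sum_of_subset_of_nonneg (filter_subset _ _) fun T hT _ =>
    expand_wt_nonneg fun q hq => hP q (mem_powerset.1 hT hq)

theorem W_cW (w : ℕ) : (primorial w : ℝ) * cW w = Nat.totient (primorial w) := by
  have hp : ∀ q ∈ Nat.primesLE w, q.Prime := fun _ hq => Nat.prime_of_mem_primesLE hq
  have h1 : (primorial w).primeFactors = Nat.primesLE w := by
    ext q
    simp only [Nat.mem_primeFactors, Nat.mem_primesLE]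
    constructor
    · rintro ⟨h1, h2, -⟩
      exact ⟨h1.dvd_primorial_iff.1 h2, h1⟩
    · rintro ⟨h1, h2⟩
      exact ⟨h2, h2.dvd_primorial_iff.2 h1, (primorial_pos w).ne'⟩
  have h2 := Nat.totient_eq_mul_prod_factors (primorial w)
  have h3 : ((Nat.totient (primorial w) : ℚ) : ℝ) =
      ((primorial w * ∏ p ∈ (primorial w).primeFactors, (1 - (p : ℚ)⁻¹) : ℚ) : ℝ) := by rw [h2]
  push_cast at h3
  rw [h3, h1]
  unfold cW
  simp only [one_div]

theorem Rough.mono {y y' : ℝ} {m : ℕ} (h : Rough y m) (hy : y' ≤ y) : Rough y' m := by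
  exact fun q hq hd => hy.trans (h q hq hd)

theorem Rough.of_dvd {y : ℝ} {m d : ℕ} (h : Rough y m) (hd : d ∣ m) : Rough y d := by
  exact fun q hq hq' => h q hq (hq'.trans hd)

theorem Rough.mul {y : ℝ} {m d : ℕ} (h : Rough y m) (hd : Rough y d) : Rough y (m * d) := by
  intro q hq hq'
  rcases (Nat.Prime.dvd_mul hq).1 hq' with h1 | h1
  · exact h q hq h1
  · exact hd q hq h1

theorem rough_prime {y : ℝ} {p : ℕ} (hp : p.Prime) (hy : y ≤ (p : ℝ)) : Rough y p := by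
  intro q hq hd
  rwa [(Nat.prime_dvd_prime_iff_eq hq hp).1 hd]

theorem Rough.coprime {y : ℝ} {m W : ℕ} (h : Rough y m)
    (hW : ∀ q : ℕ, q.Prime → q ∣ W → (q : ℝ) < y) : Nat.Coprime m W := by
  refine Nat.coprime_of_dvd fun q hq h1 h2 => ?_
  exact absurd (h q hq h1) (not_le.2 (hW q hq h2))

theorem om_mul {p r : ℕ} (hp : p.Prime) (hr : r ≠ 0) (h : ¬ p ∣ r) : om (p * r) = om r + 1 := by
  unfold om
  rw [Nat.primeFactors_mul hp.ne_zero hr, hp.primeFactors, ← Finset.insert_eq,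
    Finset.card_insert_of_notMem]
  intro h'
  exact h (Nat.dvd_of_mem_primeFactors h')

/-- `y ^ om m ≤ ∏ p ∈ m.primeFactors, p ≤ m`. -/
theorem om_log_le {y : ℝ} {m : ℕ} (hy : 0 < y) (hm : 1 ≤ m) (h : Rough y m) :
    (om m : ℝ) * Real.log y ≤ Real.log m := by
  refine le_trans ?_ (point_log_sum (S := m.primeFactors) hm fun p hp =>
    ⟨Nat.prime_of_mem_primeFactors hp, Nat.dvd_of_mem_primeFactors hp⟩)
  unfold om
  rw [← nsmul_eq_mul, ← Finset.sum_const]
  exact Finset.sum_le_sum fun p hp => Real.log_le_log hy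
    (h p (Nat.prime_of_mem_primeFactors hp) (Nat.dvd_of_mem_primeFactors hp))

/-- The number of primes of a rough `m ≤ 3 x` is bounded. -/
theorem om_le {ν η H x : ℝ} (hν : 0 < ν) (hη : 0 < η) (hH : 1 < H) (hx : H ^ ν = x) (h3 : 3 ≤ x)
    {m : ℕ} (hm : 1 ≤ m) (hm3 : (m : ℝ) ≤ 3 * x) (h : Rough (H ^ η) m) :
    om m ≤ ⌈2 * ν / η⌉₊ := by
  have h0 : 0 < H := by linarith
  have h1 := om_log_le (Real.rpow_pos_of_pos h0 η) hm h
  have hl := Real.log_pos hH
  rw [Real.log_rpow h0] at h1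
  have h2 : Real.log m ≤ Real.log (x * x) :=
    Real.log_le_log (by exact_mod_cast hm) (by nlinarith)
  rw [Real.log_mul (by linarith) (by linarith), ← hx, Real.log_rpow h0] at h2
  have h4 : (om m : ℝ) ≤ 2 * ν / η := by
    rw [le_div_iff₀ hη]
    refine le_of_mul_le_mul_right ?_ hl
    nlinarith
  exact_mod_cast h4.trans (Nat.le_ceil _)

theorem cs_nonneg (σ : ℕ) (t : ℝ) : 0 ≤ cs σ t := by
  exact le_max_left _ _

theorem cs_le_one (σ : ℕ) (t : ℝ) : cs σ t ≤ 1 := by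
  exact max_le zero_le_one (min_le_left _ _)

theorem cs_lip (σ : ℕ) (t t' : ℝ) : |cs σ t - cs σ t'| ≤ |t - t'| := by
  unfold cs
  refine (abs_max_sub_max_le_max _ _ _ _).trans (max_le (by simp) ?_)
  refine (abs_min_sub_min_le_max _ _ _ _).trans (max_le (by simp) ?_)
  rw [abs_sub_comm]
  exact le_of_eq (by congr 1; ring)

theorem abs_Phi_le (H : ℝ) (σ : ℕ) (t : ℝ) (m : ℕ) : |Phi H σ t m| ≤ 2 ^ om m := by
  unfold Phi om
  refine (Finset.abs_sum_le_sum_abs _ _).trans ?_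
  refine (Finset.sum_le_card_nsmul _ _ 1 fun D _ => ?_).trans ?_
  · rw [abs_mul, abs_pow, abs_neg, abs_one, one_pow, one_mul, abs_of_nonneg (cs_nonneg _ _)]
    exact cs_le_one _ _
  · simp

theorem Phi_lip (H : ℝ) (σ : ℕ) (t t' : ℝ) (m : ℕ) :
    |Phi H σ t m - Phi H σ t' m| ≤ 2 ^ om m * |t - t'| := by
  unfold Phi om
  rw [← Finset.sum_sub_distrib]
  refine (Finset.abs_sum_le_sum_abs _ _).trans ?_
  refine (Finset.sum_le_card_nsmul _ _ |t - t'| fun D _ => ?_).trans ?_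
  · rw [← mul_sub, abs_mul, abs_pow, abs_neg, abs_one, one_pow, one_mul]
    refine (cs_lip _ _ _).trans (le_of_eq ?_)
    congr 1
    ring
  · simp

/-- Change of the base; `pr D ≤ m`. -/
theorem Phi_base {H H' : ℝ} (hH : 1 < H) (hH' : 1 < H') (σ : ℕ) {m : ℕ} (hm : 1 ≤ m) :
    |Phi H σ 0 m - Phi H' σ 0 m| ≤
      2 ^ om m * (Real.log m / Real.log H * |Real.log H / Real.log H' - 1|) := by
  unfold Phi om
  rw [← Finset.sum_sub_distrib]
  refine (Finset.abs_sum_le_sum_abs _ _).trans ?_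
  refine (Finset.sum_le_card_nsmul _ _
    (Real.log m / Real.log H * |Real.log H / Real.log H' - 1|) fun D hD => ?_).trans ?_
  · rw [← mul_sub, abs_mul, abs_pow, abs_neg, abs_one, one_pow, one_mul]
    refine (cs_lip _ _ _).trans ?_
    have hl := Real.log_pos hH
    have hl' := Real.log_pos hH'
    have hD' : ∀ q ∈ D, q.Prime := fun q hq =>
      Nat.prime_of_mem_primeFactors (mem_powerset.1 hD hq)
    have h1 : pr D ≤ m := Nat.le_of_dvd hm ((expand_dvd_iff hD' m).2 fun q hq =>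
      Nat.dvd_of_mem_primeFactors (mem_powerset.1 hD hq))
    have h2 : (1 : ℝ) ≤ pr D := by exact_mod_cast pr_pos hD'
    have h3 : Real.log (pr D) ≤ Real.log m := Real.log_le_log (by linarith) (by exact_mod_cast h1)
    have h4 := Real.log_nonneg h2
    have e : 0 + Real.log (pr D) / Real.log H - (0 + Real.log (pr D) / Real.log H') =
        -(Real.log (pr D) / Real.log H * (Real.log H / Real.log H' - 1)) := by
      field_simp
      ring
    rw [e, abs_neg, abs_mul, abs_of_nonneg (div_nonneg h4 hl.le)]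
    gcongr
  · simp

/-- `Finset.sum_powerset_insert`. -/
theorem Phi_mul (H : ℝ) (σ : ℕ) (t : ℝ) {p r : ℕ} (hp : p.Prime) (hr : r ≠ 0) (h : ¬ p ∣ r) :
    Phi H σ t (p * r) = Phi H σ t r - Phi H σ (t + Real.log p / Real.log H) r := by
  unfold Phi
  have hn : p ∉ r.primeFactors := fun h' => h (Nat.dvd_of_mem_primeFactors h')
  rw [Nat.primeFactors_mul hp.ne_zero hr, hp.primeFactors, ← Finset.insert_eq,
    Finset.sum_powerset_insert hn, sub_eq_add_neg, ← Finset.sum_neg_distrib]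
  congr 1
  refine Finset.sum_congr rfl fun D hD => ?_
  have hpD : p ∉ D := fun h' => hn (mem_powerset.1 hD h')
  have hD' : ∀ q ∈ D, q.Prime := fun q hq =>
    Nat.prime_of_mem_primeFactors (mem_powerset.1 hD hq)
  have e : pr (insert p D) = p * pr D := Finset.prod_insert hpD
  rw [Finset.card_insert_of_notMem hpD, e, Nat.cast_mul,
    Real.log_mul (by exact_mod_cast hp.ne_zero) (by exact_mod_cast (pr_pos hD').ne'), add_div,
    ← add_assoc]
  ring

theorem Phi_one (H : ℝ) (σ : ℕ) (t : ℝ) : Phi H σ t 1 = cs σ t := by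
  simp [Phi, pr]

/-- `abs_sv_le` for the eight slots. -/
theorem abs_Pw_le {Y G : ℝ} (hG : Tame Y G) {P : Finset ℕ} (hP : ∀ q ∈ P, q.Prime)
    (h : Fin 4 → ℕ) {z : Slot → ℕ → ℝ} {Z : Slot → ℝ} (hz : ∀ s, Supp (z s) (Z s))
    (hZ : ∀ s, Z s ≤ Y) (hY : 2 ≤ Y) (i : Fin 4) {n : ℕ}
    (hn : ∀ l, 1 ≤ n + h l ∧ ((n + h l : ℕ) : ℝ) ≤ Y) : |Pw P h (zo z i) n| ≤ G ^ 32 := by
  unfold Pw
  rw [Finset.abs_prod]
  refine (Finset.prod_le_prod (g := fun _ => G ^ 4) (fun s _ => abs_nonneg _)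
    fun s _ => ?_).trans (le_of_eq ?_)
  · unfold zo
    split_ifs
    · exact abs_sv_le hG hP supp_dlt hY (hn _).1 (hn _).2
    · exact abs_sv_le hG hP (hz s) (hZ s) (hn _).1 (hn _).2
  · rw [Finset.prod_const, ← pow_mul]
    simp

theorem uu_mem (y : ℝ) (m : ℕ) : 0 ≤ uu y m ∧ uu y m ≤ 1 := by
  unfold uu
  split_ifs <;> norm_num

theorem r3_mem (y : ℝ) (m : ℕ) : 0 ≤ r3 y m ∧ r3 y m ≤ 1 := by
  unfold r3
  split_ifs <;> norm_num

theorem row_Gf {c : Cert} {k : Ker} (hv : k.Valid c) {N : ℕ} (hN : c.M ≤ N) (β : ℕ) :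
    Row (c.Gf β) c.M N := by
  refine ⟨fun σ => ?_, fun σ hσ => ?_, hN⟩
  · unfold Cert.Gf
    split_ifs
    · exact mul_nonneg (hv.g _) (hv.om _)
    · exact le_rfl
  · unfold Cert.Gf
    rw [if_neg]
    omega

theorem Mb_nonneg (c : Cert) (β : ℕ) : 0 ≤ c.Mb β := by
  unfold Cert.Mb
  refine Finset.sum_nonneg fun a _ => Finset.sum_nonneg fun b _ => Finset.sum_nonneg fun d _ => ?_
  split_ifs
  · exact sq_nonneg _
  · exact le_rfl

theorem rho_nonneg {c : Cert} {k : Ker} (hv : k.Valid c) (H : ℝ) (m : ℕ) : 0 ≤ rho c k H m := by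
  refine mul_nonneg (r3_mem _ _).1 (Finset.sum_nonneg fun β hβ => mul_nonneg (Mb_nonneg c β) ?_)
  exact mul_nonneg (hv.pos β (by have := mem_range.1 hβ; omega)) (sq_nonneg _)

end Pool.Agent.Lib.MP_c03ca8_nt.P3
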