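import Pool.Agent.Lib.MP_c03ca8_nt.P3.ZA
import Pool.Agent.Lib.MP_c03ca8_nt.P3.Basic

set_option autoImplicit false

noncomputable section

namespace Pool.Agent.Lib.MP_c03ca8_nt.P3

open Finset Real Pool.Agent.Lib.MP_c03ca8_nt.Q

theorem zb_sub (x y : ℕ) : ((x - y : ℕ) : ℝ) = max 0 ((x : ℝ) - y) := by
  rcases le_total x y with h | h
  · rw [Nat.sub_eq_zero_of_le h, max_eq_left (sub_nonpos.2 (Nat.cast_le.2 h)), Nat.cast_zero]
  · rw [Nat.cast_sub h, max_eq_right (sub_nonneg.2 (Nat.cast_le.2 h))]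

theorem zb_Ico (f : ℕ → ℝ) (h : f 0 = 0) (n : ℕ) : ∑ a ∈ Ico 1 n, f a = ∑ a ∈ range n, f a := by
  rcases Nat.eq_zero_or_pos n with rfl | hn
  · simp
  · rw [Finset.range_eq_Ico, Finset.sum_eq_sum_Ico_succ_bot hn, h, zero_add]

theorem zb_s2 (G : ℕ → ℝ) {N k : ℕ} (h : k ≤ N) :
    s2 G N k = s1 G k + s1 G N - s1 G (N - k) := by
  induction k with
  | zero => simp [s1, s2]
  | succ k ih =>
    have e : N - k = N - (k + 1) + 1 := by omega
    have e2 : N - 1 - k = N - (k + 1) := by omega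
    have h1 := ih (by omega)
    rw [e] at h1
    simp only [s1, s2, es, Finset.sum_range_succ] at h1 ⊢
    rw [h1, e2]
    ring

theorem zb_tb (t i : ℕ) : tb t i < 2 ^ 24 := Nat.mod_lt _ (by norm_num)

theorem zb_G (c : ZC) (β σ : ℕ) : c.G β σ ≤ 2 ^ 48 := by
  rw [ZC.G, zval_cond]
  split_ifs
  · exact (Nat.mul_le_mul (zb_tb _ _).le (zb_tb _ _).le).trans (by norm_num)
  · exact Nat.zero_le _

theorem zb_dg (c : Z3) (hN : c.N ≤ 1000) (β : ℕ) {k : ℕ} (hk : k ≤ c.N) :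
    dg (pk (c.N + 1) (c.S1 β)) k = ∑ j ∈ range k, c.zc.G β j := by
  rw [dg_pk (fun i hi => ?_) (by omega), Z3.S1, sumTo_eq]
  rw [Z3.S1, sumTo_eq]
  have h := Finset.sum_le_card_nsmul (range i) (c.zc.G β) (2 ^ 48) fun j _ => zb_G c.zc β j
  rw [Finset.card_range, smul_eq_mul] at h
  exact (h.trans (Nat.mul_le_mul_right _ (show i ≤ 1000 by omega))).trans_lt (by norm_num)

theorem zb_m0 (a : ℕ) : 0 ≤ m0 a := Real.log_nonneg (le_add_of_nonneg_right (by positivity))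

section

variable {c : Z3} {β t : ℕ} (ht : ∀ k ≤ c.N, dg t k = ∑ j ∈ range k, c.zc.G β j)
include ht

theorem zb_d {k : ℕ} (hk : k ≤ c.N) : (dg t k : ℝ) = s1 (fun j => (c.zc.G β j : ℝ)) k := by
  rw [ht k hk, Nat.cast_sum, s1]

theorem zb_S2 {k : ℕ} (hk : k ≤ c.N) :
    (c.S2 t k : ℝ) = s2 (fun j => (c.zc.G β j : ℝ)) c.N k := by
  have h : dg t (c.N - k) ≤ dg t c.N := by
    rw [ht _ (Nat.sub_le _ _), ht _ le_rfl]
    exact Finset.sum_le_sum_of_subset (Finset.range_subset_range.2 (Nat.sub_le _ _))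
  rw [Z3.S2, Nat.cast_sub (h.trans (Nat.le_add_left _ _)), Nat.cast_add, zb_d ht hk, zb_d ht le_rfl,
    zb_d ht (Nat.sub_le _ _), zb_s2 _ hk]

omit ht in
theorem zb_E (k : ℕ) : (c.E β k : ℝ) = es (fun j => (c.zc.G β j : ℝ)) c.N k := by
  rw [Z3.E, Nat.cast_add, es]

theorem zb_R {a : ℕ} (h1 : 1 ≤ a) (ha : a ≤ c.N) :
    (c.R β t a : ℝ) ≤ cR (fun j => (c.zc.G β j : ℝ)) c.N a := by
  have h2 := zrow_div_lt (c.E β a) (6 * a) (by omega)
  have h3 : (1 : ℝ) ≤ a := by exact_mod_cast h1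
  have h4 : (c.E β a : ℝ) / (6 * a) ≤ c.E β a := div_le_self (Nat.cast_nonneg _) (by linarith)
  have h5 : (0 : ℝ) ≤ c.S2 t a := Nat.cast_nonneg _
  rw [Z3.R, zb_sub, cR, ← zb_S2 ht ha, ← zb_E]
  rw [Nat.cast_mul, Nat.cast_ofNat] at h2
  rw [Nat.cast_add (2 * _), Nat.cast_mul, Nat.cast_ofNat]
  exact max_le (by linarith) (by linarith)

theorem zb_V {k : ℕ} (hk : k ≤ c.N) :
    (c.V β t k : ℝ) = cV (fun j => (c.zc.G β j : ℝ)) c.N k := by
  rw [Z3.V, Nat.cast_add, zb_sub, cV, ← zb_S2 ht hk, ← zb_E, ← zb_E, Nat.cast_mul, Nat.cast_ofNat]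

theorem zb_C2 {a : ℕ} (h1 : 1 ≤ a) (ha : a ≤ c.N) :
    (c.C2 β t a : ℝ) ≤ 2 * c2 (fun j => (c.zc.G β j : ℝ)) c.N a := by
  have h2 := zrow_div_lt (c.zc.G β a) (6 * a) (by omega)
  have h3 : (0 : ℝ) < a := by exact_mod_cast h1
  rw [Z3.C2, zb_sub, c2, ← zb_d ht ha, ← zb_d ht le_rfl, ← zb_d ht (Nat.sub_le _ _),
    mul_max_of_nonneg _ _ zero_le_two, mul_zero]
  refine max_le_max le_rfl ?_
  rw [Nat.cast_mul, Nat.cast_ofNat] at h2
  have e : (c.zc.G β a : ℝ) * (1 / 2 - 1 / (12 * a)) = (c.zc.G β a - c.zc.G β a / (6 * a)) / 2 := by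
    field_simp
    ring
  rw [e]
  generalize c.zc.G β a / (6 * a) + 1 = q at h2 ⊢
  push_cast
  linarith

theorem zb_c3 {a b : ℕ} (h : a + b + 1 ≤ c.N) :
    (wlo a : ℝ) * (wlo b * ((c.R β t a + c.R β t b - c.V β t (a + b + 1) : ℕ) : ℝ) ^ 2) ≤
      4000000000000 * (m0 a * m0 b * c3 (fun j => (c.zc.G β j : ℝ)) c.N a b ^ 2) := by
  have p1 := zb_m0 a
  have p2 := zb_m0 b
  rcases Nat.eq_zero_or_pos a with rfl | ha
  · rw [show wlo 0 = 0 from rfl, Nat.cast_zero, zero_mul]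
    positivity
  rcases Nat.eq_zero_or_pos b with rfl | hb
  · rw [show wlo 0 = 0 from rfl, Nat.cast_zero, zero_mul, mul_zero]
    positivity
  have h1 : ((c.R β t a + c.R β t b - c.V β t (a + b + 1) : ℕ) : ℝ) ≤
      2 * c3 (fun j => (c.zc.G β j : ℝ)) c.N a b := by
    rw [zb_sub, c3, mul_max_of_nonneg _ _ zero_le_two, mul_zero, Nat.cast_add, zb_V ht h]
    refine max_le_max le_rfl ?_
    linarith [zb_R ht ha (by omega), zb_R ht hb (by omega)]
  have h2 : (wlo a : ℝ) ≤ 1000000 * m0 a := (log_bounds a).1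
  have h3 : (wlo b : ℝ) ≤ 1000000 * m0 b := (log_bounds b).1
  calc _ ≤ 1000000 * m0 a * (1000000 * m0 b * (2 * c3 (fun j => (c.zc.G β j : ℝ)) c.N a b) ^ 2) := by
        gcongr
    _ = _ := by ring

end

/-- `force_eq`, `mkL_eq`, `outr_eq`, `dg_pk` (`G < 2 ^ 48`, `N ≤ 1000`), `Gf_eq`, `log_bounds`
(`wlo 0 = 0`). `S2 = s2`, `R ≤ max 0 cR`, `V = cV`, `C2 ≤ 2 c2`; since `0 ≤ cR` for `a ≥ 1`,
`R a + R b - V ≤ 2 c3`. -/
theorem D_le (c : Z3) (h : c.ok1 = true) (β : ℕ) :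
    (c.D β : ℝ) ≤ 8000000000000 * Dv (c.zc.toCert.Gf β) c.N := by
  have hN : c.N ≤ 1000 := by
    simp only [Z3.ok1, Bool.and_eq_true, Nat.ble_eq] at h
    exact h.2
  have ht := fun k (hk : k ≤ c.N) => zb_dg c hN β hk
  rw [Z3.D, force_eq, mkL_eq, mkL_eq, mkL_eq, outr_eq, sumTo_eq,
    show c.zc.toCert.Gf β = fun j => (c.zc.G β j : ℝ) from funext (Gf_eq c.zc β)]
  generalize pk (c.N + 1) (c.S1 β) = t at ht
  have z0 : m0 0 = 0 := by simp [m0]
  rw [Dv, zb_Ico _ (by rw [z0, zero_mul]), zb_Ico _ (by simp [z0]), mul_add, mul_add, Nat.cast_add,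
    Nat.cast_add, Nat.cast_mul, Nat.cast_mul, Nat.cast_pow, zb_d ht le_rfl, Nat.cast_sum, Nat.cast_sum,
    Nat.cast_ofNat, Nat.cast_ofNat]
  refine add_le_add (add_le_add le_rfl ?_) ?_
  · rw [Finset.mul_sum, Finset.mul_sum]
    refine Finset.sum_le_sum fun a ha => ?_
    have p1 := zb_m0 a
    rw [Finset.mem_range] at ha
    rcases Nat.eq_zero_or_pos a with rfl | ha1
    · rw [show wlo 0 = 0 from rfl, zero_mul, Nat.cast_zero, mul_zero]
      positivity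
    have h1 := zb_C2 ht ha1 (by omega)
    have h2 : (wlo a : ℝ) ≤ 1000000 * m0 a := (log_bounds a).1
    rw [Nat.cast_mul, Nat.cast_pow]
    calc _ ≤ 2000000 * (1000000 * m0 a * (2 * c2 (fun j => (c.zc.G β j : ℝ)) c.N a) ^ 2) := by gcongr
      _ = _ := by ring
  · rw [← mul_assoc, Finset.mul_sum]
    refine le_trans (Finset.sum_le_sum fun a ha => ?_) (Finset.sum_le_sum_of_subset_of_nonneg
      (Finset.range_subset_range.2 (Nat.sub_le c.N 1)) fun a _ _ => mul_nonneg (by norm_num)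
        (Finset.sum_nonneg fun b _ => mul_nonneg (mul_nonneg (zb_m0 a) (zb_m0 b)) (sq_nonneg _)))
    rw [zb_Ico _ (by rw [z0, mul_zero, zero_mul]), Nat.cast_mul, Nat.cast_sum, Finset.mul_sum,
      Finset.mul_sum]
    refine Finset.sum_le_sum fun b hb => ?_
    rw [Finset.mem_range] at hb
    rw [Nat.cast_mul, Nat.cast_pow]
    exact (zb_c3 ht (by omega)).trans (le_of_eq (by norm_num))

/-- Multiply by `8 * 10 ^ 18`; `Mb_eq`, `nk_le`, `le_mk`, `D_le`; on high bands `0 ≤ Mk Dv`. -/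
theorem ineq3 (c : Z3) (h : c.ok1 = true) (h2 : c.ok2 = true) :
    c.N * (3 * c.zc.toCert.Ival + 4 * Kv c.zc.toCert c.toKer.Nk) <
      4 * Dtot c.zc.toCert c.toKer c.N := by
  have hv := valid3 c h
  rw [Z3.ok2, Nat.ble_eq, sumTo_eq, sumTo_eq] at h2
  have h3 : ∑ β ∈ range (c.U + 1), (c.lhs β : ℝ) < ∑ β ∈ range (c.U + 1), (c.rhs β : ℝ) := by
    exact_mod_cast h2
  have hI : ∀ β, rI c.zc.toCert β = c.zc.rI β := fun β => by
    rw [rI, ZC.rI, sumTo_eq, Nat.cast_sum]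
    simp only [Gf_eq, Nat.cast_pow]
    exact zrow_sum_len c.zc β _ fun σ hσ => by rw [zrow_G_zero c.zc hσ]; simp
  have h4 : 8000000000000000000 * (c.N * (3 * c.zc.toCert.Ival + 4 * Kv c.zc.toCert c.toKer.Nk)) ≤
      ∑ β ∈ range (c.U + 1), (c.lhs β : ℝ) := by
    rw [Cert.Ival, Kv, Finset.mul_sum, Finset.mul_sum, ← Finset.sum_add_distrib, Finset.mul_sum,
      Finset.mul_sum]
    refine Finset.sum_le_sum fun β _ => ?_
    have h5 := nk_le c β
    rw [← rI, hI, Mb_eq, Z3.lhs]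
    push_cast
    calc _ = (c.N : ℝ) * 8000000000000 * (c.zc.Mb β * c.zc.rI β *
          (3000000 + 4 * (1000000 * c.toKer.Nk β β))) := by ring
      _ ≤ _ := by gcongr
  have h5 : ∑ β ∈ range (c.U + 1), (c.rhs β : ℝ) ≤
      8000000000000000000 * (4 * Dtot c.zc.toCert c.toKer c.N) := by
    rw [Dtot, Finset.mul_sum, Finset.mul_sum]
    refine Finset.sum_le_sum fun β hβ => ?_
    have h6 := D_le c h β
    have h7 := hv.pos β (Nat.lt_succ_iff.1 (Finset.mem_range.1 hβ))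
    have h8 : 0 ≤ Dv (c.zc.toCert.Gf β) c.N := by linarith [Nat.cast_nonneg (α := ℝ) (c.D β)]
    rw [Z3.rhs, Z3.isLow, zval_cond, Mb_eq]
    split_ifs with hl
    · have h9 := le_mk c hl
      push_cast
      calc _ ≤ 4 * ((c.zc.Mb β : ℝ) * (1000000 * c.toKer.Mk β β *
            (8000000000000 * Dv (c.zc.toCert.Gf β) c.N))) := by gcongr
        _ = _ := by ring
    · rw [Nat.cast_zero]
      positivity
  linarith

end Pool.Agent.Lib.MP_c03ca8_nt.P3
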