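import Pool.Agent.Lib.MP_c03ca8_nt.P3.Core
import Pool.Agent.Lib.MP_c03ca8_nt.P3.Fifth
import Pool.Agent.Lib.MP_c03ca8_nt.P3.ZB
import Pool.Agent.Lib.MP_c03ca8_nt.P3.Cert

set_option autoImplicit false

noncomputable section

namespace Pool.Agent.Lib.MP_c03ca8_nt.P3

open Finset Real Pool.Agent.Lib.MP_c03ca8_nt.Q

open Classical in
theorem three (h : Fin 4 → ℕ) (hinj : Function.Injective h)
    (adm : ∀ p : ℕ, p.Prime → ∃ a, ∀ l, ¬ p ∣ a + h l) :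
    ∃ c : ℝ, 0 < c ∧ ∃ N0 : ℕ, ∀ N : ℕ, N0 ≤ N →
      c * N ≤ ((Icc 1 N).filter fun n => ∃ m : ℕ, n ^ 5 < m ∧
        ∀ l, m + h l < (n + 1) ^ 5 ∧ ArithmeticFunction.cardFactors (m + h l) ≤ 3).card := by
  have hN : z3.zc.toCert.nu = (z3.N : ℕ) := by norm_num [ZC.toCert, Z3.zc, z3]
  have hr : Rng z3.zc.toCert.nu (999 / 1000) z3.zc.toCert.T1 z3.zc.toCert.T2 z3.zc.toCert.M := by
    constructor <;> norm_num [ZC.toCert, Z3.zc, z3]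
  exact fifth h hinj
    (core3 _ _ (valid3 z3 z3_ok1) hN hr (by norm_num) (ineq3 z3 z3_ok1 z3_ok2) h hinj adm)

end Pool.Agent.Lib.MP_c03ca8_nt.P3
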