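import Pool.Agent.Lib.MP_c03ca8_nt.P3.Or1

set_option autoImplicit false

noncomputable section

namespace Pool.Agent.Lib.MP_c03ca8_nt.P3

open Finset Real Pool.Agent.Lib.MP_c03ca8_nt.Q

theorem rb_ip_le {P : Finset ℕ} (hP : ∀ q ∈ P, q.Prime) {z z' : ℕ → ℝ} (hz : ∀ r, |z r| ≤ 1)
    (hz' : ∀ r, |z' r| ≤ 1) : |ip P z z'| ≤ mert P := by
  unfold ip mert
  rw [prod_one_add]
  refine (abs_sum_le_sum_abs _ _).trans (sum_le_sum fun T hT => ?_)
  have h0 : 0 ≤ wt T := prod_nonneg fun q hq => by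
    have h2 : (2 : ℝ) ≤ q := by exact_mod_cast (hP q (mem_powerset.1 hT hq)).two_le
    exact one_div_nonneg.2 (by linarith)
  rw [abs_mul, abs_mul, abs_of_nonneg h0]
  exact mul_le_of_le_one_left h0 (mul_le_one₀ (hz _) (abs_nonneg _) (hz' _))

theorem rb_fin {ν θ δ t A B : ℝ} {E : Env} (hH : 2 ≤ E.H ν) (hx : E.H ν ^ ν = E.x)
    (hX : (E.x : ℝ) ^ θ ≤ E.X) (hA0 : 0 ≤ A) (hA : A * E.W ≤ 1 * E.H ν ^ δ) (hB : B ≤ E.H ν ^ t)
    (ht : δ + t ≤ θ * ν) : A * B ≤ E.X / E.W := by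
  have h0 : (0 : ℝ) < E.H ν := by linarith
  have hW : (0 : ℝ) < E.W := by exact_mod_cast erra_Wpos E
  have e1 : E.H ν ^ δ * E.H ν ^ t ≤ E.X := by
    rw [← Real.rpow_add h0]
    refine le_trans (Real.rpow_le_rpow_of_exponent_le (by linarith) ht) ?_
    rw [mul_comm, Real.rpow_mul h0.le, hx]
    exact hX
  have hp : 0 ≤ E.H ν ^ t := by positivity
  rw [le_div_iff₀ hW]
  calc A * B * E.W ≤ A * E.H ν ^ t * E.W := by gcongr
    _ = A * E.W * E.H ν ^ t := by ring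
    _ ≤ 1 * E.H ν ^ δ * E.H ν ^ t := by gcongr
    _ ≤ E.X := by rw [one_mul]; exact e1

theorem rb_psi {E : Env} (ν : ℝ) (jj : Slot → ℕ) (i : Fin 4) (n : ℕ) :
    Psi E ν jj i n = (∏ l ∈ univ.erase i, sv E.P (cell (E.H ν) (jj (l, false))) (n + E.h l)) *
      ∏ l ∈ univ.erase i, sv E.P (cell (E.H ν) (jj (l, true))) (n + E.h l) := by
  unfold Psi Pw
  rw [Fintype.prod_prod_type, ← mul_prod_erase univ _ (mem_univ i), ← prod_mul_distrib]
  simp only [zo, if_true, sv_dlt fun q hq => (erra_memP (E := E) hq).1, prod_const_one, one_mul]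
  refine prod_congr rfl fun l hl => ?_
  simp only [if_neg (ne_of_mem_erase hl), Fintype.prod_bool, cz, mul_comm]

theorem rb_pw (P : Finset ℕ) (h : Fin 4 → ℕ) (u : ℕ → ℝ) (v : Fin 4 → ℕ → ℝ) (i : Fin 4) (n : ℕ) :
    Pw P h (fun s => if s.1 = i then u else v s.1) n =
      sv P u (n + h i) ^ 2 * (∏ l ∈ univ.erase i, sv P (v l) (n + h l)) ^ 2 := by
  unfold Pw
  rw [Fintype.prod_prod_type, ← mul_prod_erase univ _ (mem_univ i), ← prod_pow]
  simp only [if_true, prod_const, card_univ, Fintype.card_bool]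
  exact congrArg _ (prod_congr rfl fun l hl => by rw [if_neg (ne_of_mem_erase hl)])

/-- With `y = H ^ η` and `g = gs E.P y ≥ η L / 2` (`mass`, `4 / w ≤ 4 / 10`, `ev_size`),
`g ≤ mert ≤ C L`. First part: `rough_count`. Second part: `|a b| ≤ (a ^ 2 + b ^ 2) / 2` for the
two triple products of `sv` (slots `false`, slots `true`); for each `b`, `g ^ 2` times the sum
over rough `n` of the square is at most `∑ n ∈ E.I, Pw E.P E.h z n`, where `z` has `low y` in both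
slots of `i` and `cell (jj (l, b))` in both slots of `l`; `k1` with `p = 1`, `decouple`, and
`|ip| ≤ mert`. Errors as in `err1` (`ev_tame` with `δ = θ ν - T1`). -/
theorem rb {ν θ : ℝ} {T1 T2 M : ℕ} (hr : Rng ν θ T1 T2 M) (h2 : 2 ≤ T1) {η : ℝ} (hη : 0 < η)
    (hη1 : η < 1) : ∃ C : ℝ, 0 < C ∧ Ev θ fun E => ∀ i : Fin 4,
      ((rgh E (E.H ν ^ η) i).card : ℝ) ≤ C * (E.X / E.W / E.L ν) ∧
      ∀ jj : Slot → ℕ, (∀ b, 2 + 2 * ∑ l ∈ univ.erase i, (jj (l, b) + 1) ≤ T1) →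
        ∑ n ∈ rgh E (E.H ν ^ η) i, |Psi E ν jj i n| ≤ C * (E.X / E.W * E.L ν ^ 2) := by
  obtain ⟨K, hK, hdec⟩ := decouple
  choose! B hB0 hB using mass
  obtain ⟨C, hC, hsz⟩ := ev_size (θ := θ) hr.pos
  have hδ : 0 < θ * ν - T1 := by linarith [hr.t1]
  refine ⟨4 * ((1 + K) * C ^ 4 + C + 1) / η ^ 2, by positivity,
    ((hsz (fun w => 10 * B w / η) hη).and (ev_tame (θ := θ) hr.pos hδ one_pos 33)).mono ?_⟩
  rintro E hE hX ⟨⟨h1, h3, -⟩, G, hG, hGW, hL, hH, hx, -⟩ i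
  have hP : ∀ q ∈ E.P, q.Prime := fun q hq => (erra_memP hq).1
  have h0 : (0 : ℝ) < E.H ν := by linarith
  have hH1 : (1 : ℝ) ≤ E.H ν := by linarith
  have hy1 : 1 ≤ E.H ν ^ η := Real.one_le_rpow hH1 hη.le
  have hyH : E.H ν ^ η ≤ E.H ν ^ 1 := by
    rw [pow_one]
    exact Real.rpow_le_self_of_one_le hH1 hη1.le
  have hH3 : E.H ν ^ 1 ≤ 3 * (E.x : ℝ) := erra_pow_le hr hH hx (by omega)
  have hG1 : (1 : ℝ) ≤ G := by linarith [hG.ten]
  have hR : (0 : ℝ) ≤ E.X / E.W := by positivity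
  have hT : ∀ t : ℕ, t ≤ T1 → G ^ 33 * E.H ν ^ t ≤ E.X / E.W := fun t ht =>
    rb_fin hH hx hX (by positivity) hGW (t := T1)
      (by rw [Real.rpow_natCast]; exact pow_le_pow_right₀ hH1 ht) (by linarith)
  have hg : η * E.L ν / 2 ≤ gs E.P (E.H ν ^ η) := by
    have a1 := hB E.w hE.w10 (3 * E.x) 1 (E.H ν ^ η) le_rfl hy1 (by push_cast; linarith)
    rw [filter_congr (q := fun T => (pr T : ℝ) < E.H ν ^ η) fun T hT => and_iff_right (by
      exact_mod_cast pr_pos fun q hq => hP q (mem_powerset.1 hT hq)), div_one,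
      Real.log_rpow h0, show cW E.w * (η * Real.log (E.H ν)) = η * E.L ν by
        unfold Env.L; ring] at a1
    have a2 : 4 / (E.w : ℝ) ≤ 4 / 10 :=
      div_le_div_of_nonneg_left (by norm_num) (by norm_num) (by exact_mod_cast hE.w10)
    have a3 : 4 / (E.w : ℝ) * (η * E.L ν) ≤ 4 / 10 * (η * E.L ν) := by gcongr
    rw [div_le_iff₀ hη] at h3
    have a4 : η * E.L ν - (4 / (E.w : ℝ) * (η * E.L ν) + B E.w) ≤ gs E.P (E.H ν ^ η) := by
      have := (abs_le.1 a1).1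
      unfold gs Env.P
      linarith
    linarith
  have hL0 : 0 < E.L ν := by linarith
  have hg2 : (η * E.L ν / 2) ^ 2 ≤ gs E.P (E.H ν ^ η) ^ 2 := by gcongr
  have hgu := (gs_le_mert hP (E.H ν ^ η)).trans h1
  have hS : ∀ n ∈ rgh E (E.H ν ^ η) i, n ∈ E.I ∧ Rough (E.H ν ^ η) (n + E.h i) := fun n hn => by
    classical exact mem_filter.1 hn
  have key : ∀ u m : ℝ, 0 ≤ u → 0 ≤ m → u * gs E.P (E.H ν ^ η) ^ 2 ≤
      ((1 + K) * C ^ 4 + C + 1) * (m * E.L ν ^ 2) →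
      u ≤ 4 * ((1 + K) * C ^ 4 + C + 1) / η ^ 2 * m := fun u m hu hm h => by
    rw [div_mul_eq_mul_div, le_div_iff₀ (by positivity)]
    refine le_of_mul_le_mul_right ?_ (by positivity : 0 < E.L ν ^ 2)
    nlinarith [mul_le_mul_of_nonneg_left hg2 hu]
  refine ⟨key _ _ (Nat.cast_nonneg _) (by positivity) ?_, fun jj hjj => ?_⟩
  · have a1 := rough_count hG hP E.x E.X E.W E.a (E.h i) (erra_Wpos E) (fun q hq => erra_cop hq)
      (by linarith) (hyH.trans hH3) _ hS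
    have a2 : G ^ 8 * (E.H ν ^ η) ^ 2 ≤ G ^ 33 * E.H ν ^ 2 := by
      rw [pow_one] at hyH
      gcongr
      norm_num
    have a3 : E.X / E.W * gs E.P (E.H ν ^ η) ≤ E.X / E.W * (C * E.L ν) := by gcongr
    have a4 : (E.X : ℝ) / E.W ≤ E.X / E.W * E.L ν := le_mul_of_one_le_right hR hL
    have a5 : 0 ≤ (1 + K) * C ^ 4 * (E.X / E.W * E.L ν) := by positivity
    rw [show E.X / E.W / E.L ν * E.L ν ^ 2 = E.X / E.W * E.L ν by field_simp]
    linarith [hT 2 h2]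
  have hb : ∀ b, ∑ n ∈ rgh E (E.H ν ^ η) i,
      (∏ l ∈ univ.erase i, sv E.P (cell (E.H ν) (jj (l, b))) (n + E.h l)) ^ 2 ≤
        4 * ((1 + K) * C ^ 4 + C + 1) / η ^ 2 * (E.X / E.W * E.L ν ^ 2) := fun b => by
    refine key _ _ (sum_nonneg fun _ _ => sq_nonneg _) (by positivity) ?_
    obtain ⟨e, he⟩ : ∃ e : Slot → ℕ, e = fun s => if s.1 = i then 1 else jj (s.1, b) + 1 := ⟨_, rfl⟩
    obtain ⟨z, hz⟩ : ∃ z : Slot → ℕ → ℝ, z = fun s =>
      if s.1 = i then low (E.H ν ^ η) else cell (E.H ν) (jj (s.1, b)) := ⟨_, rfl⟩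
    have a1 : ∑ s, e s ≤ T1 := by
      refine le_of_eq_of_le ?_ (hjj b)
      rw [he, Fintype.sum_prod_type, ← add_sum_erase univ _ (mem_univ i), mul_sum]
      simp only [if_true, sum_const, card_univ, Fintype.card_bool, smul_eq_mul, mul_one]
      exact congrArg _ (sum_congr rfl fun l hl => by rw [if_neg (ne_of_mem_erase hl)])
    have a2 : ∀ s, Supp (z s) (E.H ν ^ e s) := fun s => by
      rw [he, hz]
      beta_reduce
      split_ifs
      · exact fun r => ⟨(supp_low _ r).1, fun h => ((supp_low _ r).2 h).trans_le hyH⟩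
      · exact k1_supp_cell _ _
    have a3 := k1 hG E.h hE.inj E.w hE.hlt E.P (fun q hq => erra_memP hq) E.x E.X E.W E.a
      (erra_Wpos E) (fun q hq => erra_cop hq) z _ a2 (fun s => by positivity)
      (fun s => erra_pow_le hr hH hx
        ((single_le_sum (fun _ _ => Nat.zero_le _) (mem_univ s)).trans a1)) 1 (Or.inl rfl) i
    simp only [ind, one_dvd, if_true, one_mul, prod_pow_eq_pow_sum] at a3
    have a4 := hdec E.w hE.w10 E.P (fun q hq => erra_memP hq) z (fun s r => (a2 s r).1) 1 i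
      (Or.inl rfl) (fun h => absurd (hP 1 h) Nat.not_prime_one)
    rw [Nat.cast_one, div_one, one_mul, one_mul] at a4
    have hm0 := maina_mert_nonneg hP
    have a5 : ∏ l, ip E.P (z (l, false)) (z (l, true)) ≤ mert E.P ^ 4 := by
      refine (le_abs_self _).trans ?_
      rw [abs_prod]
      refine (prod_le_prod (fun _ _ => abs_nonneg _) fun l _ =>
        rb_ip_le hP (fun r => (a2 _ r).1) fun r => (a2 _ r).1).trans_eq ?_
      rw [prod_const, card_univ, Fintype.card_fin]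
    have a6 : K * mert E.P ^ 4 / E.w ≤ K * mert E.P ^ 4 :=
      div_le_self (by positivity) (by exact_mod_cast le_trans (by norm_num) hE.w10)
    have a7 : mert E.P ^ 4 ≤ (C * E.L ν) ^ 4 := by gcongr
    have a8 : M1 E.P z 1 i ≤ (1 + K) * (C * E.L ν) ^ 4 := by
      nlinarith [(abs_le.1 a4).2, mul_le_mul_of_nonneg_left a7 hK.le]
    have a9 : (∑ n ∈ rgh E (E.H ν ^ η) i,
        (∏ l ∈ univ.erase i, sv E.P (cell (E.H ν) (jj (l, b))) (n + E.h l)) ^ 2) *
          gs E.P (E.H ν ^ η) ^ 2 ≤ ∑ n ∈ cls E.x E.X E.W E.a, Pw E.P E.h z n := by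
      rw [hz, sum_mul]
      simp only [rb_pw E.P E.h _ fun l => cell (E.H ν) (jj (l, b))]
      refine le_trans (sum_le_sum fun n hn => ?_)
        (sum_le_sum_of_subset_of_nonneg (fun n hn => (hS n hn).1) fun _ _ _ => by positivity)
      rw [sv_low hP (hS n hn).2, mul_comm]
    have a10 : (E.X : ℝ) / E.W ≤ E.X / E.W * E.L ν ^ 4 :=
      le_mul_of_one_le_right hR (one_le_pow₀ hL)
    have a11 : 0 ≤ C * (E.X / E.W * E.L ν ^ 4) := by positivity
    nlinarith [(abs_le.1 a3).2, hT _ a1, mul_le_mul_of_nonneg_left a8 hR]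
  have hc := add_le_add (hb false) (hb true)
  rw [← sum_add_distrib, ← two_mul] at hc
  refine le_of_mul_le_mul_left (le_trans ?_ hc) two_pos
  rw [mul_sum]
  refine sum_le_sum fun n _ => ?_
  rw [rb_psi, abs_mul, ← sq_abs (∏ l ∈ _, sv _ (cell _ (jj (l, false))) _),
    ← sq_abs (∏ l ∈ _, sv _ (cell _ (jj (l, true))) _), ← mul_assoc]
  exact two_mul_le_add_sq _ _

end Pool.Agent.Lib.MP_c03ca8_nt.P3
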