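import Pool.Agent.Lib.MP_c03ca8_nt.P3.BtA
import Pool.Agent.Lib.MP_c03ca8_nt.P3.Rb

set_option autoImplicit false

noncomputable section

namespace Pool.Agent.Lib.MP_c03ca8_nt.P3

open Finset Real Pool.Agent.Lib.MP_c03ca8_nt.Q

theorem bt_rough {y : ℝ} {B : ℕ → ℕ → ℝ} (hB : Adm y B) {m : ℕ} (h : bil y B m ≠ 0) :
    Rough y m := by
  unfold bil at h
  obtain ⟨p, hp, h0⟩ := exists_ne_zero_of_sum_ne_zero h
  obtain ⟨h1, h2⟩ := mem_filter.mp hp
  have h3 := (rough_prime (Nat.prime_of_mem_primeFactors h1) h2).mul (hB.supp _ _ h0).1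
  rwa [Nat.mul_div_cancel' (Nat.dvd_of_mem_primeFactors h1)] at h3

theorem bt_om {y : ℝ} {B : ℕ → ℕ → ℝ} (hB : Adm y B) (m : ℕ) : |bil y B m| ≤ om m := by
  unfold bil
  refine (abs_sum_le_sum_abs _ _).trans ((sum_le_card_nsmul _ _ 1 fun p _ => hB.bd _ _).trans ?_)
  rw [nsmul_eq_mul, mul_one]
  exact_mod_cast card_filter_le _ _

/-- `bt1`, `main3`, the first part of `rb`: if `bil ≠ 0` at `m` then `m = p * (m / p)` is rough,
and `|bil| ≤ om m ≤ ⌈2 ν / η⌉₊` (`om_le`). -/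
theorem bt {ν θ : ℝ} {T1 T2 M : ℕ} (hr : Rng ν θ T1 T2 M) (hθ : θ < 1) (h2 : 2 ≤ T1) {ε η : ℝ}
    (hε : 0 < ε) (hη : 0 < η) (hη1 : η < 1) :
    Ev1 fun E => ∀ (jj : Slot → ℕ) (i : Fin 4) (B : ℕ → ℕ → ℝ), (∀ s, jj s < M) →
      ∑ s ∈ univ.filter (fun s : Slot => s.1 ≠ i), (jj s + 1) ≤ T2 → Adm (E.H ν ^ η) B →
      |∑ n ∈ E.I, bil (E.H ν ^ η) B (n + E.h i) * (Psi E ν jj i n - c0 E ν jj i)| ≤
        ε * (E.X / E.W * E.L ν ^ 2) := by
  classical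
  obtain ⟨C, hC, hrb⟩ := rb hr h2 hη hη1
  obtain ⟨K, hK⟩ : ∃ K : ℝ, K = (⌈2 * ν / η⌉₊ : ℕ) + 1 := ⟨_, rfl⟩
  have hK0 : 0 < K := by rw [hK]; positivity
  have hε2 : 0 < ε / 2 := by positivity
  have hε3 : 0 < ε / 2 / (K * C) := by positivity
  refine ((bt1 hr hε2 hη hη1).and (ev1_of hθ (((main3 hr hε3).and hrb).and
    (ev_tame (θ := θ) hr.pos one_pos one_pos 0)))).mono ?_
  rintro E hE ⟨h1, ⟨h3, h4⟩, G, -, -, hL, hH, hx, -⟩ jj i B hj hT hB
  have hL0 : 0 < E.L ν := by linarith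
  have hx3 : (3 : ℝ) ≤ E.x := by exact_mod_cast le_trans (by norm_num) (hE.w10.trans hE.wx)
  have hs : |∑ n ∈ E.I, bil (E.H ν ^ η) B (n + E.h i)| ≤ C * (E.X / E.W / E.L ν) * K := by
    rw [← sum_subset (s₁ := rgh E (E.H ν ^ η) i) (filter_subset _ _) fun n hn hn' => by
      by_contra h0
      exact hn' (mem_filter.mpr ⟨hn, bt_rough hB h0⟩)]
    refine (abs_sum_le_sum_abs _ _).trans ((sum_le_card_nsmul _ _ K fun n hn => ?_).trans ?_)
    · obtain ⟨a1, a2⟩ := mem_filter.mp hn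
      obtain ⟨-, a3, a4⟩ := erra_memI hE a1 i
      have a5 : (om (n + E.h i) : ℝ) ≤ (⌈2 * ν / η⌉₊ : ℕ) := by
        exact_mod_cast om_le hr.pos hη (by linarith) hx hx3 a3 (by exact_mod_cast a4) a2
      linarith [bt_om hB (n + E.h i)]
    · rw [nsmul_eq_mul]
      exact mul_le_mul_of_nonneg_right (h4 i).1 hK0.le
  have e : ∑ n ∈ E.I, bil (E.H ν ^ η) B (n + E.h i) * (Psi E ν jj i n - c0 E ν jj i) =
      ∑ n ∈ E.I, bil (E.H ν ^ η) B (n + E.h i) * (Psi E ν jj i n - c1 E.P (cz (E.H ν) jj) i) +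
        (∑ n ∈ E.I, bil (E.H ν ^ η) B (n + E.h i)) *
          (c1 E.P (cz (E.H ν) jj) i - c0 E ν jj i) := by
    rw [sum_mul, ← sum_add_distrib]
    exact sum_congr rfl fun n _ => by ring
  have h5 := mul_le_mul hs (h3 jj i hj) (abs_nonneg _) ((abs_nonneg _).trans hs)
  have e2 : C * (E.X / E.W / E.L ν) * K * (ε / 2 / (K * C) * E.L ν ^ 3) =
      ε / 2 * (E.X / E.W * E.L ν ^ 2) := by
    field_simp
  rw [e2, ← abs_mul] at h5
  rw [e]
  refine (abs_add_le _ _).trans ?_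
  linarith [h1 jj i B hj hT hB]

theorem bt_cW (w : ℕ) : cW w ≤ 1 :=
  prod_le_one (fun q hq => by
    have h : (1 : ℝ) ≤ q := by exact_mod_cast (Nat.prime_of_mem_primesLE hq).one_le
    exact sub_nonneg.mpr (div_le_one_of_le₀ h (by linarith))) fun q _ =>
      sub_le_self _ (by positivity)

theorem bt_fin {ε u A B X W L : ℝ} (hε : 0 < ε) (hW : 0 < W) (hL : 1 ≤ L) (hB : 0 ≤ B)
    (hu : 0 ≤ u) (h1 : A * W ≤ ε * u) (h2 : B * u ≤ X) : B * A ≤ ε * (X / W * L ^ 2) := by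
  have hX : 0 ≤ X := (mul_nonneg hB hu).trans h2
  have e1 : B * A ≤ ε * (X / W) := by
    rw [← mul_div_assoc, le_div_iff₀ hW]
    calc B * A * W = B * (A * W) := by ring
      _ ≤ B * (ε * u) := by gcongr
      _ = ε * (B * u) := by ring
      _ ≤ ε * X := by gcongr
  refine e1.trans (mul_le_mul_of_nonneg_left ?_ hε.le)
  exact le_mul_of_one_le_right (by positivity) (one_le_pow₀ hL)

/-- `erra_card_sq`, `abs_Pw_le`, `|c0| ≤ L ^ 3 ≤ G ^ 3`; compare the proof of `asym3`. -/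
theorem sq_small {ν θ : ℝ} {T1 T2 M : ℕ} (hr : Rng ν θ T1 T2 M) {ε η : ℝ} (hε : 0 < ε)
    (hη : 0 < η) :
    Ev θ fun E => ∀ (jj : Slot → ℕ) (i : Fin 4), (∀ s, jj s < M) →
      ∑ n ∈ E.sq ν η i, |Psi E ν jj i n - c0 E ν jj i| ≤ ε * (E.X / E.W * E.L ν ^ 2) := by
  have hδ1 : 0 < θ * ν - ν / 2 := by
    have := hr.t2
    have h2 : (0 : ℝ) ≤ T2 := Nat.cast_nonneg _
    linarith
  have hδ : 0 < min η (θ * ν - ν / 2) := lt_min hη hδ1
  have hε8 : 0 < ε / 8 := by positivity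
  refine (ev_tame (θ := θ) hr.pos hδ hε8 32).mono ?_
  rintro E hE hX ⟨G, hG, hGW, hL, hH, hx, -⟩ jj i hj
  have h0 : (0 : ℝ) < E.H ν := by linarith
  have h1 : (1 : ℝ) ≤ E.H ν := by linarith
  have hG1 : (1 : ℝ) ≤ G := by linarith [hG.ten]
  have hW : (0 : ℝ) < E.W := by exact_mod_cast erra_Wpos E
  have hH3 : E.H ν ≤ 3 * E.x := by
    simpa only [pow_one] using erra_pow_le hr hH hx (hr.one_le.trans hr.mt)
  have hLG : E.L ν ≤ G := by
    have a1 := Real.log_le_log h0 hH3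
    have a2 : E.L ν ≤ Real.log (E.H ν) := mul_le_of_le_one_left (Real.log_nonneg h1) (bt_cW _)
    linarith [hG.log]
  have hc0 : |c0 E ν jj i| ≤ G ^ 32 := by
    have a1 : |∏ l ∈ univ.erase i, dl (jj (l, false)) (jj (l, true))| ≤ 1 := by
      rw [abs_prod]
      refine prod_le_one (fun _ _ => abs_nonneg _) fun l _ => ?_
      unfold dl
      split_ifs <;> simp
    have a2 : E.L ν ^ 3 ≤ G ^ 3 := pow_le_pow_left₀ (by linarith) hLG 3
    have a3 : G ^ 3 ≤ G ^ 32 := pow_le_pow_right₀ hG1 (by norm_num)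
    have a4 : 0 ≤ E.L ν ^ 3 := by positivity
    unfold c0
    rw [abs_mul, abs_of_nonneg a4]
    exact (mul_le_of_le_one_right a4 a1).trans (a2.trans a3)
  have hb : ∀ n ∈ E.sq ν η i, |Psi E ν jj i n - c0 E ν jj i| ≤ 2 * G ^ 32 := by
    intro n hn
    have hI : n ∈ E.I := by
      classical
      unfold Env.sq at hn
      exact (mem_filter.mp hn).1
    have a1 : |Psi E ν jj i n| ≤ G ^ 32 :=
      abs_Pw_le hG (fun q hq => (erra_memP hq).1) E.h (supp_cz _ jj)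
        (fun s => erra_pow_le hr hH hx (le_trans (hj s) hr.mt)) (hH.trans hH3) i fun l =>
          ⟨(erra_memI hE hI l).2.1, by exact_mod_cast (erra_memI hE hI l).2.2⟩
    linarith [abs_sub (Psi E ν jj i n) (c0 E ν jj i)]
  have hy : 1 ≤ E.H ν ^ η := Real.one_le_rpow h1 hη.le
  have hc := erra_card_sq hE hy i
  have hu : 0 ≤ E.H ν ^ min η (θ * ν - ν / 2) := by positivity
  have t1 := bt_fin (B := E.X / E.H ν ^ η) (X := E.X) hε8 hW hL (by positivity) hu hGW (by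
    rw [div_mul_eq_mul_div, div_le_iff₀ (by linarith)]
    exact mul_le_mul_of_nonneg_left (Real.rpow_le_rpow_of_exponent_le h1 (min_le_left _ _))
      (Nat.cast_nonneg _))
  have t2 := bt_fin (B := √(E.x : ℝ)) (X := E.X) hε8 hW hL (by positivity) hu hGW (by
    refine le_trans ?_ hX
    rw [← hx, Real.sqrt_eq_rpow, ← Real.rpow_mul h0.le, ← Real.rpow_mul h0.le, ← Real.rpow_add h0]
    exact Real.rpow_le_rpow_of_exponent_le h1 (by linarith [min_le_right η (θ * ν - ν / 2)]))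
  refine (sum_le_card_nsmul _ _ _ hb).trans ?_
  rw [nsmul_eq_mul]
  have hG0 : (0 : ℝ) ≤ 2 * G ^ 32 := by positivity
  linarith [mul_le_mul_of_nonneg_right hc hG0]

end Pool.Agent.Lib.MP_c03ca8_nt.P3
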