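import Pool.Agent.Lib.MP_c03ca8_nt.P3.Defs

set_option autoImplicit false

noncomputable section

namespace Pool.Agent.Lib.MP_c03ca8_nt.P3

open Finset Real Pool.Agent.Lib.MP_c03ca8_nt.Q

theorem loc_abs_val {q : ℕ} (hq : 2 ≤ q) (i : Fin 4) (S : Finset Slot) (o : Option (Fin 4)) :
    |val 1 i q S o| ≤ 1 := by
  have hq' : (2 : ℝ) ≤ q := by exact_mod_cast hq
  have h1 : q ≠ 1 := by omega
  unfold Q.val
  rw [if_neg h1, one_mul, abs_prod]
  refine prod_le_one (fun s _ => abs_nonneg _) fun s _ => ?_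
  split_ifs
  · simp
  · rw [abs_of_pos (by apply div_pos <;> linarith), div_le_one (by linarith)]
    linarith

theorem abs_ee_le {q : ℕ} (hq : 2 ≤ q) (i : Fin 4) (S : Finset Slot) (l : Fin 4) :
    |ee i q S l| ≤ 2 := by
  unfold ee
  have := abs_sub (val 1 i q S (some l)) (val 1 i q S none)
  linarith [loc_abs_val hq i S (some l), loc_abs_val hq i S none]

theorem ee_empty {q : ℕ} (hq : 2 ≤ q) (i l : Fin 4) : ee i q ∅ l = 0 := by
  have h1 : q ≠ 1 := by omega
  simp [ee, Q.val, h1]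

theorem ee_self {q : ℕ} (hq : 2 ≤ q) {i : Fin 4} {S : Finset Slot} (h : Out i S) :
    ee i q S i = 0 := by
  have h1 : q ≠ 1 := by omega
  unfold ee Q.val
  rw [if_neg h1, if_neg h1, one_mul, one_mul, sub_eq_zero]
  refine prod_congr rfl fun s hs => ?_
  have hne : ¬ (some i = some s.1) := by
    intro e
    have e' : i = s.1 := Option.some.inj e
    obtain ⟨l, b⟩ := s
    simp only at e'
    subst e'
    cases b
    · exact h.1 hs
    · exact h.2 hs
  rw [if_neg hne, if_neg (by simp)]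

theorem abs_mu_le {q : ℕ} (hq : 2 ≤ q) (i : Fin 4) (S : Finset Slot) : |mu i q S| ≤ 7 := by
  have hq' : (2 : ℝ) ≤ q := by exact_mod_cast hq
  unfold mu
  split_ifs
  · have h1 : |∑ l ∈ univ.erase i, ee i q S l / ((q : ℝ) - 1)| ≤ 6 := by
      refine (abs_sum_le_sum_abs _ _).trans ?_
      have : ∀ l ∈ univ.erase i, |ee i q S l / ((q : ℝ) - 1)| ≤ 2 := by
        intro l _
        rw [abs_div, abs_of_pos (by linarith : (0 : ℝ) < (q : ℝ) - 1), div_le_iff₀ (by linarith)]
        nlinarith [abs_ee_le hq i S l]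
      refine (sum_le_sum this).trans ?_
      rw [sum_const, card_erase_of_mem (mem_univ i)]
      simp
      norm_num
    have := abs_add_le (val 1 i q S none) (∑ l ∈ univ.erase i, ee i q S l / ((q : ℝ) - 1))
    linarith [loc_abs_val hq i S none]
  · simp

theorem loc_vv {q : ℕ} (hq : 2 ≤ q) {i : Fin 4} {S : Finset Slot} (h : Out i S) :
    vv 1 i q S = val 1 i q S none + ∑ l ∈ univ.erase i, ee i q S l / (q : ℝ) := by
  have e : ∑ l ∈ univ.erase i, ee i q S l / (q : ℝ) = ∑ l, ee i q S l / (q : ℝ) := by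
    rw [← add_sum_erase univ _ (mem_univ i), ee_self hq h]
    simp
  rw [e]
  unfold vv ee
  simp only [Fin.sum_univ_four]
  ring

theorem loc_point (i : Fin 4) {q : ℕ} (hq : 11 ≤ q) (S : Finset Slot) :
    |mu i q S - v3 i q S| ≤ 247 / (q : ℝ) ^ 2 := by
  have hq' : (11 : ℝ) ≤ q := by exact_mod_cast hq
  have hq2 : 2 ≤ q := by omega
  have h1 : q ≠ 1 := by omega
  have hq0 : (0 : ℝ) < q := by linarith
  have hq1 : (0 : ℝ) < (q : ℝ) - 1 := by linarith
  by_cases h : Out i S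
  · have e1 : v1 1 i q S = vv 1 i q S := by
      unfold v1
      rw [if_neg (fun h' => h1 h'.1)]
    have hp := local_point 1 i q hq S
    rw [e1] at hp
    have e2 : mu i q S - vv 1 i q S =
        ∑ l ∈ univ.erase i, ee i q S l * (1 / ((q : ℝ) * ((q : ℝ) - 1))) := by
      rw [loc_vv hq2 h]
      unfold mu
      rw [if_pos h, add_sub_add_left_eq_sub, ← sum_sub_distrib]
      refine sum_congr rfl fun l _ => ?_
      field_simp
      ring
    have hc : (0 : ℝ) < 1 / ((q : ℝ) * ((q : ℝ) - 1)) := by positivity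
    have h3 : |mu i q S - vv 1 i q S| ≤ 6 * (1 / ((q : ℝ) * ((q : ℝ) - 1))) := by
      rw [e2]
      refine (abs_sum_le_sum_abs _ _).trans ?_
      have : ∀ l ∈ univ.erase i, |ee i q S l * (1 / ((q : ℝ) * ((q : ℝ) - 1)))| ≤
          2 * (1 / ((q : ℝ) * ((q : ℝ) - 1))) := by
        intro l _
        rw [abs_mul, abs_of_pos hc]
        exact mul_le_mul_of_nonneg_right (abs_ee_le hq2 i S l) hc.le
      refine (sum_le_sum this).trans ?_
      rw [sum_const, card_erase_of_mem (mem_univ i), card_univ, Fintype.card_fin, nsmul_eq_mul]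
      norm_num
      linarith
    have h4 : 6 * (1 / ((q : ℝ) * ((q : ℝ) - 1))) ≤ 7 / (q : ℝ) ^ 2 := by
      rw [mul_one_div, div_le_div_iff₀ (by positivity) (by positivity)]
      nlinarith
    have e3 : v3 i q S = v0 1 i q S := by
      unfold v3
      rw [if_pos h]
    rw [e3]
    have h5 := abs_add_le (mu i q S - vv 1 i q S) (vv 1 i q S - v0 1 i q S)
    rw [sub_add_sub_cancel] at h5
    have e4 : (247 : ℝ) / (q : ℝ) ^ 2 = 7 / (q : ℝ) ^ 2 + 240 / (q : ℝ) ^ 2 := by ring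
    linarith
  · unfold mu v3
    rw [if_neg h, if_neg h, sub_self, abs_zero]
    positivity

theorem loc_v3 (i : Fin 4) {q : ℕ} (hq : 11 ≤ q) (S : Finset Slot) :
    v3 i q S = (if (i, false) ∈ S then 0 else 1) * v0 1 i q S := by
  have h1 : q ≠ 1 := by omega
  unfold v3 Out
  by_cases e : (i, false) ∈ S
  · simp [e]
  · by_cases e' : (i, true) ∈ S
    · have : v0 1 i q S = 0 := by
        unfold v0
        refine prod_eq_zero (mem_univ i) ?_
        simp [u1, h1, e, e']
      simp [this]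
    · simp [e, e']

/-- For `Out i S` one has `vv 1 i q S = val none + ∑ l, ee l / q`, so
`|mu - vv| ≤ 6 / (q (q - 1)) ≤ 7 / q ^ 2`, and `local_point` (with `p = 1`, `v1 = vv`) gives
`|vv - v0| ≤ 240 / q ^ 2`; there are `256` sets `S`. The sum of `v3` is
`(1 + 1 / (q - 1)) ^ 3` (`local_sum`, compare `local_v0_sum`), `v3 ≥ 0`, and
`max |mu| |v3| ≤ v3 + |mu - v3|`. -/
theorem loc3 : ∃ K : ℝ, 1 ≤ K ∧ ∀ (i : Fin 4) (q : ℕ), 11 ≤ q →
    (∑ S : Finset Slot, |mu i q S - v3 i q S| ≤ K / (q : ℝ) ^ 2) ∧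
    (∑ S : Finset Slot, max |mu i q S| |v3 i q S| ≤
      (1 + 1 / ((q : ℝ) - 1)) ^ 3 * (1 + K / (q : ℝ) ^ 2)) := by
  refine ⟨63232, by norm_num, fun i q hq => ?_⟩
  have hq' : (11 : ℝ) ≤ q := by exact_mod_cast hq
  have hq0 : (0 : ℝ) < q := by linarith
  have hq1 : (0 : ℝ) < (q : ℝ) - 1 := by linarith
  have h1 : q ≠ 1 := by omega
  have hcard : (Fintype.card (Finset Slot) : ℝ) = 256 := by
    simp
  have hD : ∑ S : Finset Slot, |mu i q S - v3 i q S| ≤ 63232 / (q : ℝ) ^ 2 := by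
    refine (sum_le_sum fun S _ => loc_point i hq S).trans ?_
    rw [sum_const, card_univ, nsmul_eq_mul, hcard]
    exact le_of_eq (by ring)
  refine ⟨hD, ?_⟩
  have hnn : ∀ S, 0 ≤ v3 i q S := fun S => by
    unfold v3
    split_ifs
    · exact local_v0_nonneg 1 i q hq S
    · exact le_rfl
  have hmax : ∀ S, max |mu i q S| |v3 i q S| ≤ v3 i q S + |mu i q S - v3 i q S| := fun S => by
    refine max_le ?_ ?_
    · have := abs_add_le (v3 i q S) (mu i q S - v3 i q S)
      rw [abs_of_nonneg (hnn S), add_sub_cancel] at this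
      exact this
    · rw [abs_of_nonneg (hnn S)]
      linarith [abs_nonneg (mu i q S - v3 i q S)]
  refine (sum_le_sum fun S _ => hmax S).trans ?_
  rw [sum_add_distrib, sum_congr rfl fun S _ => loc_v3 i hq S, local_v0_sum 1 i q h1 0 1]
  have hu : (0 : ℝ) < 1 / ((q : ℝ) - 1) := by positivity
  have h4 : (1 : ℝ) ≤ (1 + 1 / ((q : ℝ) - 1)) ^ 3 := one_le_pow₀ (by linarith)
  have h5 : (0 : ℝ) ≤ 63232 / (q : ℝ) ^ 2 := by positivity
  nlinarith

end Pool.Agent.Lib.MP_c03ca8_nt.P3
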