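import Pool.Agent.Lib.MP_c03ca8_nt.P3.Basic
import Pool.Agent.Lib.MP_c03ca8_nt.P3.Loc

set_option autoImplicit false

noncomputable section

namespace Pool.Agent.Lib.MP_c03ca8_nt.P3

open Finset Real Pool.Agent.Lib.MP_c03ca8_nt.Q

theorem dec3_v3 {P : Finset ℕ} (hP : ∀ q ∈ P, q.Prime) (z : Slot → ℕ → ℝ) (i : Fin 4) :
    ∑ T ∈ Fintype.piFinset (fun _ : Slot => P.powerset),
      (∏ s, zo z i s (pr (T s))) * ∏ q ∈ P, v3 i q (cfg T q) =
      ∏ l ∈ univ.erase i, ip P (z (l, false)) (z (l, true)) := by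
  have h := sum_v0 hP (zo z i) 1 (Or.inl rfl) i fun h => absurd (hP 1 h) Nat.not_prime_one
  have e1 : ∏ l, ip P (zo z i (l, false)) (zo z i (l, true)) =
      ∏ l ∈ univ.erase i, ip P (z (l, false)) (z (l, true)) := by
    rw [← mul_prod_erase univ _ (mem_univ i)]
    have a1 : ∀ b, zo z i (i, b) = dlt := fun b => if_pos rfl
    rw [a1, a1, ip_dlt hP, one_mul]
    refine prod_congr rfl fun l hl => ?_
    have a2 : ∀ b, zo z i (l, b) = z (l, b) := fun b => if_neg (ne_of_mem_erase hl)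
    rw [a2, a2]
  rw [Nat.cast_one, div_one, one_mul, e1] at h
  rw [← h]
  refine sum_congr rfl fun T hT => ?_
  by_cases h0 : ∃ b, T (i, b) ≠ ∅
  · obtain ⟨b, hb⟩ := h0
    have hsub : T (i, b) ⊆ P := mem_powerset.1 (Fintype.mem_piFinset.1 hT (i, b))
    have a1 : zo z i (i, b) = dlt := if_pos rfl
    have h1 : ∏ s, zo z i s (pr (T s)) = 0 :=
      prod_eq_zero (mem_univ (i, b)) (by rw [a1, dlt_pr fun q hq => hP q (hsub hq), if_neg hb])
    rw [h1, zero_mul, zero_mul]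
  · push Not at h0
    congr 1
    refine prod_congr rfl fun q _ => ?_
    unfold v3
    rw [if_pos]
    constructor <;> simp [cfg, h0]

/-- As `decouple` with `p = 1`. In `sum_v0` for `zo z i` replace `v0` by `v3` (if a slot of the
form `i` is not empty then `dlt` vanishes, `dlt_pr`), `ip_dlt`; then `abs_prod_sub_prod`,
`sum_cfg`, `loc3`, `decouple_sum_sq`, `decouple_prod_c`. The second part is `sum_cfg`, `loc3`. -/
theorem dec3 : ∃ K : ℝ, 0 < K ∧ ∀ (w : ℕ), 10 ≤ w → ∀ (P : Finset ℕ),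
    (∀ q ∈ P, q.Prime ∧ w < q) → ∀ (z : Slot → ℕ → ℝ), (∀ s r, |z s r| ≤ 1) → ∀ (i : Fin 4),
    |c1 P z i - ∏ l ∈ univ.erase i, ip P (z (l, false)) (z (l, true))| ≤ K * mert P ^ 3 / w ∧
      |c1 P z i| ≤ K * mert P ^ 3 := by
  obtain ⟨K, hK, hloc⟩ := loc3
  have hK0 : 0 ≤ K := by linarith
  have hE : 0 < Real.exp K := Real.exp_pos K
  refine ⟨K * Real.exp K, by positivity, fun w hw P hP z hz i => ?_⟩
  have h11 : ∀ q ∈ P, 11 ≤ q := fun q hq => by have := (hP q hq).2; omega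
  have hm := decouple_mert_nonneg hw hP
  have hz1 : ∀ T : Slot → Finset ℕ, |∏ s, zo z i s (pr (T s))| ≤ 1 := fun T =>
    (decouple_abs_z (abs_zo_le hz i) T (i, false)).trans (abs_zo_le hz i _ _)
  constructor
  · rw [c1, ← dec3_v3 (fun q hq => (hP q hq).1) z i, ← sum_sub_distrib]
    have hstep : ∀ q0 ∈ P, ∏ q ∈ P, ∑ S : Finset Slot,
        (if q = q0 then |mu i q S - v3 i q S| else max |mu i q S| |v3 i q S|) ≤
        mert P ^ 3 * Real.exp K * K * (1 / (q0 : ℝ) ^ 2) := by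
      intro q0 hq0
      calc ∏ q ∈ P, ∑ S : Finset Slot,
          (if q = q0 then |mu i q S - v3 i q S| else max |mu i q S| |v3 i q S|)
          ≤ ∏ q ∈ P, ((1 + 1 / ((q : ℝ) - 1)) ^ 3 * (1 + K / (q : ℝ) ^ 2) *
              (if q = q0 then K / (q : ℝ) ^ 2 else 1)) := by
            refine prod_le_prod (fun q _ => sum_nonneg fun S _ => ?_) fun q hq => ?_
            · split_ifs
              · exact abs_nonneg _
              · exact le_max_of_le_left (abs_nonneg _)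
            · obtain ⟨l1, l2⟩ := hloc i q (h11 q hq)
              have hc := decouple_one_le (h11 q hq) hK0 3
              by_cases h : q = q0
              · simp only [if_pos h]
                exact l1.trans (le_mul_of_one_le_left (by positivity) hc)
              · simp only [if_neg h, mul_one]
                exact l2
        _ = (∏ q ∈ P, ((1 + 1 / ((q : ℝ) - 1)) ^ 3 * (1 + K / (q : ℝ) ^ 2))) *
              (K / (q0 : ℝ) ^ 2) := by
            rw [prod_mul_distrib, prod_ite_eq' P q0 (fun q : ℕ => K / (q : ℝ) ^ 2), if_pos hq0]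
        _ ≤ mert P ^ 3 * Real.exp K * (K / (q0 : ℝ) ^ 2) :=
            mul_le_mul_of_nonneg_right (decouple_prod_c hw hP hK0 3) (by positivity)
        _ = _ := by ring
    calc |∑ T ∈ Fintype.piFinset (fun _ : Slot => P.powerset),
          ((∏ s, zo z i s (pr (T s))) * ∏ q ∈ P, mu i q (cfg T q) -
            (∏ s, zo z i s (pr (T s))) * ∏ q ∈ P, v3 i q (cfg T q))|
        ≤ ∑ T ∈ Fintype.piFinset (fun _ : Slot => P.powerset), ∑ q0 ∈ P, ∏ q ∈ P,
            (if q = q0 then |mu i q (cfg T q) - v3 i q (cfg T q)|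
              else max |mu i q (cfg T q)| |v3 i q (cfg T q)|) := by
          refine (abs_sum_le_sum_abs _ _).trans (sum_le_sum fun T _ => ?_)
          rw [← mul_sub, abs_mul]
          exact (mul_le_of_le_one_left (abs_nonneg _) (hz1 T)).trans (abs_prod_sub_prod P _ _)
      _ = ∑ q0 ∈ P, ∏ q ∈ P, ∑ S : Finset Slot,
            (if q = q0 then |mu i q S - v3 i q S| else max |mu i q S| |v3 i q S|) := by
          rw [sum_comm]
          exact sum_congr rfl fun q0 _ => sum_cfg P fun q S =>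
            if q = q0 then |mu i q S - v3 i q S| else max |mu i q S| |v3 i q S|
      _ ≤ mert P ^ 3 * Real.exp K * K * ∑ q0 ∈ P, 1 / (q0 : ℝ) ^ 2 := by
          rw [mul_sum]
          exact sum_le_sum hstep
      _ ≤ mert P ^ 3 * Real.exp K * K * (1 / w) :=
          mul_le_mul_of_nonneg_left (decouple_sum_sq hw hP) (by positivity)
      _ = K * Real.exp K * mert P ^ 3 / w := by ring
  · calc |c1 P z i| ≤ ∑ T ∈ Fintype.piFinset (fun _ : Slot => P.powerset),
          ∏ q ∈ P, |mu i q (cfg T q)| := by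
          refine (abs_sum_le_sum_abs _ _).trans (sum_le_sum fun T _ => ?_)
          rw [abs_mul, abs_prod P]
          exact mul_le_of_le_one_left (prod_nonneg fun q _ => abs_nonneg _) (hz1 T)
      _ = ∏ q ∈ P, ∑ S : Finset Slot, |mu i q S| := sum_cfg P fun q S => |mu i q S|
      _ ≤ ∏ q ∈ P, ((1 + 1 / ((q : ℝ) - 1)) ^ 3 * (1 + K / (q : ℝ) ^ 2)) :=
          prod_le_prod (fun q _ => sum_nonneg fun S _ => abs_nonneg _) fun q hq =>
            (sum_le_sum fun S _ => le_max_left _ _).trans (hloc i q (h11 q hq)).2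
      _ ≤ mert P ^ 3 * Real.exp K := decouple_prod_c hw hP hK0 3
      _ ≤ K * (mert P ^ 3 * Real.exp K) := le_mul_of_one_le_left (by positivity) hK
      _ = K * Real.exp K * mert P ^ 3 := by ring

/-- As `main0`: `dec3`, the first part of `inner`, `maint_prod`, `ev_size`. -/
theorem main3 {ν θ : ℝ} {T1 T2 M : ℕ} (hr : Rng ν θ T1 T2 M) {ε : ℝ} (hε : 0 < ε) :
    Ev θ fun E => ∀ (jj : Slot → ℕ) (i : Fin 4), (∀ s, jj s < M) →
      |c1 E.P (cz (E.H ν) jj) i - c0 E ν jj i| ≤ ε * E.L ν ^ 3 := by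
  obtain ⟨K, hK, hdec⟩ := dec3
  obtain ⟨A, hA, hin⟩ := inner M
  choose! B hB0 hB using hin
  obtain ⟨C, hC, hsz⟩ := ev_size (θ := θ) hr.pos
  set δ : ℝ := min 1 (ε / 16) with hδ
  have hδ0 : 0 < δ := lt_min one_pos (by positivity)
  have hδ1 : δ ≤ 1 := min_le_left _ _
  have hδ2 : δ ≤ ε / 16 := min_le_right _ _
  obtain ⟨w1, hw1⟩ := exists_nat_ge (max (2 * A / δ) (2 * (K * C ^ 3) / ε))
  refine ((hsz (fun w => 2 * B w / δ) one_pos).and (maina_ev_w θ w1)).mono ?_
  rintro E hG - ⟨⟨h1, h2, -, -, h5, h6⟩, h7⟩ jj i hjj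
  have hw10 := hG.w10
  have hw0 : (0 : ℝ) < E.w := by exact_mod_cast (by omega : 0 < E.w)
  have hw1' : (w1 : ℝ) ≤ E.w := by exact_mod_cast h7
  have hwA : 2 * A / δ ≤ E.w := ((le_max_left _ _).trans hw1).trans hw1'
  have hwK : 2 * (K * C ^ 3) / ε ≤ E.w := ((le_max_right _ _).trans hw1).trans hw1'
  have hlog : 0 < Real.log (E.H ν) := Real.log_pos (by linarith)
  have hL : 0 < E.L ν := mul_pos (cW_pos _) hlog
  have hP : ∀ q ∈ E.P, q.Prime ∧ E.w < q := fun q hq => maina_mem_P hq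
  have hd := (hdec E.w hw10 E.P hP (cz (E.H ν) jj) (fun s r => (supp_cz _ jj s r).1) i).1
  have hm0 : 0 ≤ mert E.P := maina_mert_nonneg fun q hq => (hP q hq).1
  have hd2 : K * mert E.P ^ 3 / E.w ≤ ε / 2 * E.L ν ^ 3 := by
    have e1 : mert E.P ^ 3 ≤ (C * E.L ν) ^ 3 := pow_le_pow_left₀ hm0 h1 3
    have e2 : K * C ^ 3 ≤ ε / 2 * E.w := by
      rw [div_le_iff₀ hε] at hwK; linarith
    rw [div_le_iff₀ hw0]
    calc K * mert E.P ^ 3 ≤ K * (C * E.L ν) ^ 3 := by gcongr
      _ = K * C ^ 3 * E.L ν ^ 3 := by ring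
      _ ≤ ε / 2 * E.w * E.L ν ^ 3 := by gcongr
      _ = ε / 2 * E.L ν ^ 3 * E.w := by ring
  have hab : ∀ l : Fin 4, |ip E.P (cz (E.H ν) jj (l, false)) (cz (E.H ν) jj (l, true)) / E.L ν -
      dl (jj (l, false)) (jj (l, true))| ≤ δ := by
    intro l
    have e0 := (hB E.w hw10 (E.H ν) (3 * E.x) (by linarith) (maina_pow_le hr h5 h6) _ _
      (hjj (l, false)) (hjj (l, true))).1
    have e1 : A / E.w ≤ δ / 2 := by
      rw [div_le_iff₀ hδ0] at hwA
      rw [div_le_iff₀ hw0]; linarith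
    have e2 : B E.w ≤ δ / 2 * E.L ν := by
      have := h2
      rw [div_le_iff₀ hδ0] at this; linarith
    have e3 : A / E.w * E.L ν ≤ δ / 2 * E.L ν := by gcongr
    rw [div_sub' hL.ne', abs_div, abs_of_pos hL, div_le_iff₀ hL, mul_comm (E.L ν)]
    refine e0.trans ?_
    change A / E.w * E.L ν + B E.w ≤ _
    linarith
  have hb : ∀ l : Fin 4, |dl (jj (l, false)) (jj (l, true))| ≤ 1 := by
    intro l
    unfold dl
    split_ifs <;> norm_num
  have hc : (univ.erase i).card = 3 := by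
    rw [card_erase_of_mem (mem_univ i), card_univ, Fintype.card_fin]
  have h4 := (maint_prod (univ.erase i) _ _ hδ0.le hδ1 (fun l _ => hab l) fun l _ => hb l).1
  rw [prod_div_distrib, prod_const, hc, div_sub' (pow_pos hL 3).ne', abs_div,
    abs_of_pos (pow_pos hL 3), div_le_iff₀ (pow_pos hL 3)] at h4
  have e5 : 2 ^ 3 * δ * E.L ν ^ 3 ≤ ε / 2 * E.L ν ^ 3 := by
    have : 2 ^ 3 * δ ≤ ε / 2 := by linarith
    gcongr
  have tri := abs_sub_le (c1 E.P (cz (E.H ν) jj) i)
    (∏ l ∈ univ.erase i, ip E.P (cz (E.H ν) jj (l, false)) (cz (E.H ν) jj (l, true)))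
    (E.L ν ^ 3 * ∏ l ∈ univ.erase i, dl (jj (l, false)) (jj (l, true)))
  unfold c0
  linarith

end Pool.Agent.Lib.MP_c03ca8_nt.P3
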