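import Pool.Agent.Lib.MP_c03ca8_nt.P3.Bx
import Pool.Agent.Lib.MP_c03ca8_nt.P3.Btx
import Pool.Agent.Lib.MP_c03ca8_nt.P3.Dec3

set_option autoImplicit false

noncomputable section

namespace Pool.Agent.Lib.MP_c03ca8_nt.P3

open Finset Real Pool.Agent.Lib.MP_c03ca8_nt.Q

theorem bta_sum (E : Env) (z : Slot → ℕ → ℝ) (i : Fin 4) (f : ℕ → ℝ) :
    ∑ n ∈ E.I, f (n + E.h i) * (Pw E.P E.h (zo z i) n - c1 E.P z i) =
      ∑ m ∈ Ioc (E.x + E.h i) (E.x + E.h i + E.X),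
        f m * Th E.P E.h z i E.W (E.a + E.h i) m := by
  have e : E.x + E.h i + E.X = E.x + E.X + E.h i := by ring
  rw [e, ← Finset.map_add_right_Ioc, Finset.sum_map]
  unfold Env.I cls
  rw [Finset.sum_filter]
  refine Finset.sum_congr rfl fun n _ => ?_
  simp only [addRightEmbedding_apply, Th, Nat.add_sub_cancel]
  by_cases h : n ≡ E.a [MOD E.W]
  · rw [if_pos h, if_pos (h.add_right _)]
  · rw [if_neg h, if_neg fun h' => h (Nat.ModEq.add_right_cancel' _ h'), mul_zero]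

theorem bta_cW (w : ℕ) : cW w ≤ 1 := by
  have h1 := W_cW w
  have h2 : (Nat.totient (primorial w) : ℝ) ≤ primorial w := by
    exact_mod_cast Nat.totient_le _
  have h3 : (0 : ℝ) < primorial w := by exact_mod_cast primorial_pos w
  by_contra h
  have h4 := mul_lt_mul_of_pos_left (lt_of_not_ge h) h3
  linarith

theorem bta_three {x X W v y Q : ℝ} (hv : 10 ≤ v) (hX : 0 < X) (hx0 : 0 ≤ x) (hx : x ≤ X * v)
    (hy : v ^ 20 ≤ y) (hWv : W ≤ v) (hQ0 : 0 ≤ Q) (hQ : Q * v ^ 20 ≤ 2 * √x) :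
    √(X * (3 * x / y)) + X / √(1 / v ^ 2 * y) + W * Q * √(X / (1 / v ^ 2)) ≤ 3 * (X / v ^ 2) := by
  have hv0 : 0 < v := by linarith
  have hv1 : 1 ≤ v := by linarith
  have hy0 : 0 < y := lt_of_lt_of_le (by positivity) hy
  have t1 : √(X * (3 * x / y)) ≤ X / v ^ 2 := by
    refine Real.sqrt_le_iff.2 ⟨by positivity, ?_⟩
    have h1 : 3 * x / y ≤ X / v ^ 4 := by
      rw [div_le_div_iff₀ hy0 (by positivity)]
      calc 3 * x * v ^ 4 ≤ v * (X * v) * v ^ 4 := by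
            have : (3 : ℝ) ≤ v := by linarith
            gcongr
        _ = X * v ^ 6 := by ring
        _ ≤ X * v ^ 20 := by gcongr; norm_num
        _ ≤ X * y := by gcongr
    calc X * (3 * x / y) ≤ X * (X / v ^ 4) := by gcongr
      _ = (X / v ^ 2) ^ 2 := by field_simp
  have t2 : X / √(1 / v ^ 2 * y) ≤ X / v ^ 2 := by
    refine div_le_div_of_nonneg_left hX.le (by positivity) (Real.le_sqrt_of_sq_le ?_)
    rw [one_div_mul_eq_div, le_div_iff₀ (by positivity)]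
    calc (v ^ 2) ^ 2 * v ^ 2 = v ^ 6 := by ring
      _ ≤ v ^ 20 := by gcongr; norm_num
      _ ≤ y := hy
  have t3 : W * Q * √(X / (1 / v ^ 2)) ≤ X / v ^ 2 := by
    have h1 : X / (1 / v ^ 2) = X * v ^ 2 := by field_simp
    rw [h1, Real.sqrt_mul hX.le, Real.sqrt_sq hv0.le, le_div_iff₀ (by positivity)]
    have h2 : (Q * v ^ 20) ^ 2 ≤ (2 * √x) ^ 2 := by gcongr
    rw [mul_pow 2, Real.sq_sqrt hx0] at h2
    have h3 : (Q * v ^ 4) ^ 2 ≤ X := by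
      have h4 : (Q * v ^ 4) ^ 2 * v ^ 32 ≤ X * v ^ 32 := by
        calc (Q * v ^ 4) ^ 2 * v ^ 32 = (Q * v ^ 20) ^ 2 := by ring
          _ ≤ 2 ^ 2 * x := h2
          _ ≤ v * (X * v) := by
              have : (2 : ℝ) ^ 2 ≤ v := by linarith
              gcongr
          _ = X * v ^ 2 := by ring
          _ ≤ X * v ^ 32 := by gcongr; norm_num
      exact le_of_mul_le_mul_right h4 (by positivity)
    have h5 : Q * v ^ 4 ≤ √X := Real.le_sqrt_of_sq_le h3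
    calc W * Q * (√X * v) * v ^ 2 ≤ v * Q * (√X * v) * v ^ 2 := by gcongr
      _ = Q * v ^ 4 * √X := by ring
      _ ≤ √X * √X := by gcongr
      _ = X := Real.mul_self_sqrt hX.le
  linarith

theorem bta_D {G W F v A : ℝ} (hv : 10 ≤ v) (hW0 : 0 ≤ W) (hWv : W ≤ v)
    (hA : G ^ 8 * W ≤ v) (hF0 : 0 ≤ F) (hF : F ≤ 2 * v ^ 2) (hA0 : A = W * F) :
    2 * G ^ 8 * v ^ 2 * A ^ 4 ≤ v ^ 16 := by
  have hv0 : 0 < v := by linarith
  have h32 : (32 : ℝ) ≤ v ^ 2 := by nlinarith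
  subst hA0
  calc 2 * G ^ 8 * v ^ 2 * (W * F) ^ 4 = 2 * (G ^ 8 * W) * v ^ 2 * W ^ 3 * F ^ 4 := by ring
    _ ≤ 2 * v * v ^ 2 * v ^ 3 * (2 * v ^ 2) ^ 4 := by gcongr
    _ = 32 * v ^ 14 := by ring
    _ ≤ v ^ 2 * v ^ 14 := by gcongr
    _ = v ^ 16 := by ring

theorem bta_fin {x x' X W v y G a1 F S lg e : ℝ} {j : ℕ} (hv : 10 ≤ v) (hX : 0 < X)
    (hx : x ≤ X * v) (hx' : x' ≤ 2 * x) (hvX : v ≤ X) (hy : v ^ 20 ≤ y) (hW1 : 1 ≤ W)
    (hWv : W ≤ v) (hG : 1 ≤ G) (he : 0 ≤ e) (hA : G ^ (j + 34) * W ≤ e * v) (hF : v ^ 2 ≤ F)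
    (hlg0 : 0 ≤ lg) (hlg : lg ≤ G) (hS : S ≤ 3 * (X / v ^ 2)) :
    12 * (a1 + G ^ j * W / F + G ^ j / y) * X * lg + 4 * (G ^ j * W) * G * S +
      G ^ 33 * G * (4 * (1 / v ^ 2) * x' + 3 * x / y + 4) ≤ 12 * a1 * X * lg + 51 * e * (X / W) := by
  have hv0 : 0 < v := by linarith
  have hv1 : 1 ≤ v := by linarith
  have hW0 : 0 < W := by linarith
  have hG0 : 0 < G := by linarith
  have hy2 : v ^ 2 ≤ y := le_trans (by gcongr; norm_num) hy
  have hy0 : 0 < y := lt_of_lt_of_le (by positivity) hy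
  have hF0 : 0 < F := lt_of_lt_of_le (by positivity) hF
  have hA1 : G ^ j * W * G ≤ e * v := by
    calc G ^ j * W * G = G ^ (j + 1) * W := by ring
      _ ≤ G ^ (j + 34) * W := by gcongr; norm_num
      _ ≤ e * v := hA
  have hA2 : G ^ 33 * G * W ≤ e * v := by
    calc G ^ 33 * G * W = G ^ 34 * W := by ring
      _ ≤ G ^ (j + 34) * W := by gcongr; omega
      _ ≤ e * v := hA
  have hb : G ^ j * W * G * (X / v ^ 2) ≤ e * (X / W) := by
    calc G ^ j * W * G * (X / v ^ 2) ≤ e * v * (X / v ^ 2) := by gcongr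
      _ = e * (X / v) := by field_simp
      _ ≤ e * (X / W) := by gcongr
  have t1 : G ^ j * W / F * X * lg ≤ e * (X / W) := by
    calc G ^ j * W / F * X * lg ≤ G ^ j * W / v ^ 2 * X * G := by gcongr
      _ = G ^ j * W * G * (X / v ^ 2) := by ring
      _ ≤ _ := hb
  have t2 : G ^ j / y * X * lg ≤ e * (X / W) := by
    have : G ^ j ≤ G ^ j * W := le_mul_of_one_le_right (by positivity) hW1
    calc G ^ j / y * X * lg ≤ G ^ j * W / v ^ 2 * X * G := by gcongr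
      _ = G ^ j * W * G * (X / v ^ 2) := by ring
      _ ≤ _ := hb
  have t3 : G ^ j * W * G * S ≤ 3 * (e * (X / W)) := by
    calc G ^ j * W * G * S ≤ G ^ j * W * G * (3 * (X / v ^ 2)) := by gcongr
      _ = 3 * (G ^ j * W * G * (X / v ^ 2)) := by ring
      _ ≤ _ := by gcongr
  have s1 : 1 / v ^ 2 * x' ≤ 2 * (X / v) := by
    calc 1 / v ^ 2 * x' ≤ 1 / v ^ 2 * (2 * (X * v)) := by gcongr; linarith
      _ = 2 * (X / v) := by field_simp
  have s2 : 3 * x / y ≤ 3 * (X / v) := by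
    calc 3 * x / y ≤ 3 * (X * v) / v ^ 2 := by gcongr
      _ = 3 * (X / v) := by field_simp
  have s3 : 1 ≤ X / v := by rwa [one_le_div hv0]
  have t4 : G ^ 33 * G * (4 * (1 / v ^ 2) * x' + 3 * x / y + 4) ≤ 15 * (e * (X / W)) := by
    calc G ^ 33 * G * (4 * (1 / v ^ 2) * x' + 3 * x / y + 4) ≤ G ^ 33 * G * (15 * (X / v)) := by
          gcongr; linarith
      _ = 15 * (G ^ 33 * G * W * (X / (v * W))) := by field_simp
      _ ≤ 15 * (e * v * (X / (v * W))) := by gcongr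
      _ = 15 * (e * (X / W)) := by field_simp
  nlinarith

theorem bta_main {K C m L w W c δ l ν lg X ε : ℝ} (hK : 0 < K) (hC : 0 < C) (hm0 : 0 ≤ m)
    (hm : m ≤ C * L)    (hw0 : 0 < w) (hW : 0 < W) (hc : 0 < c) (hδ : 0 < δ) (hl : 0 < l) (hL : L = c * l)
    (hX : 0 < X) (hlg0 : 0 ≤ lg) (hlg : lg ≤ 3 * ν * l) (hε : 0 < ε)
    (hw : 72 * ν * K * C ^ 3 / (δ ^ 2 * ε) ≤ w) :
    12 * (K * m ^ 3 / (w * (W * c) * (δ * l) ^ 2)) * X * lg ≤ ε / 2 * (X / W * L ^ 2) := by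
  have hL0 : 0 < L := hL ▸ mul_pos hc hl
  rw [div_le_iff₀ (by positivity)] at hw
  calc 12 * (K * m ^ 3 / (w * (W * c) * (δ * l) ^ 2)) * X * lg
      ≤ 12 * (K * (C * L) ^ 3 / (w * (W * c) * (δ * l) ^ 2)) * X * (3 * ν * l) := by gcongr
    _ = 72 * ν * K * C ^ 3 * (X / W * L ^ 2 / (2 * w * δ ^ 2)) := by
        rw [hL]; field_simp; ring
    _ ≤ w * (δ ^ 2 * ε) * (X / W * L ^ 2 / (2 * w * δ ^ 2)) := by gcongr
    _ = ε / 2 * (X / W * L ^ 2) := by field_simp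

/-- `btx` on the interval `(x + h i, x + h i + X]` with `Θ = Th E.P E.h (cz H jj) i W (a + h i)`,
`Y = 3 x`, `y = H ^ η`, `P2 = 3 x / y`, box bound `bx`. Put `δ = min η (ν / 2 - T2) / 20`,
`u = H ^ δ`, `Z1 = u`, `F0 = ⌈u⌉₊`, `Q = ⌈H ^ T2⌉₊`, `γ = 1 / u ^ 3`, and take `θ'` with
`(1 - θ') ν ≤ δ`, so `x ≤ X u`. `W ≤ G` and `C ≤ G` for large `x` (`ev_size`), so `mert ≤ G ^ 2`,
and `G ^ k ≤ ε u ^ (1 / 2)` (`ev_tame`). `Bd = G ^ 33` (`abs_Pw_le`, `dec3`). The only term without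
a power saving is `12 K mert ^ 3 X (1 + log (3 x)) / (w φ W δ ^ 2 log ^ 2 H)`; use `W_cW`,
`L = cW log H`, `1 + log (3 x) ≤ 3 ν log H`, and `w` large (`maina_ev_w`). -/
theorem bt1 {ν θ : ℝ} {T1 T2 M : ℕ} (hr : Rng ν θ T1 T2 M) {ε η : ℝ} (hε : 0 < ε) (hη : 0 < η)
    (hη1 : η < 1) :
    Ev1 fun E => ∀ (jj : Slot → ℕ) (i : Fin 4) (B : ℕ → ℕ → ℝ), (∀ s, jj s < M) →
      ∑ s ∈ univ.filter (fun s : Slot => s.1 ≠ i), (jj s + 1) ≤ T2 → Adm (E.H ν ^ η) B →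
      |∑ n ∈ E.I, bil (E.H ν ^ η) B (n + E.h i) *
        (Psi E ν jj i n - c1 E.P (cz (E.H ν) jj) i)| ≤ ε * (E.X / E.W * E.L ν ^ 2) := by
  obtain ⟨K, Z0, j, hK, hbx⟩ := bx
  obtain ⟨K3, hK3, hdec⟩ := dec3
  have hν := hr.pos
  have hT : 0 < ν / 2 - T2 := by
    have h1 := hr.t2
    have h2 : θ * ν ≤ 1 * ν := mul_le_mul_of_nonneg_right hr.le_one hν.le
    linarith
  obtain ⟨δ, hδ, hd1, hd2⟩ : ∃ δ : ℝ, 0 < δ ∧ δ * 20 ≤ η ∧ T2 + δ * 20 ≤ ν / 2 := by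
    refine ⟨min η (ν / 2 - T2) / 20, by have := lt_min hη hT; positivity, ?_, ?_⟩
    · linarith [min_le_left η (ν / 2 - T2)]
    · linarith [min_le_right η (ν / 2 - T2)]
  refine ⟨1 - δ / ν, by have := div_pos hδ hν; linarith, ?_⟩
  obtain ⟨C, hC, hsz⟩ := ev_size (θ := 1 - δ / ν) hν
  obtain ⟨w1, hw1⟩ := exists_nat_ge (max K (72 * ν * K * C ^ 3 / (δ ^ 2 * ε)))
  have he : 0 < min 1 (ε / 102) := lt_min one_pos (by positivity)
  refine (((hsz (fun _ => (C / ν + K3 + |Z0|) / ν) hη).and (maina_ev_w _ w1)).and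
    (ev_tame hν hδ he (j + 34))).mono ?_
  rintro E hE hX ⟨⟨⟨h1, -, h3, h4, -, -⟩, h7⟩, G, hG, hGW, hL, hH, hHν, hwx⟩ jj i B hjj hT2 hB
  have hLe : E.L ν = cW E.w * Real.log (E.H ν) := rfl
  unfold Psi
  generalize hHd : E.H ν = H at h3 h4 hGW hH hHν hB hLe ⊢
  have hH1 : 1 ≤ H := by linarith
  have hH0 : 0 < H := by linarith
  have hl : 0 < Real.log H := Real.log_pos (by linarith)
  have hw10 := hE.w10
  have hwx' := hE.wx
  have hXx' := hE.Xx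
  have hhi := hE.hlt i
  have hx10 : (10 : ℝ) ≤ E.x := by exact_mod_cast (by omega : 10 ≤ E.x)
  have hx0 : (0 : ℝ) < E.x := by linarith
  have hXx : (E.X : ℝ) ≤ E.x := by exact_mod_cast hXx'
  have hW1 : (1 : ℝ) ≤ E.W := by exact_mod_cast primorial_pos E.w
  have hG1 : 1 ≤ G := by linarith [hG.ten]
  have hw0 : (0 : ℝ) < E.w := by exact_mod_cast (by omega : 0 < E.w)
  have hw1' : (w1 : ℝ) ≤ E.w := by exact_mod_cast h7
  obtain ⟨v, hv⟩ : ∃ v, v = H ^ δ := ⟨_, rfl⟩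
  obtain ⟨y, hy⟩ : ∃ y, y = H ^ η := ⟨_, rfl⟩
  rw [← hv] at hGW
  rw [← hy] at h4 hB ⊢
  have hv0 : 0 < v := hv ▸ Real.rpow_pos_of_pos hH0 _
  have hlv : Real.log v = δ * Real.log H := by rw [hv, Real.log_rpow hH0]
  have hlx : Real.log E.x = ν * Real.log H := by rw [← hHν, Real.log_rpow hH0]
  have hv20 : v ^ 20 = H ^ (δ * 20) := by
    rw [hv, ← Real.rpow_natCast, ← Real.rpow_mul hH0.le]; norm_num
  have hy20 : v ^ 20 ≤ y := by
    rw [hv20, hy]; exact Real.rpow_le_rpow_of_exponent_le hH1 hd1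
  have hsq : √(E.x : ℝ) = H ^ (ν / 2) := by
    rw [Real.sqrt_eq_rpow, ← hHν, ← Real.rpow_mul hH0.le]; congr 1; ring
  have f2 : H ^ T2 * v ^ 20 ≤ √(E.x : ℝ) := by
    rw [hv20, hsq, ← Real.rpow_natCast, ← Real.rpow_add hH0]
    exact Real.rpow_le_rpow_of_exponent_le hH1 hd2
  have hsx : √(E.x : ℝ) ≤ E.x := by
    rw [Real.sqrt_le_left hx0.le]; nlinarith
  have hxX : (E.x : ℝ) ≤ E.X * v := by
    have e1 : (E.x : ℝ) ^ (1 - δ / ν) * v = E.x := by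
      rw [hv, ← hHν, ← Real.rpow_mul hH0.le, ← Real.rpow_add hH0]
      congr 1; field_simp; ring
    calc (E.x : ℝ) = (E.x : ℝ) ^ (1 - δ / ν) * v := e1.symm
      _ ≤ E.X * v := by gcongr
  have hX0 : (0 : ℝ) < E.X := (Real.rpow_pos_of_pos hx0 _).trans_le hX
  have hGWv : G ^ (j + 34) * E.W ≤ v :=
    hGW.trans (mul_le_of_le_one_left hv0.le (min_le_left _ _))
  have hWv : (E.W : ℝ) ≤ v := (le_mul_of_one_le_left (by linarith) (one_le_pow₀ hG1)).trans hGWv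
  have hGv : G ≤ v := by
    calc G ≤ G ^ (j + 34) := le_self_pow₀ hG1 (by omega)
      _ ≤ G ^ (j + 34) * E.W := le_mul_of_one_le_right (by positivity) hW1
      _ ≤ v := hGWv
  have hv10 : 10 ≤ v := hG.ten.trans hGv
  have hv1 : 1 ≤ v := by linarith
  have hG8 : G ^ 8 * E.W ≤ v := by
    refine le_trans ?_ hGWv
    gcongr
    omega
  have hT1 : 1 ≤ H ^ T2 := one_le_pow₀ hH1
  have hv20x : v ^ 20 ≤ E.x := ((le_mul_of_one_le_left (by positivity) hT1).trans f2).trans hsx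
  have hvy : v ≤ y := (le_self_pow₀ hv1 (by norm_num)).trans hy20
  have hy1 : 1 ≤ y := hv1.trans hvy
  have hvv : v * v ≤ E.x := by
    calc v * v = v ^ 2 := by ring
      _ ≤ v ^ 20 := by gcongr; norm_num
      _ ≤ E.x := hv20x
  have hvX : v ≤ E.X := le_of_mul_le_mul_right (hvv.trans hxX) hv0
  have hlog3 : Real.log (3 * (E.x : ℝ)) = Real.log 3 + ν * Real.log H := by
    rw [Real.log_mul (by norm_num) hx0.ne', hlx]
  have hl3 : 0 ≤ Real.log 3 := Real.log_nonneg (by norm_num)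
  have hνl : 0 < ν * Real.log H := mul_pos hν hl
  have hlG : ν * Real.log H ≤ G := by have := hG.log; linarith
  have hbig : C / ν + K3 + |Z0| ≤ G := by
    rw [div_le_iff₀ hν] at h3
    linarith
  have hCν : 0 < C / ν := by positivity
  have hK3G : K3 ≤ G := by linarith [abs_nonneg Z0]
  have hZ0 : Z0 ≤ v := by linarith [le_abs_self Z0]
  have hP : ∀ q ∈ E.P, q.Prime ∧ E.w < q := fun q hq => erra_memP hq
  have hm0 : 0 ≤ mert E.P := maina_mert_nonneg fun q hq => (hP q hq).1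
  have hmG : mert E.P ≤ G ^ 2 := by
    have e1 : E.L ν ≤ Real.log H := by
      rw [hLe]; exact mul_le_of_le_one_left hl.le (bta_cW _)
    have e2 : C / ν ≤ G := by linarith [abs_nonneg Z0]
    calc mert E.P ≤ C * E.L ν := h1
      _ ≤ C * Real.log H := by gcongr
      _ = C / ν * (ν * Real.log H) := by field_simp
      _ ≤ G * G := by gcongr
      _ = G ^ 2 := by ring
  have hlg : 1 + Real.log (3 * (E.x : ℝ)) ≤ 3 * ν * Real.log H := by
    have e1 : Real.log 3 ≤ Real.log E.x := Real.log_le_log (by norm_num) (by linarith)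
    have e2 : 1 ≤ Real.log E.x := by
      rw [Real.le_log_iff_exp_le hx0]
      linarith [Real.exp_one_lt_d9]
    rw [hlog3]; linarith
  have hlg0 : 0 ≤ 1 + Real.log (3 * (E.x : ℝ)) := by rw [hlog3]; linarith
  obtain ⟨F0, hF0⟩ : ∃ F0 : ℕ, F0 = ⌈v ^ 2⌉₊ := ⟨_, rfl⟩
  obtain ⟨Q, hQ⟩ : ∃ Q : ℕ, Q = ⌈H ^ T2⌉₊ := ⟨_, rfl⟩
  have hv2 : 1 ≤ v ^ 2 := one_le_pow₀ hv1
  have hF1 : v ^ 2 ≤ F0 := hF0 ▸ Nat.le_ceil _
  have hF2 : (F0 : ℝ) ≤ 2 * v ^ 2 := by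
    have := Nat.ceil_lt_add_one (by positivity : (0 : ℝ) ≤ v ^ 2)
    rw [hF0]; linarith
  have hF3 : 1 ≤ F0 := by exact_mod_cast hv2.trans hF1
  have hQ1 : H ^ T2 ≤ Q := hQ ▸ Nat.le_ceil _
  have hQ2 : (Q : ℝ) ≤ 2 * H ^ T2 := by
    have := Nat.ceil_lt_add_one (by positivity : (0 : ℝ) ≤ H ^ T2)
    rw [hQ]; linarith
  have hQ3 : (Q : ℝ) * v ^ 20 ≤ 2 * √(E.x : ℝ) := by
    calc (Q : ℝ) * v ^ 20 ≤ 2 * H ^ T2 * v ^ 20 := by gcongr
      _ = 2 * (H ^ T2 * v ^ 20) := by ring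
      _ ≤ 2 * √(E.x : ℝ) := by gcongr
  have hWQ : ((E.W * Q : ℕ) : ℝ) ≤ 3 * (E.x : ℝ) := by
    rw [Nat.cast_mul]
    calc (E.W : ℝ) * Q ≤ v ^ 20 * Q := by
          gcongr
          exact hWv.trans (le_self_pow₀ hv1 (by norm_num))
      _ = Q * v ^ 20 := mul_comm _ _
      _ ≤ 3 * (E.x : ℝ) := by linarith
  have hZQ : ∏ s ∈ univ.filter (fun s : Slot => s.1 ≠ i), H ^ (jj s + 1) ≤ (Q : ℝ) := by
    rw [Finset.prod_pow_eq_pow_sum]
    exact (pow_le_pow_right₀ hH1 hT2).trans hQ1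
  have hD : 2 * G ^ 8 * v ^ 2 * ((E.W * F0 : ℕ) : ℝ) ^ 4 ≤ v ^ 16 :=
    bta_D hv10 (by linarith) hWv hG8 (Nat.cast_nonneg _) hF2 (Nat.cast_mul _ _)
  have hxi : ((E.x + E.h i : ℕ) : ℝ) * 2 ≤ 3 * (E.x : ℝ) := by
    exact_mod_cast (by omega : (E.x + E.h i) * 2 ≤ 3 * E.x)
  have hΘ : ∀ m ∈ Ioc (E.x + E.h i) (E.x + E.h i + E.X),
      |Th E.P E.h (cz H jj) i E.W (E.a + E.h i) m| ≤ G ^ 33 := by
    intro m hm
    rw [mem_Ioc] at hm
    unfold Th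
    split_ifs
    · have e1 := abs_Pw_le hG (fun q hq => (hP q hq).1) E.h (supp_cz H jj)
        (fun s => erra_pow_le hr hH hHν (le_trans (hjj s) hr.mt)) (by linarith) i
        (n := m - E.h i) fun l => by
          have := hE.hlt l
          exact ⟨by omega, by exact_mod_cast (by omega : m - E.h i + E.h l ≤ 3 * E.x)⟩
      have e2 := (hdec E.w hw10 E.P hP (cz H jj) (fun s r => (supp_cz H jj s r).1) i).2
      have e3 : K3 * mert E.P ^ 3 ≤ G ^ 32 := by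
        calc K3 * mert E.P ^ 3 ≤ G * (G ^ 2) ^ 3 := by gcongr
          _ = G ^ 7 := by ring
          _ ≤ G ^ 32 := by gcongr; norm_num
      have e4 : G ^ 32 * 2 ≤ G ^ 33 := by
        rw [pow_succ G 32]
        have : 2 ≤ G := by linarith [hG.ten]
        gcongr
      have e5 := abs_sub (Pw E.P E.h (zo (cz H jj) i) (m - E.h i)) (c1 E.P (cz H jj) i)
      linarith
    · rw [abs_zero]; positivity
  have hφ : (Nat.totient E.W : ℝ) = E.W * cW E.w := (W_cW E.w).symm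
  have hγy : v ^ 16 ≤ 1 / v ^ 2 * y := by
    rw [one_div_mul_eq_div, le_div_iff₀ (by positivity)]
    calc v ^ 16 * v ^ 2 = v ^ 18 := by ring
      _ ≤ v ^ 20 := by gcongr; norm_num
      _ ≤ y := hy20
  have key := btx (y := y) (P2 := 3 * (E.x : ℝ) / y) (γ := 1 / v ^ 2)
    (α := K * mert E.P ^ 3 / (E.w * Nat.totient E.W * Real.log v ^ 2) + G ^ j * E.W / F0 +
      G ^ j / y) (β := G ^ j * E.W) (D := 2 * G ^ 8 * v ^ 2 * ((E.W * F0 : ℕ) : ℝ) ^ 4)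
    (Q := ((E.W * Q : ℕ) : ℝ)) (Bd := G ^ 33) hG (E.x + E.h i) E.X (by omega) (by linarith)
    (Th E.P E.h (cz H jj) i E.W (E.a + E.h i)) (by positivity)
    (by rwa [div_le_one (by positivity)]) ((one_le_pow₀ hv1).trans hγy) (by positivity)
    (by positivity) (by positivity) (by positivity) (by positivity) (hD.trans hγy)
    (by
      have e1 : 3 * (E.x : ℝ) / y ≤ E.X / v ^ 16 := by
        rw [div_le_div_iff₀ (by linarith) (by positivity)]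
        calc 3 * (E.x : ℝ) * v ^ 16 ≤ v * (E.X * v) * v ^ 16 := by
              have : (3 : ℝ) ≤ v := by linarith
              gcongr
          _ = E.X * v ^ 18 := by ring
          _ ≤ E.X * v ^ 20 := by gcongr; norm_num
          _ ≤ E.X * y := by gcongr
      calc _ ≤ v ^ 16 * (E.X / v ^ 16) := by gcongr
        _ = E.X := by field_simp)
    (by
      rw [div_mul_cancel₀ _ (by linarith)]
      exact_mod_cast (by omega : E.x + E.h i + E.X ≤ 3 * E.x))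
    (div_le_self (by positivity) hy1) hΘ
    (fun J P0 Δ A B' b hJ hJp hAB hb hbr hpr =>
      hbx hG E.h hE.inj E.w hw10 (((le_max_left _ _).trans hw1).trans hw1') hE.hlt E.P hP hmG
        (cz H jj) (fun s => H ^ (jj s + 1)) (supp_cz H jj) i Q hZQ E.W (E.a + E.h i) F0
        (erra_Wpos E) (hE.cop i) (fun q hq => erra_cop hq) hWQ hF3 h4
        (fun q hq hd => hq.dvd_primorial_iff.1 hd) hZ0 hvy (by linarith) J P0 Δ A B' b hJ hJp
        hAB hb hbr fun p hp r hr' => by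
          have := (mem_Ioc.1 (hpr p hp r hr')).2
          exact_mod_cast (by omega : p * r + E.w ≤ 3 * E.x)) hB
  rw [bta_sum E (cz H jj) i (bil y B)]
  refine key.trans ?_
  rw [Nat.cast_mul E.W Q, hφ, hlv]
  have k1 := bta_three hv10 hX0 hx0.le hxX hy20 hWv (Nat.cast_nonneg Q) hQ3
  have k2 := bta_fin (x' := ((E.x + E.h i : ℕ) : ℝ))
    (a1 := K * mert E.P ^ 3 / (E.w * (E.W * cW E.w) * (δ * Real.log H) ^ 2)) hv10 hX0 hxX
    (by linarith) hvX hy20 hW1 hWv hG1 he.le hGW hF1 hlg0 hG.log k1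
  have k3 := bta_main hK hC hm0 h1 hw0 (by linarith : (0 : ℝ) < E.W) (cW_pos E.w) hδ hl hLe hX0
    hlg0 hlg hε (((le_max_right _ _).trans hw1).trans hw1')
  have k4 : 51 * min 1 (ε / 102) * ((E.X : ℝ) / E.W) ≤ ε / 2 * (E.X / E.W * E.L ν ^ 2) := by
    have e1 : 51 * min 1 (ε / 102) ≤ ε / 2 := by linarith [min_le_right 1 (ε / 102)]
    have e2 : (E.X : ℝ) / E.W ≤ E.X / E.W * E.L ν ^ 2 :=
      le_mul_of_one_le_right (by positivity) (one_le_pow₀ hL)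
    gcongr
  linarith

end Pool.Agent.Lib.MP_c03ca8_nt.P3
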