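import Pool.Agent.Lib.MP_c03ca8_nt.P3.Basic
import Pool.Agent.Lib.MP_c03ca8_nt.P3.Loc
import Pool.Agent.Lib.MP_c03ca8_nt.P3.ExG

set_option autoImplicit false

noncomputable section

namespace Pool.Agent.Lib.MP_c03ca8_nt.P3

open Finset Real Pool.Agent.Lib.MP_c03ca8_nt.Q

/-- The jump, switched off when the form `i` is used. -/
def exb_e (i : Fin 4) (q : ℕ) (S : Finset Slot) (l : Fin 4) : ℝ :=
  if Out i S then ee i q S l else 0

theorem exb_nu (h : Fin 4 → ℕ) (i : Fin 4) (q : ℕ) (S : Finset Slot) (m : ℕ) :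
    nu h i q S m = ∑ l ∈ univ.erase i, exb_e i q S l * xi q (h l) (h i) m := by
  unfold nu exb_e
  split_ifs
  · rfl
  · simp

theorem exb_six {q : ℕ} (hq : 2 ≤ q) (i : Fin 4) (S : Finset Slot) :
    ∑ l ∈ univ.erase i, |exb_e i q S l| ≤ 6 := by
  have h1 : ∀ l ∈ univ.erase i, |exb_e i q S l| ≤ 2 := fun l _ => by
    unfold exb_e
    split_ifs
    · exact abs_ee_le hq i S l
    · simp
  refine (sum_le_card_nsmul _ _ _ h1).trans ?_
  rw [card_erase_of_mem (mem_univ i), card_univ, Fintype.card_fin]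
  norm_num

theorem exb_slot {q : ℕ} (hq : 2 ≤ q) {i : Fin 4} {S : Finset Slot}
    (h : ∑ l ∈ univ.erase i, |exb_e i q S l| ≠ 0) : ∃ s ∈ S, s.1 ≠ i := by
  obtain ⟨l, -, hl⟩ := exists_ne_zero_of_sum_ne_zero h
  unfold exb_e at hl
  split_ifs at hl with ho
  · have hS : S ≠ ∅ := fun e => hl (by rw [e, ee_empty hq, abs_zero])
    obtain ⟨⟨l', c⟩, hs⟩ := nonempty_iff_ne_empty.2 hS
    refine ⟨_, hs, fun e => ?_⟩
    have e' : l' = i := e
    subst e'
    cases c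
    · exact ho.1 hs
    · exact ho.2 hs
  · exact absurd abs_zero hl

theorem exb_le {P : Finset ℕ} (hP : ∀ q ∈ P, q.Prime) {z : Slot → ℕ → ℝ} {Z : Slot → ℝ}
    (hz : ∀ s, Supp (z s) (Z s)) {i : Fin 4} {Q : ℕ}
    (hQ : ∏ s ∈ univ.filter (fun s : Slot => s.1 ≠ i), Z s ≤ Q) {U : Finset ℕ} (hU : U ⊆ P)
    {T : Slot → Finset ℕ} (hT : ∀ s, T s ⊆ P) (h1 : ∏ s, zo z i s (pr (T s)) ≠ 0)
    (h2 : ∏ q ∈ U, ∑ l ∈ univ.erase i, |exb_e i q (cfg T q) l| ≠ 0) : pr U ≤ Q := by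
  have h3 : pr U ∣ ∏ s ∈ univ.filter (fun s : Slot => s.1 ≠ i), pr (T s) := by
    refine prod_primes_dvd _ (fun q hq => (hP q (hU hq)).prime) fun q hq => ?_
    obtain ⟨s, hs, hi⟩ := exb_slot (hP q (hU hq)).two_le (prod_ne_zero_iff.1 h2 q hq)
    exact (dvd_prod_of_mem (fun q => q) (mem_filter.1 hs).2).trans
      (dvd_prod_of_mem (fun s => pr (T s)) (mem_filter.2 ⟨mem_univ s, hi⟩))
  have h4 := Nat.le_of_dvd (prod_pos fun s _ => prod_pos fun q hq => (hP q (hT s hq)).pos) h3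
  have h5 : ∏ s ∈ univ.filter (fun s : Slot => s.1 ≠ i), (pr (T s) : ℝ) ≤
      ∏ s ∈ univ.filter (fun s : Slot => s.1 ≠ i), Z s := by
    refine prod_le_prod (fun _ _ => Nat.cast_nonneg _) fun s hs => ((hz s _).2 ?_).le
    have h6 := prod_ne_zero_iff.1 h1 s (mem_univ s)
    rwa [zo, if_neg (mem_filter.1 hs).2] at h6
  rw [← Nat.cast_prod] at h5
  exact h4.trans (Nat.cast_le.1 (h5.trans hQ))

theorem exb_sum : ∃ K : ℝ, 1 ≤ K ∧ ∀ (w : ℕ), 10 ≤ w → ∀ (P : Finset ℕ),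
    (∀ q ∈ P, q.Prime ∧ w < q) → ∀ (z : Slot → ℕ → ℝ), (∀ s r, |z s r| ≤ 1) → ∀ (i : Fin 4),
    ∀ U ⊆ P, wt U * ∑ T ∈ Fintype.piFinset (fun _ : Slot => P.powerset),
      |∏ s, zo z i s (pr (T s))| * ((∏ q ∈ U, ∑ l ∈ univ.erase i, |exb_e i q (cfg T q) l|) *
        ∏ q ∈ P \ U, |mu i q (cfg T q)|) ≤ K * mert P ^ 3 * ∏ q ∈ U, K / (q : ℝ) := by
  obtain ⟨K, hK, hl⟩ := loc3
  have hK0 : 0 ≤ K := zero_le_one.trans hK
  refine ⟨max (Real.exp K) 3072, le_max_of_le_right (by norm_num),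
    fun w hw P hP z hz i U hU => ?_⟩
  have h11 : ∀ q ∈ P, 11 ≤ q := fun q hq => by
    have := (hP q hq).2
    omega
  have hr : ∀ q ∈ U, (11 : ℝ) ≤ q := fun q hq => by exact_mod_cast h11 q (hU hq)
  have s1 : ∑ T ∈ Fintype.piFinset (fun _ : Slot => P.powerset),
      |∏ s, zo z i s (pr (T s))| * ((∏ q ∈ U, ∑ l ∈ univ.erase i, |exb_e i q (cfg T q) l|) *
        ∏ q ∈ P \ U, |mu i q (cfg T q)|) ≤
      ∑ T ∈ Fintype.piFinset (fun _ : Slot => P.powerset),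
        ∏ q ∈ P, (if q ∈ U then 6 else |mu i q (cfg T q)|) := by
    refine sum_le_sum fun T _ => ?_
    have a1 : |∏ s, zo z i s (pr (T s))| ≤ 1 := by
      rw [abs_prod]
      exact prod_le_one (fun _ _ => abs_nonneg _) fun s _ => abs_zo_le hz i s _
    refine (mul_le_of_le_one_left (mul_nonneg (prod_nonneg fun _ _ =>
      sum_nonneg fun _ _ => abs_nonneg _) (prod_nonneg fun _ _ => abs_nonneg _)) a1).trans ?_
    rw [← prod_sdiff hU, mul_comm]
    refine mul_le_mul (le_of_eq (prod_congr rfl fun q hq => ?_)) (prod_le_prod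
      (fun _ _ => sum_nonneg fun _ _ => abs_nonneg _) fun q hq => ?_)
      (prod_nonneg fun _ _ => sum_nonneg fun _ _ => abs_nonneg _)
      (prod_nonneg fun q hq => ?_)
    · rw [if_neg (mem_sdiff.1 hq).2]
    · rw [if_pos hq]
      exact exb_six (hP q (hU hq)).1.two_le i _
    · rw [if_neg (mem_sdiff.1 hq).2]
      exact abs_nonneg _
  have s2 := sum_cfg P fun q (S : Finset Slot) => if q ∈ U then (6 : ℝ) else |mu i q S|
  have s3 : ∏ q ∈ P, ∑ S : Finset Slot, (if q ∈ U then (6 : ℝ) else |mu i q S|) ≤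
      ∏ q ∈ P, ((if q ∈ U then (1536 : ℝ) else 1) *
        ((1 + 1 / ((q : ℝ) - 1)) ^ 3 * (1 + K / (q : ℝ) ^ 2))) := by
    refine prod_le_prod (fun q _ => sum_nonneg fun S _ => ?_) fun q hq => ?_
    · split_ifs
      · norm_num
      · exact abs_nonneg _
    by_cases hq' : q ∈ U
    · simp only [if_pos hq']
      have c : Fintype.card (Finset Slot) = 256 := by simp
      rw [sum_const, card_univ, c, nsmul_eq_mul]
      have := decouple_one_le (h11 q hq) hK0 3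
      push_cast
      linarith
    · simp only [if_neg hq', one_mul]
      exact (sum_le_sum fun S _ => le_max_left _ _).trans (hl i q (h11 q hq)).2
  rw [prod_mul_distrib, prod_ite_mem, inter_eq_right.2 hU] at s3
  have s4 := s3.trans (mul_le_mul_of_nonneg_left (decouple_prod_c hw hP hK0 3)
    (prod_nonneg fun _ _ => by norm_num))
  have w0 : ∀ q ∈ U, (0 : ℝ) ≤ 1 / ((q : ℝ) - 1) := fun q hq =>
    div_nonneg zero_le_one (by linarith [hr q hq])
  have s5 : wt U * ∏ _q ∈ U, (1536 : ℝ) ≤ ∏ q ∈ U, max (Real.exp K) 3072 / (q : ℝ) := by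
    rw [wt, ← prod_mul_distrib]
    refine prod_le_prod (fun q hq => mul_nonneg (w0 q hq) (by norm_num)) fun q hq => ?_
    have b1 := hr q hq
    have b2 := le_max_right (Real.exp K) 3072
    rw [div_mul_eq_mul_div, div_le_div_iff₀ (by linarith) (by linarith)]
    nlinarith [mul_le_mul_of_nonneg_right b2 (by linarith : (0 : ℝ) ≤ q - 1)]
  have m0 : 0 ≤ mert P ^ 3 := pow_nonneg (decouple_mert_nonneg hw hP) 3
  refine (mul_le_mul_of_nonneg_left (s1.trans (s2.le.trans s4)) (prod_nonneg w0)).trans ?_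
  rw [← mul_assoc, mul_comm, mul_comm (mert P ^ 3)]
  exact mul_le_mul (mul_le_mul_of_nonneg_right (le_max_left _ _) m0) s5
    (mul_nonneg (prod_nonneg w0) (prod_nonneg fun _ _ => by norm_num))
    (mul_nonneg (le_max_of_le_right (by norm_num)) m0)

/-- `loc_bil` with `A = univ.erase i`, `e T q l = if Out i (cfg T q) then ee … else 0` (`h l` and
`h i` differ modulo `q > w`). One has `∑ l, |e| ≤ if cfg T q = ∅ then 0 else 6` (`abs_ee_le`,
`ee_empty`). If the term of `T`, `U` is not zero then every `q ∈ U` lies in some `T s` with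
`s.1 ≠ i`, so `pr U ≤ ∏ pr (T s) ≤ ∏ Z s ≤ Q`. Sum over `T` with `|z| ≤ 1`, `sum_cfg`, `loc3`,
`decouple_prod_c`, `decouple_one_le`; `256 * 6 / (q - 1) ≤ K / q`. -/
theorem pst_bil : ∃ K : ℝ, 1 ≤ K ∧ ∀ (h : Fin 4 → ℕ), Function.Injective h → ∀ (w : ℕ),
    10 ≤ w → (∀ l, h l < w) → ∀ (P : Finset ℕ), (∀ q ∈ P, q.Prime ∧ w < q) →
    ∀ (z : Slot → ℕ → ℝ) (Z : Slot → ℝ), (∀ s, Supp (z s) (Z s)) → ∀ (i : Fin 4) (Q : ℕ),
    ∏ s ∈ univ.filter (fun s : Slot => s.1 ≠ i), Z s ≤ Q → ∀ (W a : ℕ), 1 ≤ W →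
    Nat.Coprime a W → (∀ q ∈ P, Nat.Coprime W q) → ∀ (J R : Finset ℕ) (b : ℕ → ℝ),
    (∀ p ∈ J, ∀ r ∈ R, b r ≠ 0 → Nat.Coprime (p * r) W) →
    |∑ p ∈ J, ∑ r ∈ R, b r *
      (if p * r ≡ a [MOD W] then Pst P h z i (p * r) - c1 P z i else 0)| ≤
      K * mert P ^ 3 / (Nat.totient W : ℝ) *
        ∑ U ∈ P.powerset.filter (fun U => U ≠ ∅ ∧ pr U ≤ Q),
          (∏ q ∈ U, K / (q : ℝ)) * ∑ c ∈ W.divisors, Xi J R b (c * pr U) := by
  obtain ⟨K, hK, hs⟩ := exb_sum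
  refine ⟨K, hK, fun h hinj w hw hhw P hP z Z hz i Q hQ W a hW ha hc J R b hb => ?_⟩
  have huv : ∀ q ∈ P, ∀ l ∈ univ.erase i, ¬ h l ≡ h i [MOD q] := fun q hq l hl e =>
    ne_of_mem_erase hl (hinj (e.eq_of_lt_of_lt ((hhw l).trans (hP q hq).2)
      ((hhw i).trans (hP q hq).2)))
  have key := loc_bil (Fintype.piFinset fun _ : Slot => P.powerset) (univ.erase i) P hW ha
    (fun q hq => ⟨(hP q hq).1, hc q hq⟩) h (h i) huv (fun T => ∏ s, zo z i s (pr (T s)))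
    (fun T q => mu i q (cfg T q)) (fun T q l => exb_e i q (cfg T q) l) J R b hb
  simp only [Pst, c1, exb_nu]
  refine key.trans ?_
  rw [← filter_filter, sum_filter (fun U => pr U ≤ Q), div_eq_mul_one_div (K * mert P ^ 3),
    mul_comm (K * mert P ^ 3), mul_assoc, mul_sum _ _ (K * mert P ^ 3)]
  refine mul_le_mul_of_nonneg_left (sum_le_sum fun U hU => ?_) (by positivity)
  have hU' : U ⊆ P := mem_powerset.1 (mem_filter.1 hU).1
  split_ifs with hq
  · rw [← mul_assoc]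
    exact mul_le_mul_of_nonneg_right (hs w hw P hP z (fun s r => (hz s r).1) i U hU')
      (sum_nonneg fun c _ => sum_nonneg fun _ _ => mul_nonneg (norm_nonneg _) (norm_nonneg _))
  · rw [sum_eq_zero (s := Fintype.piFinset fun _ : Slot => P.powerset), mul_zero, zero_mul, mul_zero]
    intro T hT
    by_contra hne
    exact hq (exb_le (fun q hq => (hP q hq).1) hz hQ hU'
      (fun s => mem_powerset.1 (Fintype.mem_piFinset.1 hT s))
      (abs_ne_zero.1 (left_ne_zero_of_mul hne)) (left_ne_zero_of_mul (right_ne_zero_of_mul hne)))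

end Pool.Agent.Lib.MP_c03ca8_nt.P3
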