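import Pool.Agent.Lib.MP_c03ca8_nt.P3.ExA
import Pool.Agent.Lib.MP_c03ca8_nt.P3.ExB
import Pool.Agent.Lib.MP_c03ca8_nt.P3.ExC
import Pool.Agent.Lib.MP_c03ca8_nt.P3.SlB

set_option autoImplicit false

noncomputable section

namespace Pool.Agent.Lib.MP_c03ca8_nt.P3

open Finset Real Pool.Agent.Lib.MP_c03ca8_nt.Q

theorem bx_Xi_nonneg (J R : Finset ℕ) (b : ℕ → ℝ) (k : ℕ) : 0 ≤ Xi J R b k :=
  sum_nonneg fun _ _ => mul_nonneg (norm_nonneg _) (norm_nonneg _)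

theorem bx_final {a1 a2 a3 g1 m Δ Λ D T S F y W φ K0 c L w Gj Gj0 G3 G70 K : ℝ}
    (hΔ : 0 ≤ Δ) (hΛ : 0 ≤ Λ) (hD : 0 ≤ D) (hT : 0 ≤ T) (hF : 0 < F) (hy : 0 < y) (hW : 0 ≤ W)
    (hφ : 1 ≤ φ) (hK0 : 0 ≤ K0) (hw : 0 < w) (hL : 0 ≤ L) (hm : 0 ≤ m)
    (hGj0 : 0 ≤ Gj0) (_hG3 : 0 ≤ G3) (hG70 : G70 ≤ Gj) (hG70' : 0 ≤ G70)
    (hprod : K0 * m * Gj0 * G3 ≤ Gj) (hK : K0 * K0 * c ≤ K)
    (h1 : a1 ≤ Δ * Λ * (G70 / y)) (h2 : a2 ≤ c / L * ((Δ + D) * (Λ + D)))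
    (h3 : a3 ≤ G3 * (Δ * Λ / F + T)) (h3' : 0 ≤ a3)
    (hg : g1 ≤ K0 * m / φ * (K0 / w * a2 + Gj0 * W * a3)) (hS : S ≤ a1 + g1) :
    S ≤ (K * m / (w * φ * L) + Gj * W / F + Gj / y) * ((Δ + D) * (Λ + D)) + Gj * W * T := by
  have hφ0 : 0 < φ := by linarith
  have hGj : 0 ≤ Gj := hG70'.trans hG70
  have hN : Δ * Λ ≤ (Δ + D) * (Λ + D) :=
    mul_le_mul (by linarith) (by linarith) hΛ (by linarith)
  have hN0 : 0 ≤ Δ * Λ := mul_nonneg hΔ hΛ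
  generalize (Δ + D) * (Λ + D) = N at *
  have hNn : 0 ≤ N := hN0.trans hN
  have e1 : a1 ≤ Gj / y * N := by
    refine h1.trans ?_
    rw [mul_comm]
    exact mul_le_mul (div_le_div_of_nonneg_right hG70 hy.le) hN hN0 (div_nonneg hGj hy.le)
  have e2 : K0 * m / φ * (K0 / w * a2) ≤ K * m / (w * φ * L) * N := by
    have hc0 : 0 ≤ K0 * m / φ * (K0 / w) := by positivity
    calc K0 * m / φ * (K0 / w * a2) = K0 * m / φ * (K0 / w) * a2 := by ring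
      _ ≤ K0 * m / φ * (K0 / w) * (c / L * N) := mul_le_mul_of_nonneg_left h2 hc0
      _ = K0 * K0 * c * (m / (w * φ * L) * N) := by
          simp only [div_eq_mul_inv, mul_inv]; ring
      _ ≤ K * (m / (w * φ * L) * N) := mul_le_mul_of_nonneg_right hK (by positivity)
      _ = K * m / (w * φ * L) * N := by ring
  have e3 : K0 * m / φ * (Gj0 * W * a3) ≤ Gj * W / F * N + Gj * W * T := by
    have hq : K0 * m / φ ≤ K0 * m := div_le_self (by positivity) hφ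
    calc K0 * m / φ * (Gj0 * W * a3) ≤ K0 * m * (Gj0 * W * (G3 * (Δ * Λ / F + T))) :=
          mul_le_mul hq (mul_le_mul_of_nonneg_left h3 (by positivity)) (by positivity)
            (by positivity)
      _ = K0 * m * Gj0 * G3 * (W * (Δ * Λ / F + T)) := by ring
      _ ≤ Gj * (W * (N / F + T)) := by
          refine mul_le_mul hprod (mul_le_mul_of_nonneg_left ?_ hW) (by positivity) hGj
          have := div_le_div_of_nonneg_right hN hF.le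
          linarith
      _ = Gj * W / F * N + Gj * W * T := by ring
  have e4 : K0 * m / φ * (K0 / w * a2 + Gj0 * W * a3) =
      K0 * m / φ * (K0 / w * a2) + K0 * m / φ * (Gj0 * W * a3) := by ring
  have e5 : (K * m / (w * φ * L) + Gj * W / F + Gj / y) * N + Gj * W * T =
      K * m / (w * φ * L) * N + (Gj * W / F * N + Gj * W * T) + Gj / y * N := by ring
  rw [e5]
  linarith

/-- One box. `Th = 1_class (Pw - Pst) + 1_class (Pst - c1)`. The first part is at most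
`G ^ 70 / y` per pair (`pst_err`; `p * r` is rough and exceeds `w` when `b r ≠ 0`, `r ≥ 1`). The
second: `pst_bil`, `split_cond` (with `K ≤ 2 ^ j`), `small_cond` with `C = W * F0`, `large_cond`
with `W * Q`; `mert ^ 3 ≤ G ^ 6`, `K ≤ G ^ j`, `1 ≤ φ W`. -/
theorem bx : ∃ (K Z0 : ℝ) (j : ℕ), 0 < K ∧ ∀ {Y G y Z1 : ℝ}, Tame Y G →
    ∀ (h : Fin 4 → ℕ), Function.Injective h → ∀ (w : ℕ), 10 ≤ w → K ≤ w → (∀ l, h l < w) →
    ∀ (P : Finset ℕ), (∀ q ∈ P, q.Prime ∧ w < q) → mert P ≤ G ^ 2 →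
    ∀ (z : Slot → ℕ → ℝ) (Z : Slot → ℝ), (∀ s, Supp (z s) (Z s)) → ∀ (i : Fin 4) (Q : ℕ),
    ∏ s ∈ univ.filter (fun s : Slot => s.1 ≠ i), Z s ≤ Q → ∀ (W a F0 : ℕ), 1 ≤ W →
    Nat.Coprime a W → (∀ q ∈ P, Nat.Coprime W q) → ((W * Q : ℕ) : ℝ) ≤ Y → 1 ≤ F0 →
    (w : ℝ) < y → (∀ q : ℕ, q.Prime → q ∣ W → q ≤ w) → Z0 ≤ Z1 → Z1 ≤ y → Z1 * Z1 ≤ Y →
    ∀ (J : Finset ℕ) (P0 Δ A B : ℕ) (b : ℕ → ℝ), J ⊆ Ico P0 (P0 + Δ) →
    (∀ p ∈ J, p.Prime ∧ y ≤ (p : ℝ)) → A ≤ B → (∀ r, |b r| ≤ 1) → (∀ r, b r ≠ 0 → Rough y r) →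
    (∀ p ∈ J, ∀ r ∈ Ioc A B, ((p * r : ℕ) : ℝ) + w ≤ Y) →
    |∑ p ∈ J, ∑ r ∈ Ioc A B, b r * Th P h z i W a (p * r)| ≤
      bxB (K * mert P ^ 3 / (w * Nat.totient W * Real.log Z1 ^ 2) + G ^ j * W / F0 + G ^ j / y)
        (G ^ j * W) (2 * G ^ 8 * Z1 ^ 2 * ((W * F0 : ℕ) : ℝ) ^ 4) (W * Q : ℕ) Δ ((B : ℝ) - A) := by
  obtain ⟨K0, hK0, hbil⟩ := pst_bil
  obtain ⟨c, Z0, hc, hZ0, hsm⟩ := small_cond
  obtain ⟨j0, hj0⟩ : ∃ j0 : ℕ, K0 ≤ 2 ^ j0 :=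
    (pow_unbounded_of_one_lt K0 one_lt_two).imp fun _ hh => hh.le
  refine ⟨K0 + K0 * K0 * c, Z0, 2 * j0 + 70, by positivity, ?_⟩
  intro Y G y Z1 hG h hinj w hw10 hKw hhw P hP hm2 z Z hz i Q hQ W a F0 hW ha hWP hWQ hF hwy hWw
    hZ01 hZ1y hZY J P0 Δ A B b hJ hJp hAB hb hbr hY
  have hG1 : 1 ≤ G := by linarith [hG.ten]
  have hG0 : 0 ≤ G := by linarith
  have hw0 : (0 : ℝ) < w := by exact_mod_cast (by omega : 0 < w)
  have hy0 : 0 < y := hw0.trans hwy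
  have hK00 : 0 ≤ K0 := by linarith
  have hKc : 0 ≤ K0 * K0 * c := by positivity
  have hK0w : K0 ≤ w := by linarith
  have hAB' : (0 : ℝ) ≤ (B : ℝ) - A := by
    have : (A : ℝ) ≤ B := by exact_mod_cast hAB
    linarith
  have hrough : ∀ p ∈ J, ∀ r, b r ≠ 0 → Rough y (p * r) := fun p hp r hr =>
    (rough_prime (hJp p hp).1 (hJp p hp).2).mul (hbr r hr)
  have hcop : ∀ p ∈ J, ∀ r ∈ Ioc A B, b r ≠ 0 → Nat.Coprime (p * r) W := fun p hp r _ hr =>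
    (hrough p hp r hr).coprime fun q hq hqW =>
      lt_of_le_of_lt (by exact_mod_cast hWw q hq hqW) hwy
  have hQY : (Q : ℝ) ≤ Y := by
    refine le_trans ?_ hWQ
    exact_mod_cast Nat.le_mul_of_pos_left Q hW
  have hmn : 0 ≤ mert P := maina_mert_nonneg fun q hq => (hP q hq).1
  have hφ : (1 : ℝ) ≤ Nat.totient W := by exact_mod_cast Nat.totient_pos.mpr hW
  have b1 := hbil h hinj w hw10 hhw P hP z Z hz i Q hQ W a hW ha hWP J (Ioc A B) b hcop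
  have b2 := split_cond hG hK00 hj0 hK0w (by omega) P hP (F0 := F0) hW hWP hQY
    (Xi J (Ioc A B) b) (bx_Xi_nonneg J (Ioc A B) b)
  have b3 := hsm hG hZ01 hZY (C := W * F0) (Nat.mul_pos hW hF) J P0 Δ A B b hJ
    (fun p hp => ⟨(hJp p hp).1, hZ1y.trans (hJp p hp).2⟩) hAB hb
    (fun r hr => (hbr r hr).mono hZ1y)
  have b4 := large_cond hG hWQ hF J P0 Δ A B hJ hAB b hb
  have b5 := b1.trans (mul_le_mul_of_nonneg_left b2 (by positivity))
  have hpt : ∀ p ∈ J, ∀ r ∈ Ioc A B, |b r * (if p * r ≡ a [MOD W] then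
      Pw P h (zo z i) (p * r - h i) - Pst P h z i (p * r) else 0)| ≤ G ^ 70 / y := by
    intro p hp r hr
    have h0 : 0 ≤ G ^ 70 / y := by positivity
    by_cases hbz : b r = 0
    · rw [hbz, zero_mul, abs_zero]; exact h0
    split_ifs with hcl
    · have hr1 : 1 ≤ r := by have := (mem_Ioc.mp hr).1; omega
      have hwp : w < p := by
        have : (w : ℝ) < p := hwy.trans_le (hJp p hp).2
        exact_mod_cast this
      have hlt : h i < p * r := by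
        have := hhw i
        have := Nat.le_mul_of_pos_right p hr1
        omega
      have := pst_err hG h hinj w hhw P hP hm2 z (fun s r => (hz s r).1) i hy0 hlt (hY p hp r hr)
        (hrough p hp r hbz)
      rw [abs_mul]
      calc _ ≤ 1 * (G ^ 70 / y) := mul_le_mul (hb r) this (abs_nonneg _) zero_le_one
        _ = _ := one_mul _
    · rw [mul_zero, abs_zero]; exact h0
  have hJc : (J.card : ℝ) ≤ Δ := by
    have := card_le_card hJ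
    rw [Nat.card_Ico] at this
    exact_mod_cast (by omega : J.card ≤ Δ)
  have hRc : ((Ioc A B).card : ℝ) = (B : ℝ) - A := by
    rw [Nat.card_Ioc, Nat.cast_sub hAB]
  have b6 : |∑ p ∈ J, ∑ r ∈ Ioc A B, b r * (if p * r ≡ a [MOD W] then
      Pw P h (zo z i) (p * r - h i) - Pst P h z i (p * r) else 0)| ≤
      Δ * ((B : ℝ) - A) * (G ^ 70 / y) := by
    refine (abs_sum_le_sum_abs _ _).trans ?_
    calc _ ≤ ∑ p ∈ J, ∑ r ∈ Ioc A B, G ^ 70 / y :=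
          sum_le_sum fun p hp => (abs_sum_le_sum_abs _ _).trans (sum_le_sum fun r hr => hpt p hp r hr)
      _ = J.card * (((B : ℝ) - A) * (G ^ 70 / y)) := by
          rw [sum_const, sum_const, nsmul_eq_mul, nsmul_eq_mul, hRc]
      _ ≤ Δ * (((B : ℝ) - A) * (G ^ 70 / y)) :=
          mul_le_mul_of_nonneg_right hJc (by positivity)
      _ = _ := by ring
  have hsplit : ∑ p ∈ J, ∑ r ∈ Ioc A B, b r * Th P h z i W a (p * r) =
      ∑ p ∈ J, ∑ r ∈ Ioc A B, b r * (if p * r ≡ a [MOD W] then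
        Pw P h (zo z i) (p * r - h i) - Pst P h z i (p * r) else 0) +
      ∑ p ∈ J, ∑ r ∈ Ioc A B, b r *
        (if p * r ≡ a [MOD W] then Pst P h z i (p * r) - c1 P z i else 0) := by
    rw [← sum_add_distrib]
    refine sum_congr rfl fun p _ => ?_
    rw [← sum_add_distrib]
    refine sum_congr rfl fun r _ => ?_
    unfold Th
    split_ifs <;> ring
  have hprod : K0 * mert P ^ 3 * G ^ j0 * G ^ 3 ≤ G ^ (2 * j0 + 70) := by
    have e1 : K0 ≤ G ^ j0 := hj0.trans (pow_le_pow_left₀ zero_le_two (by linarith [hG.ten]) _)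
    have e2 : mert P ^ 3 ≤ (G ^ 2) ^ 3 := pow_le_pow_left₀ hmn hm2 3
    calc K0 * mert P ^ 3 * G ^ j0 * G ^ 3 ≤ G ^ j0 * (G ^ 2) ^ 3 * G ^ j0 * G ^ 3 := by gcongr
      _ = G ^ (2 * j0 + 9) := by ring
      _ ≤ _ := pow_le_pow_right₀ hG1 (by omega)
  rw [hsplit]
  unfold bxB
  refine bx_final (Nat.cast_nonneg Δ) hAB' (by positivity) (by positivity)
    (by exact_mod_cast hF) hy0 (Nat.cast_nonneg W) hφ hK00 hw0 (sq_nonneg _) (by positivity)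
    (by positivity) (by positivity) (pow_le_pow_right₀ hG1 (by omega)) (by positivity) hprod
    (by linarith) b6 b3 b4 ?_ b5 (abs_add_le _ _)
  exact sum_nonneg fun k _ => mul_nonneg (by positivity) (bx_Xi_nonneg _ _ _ _)

end Pool.Agent.Lib.MP_c03ca8_nt.P3
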