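import Pool.Agent.Lib.MP_c03ca8_nt.P3.Basic

set_option autoImplicit false

noncomputable section

namespace Pool.Agent.Lib.MP_c03ca8_nt.P3

open Finset Real Pool.Agent.Lib.MP_c03ca8_nt.Q

/-- `mertens2` and `mertens1` on `[H ^ a, H ^ (a + 1))`. -/
theorem moments : ∃ C : ℝ, 0 ≤ C ∧ ∀ (H : ℝ) (a : ℕ), 2 ≤ H → 1 ≤ a →
    |∑ p ∈ cP H a, 1 / (p : ℝ) - m0 a| ≤ C / Real.log H ∧
    |∑ p ∈ cP H a, (Real.log p / Real.log H - a) / p - be a| ≤ C * (a + 1) / Real.log H := by
  obtain ⟨C₁, hC₁, h1⟩ := mertens1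
  obtain ⟨C₂, hC₂, h2⟩ := mertens2
  refine ⟨C₁ + C₂, by positivity, fun H a hH ha => ?_⟩
  have H1 : 1 < H := by linarith
  have H0 : 0 < H := by linarith
  have hL : 0 < Real.log H := Real.log_pos H1
  have a1 : (1 : ℝ) ≤ a := by exact_mod_cast ha
  have a0 : (0 : ℝ) < a := by linarith
  have hY : 2 ≤ H ^ a := hH.trans (le_self_pow₀ H1.le (by omega))
  have hYZ : H ^ a ≤ H ^ (a + 1) := pow_le_pow_right₀ H1.le (Nat.le_succ a)
  have e1 := h1 (H ^ a) (H ^ (a + 1)) (by linarith) hYZ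
  have e2 := h2 (H ^ a) (H ^ (a + 1)) hY hYZ
  have q1 : H ^ (a + 1) / H ^ a = H := by
    rw [pow_succ]
    field_simp
  have q2 : Real.log (H ^ (a + 1)) / Real.log (H ^ a) = 1 + 1 / (a : ℝ) := by
    rw [Real.log_pow, Real.log_pow]
    push_cast
    field_simp
  rw [q1] at e1
  rw [q2, Real.log_pow] at e2
  change |∑ p ∈ cP H a, Real.log p / p - Real.log H| ≤ C₁ at e1
  change |∑ p ∈ cP H a, 1 / (p : ℝ) - m0 a| ≤ C₂ / (a * Real.log H) at e2
  have e3 : |(a : ℝ) * (∑ p ∈ cP H a, 1 / (p : ℝ) - m0 a)| ≤ C₂ / Real.log H := by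
    rw [abs_mul, abs_of_pos a0]
    refine (mul_le_mul_of_nonneg_left e2 a0.le).trans (le_of_eq ?_)
    field_simp
  have e4 : |(∑ p ∈ cP H a, Real.log p / p - Real.log H) / Real.log H| ≤ C₁ / Real.log H := by
    rw [abs_div, abs_of_pos hL]
    exact div_le_div_of_nonneg_right e1 hL.le
  constructor
  · refine e2.trans (div_le_div₀ (by positivity) (by linarith) hL ?_)
    exact le_mul_of_one_le_left hL.le a1
  · have e5 : ∑ p ∈ cP H a, (Real.log p / Real.log H - a) / p - be a =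
        (∑ p ∈ cP H a, Real.log p / p - Real.log H) / Real.log H -
          a * (∑ p ∈ cP H a, 1 / (p : ℝ) - m0 a) := by
      have e6 : ∑ p ∈ cP H a, (Real.log p / Real.log H - a) / p =
          (∑ p ∈ cP H a, Real.log p / p) / Real.log H - a * ∑ p ∈ cP H a, 1 / (p : ℝ) := by
        rw [Finset.sum_div, Finset.mul_sum, ← Finset.sum_sub_distrib]
        exact Finset.sum_congr rfl fun p _ => by ring
      rw [e6, sub_div, div_self hL.ne', be, m0]
      ring
    rw [e5]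
    refine (abs_sub _ _).trans ((add_le_add e4 e3).trans ?_)
    rw [← add_div]
    exact div_le_div_of_nonneg_right (le_mul_of_one_le_right (by positivity) (by linarith)) hL.le

/-- `zval_log`. -/
theorem be_bounds {a : ℕ} (ha : 1 ≤ a) :
    0 ≤ m0 a ∧ m0 a ≤ 1 ∧ m0 a * (1 / 2 - 1 / (12 * a)) ≤ be a ∧ be a ≤ m0 a / 2 := by
  have a1 : (1 : ℝ) ≤ a := by exact_mod_cast ha
  have a0 : (0 : ℝ) < a := by linarith
  obtain ⟨h1, h2⟩ := zval_log a0
  change _ ≤ m0 a at h1
  change m0 a ≤ _ at h2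
  have hb : be a = 1 - a * m0 a := rfl
  have h0 : 0 < 1 / (a : ℝ) := one_div_pos.2 a0
  have h3 : 1 / (a : ℝ) ≤ 1 := (div_le_one a0).2 a1
  have h4 : 2 / (2 * (a : ℝ) + 1) ≤ m0 a :=
    le_trans (le_add_of_nonneg_right (by positivity)) h1
  refine ⟨Real.log_nonneg (by linarith), ?_, ?_, ?_⟩
  · have := Real.log_le_sub_one_of_pos (by linarith : 0 < 1 + 1 / (a : ℝ))
    unfold m0
    linarith
  · have e1 : (2 * (a : ℝ) + 1) ^ 2 - 1 = 4 * a * (a + 1) := by ring
    rw [e1] at h2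
    have h5 : 1 / (12 * (a : ℝ)) ≤ 1 / 12 := one_div_le_one_div_of_le (by norm_num) (by linarith)
    have h6 : 0 ≤ (a : ℝ) + 1 / 2 - 1 / (12 * a) := by linarith
    have h7 := mul_le_mul_of_nonneg_right h2 h6
    have h8 : (2 / (2 * (a : ℝ) + 1) + 2 / (3 * (2 * a + 1) * (4 * a * (a + 1)))) *
        (a + 1 / 2 - 1 / (12 * a)) =
          1 - (6 * a + 1) / (72 * a ^ 2 * (a + 1) * (2 * a + 1)) := by
      field_simp
      ring
    have h9 : 0 ≤ (6 * (a : ℝ) + 1) / (72 * a ^ 2 * (a + 1) * (2 * a + 1)) := by positivity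
    rw [hb]
    linarith
  · rw [div_le_iff₀ (by positivity)] at h4
    rw [hb]
    linarith

theorem mem_cP {H : ℝ} (hH : 1 < H) {a p : ℕ} (hp : p ∈ cP H a) :
    p.Prime ∧ (a : ℝ) ≤ Real.log p / Real.log H ∧ Real.log p / Real.log H ≤ a + 1 := by
  obtain ⟨h1, h2, h3⟩ := Finset.mem_filter.1 hp
  have hL : 0 < Real.log H := Real.log_pos hH
  have H0 : 0 < H := by linarith
  have h4 : (0 : ℝ) < H ^ a := pow_pos H0 a
  have h5 := Real.log_le_log h4 h2
  have h6 := Real.log_le_log (h4.trans_le h2) h3.le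
  rw [Real.log_pow] at h5 h6
  push_cast at h6
  exact ⟨(Nat.mem_primesLE.1 h1).2, (le_div_iff₀ hL).2 h5, (div_le_iff₀ hL).2 h6⟩

theorem cella_ext {G : ℕ → ℝ} {M N : ℕ} (hG : Row G M N) (c : ℕ → ℝ) {L : ℕ} (hL : M ≤ L) :
    ∑ σ ∈ range M, G σ * c σ = ∑ σ ∈ range L, G σ * c σ :=
  Finset.sum_subset (Finset.range_subset_range.2 hL) fun σ _ h => by
    rw [hG.zero σ (Nat.le_of_not_lt fun h' => h (Finset.mem_range.2 h')), zero_mul]

theorem cella_s1 {G : ℕ → ℝ} {M N : ℕ} (hG : Row G M N) {L : ℕ} (hL : N ≤ L) :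
    s1 G N = s1 G L := by
  have h1 := cella_ext hG (fun _ => 1) hG.le
  have h2 := cella_ext hG (fun _ => 1) (hG.le.trans hL)
  simp only [mul_one] at h1 h2
  rw [s1, s1, ← h1, ← h2]

theorem cella_sum (G : ℕ → ℝ) {k : ℕ} {t : ℝ} (h1 : (k : ℝ) ≤ t) (h2 : t ≤ k + 1) (j : ℕ) :
    ∑ σ ∈ range (k + 1 + j), G σ * cs σ t = s1 G (k + 1 + j) - s1 G k - G k * (t - k) := by
  induction j with
  | zero =>
    have e0 : ∑ σ ∈ range k, G σ * cs σ t = 0 := Finset.sum_eq_zero fun σ hσ => by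
      have : (σ : ℝ) + 1 ≤ k := by exact_mod_cast Finset.mem_range.1 hσ
      rw [cs, max_eq_left ((min_le_right _ _).trans (by linarith)), mul_zero]
    have e1 : cs k t = k + 1 - t := by
      rw [cs, min_eq_right (by linarith), max_eq_right (by linarith)]
    rw [add_zero, Finset.sum_range_succ, e0, e1, s1, Finset.sum_range_succ, s1]
    ring
  | succ j ih =>
    have e1 : cs (k + 1 + j) t = 1 := by
      have : (0 : ℝ) ≤ j := Nat.cast_nonneg j
      rw [cs, min_eq_left (by push_cast; linarith), max_eq_right zero_le_one]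
    rw [← add_assoc, Finset.sum_range_succ, ih, e1, s1, s1, s1, Finset.sum_range_succ G (k + 1 + j)]
    ring

/-- `cs σ t` is `0` for `σ < k`, `k + 1 - t` for `σ = k`, `1` for `σ > k`. -/
theorem tl_cell {G : ℕ → ℝ} {M N : ℕ} (hG : Row G M N) {k : ℕ} {t : ℝ} (h1 : (k : ℝ) ≤ t)
    (h2 : t ≤ k + 1) : tl M G t = s1 G N - s1 G k - G k * (t - k) := by
  rw [tl, cella_ext hG _ (hG.le.trans (Nat.le_add_left N (k + 1))), cella_sum G h1 h2,
    cella_s1 hG (Nat.le_add_left N (k + 1))]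

theorem cella_zero {G : ℕ → ℝ} {M N : ℕ} (hG : Row G M N) : tl M G 0 = s1 G N := by
  rw [tl_cell hG (k := 0) (by simp) (by simp)]
  simp [s1]

theorem cella_top {G : ℕ → ℝ} {M N : ℕ} (hG : Row G M N) : tl M G N = 0 := by
  rw [tl_cell hG (k := N) le_rfl (by linarith)]
  simp

theorem cella_refl {G : ℕ → ℝ} {M N : ℕ} (hG : Row G M N) {k : ℕ} (hk : k + 1 ≤ N) {t : ℝ}
    (h1 : (k : ℝ) ≤ t) (h2 : t ≤ k + 1) :
    tl M G (N - t) = s1 G N - s1 G (N - k) + G (N - 1 - k) * (t - k) := by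
  obtain ⟨j, rfl⟩ := Nat.exists_eq_add_of_le hk
  have e1 : k + 1 + j - 1 - k = j := by omega
  have e2 : k + 1 + j - k = j + 1 := by omega
  rw [tl_cell hG (k := j) (by push_cast; linarith) (by push_cast; linarith), e1, e2, s1, s1, s1,
    Finset.sum_range_succ G j]
  push_cast
  ring

theorem cella_s2 (G : ℕ → ℝ) {N k : ℕ} (hk : k ≤ N) :
    s2 G N k = s1 G k + s1 G N - s1 G (N - k) := by
  induction k with
  | zero => simp [s1, s2]
  | succ k ih =>
    have e1 : N - k = N - (k + 1) + 1 := by omega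
    have e2 : N - 1 - k = N - (k + 1) := by omega
    have ih' := ih (by omega)
    rw [e1] at ih'
    rw [s2, Finset.sum_range_succ, ← s2, ih', es, e2]
    simp only [s1, Finset.sum_range_succ]
    ring

theorem cella_S {G : ℕ → ℝ} {M N : ℕ} (hG : Row G M N) {k : ℕ} (hk : k + 1 ≤ N) {t : ℝ}
    (h1 : (k : ℝ) ≤ t) (h2 : t ≤ k + 1) :
    s1 G N - tl M G t + tl M G (N - t) = s2 G N k + es G N k * (t - k) := by
  rw [tl_cell hG h1 h2, cella_refl hG hk h1 h2, cella_s2 G (by omega), es]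
  ring

theorem cella_one (H : ℝ) (M : ℕ) (G : ℕ → ℝ) (t : ℝ) : PhG H M G t 1 = tl M G t := by
  simp only [PhG, tl, Phi_one]

theorem cella_mul (H : ℝ) (M : ℕ) (G : ℕ → ℝ) (t : ℝ) {p r : ℕ} (hp : p.Prime) (hr : r ≠ 0)
    (h : ¬ p ∣ r) :
    PhG H M G t (p * r) = PhG H M G t r - PhG H M G (t + Real.log p / Real.log H) r := by
  simp only [PhG, Phi_mul H _ t hp hr h, mul_sub, Finset.sum_sub_distrib]

theorem cella_prime (H : ℝ) (M : ℕ) (G : ℕ → ℝ) (t : ℝ) {p : ℕ} (hp : p.Prime) :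
    PhG H M G t p = tl M G t - tl M G (t + Real.log p / Real.log H) := by
  have h := cella_mul H M G t hp one_ne_zero hp.not_dvd_one
  rwa [mul_one, cella_one, cella_one] at h

theorem idl_one (H : ℝ) {G : ℕ → ℝ} {M N : ℕ} (hG : Row G M N) : Idl H N M G 1 = s1 G N := by
  rw [Idl, cella_one, cella_one, Nat.cast_one, Real.log_one, zero_div, sub_zero, cella_zero hG,
    cella_top hG, sub_zero]

/-- `Phi_mul` with `r = 1`, `Phi_one`, `tl_cell` at `0`, `u`, `N - u`, `N`. -/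
theorem idl_prime {H : ℝ} (hH : 1 < H) {G : ℕ → ℝ} {M N : ℕ} (hG : Row G M N) {a p : ℕ}
    (ha : a + 1 ≤ N) (hp : p ∈ cP H a) :
    Idl H N M G p = s1 G a + s1 G (N - a) - s1 G N +
      (G a - G (N - 1 - a)) * (Real.log p / Real.log H - a) := by
  obtain ⟨h0, h1, h2⟩ := mem_cP hH hp
  rw [Idl, cella_prime H M G _ h0, cella_prime H M G _ h0, zero_add, sub_add_cancel, cella_zero hG,
    cella_top hG, tl_cell hG h1 h2, cella_refl hG ha h1 h2]
  ring

/-- With `S t = s1 N - tl t + tl (N - t)` one has `Idl = S u + S u' - S (u + u')`, and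
`S t = s2 k + es k (t - k)` on `[k, k + 1]`, `k < N`. On `[k - 1, k + 1]`, `k = a + b + 1`, the
function `S` lies below the line through `(k, cV k / 2)` with the mean slope. -/
theorem idl_two {H : ℝ} (hH : 1 < H) {G : ℕ → ℝ} {M N : ℕ} (hG : Row G M N) {a b p p' : ℕ}
    (hab : a + b + 2 ≤ N) (hp : p ∈ cP H a) (hp' : p' ∈ cP H b) (hne : p' ≠ p) :
    s2 G N a + s2 G N b - cV G N (a + b + 1) / 2 + es G N a * (Real.log p / Real.log H - a) +
      es G N b * (Real.log p' / Real.log H - b) - (es G N (a + b) + es G N (a + b + 1)) / 2 *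
        ((Real.log p / Real.log H - a) + (Real.log p' / Real.log H - b) - 1) ≤
      Idl H N M G (p * p') := by
  obtain ⟨h0, h1, h2⟩ := mem_cP hH hp
  obtain ⟨h0', h1', h2'⟩ := mem_cP hH hp'
  have hd : ¬ p ∣ p' := fun h => hne ((Nat.prime_dvd_prime_iff_eq h0 h0').1 h).symm
  have hl : Real.log ((p * p' : ℕ) : ℝ) / Real.log H =
      Real.log p / Real.log H + Real.log p' / Real.log H := by
    rw [Nat.cast_mul, Real.log_mul (Nat.cast_ne_zero.2 h0.ne_zero) (Nat.cast_ne_zero.2 h0'.ne_zero),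
      add_div]
  rw [Idl, hl, cella_mul H M G _ h0 h0'.ne_zero hd, cella_mul H M G _ h0 h0'.ne_zero hd,
    cella_prime H M G _ h0', cella_prime H M G _ h0', cella_prime H M G _ h0',
    cella_prime H M G _ h0']
  generalize Real.log p / Real.log H = u at h1 h2 ⊢
  generalize Real.log p' / Real.log H = v at h1' h2' ⊢
  have e1 : (N : ℝ) - (u + v) + v = N - u := by ring
  have e2 : (N : ℝ) - (u + v) + u = N - v := by ring
  have e3 : (N : ℝ) - v + v = N := by ring
  rw [e1, e2, e3, zero_add, zero_add, cella_zero hG, cella_top hG]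
  have S1 := cella_S hG (k := a) (by omega) h1 h2
  have S2 := cella_S hG (k := b) (by omega) h1' h2'
  have S3 : s1 G N - tl M G (u + v) + tl M G (N - (u + v)) ≤ cV G N (a + b + 1) / 2 +
      (es G N (a + b) + es G N (a + b + 1)) / 2 * ((u - a) + (v - b) - 1) := by
    have m1 := le_max_left 0 (es G N (a + b + 1) - es G N (a + b))
    have m2 := le_max_right 0 (es G N (a + b + 1) - es G N (a + b))
    rw [cV, Nat.add_sub_cancel]
    generalize max 0 (es G N (a + b + 1) - es G N (a + b)) = m at m1 m2 ⊢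
    rcases le_total (u + v) (a + b + 1) with h | h
    · rw [cella_S hG (k := a + b) (by omega) (by push_cast; linarith) (by push_cast; linarith), s2,
        s2, Finset.sum_range_succ]
      push_cast
      have x0 : 0 ≤ (a : ℝ) + b + 1 - (u + v) := by linarith
      have x1 : 0 ≤ 1 - ((a : ℝ) + b + 1 - (u + v)) := by linarith
      nlinarith [mul_nonneg x0 (sub_nonneg.2 m2), mul_nonneg x1 m1]
    · rw [cella_S hG (k := a + b + 1) (by omega) (by push_cast; linarith) (by push_cast; linarith)]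
      push_cast
      have x0 : 0 ≤ u + v - ((a : ℝ) + b + 1) := by linarith
      have x1 : 0 ≤ 1 - (u + v - ((a : ℝ) + b + 1)) := by linarith
      nlinarith [mul_nonneg x0 (sub_nonneg.2 m2), mul_nonneg x1 m1]
  linarith

end Pool.Agent.Lib.MP_c03ca8_nt.P3
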