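import Pool.Agent.Lib.MP_c03ca8_nt.P3.CellA

set_option autoImplicit false

noncomputable section

namespace Pool.Agent.Lib.MP_c03ca8_nt.P3

open Finset Real Pool.Agent.Lib.MP_c03ca8_nt.Q

theorem cellb_small (C : ℝ) :
    Filter.Tendsto (fun H : ℝ => C / Real.log H) Filter.atTop (nhds 0) :=
  Filter.Tendsto.div_atTop tendsto_const_nhds Real.tendsto_log_atTop

theorem cellb_lim {f : ℝ → ℝ} {l C : ℝ} (h : ∀ H : ℝ, 2 ≤ H → |f H - l| ≤ C / Real.log H) :
    Filter.Tendsto f Filter.atTop (nhds l) := by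
  rw [tendsto_iff_norm_sub_tendsto_zero]
  refine squeeze_zero' (Filter.Eventually.of_forall fun H => norm_nonneg _) ?_ (cellb_small C)
  filter_upwards [Filter.eventually_ge_atTop (2 : ℝ)] with H hH
  simpa [Real.norm_eq_abs] using h H hH

theorem cellb_A {a : ℕ} (ha : 1 ≤ a) :
    Filter.Tendsto (fun H : ℝ => ∑ p ∈ cP H a, 1 / (p : ℝ)) Filter.atTop (nhds (m0 a)) := by
  obtain ⟨C, -, hC⟩ := moments
  exact cellb_lim (C := C) fun H hH => (hC H a hH ha).1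

theorem cellb_B {a : ℕ} (ha : 1 ≤ a) :
    Filter.Tendsto (fun H : ℝ => ∑ p ∈ cP H a, (Real.log p / Real.log H - a) / p)
      Filter.atTop (nhds (be a)) := by
  obtain ⟨C, -, hC⟩ := moments
  exact cellb_lim (C := C * (a + 1)) fun H hH => (hC H a hH ha).2

theorem cellb_ge {H : ℝ} (hH : 1 ≤ H) {a p : ℕ} (ha : 1 ≤ a) (hp : p ∈ cP H a) :
    H ≤ (p : ℝ) := by
  unfold cP pI at hp
  have h1 := (mem_filter.mp hp).2.1
  exact le_trans (le_self_pow₀ hH (by omega)) h1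

theorem cellb_es {G : ℕ → ℝ} {M N : ℕ} (hG : Row G M N) (k : ℕ) : 0 ≤ es G N k :=
  add_nonneg (hG.nn _) (hG.nn _)

/-- `Idl ^ 2 ≥ 2 c Idl - c ^ 2` with `c = c2`, `idl_prime`, `moments`, `be_bounds` (if `c2 = 0`
there is nothing to prove). -/
theorem cell1 {G : ℕ → ℝ} {M N : ℕ} (hG : Row G M N) {a : ℕ} (ha : 1 ≤ a) (haN : a + 1 ≤ N)
    {ε : ℝ} (hε : 0 < ε) : ∀ᶠ H : ℝ in Filter.atTop,
      m0 a * c2 G N a ^ 2 - ε ≤ ∑ p ∈ cP H a, Idl H N M G p ^ 2 / p := by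
  obtain ⟨c, hc⟩ : ∃ c, c = c2 G N a := ⟨_, rfl⟩
  obtain ⟨α, hα⟩ : ∃ α, α = s1 G a + s1 G (N - a) - s1 G N := ⟨_, rfl⟩
  obtain ⟨β, hβ⟩ : ∃ β, β = G a - G (N - 1 - a) := ⟨_, rfl⟩
  rw [← hc]
  obtain ⟨b0, -, b2, b3⟩ := be_bounds ha
  have hlim := ((cellb_A ha).const_mul (2 * c * α - c ^ 2)).add
    ((cellb_B ha).const_mul (2 * c * β))
  have hL : m0 a * c ^ 2 ≤ (2 * c * α - c ^ 2) * m0 a + 2 * c * β * be a := by
    rcases le_total 0 (s1 G a + G a * (1 / 2 - 1 / (12 * a)) + s1 G (N - a) -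
      G (N - 1 - a) / 2 - s1 G N) with h0 | h0
    · have e : c = α + G a * (1 / 2 - 1 / (12 * a)) - G (N - 1 - a) / 2 := by
        rw [hc, hα, c2, max_eq_right h0]
        ring
      have c0 : 0 ≤ c := by
        rw [hc, c2]
        exact le_max_left _ _
      have k1 := mul_nonneg (hG.nn a) (sub_nonneg.mpr b2)
      have k2 := mul_nonneg (hG.nn (N - 1 - a)) (sub_nonneg.mpr b3)
      have k3 : 0 ≤ α * m0 a + β * be a - c * m0 a := by
        rw [e, hβ]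
        linarith
      have k4 := mul_nonneg c0 k3
      nlinarith [k4]
    · have e : c = 0 := by rw [hc, c2, max_eq_left h0]
      rw [e]
      simp
  have hev := hlim.eventually (eventually_ge_nhds
    (show m0 a * c ^ 2 - ε < (2 * c * α - c ^ 2) * m0 a + 2 * c * β * be a by linarith))
  filter_upwards [hev, Filter.eventually_gt_atTop (1 : ℝ)] with H h1 hH
  refine le_trans h1 ?_
  rw [mul_sum, mul_sum, ← sum_add_distrib]
  refine sum_le_sum fun p hp => ?_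
  rw [idl_prime hH hG haN hp, ← hα, ← hβ]
  obtain ⟨x, hx⟩ : ∃ x, x = Real.log p / Real.log H - a := ⟨_, rfl⟩
  rw [← hx]
  have hp0 : (0 : ℝ) ≤ p := Nat.cast_nonneg p
  have e : (2 * c * α - c ^ 2) * (1 / (p : ℝ)) + 2 * c * β * (x / p) =
      (2 * c * (α + β * x) - c ^ 2) / p := by ring
  rw [e]
  exact div_le_div_of_nonneg_right (by nlinarith [sq_nonneg (α + β * x - c)]) hp0

theorem cellb_erase (S : Finset ℕ) (f : ℕ → ℝ) (p : ℕ) {K : ℝ} (hK : 0 ≤ K)
    (h : p ∈ S → f p ≤ K) : ∑ q ∈ S, f q - K ≤ ∑ q ∈ S.erase p, f q := by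
  by_cases hp : p ∈ S
  · rw [← add_sum_erase S f hp]
    linarith [h hp]
  · rw [erase_eq_of_notMem hp]
    linarith

theorem cellb_lin {r s t x y : ℝ} (hx0 : 0 ≤ x) (hx1 : x ≤ 1) (hy0 : 0 ≤ y) (hy1 : y ≤ 1) :
    r + s * x + t * y ≤ |r| + |s| + |t| := by
  have h1 := le_abs_self r
  have h2 : s * x ≤ |s| := by
    calc s * x ≤ |s| * x := mul_le_mul_of_nonneg_right (le_abs_self s) hx0
      _ ≤ |s| := mul_le_of_le_one_right (abs_nonneg s) hx1
  have h3 : t * y ≤ |t| := by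
    calc t * y ≤ |t| * y := mul_le_mul_of_nonneg_right (le_abs_self t) hy0
      _ ≤ |t| := mul_le_of_le_one_right (abs_nonneg t) hy1
  linarith

theorem cellb_prod (S T : Finset ℕ) (x y : ℕ → ℝ) (r s t : ℝ) :
    r * ((∑ p ∈ S, 1 / (p : ℝ)) * ∑ q ∈ T, 1 / (q : ℝ)) +
      s * ((∑ p ∈ S, x p / p) * ∑ q ∈ T, 1 / (q : ℝ)) +
      t * ((∑ p ∈ S, 1 / (p : ℝ)) * ∑ q ∈ T, y q / q) =
      ∑ p ∈ S, ∑ q ∈ T, (r + s * x p + t * y q) / (p * q) := by
  rw [sum_mul_sum, sum_mul_sum, sum_mul_sum, mul_sum, mul_sum, mul_sum, ← sum_add_distrib,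
    ← sum_add_distrib]
  refine sum_congr rfl fun p _ => ?_
  rw [mul_sum, mul_sum, mul_sum, ← sum_add_distrib, ← sum_add_distrib]
  refine sum_congr rfl fun q _ => ?_
  ring

/-- The same with `c = c3` and the linear minorant `ℓ p p'` of `idl_two`. Sum `2 c ℓ - c ^ 2` over
all pairs (products of one dimensional moments); the terms `p' = p` are bounded by a constant times
`∑ 1 / p ^ 2 ≤ 2 / H` (`erra_sum_inv_sq`). -/
theorem cell2 {G : ℕ → ℝ} {M N : ℕ} (hG : Row G M N) {a b : ℕ} (ha : 1 ≤ a) (hb : 1 ≤ b)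
    (hab : a + b + 2 ≤ N) {ε : ℝ} (hε : 0 < ε) : ∀ᶠ H : ℝ in Filter.atTop,
      m0 a * m0 b * c3 G N a b ^ 2 - ε ≤
        ∑ p ∈ cP H a, ∑ p' ∈ (cP H b).erase p, Idl H N M G (p * p') ^ 2 / (p * p') := by
  obtain ⟨c, hc⟩ : ∃ c, c = c3 G N a b := ⟨_, rfl⟩
  obtain ⟨α, hα⟩ : ∃ α, α = s2 G N a + s2 G N b - cV G N (a + b + 1) / 2 := ⟨_, rfl⟩
  obtain ⟨μ, hμ⟩ : ∃ μ, μ = (es G N (a + b) + es G N (a + b + 1)) / 2 := ⟨_, rfl⟩
  obtain ⟨r, hr⟩ : ∃ r, r = 2 * c * (α + μ) - c ^ 2 := ⟨_, rfl⟩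
  obtain ⟨s, hs⟩ : ∃ s, s = 2 * c * (es G N a - μ) := ⟨_, rfl⟩
  obtain ⟨t, ht⟩ : ∃ t, t = 2 * c * (es G N b - μ) := ⟨_, rfl⟩
  rw [← hc]
  have c0 : 0 ≤ c := by
    rw [hc, c3]
    exact le_max_left _ _
  have μ0 : 0 ≤ μ := by
    rw [hμ]
    have := cellb_es hG (a + b)
    have := cellb_es hG (a + b + 1)
    linarith
  obtain ⟨a0, -, a2, a3⟩ := be_bounds ha
  obtain ⟨b0, -, b2, b3⟩ := be_bounds hb
  have hK : Filter.Tendsto (fun H : ℝ => (|r| + |s| + |t|) * (2 / H)) Filter.atTop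
      (nhds ((|r| + |s| + |t|) * 0)) :=
    (Filter.Tendsto.div_atTop tendsto_const_nhds Filter.tendsto_id).const_mul _
  have hlim := (((((cellb_A ha).mul (cellb_A hb)).const_mul r).add
    (((cellb_B ha).mul (cellb_A hb)).const_mul s)).add
    (((cellb_A ha).mul (cellb_B hb)).const_mul t)).sub hK
  have hL : m0 a * m0 b * c ^ 2 ≤
      r * (m0 a * m0 b) + s * (be a * m0 b) + t * (m0 a * be b) := by
    rcases le_total 0 ((cR G N a + cR G N b - cV G N (a + b + 1)) / 2) with h0 | h0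
    · have e : c = α + es G N a * (1 / 2 - 1 / (12 * a)) +
          es G N b * (1 / 2 - 1 / (12 * b)) := by
        rw [hc, hα, c3, max_eq_right h0, cR, cR]
        ring
      have k1 := mul_nonneg (mul_nonneg (cellb_es hG a) b0) (sub_nonneg.mpr a2)
      have k2 := mul_nonneg (mul_nonneg (cellb_es hG b) a0) (sub_nonneg.mpr b2)
      have k3 := mul_nonneg (mul_nonneg μ0 b0) (sub_nonneg.mpr a3)
      have k4 := mul_nonneg (mul_nonneg μ0 a0) (sub_nonneg.mpr b3)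
      have k5 : 0 ≤ (α + μ - c) * (m0 a * m0 b) + (es G N a - μ) * (be a * m0 b) +
          (es G N b - μ) * (m0 a * be b) := by
        rw [e]
        linarith
      have k6 := mul_nonneg c0 k5
      rw [hr, hs, ht]
      linarith
    · have e : c = 0 := by rw [hc, c3, max_eq_left h0]
      rw [hr, hs, ht, e]
      simp
  have hev := hlim.eventually (eventually_ge_nhds
    (show m0 a * m0 b * c ^ 2 - ε < r * (m0 a * m0 b) + s * (be a * m0 b) + t * (m0 a * be b) -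
      (|r| + |s| + |t|) * 0 by linarith))
  filter_upwards [hev, Filter.eventually_gt_atTop (1 : ℝ)] with H h1 hH
  refine le_trans h1 ?_
  have K0 : 0 ≤ |r| + |s| + |t| := by positivity
  have hsq := erra_sum_inv_sq (cP H a) hH.le fun p hp => cellb_ge hH.le ha hp
  rw [cellb_prod (cP H a) (cP H b) (fun p => Real.log p / Real.log H - a)
    (fun p => Real.log p / Real.log H - b) r s t]
  refine le_trans (sub_le_sub_left (mul_le_mul_of_nonneg_left hsq K0) _) ?_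
  rw [mul_sum, ← sum_sub_distrib]
  refine sum_le_sum fun p hp => ?_
  obtain ⟨-, pa1, pa2⟩ := mem_cP hH hp
  have hp0 : (0 : ℝ) ≤ p := Nat.cast_nonneg p
  refine le_trans (cellb_erase (cP H b) (fun q => (r + s * (Real.log p / Real.log H - a) +
    t * (Real.log q / Real.log H - b)) / (p * q)) p (by positivity) fun hpb => ?_) ?_
  · obtain ⟨-, pb1, pb2⟩ := mem_cP hH hpb
    rw [mul_one_div, sq]
    exact div_le_div_of_nonneg_right
      (cellb_lin (by linarith) (by linarith) (by linarith) (by linarith)) (mul_nonneg hp0 hp0)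
  · refine sum_le_sum fun q hq => ?_
    obtain ⟨hne, hq⟩ := mem_erase.mp hq
    have hi := idl_two hH hG hab hp hq hne
    rw [← hα, ← hμ] at hi
    have hq0 : (0 : ℝ) ≤ q := Nat.cast_nonneg q
    refine div_le_div_of_nonneg_right ?_ (mul_nonneg hp0 hq0)
    have k := mul_le_mul_of_nonneg_left hi c0
    rw [hr, hs, ht]
    nlinarith [sq_nonneg (Idl H N M G (p * q) - c), k]

end Pool.Agent.Lib.MP_c03ca8_nt.P3
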