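import Pool.Agent.Lib.MP_c03ca8_nt.P3.CellB

set_option autoImplicit false

noncomputable section

namespace Pool.Agent.Lib.MP_c03ca8_nt.P3

open Finset Real Pool.Agent.Lib.MP_c03ca8_nt.Q

theorem cellc_sum_le {s : Finset ℕ} {N : ℕ} (hs : s.card ≤ N) {f g : ℕ → ℝ} {e : ℝ} (he : 0 ≤ e)
    (h : ∀ a ∈ s, f a - e ≤ g a) : ∑ a ∈ s, f a - N * e ≤ ∑ a ∈ s, g a := by
  have h1 : ∑ a ∈ s, (f a - e) ≤ ∑ a ∈ s, g a := Finset.sum_le_sum h
  rw [Finset.sum_sub_distrib, Finset.sum_const, nsmul_eq_mul] at h1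
  have h2 : (s.card : ℝ) * e ≤ N * e := mul_le_mul_of_nonneg_right (by exact_mod_cast hs) he
  linarith

/-- `idl_one`, `cell1`, `cell2` with `ε / (N + 1) ^ 2`, `Filter.eventually_all_finset`. -/
theorem sg_low {G : ℕ → ℝ} {M N : ℕ} (hG : Row G M N) {ε : ℝ} (hε : 0 < ε) :
    ∀ᶠ H : ℝ in Filter.atTop, Dv G N - ε ≤ Sg H N fun d => Idl H N M G d ^ 2 := by
  set e : ℝ := ε / ((N : ℝ) + 1) ^ 2 with he
  have hN : (0 : ℝ) ≤ N := Nat.cast_nonneg N
  have he0 : 0 < e := div_pos hε (by positivity)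
  have h1 : ∀ᶠ H : ℝ in Filter.atTop, ∀ a ∈ Ico 1 (N - 1),
      m0 a * c2 G N a ^ 2 - e ≤ ∑ p ∈ cP H a, Idl H N M G p ^ 2 / p := by
    rw [Filter.eventually_all_finset]
    intro a ha
    rw [Finset.mem_Ico] at ha
    exact cell1 hG ha.1 (by omega) he0
  have h2 : ∀ᶠ H : ℝ in Filter.atTop, ∀ a ∈ Ico 1 N, ∀ b ∈ Ico 1 (N - 2 - a),
      m0 a * m0 b * c3 G N a b ^ 2 - e ≤
        ∑ p ∈ cP H a, ∑ p' ∈ (cP H b).erase p, Idl H N M G (p * p') ^ 2 / (p * p') := by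
    rw [Filter.eventually_all_finset]
    intro a ha
    rw [Filter.eventually_all_finset]
    intro b hb
    rw [Finset.mem_Ico] at ha hb
    exact cell2 hG ha.1 hb.1 (by omega) he0
  filter_upwards [h1, h2] with H k1 k2
  have k3 := cellc_sum_le (s := Ico 1 (N - 1)) (N := N) (by rw [Nat.card_Ico]; omega) he0.le k1
  have k4 := cellc_sum_le (s := Ico 1 N) (N := N) (by rw [Nat.card_Ico]; omega)
    (f := fun a => ∑ b ∈ Ico 1 (N - 2 - a), m0 a * m0 b * c3 G N a b ^ 2)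
    (g := fun a => ∑ b ∈ Ico 1 (N - 2 - a),
      ∑ p ∈ cP H a, ∑ p' ∈ (cP H b).erase p, Idl H N M G (p * p') ^ 2 / (p * p'))
    (e := N * e) (mul_nonneg hN he0.le)
    (fun a ha => cellc_sum_le (by rw [Nat.card_Ico]; omega) he0.le (k2 a ha))
  have k5 : ((N : ℝ) + 1) ^ 2 * e = ε := by
    rw [he]; field_simp
  have k6 : (N : ℝ) * e + 1 / 2 * (N * (N * e)) ≤ ε := by
    rw [← k5]
    have : 0 ≤ ((N : ℝ) * N / 2 + N + 1) * e := mul_nonneg (by positivity) he0.le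
    nlinarith
  unfold Dv Sg
  beta_reduce
  rw [idl_one H hG]
  linarith

/-- Each cell has mass at most `2` for large `H` (`moments`, `be_bounds`). -/
theorem sg_one (N : ℕ) : ∀ᶠ H : ℝ in Filter.atTop,
    Sg H N (fun _ => 1) ≤ 1 + 2 * N + 2 * N ^ 2 := by
  obtain ⟨C, hC0, hC⟩ := moments
  have hl : ∀ᶠ H : ℝ in Filter.atTop, C + 1 ≤ Real.log H :=
    Real.tendsto_log_atTop.eventually_ge_atTop (C + 1)
  filter_upwards [hl, Filter.eventually_ge_atTop (2 : ℝ)] with H hH hH2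
  have hN : (0 : ℝ) ≤ N := Nat.cast_nonneg N
  have hm : ∀ a : ℕ, 1 ≤ a → ∑ p ∈ cP H a, 1 / (p : ℝ) ≤ 2 := by
    intro a ha
    have h1 := (abs_le.mp (hC H a hH2 ha).1).2
    have h2 := (be_bounds ha).2.1
    have h3 : C / Real.log H ≤ 1 := by
      rw [div_le_one (by linarith)]; linarith
    linarith
  have hm0 : ∀ a : ℕ, 0 ≤ ∑ p ∈ cP H a, 1 / (p : ℝ) := fun a =>
    Finset.sum_nonneg fun p _ => by positivity
  have k1 : ∑ a ∈ Ico 1 (N - 1), ∑ p ∈ cP H a, (1 : ℝ) / p ≤ N * 2 := by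
    have := cellc_sum_le (s := Ico 1 (N - 1)) (N := N) (by rw [Nat.card_Ico]; omega)
      (f := fun a => ∑ p ∈ cP H a, (1 : ℝ) / p) (g := fun _ => 0) (e := 2) (by norm_num)
      (fun a ha => by have := hm a (Finset.mem_Ico.mp ha).1; linarith)
    rw [Finset.sum_const_zero] at this
    linarith
  have k2 : ∀ a b : ℕ, 1 ≤ a → 1 ≤ b →
      ∑ p ∈ cP H a, ∑ p' ∈ (cP H b).erase p, (1 : ℝ) / (p * p') ≤ 4 := by
    intro a b ha hb
    have h1 : ∑ p ∈ cP H a, ∑ p' ∈ (cP H b).erase p, (1 : ℝ) / (p * p') ≤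
        ∑ p ∈ cP H a, ∑ p' ∈ cP H b, (1 : ℝ) / p * (1 / p') := by
      refine Finset.sum_le_sum fun p _ => ?_
      refine le_trans (le_of_eq (Finset.sum_congr rfl fun p' _ => ?_))
        (Finset.sum_le_sum_of_subset_of_nonneg (Finset.erase_subset p _) fun p' _ _ => by positivity)
      rw [one_div_mul_one_div]
    rw [← Finset.sum_mul_sum] at h1
    have h2 := mul_le_mul (hm a ha) (hm b hb) (hm0 b) (by norm_num)
    linarith
  have k3 : ∑ a ∈ Ico 1 N, ∑ b ∈ Ico 1 (N - 2 - a),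
      ∑ p ∈ cP H a, ∑ p' ∈ (cP H b).erase p, (1 : ℝ) / (p * p') ≤ N * (N * 4) := by
    have := cellc_sum_le (s := Ico 1 N) (N := N) (by rw [Nat.card_Ico]; omega)
      (f := fun a => ∑ b ∈ Ico 1 (N - 2 - a),
        ∑ p ∈ cP H a, ∑ p' ∈ (cP H b).erase p, (1 : ℝ) / (p * p')) (g := fun _ => 0)
      (e := N * 4) (by positivity)
      (fun a ha => by
        have h := cellc_sum_le (s := Ico 1 (N - 2 - a)) (N := N) (by rw [Nat.card_Ico]; omega)
          (f := fun b => ∑ p ∈ cP H a, ∑ p' ∈ (cP H b).erase p, (1 : ℝ) / (p * p'))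
          (g := fun _ => 0) (e := 4) (by norm_num)
          (fun b hb => by
            have := k2 a b (Finset.mem_Ico.mp ha).1 (Finset.mem_Ico.mp hb).1
            linarith)
        rw [Finset.sum_const_zero] at h
        exact h)
    rw [Finset.sum_const_zero] at this
    linarith
  unfold Sg
  beta_reduce
  nlinarith

theorem sg_mono (H : ℝ) (N : ℕ) {φ ψ : ℕ → ℝ} (h : ∀ d, φ d ≤ ψ d) : Sg H N φ ≤ Sg H N ψ := by
  unfold Sg
  refine add_le_add (add_le_add (h 1) ?_) (mul_le_mul_of_nonneg_left ?_ (by norm_num))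
  · refine Finset.sum_le_sum fun a _ => Finset.sum_le_sum fun p _ => ?_
    exact div_le_div_of_nonneg_right (h p) (Nat.cast_nonneg p)
  · refine Finset.sum_le_sum fun a _ => Finset.sum_le_sum fun b _ =>
      Finset.sum_le_sum fun p _ => Finset.sum_le_sum fun p' _ => ?_
    exact div_le_div_of_nonneg_right (h _) (by positivity)

theorem cellc_add (H : ℝ) (N : ℕ) (φ ψ : ℕ → ℝ) :
    Sg H N (fun d => φ d + ψ d) = Sg H N φ + Sg H N ψ := by
  unfold Sg
  simp only [add_div, Finset.sum_add_distrib]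
  ring

theorem cellc_smul (H : ℝ) (N : ℕ) (w : ℝ) (φ : ℕ → ℝ) :
    Sg H N (fun d => w * φ d) = w * Sg H N φ := by
  unfold Sg
  simp only [mul_div_assoc, ← Finset.mul_sum]
  ring

/-- `Sg` is linear. -/
theorem sg_lin {ι : Type} (H : ℝ) (N : ℕ) (s : Finset ι) (w : ι → ℝ) (φ : ι → ℕ → ℝ) (κ : ℝ) :
    Sg H N (fun d => ∑ β ∈ s, w β * φ β d - κ) =
      ∑ β ∈ s, w β * Sg H N (φ β) - κ * Sg H N fun _ => 1 := by
  classical
  induction s using Finset.induction_on with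
  | empty =>
    have := cellc_smul H N (-κ) fun _ => 1
    simp only [Finset.sum_empty, zero_sub]
    simp only [mul_one] at this
    rw [this]; ring
  | insert β s hβ ih =>
    have h1 : (fun d => ∑ β' ∈ insert β s, w β' * φ β' d - κ) =
        fun d => w β * φ β d + (∑ β' ∈ s, w β' * φ β' d - κ) := by
      funext d
      rw [Finset.sum_insert hβ]; ring
    rw [h1, cellc_add H N (fun d => w β * φ β d) (fun d => ∑ β' ∈ s, w β' * φ β' d - κ),
      cellc_smul, ih, Finset.sum_insert hβ]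
    ring

theorem cellc_abs {M : ℕ} {G f : ℕ → ℝ} (hG : ∀ σ, 0 ≤ G σ) {B : ℝ} (hf : ∀ σ, |f σ| ≤ B) :
    |∑ σ ∈ range M, G σ * f σ| ≤ B * ∑ σ ∈ range M, G σ := by
  refine (Finset.abs_sum_le_sum_abs _ _).trans ?_
  rw [Finset.mul_sum]
  refine Finset.sum_le_sum fun σ _ => ?_
  rw [abs_mul, abs_of_nonneg (hG σ), mul_comm B]
  exact mul_le_mul_of_nonneg_left (hf σ) (hG σ)

theorem cellc_row {M N : ℕ} {G : ℕ → ℝ} (hG : ∀ σ, 0 ≤ G σ) {H κ : ℝ} {d q : ℕ} (hd : d ≠ 0)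
    (hom : om d ≤ 2) (hq : q.Prime) (hqd : ¬ q ∣ d)
    (hκ : |Real.log ((d * q : ℕ) : ℝ) / Real.log H - N| ≤ κ) :
    Idl H N M G d ^ 2 - 64 * (∑ σ ∈ range M, G σ) ^ 2 * κ ≤ PhG H M G 0 (d * q) ^ 2 := by
  set S : ℝ := ∑ σ ∈ range M, G σ with hS
  have hS0 : 0 ≤ S := Finset.sum_nonneg fun σ _ => hG σ
  have hκ0 : 0 ≤ κ := (abs_nonneg _).trans hκ
  have h4 : (2 : ℝ) ^ om d ≤ 4 := by
    calc (2 : ℝ) ^ om d ≤ 2 ^ 2 := pow_le_pow_right₀ (by norm_num) hom
      _ = 4 := by norm_num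
  have hP : ∀ t, |PhG H M G t d| ≤ 4 * S := fun t =>
    cellc_abs hG fun σ => (abs_Phi_le H σ t d).trans h4
  have hA : PhG H M G 0 (d * q) =
      PhG H M G 0 d - PhG H M G (Real.log q / Real.log H) d := by
    unfold PhG
    rw [← Finset.sum_sub_distrib]
    refine Finset.sum_congr rfl fun σ _ => ?_
    rw [mul_comm d q, Phi_mul H σ 0 hq hd hqd, zero_add]; ring
  have hlog : Real.log ((d * q : ℕ) : ℝ) = Real.log d + Real.log q := by
    rw [Nat.cast_mul, Real.log_mul (by exact_mod_cast hd) (by exact_mod_cast hq.ne_zero)]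
  have ht : |Real.log q / Real.log H - (N - Real.log d / Real.log H)| ≤ κ := by
    rw [hlog, add_div] at hκ
    refine le_trans (le_of_eq ?_) hκ
    congr 1; ring
  have hD : |PhG H M G (Real.log q / Real.log H) d - PhG H M G (N - Real.log d / Real.log H) d| ≤
      4 * κ * S := by
    have : PhG H M G (Real.log q / Real.log H) d - PhG H M G (N - Real.log d / Real.log H) d =
        ∑ σ ∈ range M, G σ * (Phi H σ (Real.log q / Real.log H) d -
          Phi H σ (N - Real.log d / Real.log H) d) := by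
      unfold PhG
      rw [← Finset.sum_sub_distrib]
      refine Finset.sum_congr rfl fun σ _ => ?_
      ring
    rw [this]
    refine cellc_abs hG fun σ => (Phi_lip H σ _ _ d).trans ?_
    exact mul_le_mul h4 ht (abs_nonneg _) (by norm_num)
  rw [hA]
  unfold Idl
  set x := PhG H M G 0 d with hx
  set y := PhG H M G (Real.log q / Real.log H) d with hy
  set z := PhG H M G (N - Real.log d / Real.log H) d with hz
  have bx : |x| ≤ 4 * S := hP _
  have by' : |y| ≤ 4 * S := hP _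
  have bz : |z| ≤ 4 * S := hP _
  have e1 : (x - z) ^ 2 - (x - y) ^ 2 = (y - z) * (2 * x - y - z) := by ring
  have e2 : |2 * x - y - z| ≤ 16 * S := by
    rw [abs_le] at bx by' bz ⊢
    constructor <;> linarith [bx.1, bx.2, by'.1, by'.2, bz.1, bz.2]
  have e3 : (y - z) * (2 * x - y - z) ≤ 4 * κ * S * (16 * S) := by
    refine (le_abs_self _).trans ?_
    rw [abs_mul]
    exact mul_le_mul hD e2 (abs_nonneg _) (by positivity)
  nlinarith

/-- For `d ∈ DD` and a prime `q ≥ H`, `q ∤ d`: `r3 H (d * q) = 1`, `Phi_mul` and `Phi_lip` give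
`|PhG 0 (d * q) - Idl d| ≤ 4 κ ∑ Gf`, and both are at most `8 ∑ Gf` in absolute value. -/
theorem rho_ge {c : Cert} {k : Ker} (hv : k.Valid c) (N : ℕ) : ∃ C : ℝ, 0 ≤ C ∧
    ∀ (H κ : ℝ) (d q : ℕ), 1 < H → d ∈ DD H N → q.Prime → H ≤ (q : ℝ) → ¬ q ∣ d →
      |Real.log ((d * q : ℕ) : ℝ) / Real.log H - N| ≤ κ →
      ∑ β ∈ range (c.U + 1), c.Mb β * k.Mk β β * Idl H N c.M (c.Gf β) d ^ 2 - C * κ ≤
        rho c k H (d * q) := by
  have hw : ∀ β ∈ range (c.U + 1), 0 ≤ c.Mb β * k.Mk β β := fun β hβ =>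
    mul_nonneg (Mb_nonneg c β) (hv.pos β (Nat.lt_succ_iff.mp (Finset.mem_range.mp hβ)))
  refine ⟨∑ β ∈ range (c.U + 1), c.Mb β * k.Mk β β * (64 * (∑ σ ∈ range c.M, c.Gf β σ) ^ 2),
    Finset.sum_nonneg fun β hβ => mul_nonneg (hw β hβ) (by positivity), ?_⟩
  intro H κ d q _ hd hq hHq hqd hκ
  simp only [DD, Finset.mem_filter, Finset.mem_Icc] at hd
  obtain ⟨⟨hd1, -⟩, hsq, hr, hom⟩ := hd
  have hd0 : d ≠ 0 := by omega
  have hr3 : r3 H (d * q) = 1 := by
    unfold r3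
    rw [if_pos]
    refine ⟨?_, hr.mul (rough_prime hq hHq), ?_⟩
    · rw [Nat.squarefree_mul ((Nat.Prime.coprime_iff_not_dvd hq).mpr hqd).symm]
      exact ⟨hsq, hq.squarefree⟩
    · rw [mul_comm, om_mul hq hd0 hqd]; omega
  unfold rho
  rw [hr3, one_mul, Finset.sum_mul, ← Finset.sum_sub_distrib]
  refine Finset.sum_le_sum fun β hβ => ?_
  have h1 := cellc_row (M := c.M) (N := N) (row_Gf hv le_rfl β).nn hd0 hom hq hqd hκ
  have h2 := mul_le_mul_of_nonneg_left h1 (hw β hβ)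
  linarith

end Pool.Agent.Lib.MP_c03ca8_nt.P3
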