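import Pool.Agent.Lib.MP_c03ca8_nt.P3.Defs

set_option autoImplicit false

noncomputable section

namespace Pool.Agent.Lib.MP_c03ca8_nt.P3

open Finset Real Pool.Agent.Lib.MP_c03ca8_nt.Q

theorem cha_mem {k : ℕ} {ψ : DirichletCharacter ℂ k} : ψ ∈ prim k ↔ ψ.conductor = k := by
  simp only [prim, Finset.mem_filter, Finset.mem_univ, true_and, DirichletCharacter.isPrimitive_def]

theorem cha_inj {D k k' : ℕ} (hD : 1 ≤ D) (hk : k ∣ D) (hk' : k' ∣ D)
    {ψ : DirichletCharacter ℂ k} {ψ' : DirichletCharacter ℂ k'} (hψ : ψ ∈ prim k)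
    (hψ' : ψ' ∈ prim k')
    (h : DirichletCharacter.changeLevel hk ψ = DirichletCharacter.changeLevel hk' ψ') :
    (⟨k, ψ⟩ : Σ c : ℕ, DirichletCharacter ℂ c) = ⟨k', ψ'⟩ := by
  have : NeZero D := ⟨by omega⟩
  have h1 := congrArg DirichletCharacter.conductor h
  rw [DirichletCharacter.conductor_changeLevel, DirichletCharacter.conductor_changeLevel,
    cha_mem.1 hψ, cha_mem.1 hψ'] at h1
  subst h1
  rw [DirichletCharacter.changeLevel_injective hk h]

theorem cha_val {D k n : ℕ} (hk : k ∣ D) (ψ : DirichletCharacter ℂ k) (hn : Nat.Coprime n D) :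
    DirichletCharacter.changeLevel hk ψ (n : ZMod D) = ψ (n : ZMod k) := by
  simpa using ψ.changeLevel_eq_cast_of_dvd' hk (Nat.isCoprime_iff_coprime.2 hn)

theorem cha_inv {k n : ℕ} (ψ : DirichletCharacter ℂ k) (hn : Nat.Coprime n k) :
    ψ (n : ZMod k)⁻¹ = (ψ (n : ZMod k))⁻¹ :=
  eq_inv_of_mul_eq_one_right (by rw [← map_mul, ZMod.coe_mul_inv_eq_one n hn, map_one])

/-- The map `χ ↦ ⟨conductor, primitiveCharacter⟩` of `char_inj` is onto the pairs `⟨k, ψ⟩` with
`k ∣ d`, `ψ ∈ prim k` (take `changeLevel`; `conductor_changeLevel`, or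
`conductor_dvd_of_mem_conductorSet` in both directions). On integers coprime to `d` a character
agrees with its primitive character (`char_eq_prim`); for the inverse of `a` use a natural `a'` with
`a * a' ≡ 1 [MOD d]`, so `(a : ZMod k)⁻¹ = a'` for all `k ∣ d`. Then `char_orth`. -/
theorem prim_sum {d a m : ℕ} (hd : 1 ≤ d) (ha : Nat.Coprime a d) (hm : Nat.Coprime m d) :
    ∑ k ∈ d.divisors, ∑ ψ ∈ prim k, ψ (a : ZMod k)⁻¹ * ψ (m : ZMod k) =
      if m ≡ a [MOD d] then (Nat.totient d : ℂ) else 0 := by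
  have ht : (Nat.totient d : ℂ) ≠ 0 := by exact_mod_cast (Nat.totient_pos.2 hd).ne'
  have h1 : ∑ k ∈ d.divisors, ∑ ψ ∈ prim k, ψ (a : ZMod k)⁻¹ * ψ (m : ZMod k) =
      ∑ χ : DirichletCharacter ℂ d, χ (a : ZMod d)⁻¹ * χ m := by
    rw [Finset.sum_sigma' d.divisors prim fun k ψ => ψ (a : ZMod k)⁻¹ * ψ (m : ZMod k)]
    refine Finset.sum_bij (fun x hx => DirichletCharacter.changeLevel
      (Nat.dvd_of_mem_divisors (Finset.mem_sigma.1 hx).1) x.2) (fun _ _ => Finset.mem_univ _)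
      (fun x hx y hy h => cha_inj hd _ _ (Finset.mem_sigma.1 hx).2 (Finset.mem_sigma.1 hy).2 h)
      (fun χ _ => ⟨⟨χ.conductor, χ.primitiveCharacter⟩, Finset.mem_sigma.2
        ⟨Nat.mem_divisors.2 ⟨χ.conductor_dvd_level, by omega⟩,
          cha_mem.2 χ.primitiveCharacter_isPrimitive⟩, χ.changeLevel_primitiveCharacter⟩)
      fun x hx => ?_
    have hk := Nat.dvd_of_mem_divisors (Finset.mem_sigma.1 hx).1
    rw [cha_inv _ ha, cha_inv _ (ha.coprime_dvd_right hk), cha_val hk _ ha, cha_val hk _ hm]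
  have h2 := char_orth hd ha m
  rw [one_div, eq_inv_mul_iff_mul_eq₀ ht] at h2
  rw [h1, ← h2, mul_ite, mul_one, mul_zero]

/-- Two different primitive characters. The product of the two `changeLevel` to `k * k'` of `ψ`
and `ψ'⁻¹` is not trivial (else the conductors agree, so `k = k'`, and `changeLevel` is injective),
its value at `n` is `ψ n * conj (ψ' n)` for all `n` (both vanish unless `n` is coprime to
`k * k'`; `MulChar.star_apply'`). Then `char_mult` and `char_interval`. -/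
theorem gram_off {k k' : ℕ} (hk : 1 ≤ k) (hk' : 1 ≤ k') {ψ : DirichletCharacter ℂ k}
    {ψ' : DirichletCharacter ℂ k'} (hψ : ψ ∈ prim k) (hψ' : ψ' ∈ prim k')
    (hne : (⟨k, ψ⟩ : Σ c : ℕ, DirichletCharacter ℂ c) ≠ ⟨k', ψ'⟩) {d : ℕ} (hd : 1 ≤ d)
    (A B : ℕ) :
    ‖∑ n ∈ Ioc A B, (if d ∣ n then (1 : ℂ) else 0) * (ψ n * (starRingEnd ℂ) (ψ' n))‖ ≤
      (k : ℝ) * k' := by
  have hD : 1 ≤ k * k' := Nat.mul_pos hk hk'
  have : NeZero k' := ⟨by omega⟩
  obtain ⟨χ, hχ⟩ : ∃ χ : DirichletCharacter ℂ (k * k'),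
      χ = DirichletCharacter.changeLevel (dvd_mul_right k k') ψ *
        (DirichletCharacter.changeLevel (dvd_mul_left k' k) ψ')⁻¹ := ⟨_, rfl⟩
  have h1 : χ ≠ 1 := fun h => hne (cha_inj hD _ _ hψ hψ' (mul_inv_eq_one.1 (hχ ▸ h)))
  have h2 : ∀ n : ℕ, ψ n * (starRingEnd ℂ) (ψ' n) = χ n := fun n => by
    by_cases hn : Nat.Coprime n (k * k')
    · rw [hχ, MulChar.mul_apply, MulChar.inv_apply_eq_inv', cha_val _ _ hn, cha_val _ _ hn,
        starRingEnd_apply, MulChar.star_apply', MulChar.inv_apply_eq_inv']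
    · rw [char_eq_prim χ, if_neg hn]
      rcases not_and_or.1 (fun h => hn (Nat.coprime_mul_iff_right.2 h)) with h | h
      · rw [char_eq_prim ψ, if_neg h, zero_mul]
      · rw [char_eq_prim ψ', if_neg h, map_zero, mul_zero]
  simp only [h2]
  rw [char_mult (fun n : ℕ => χ n) hd]
  simp only [Nat.cast_mul, map_mul]
  rw [← Finset.mul_sum, norm_mul]
  refine (mul_le_of_le_one_left (norm_nonneg _) (χ.norm_le_one _)).trans ?_
  exact_mod_cast char_interval hD χ h1 _ _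

end Pool.Agent.Lib.MP_c03ca8_nt.P3
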