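import Pool.Agent.Lib.MP_c03ca8_nt.P3.ChA

set_option autoImplicit false

noncomputable section

namespace Pool.Agent.Lib.MP_c03ca8_nt.P3

open Finset Real Pool.Agent.Lib.MP_c03ca8_nt.Q

theorem chb_crt (U : Finset ℕ) (r : ℕ → ℕ) : ∀ W a : ℕ, (∀ q ∈ U, q.Prime ∧ Nat.Coprime W q) →
    ∃ t, t ≡ a [MOD W] ∧ ∀ q ∈ U, t ≡ r q [MOD q] := by
  induction U using Finset.induction_on with
  | empty => exact fun W a _ => ⟨a, Nat.ModEq.refl _, by simp⟩
  | insert q U hq ih =>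
    intro W a hU
    obtain ⟨hp, hc⟩ := hU q (mem_insert_self _ _)
    obtain ⟨t0, h1, h2⟩ := Nat.chineseRemainder hc a (r q)
    obtain ⟨t, h3, h4⟩ := ih (W * q) t0 fun q' hq' => by
      obtain ⟨hp', hc'⟩ := hU q' (mem_insert_of_mem hq')
      exact ⟨hp', hc'.mul_left ((Nat.coprime_primes hp hp').2 fun e => hq (e ▸ hq'))⟩
    refine ⟨t, (h3.of_mul_right q).trans h1, fun q' hq' => ?_⟩
    rcases mem_insert.1 hq' with rfl | h
    · exact (h3.of_mul_left W).trans h2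
    · exact h4 q' h

theorem chb_div {W q : ℕ} (hq : q.Prime) (hc : Nat.Coprime W q) (f : ℕ → ℂ) :
    ∑ c ∈ (W * q).divisors, f c = ∑ c ∈ W.divisors, f c + ∑ c ∈ W.divisors, f (c * q) := by
  rw [Nat.divisors_mul, Finset.mul_def, sum_image hc.mul_injOn_divisors, sum_product,
    ← sum_add_distrib]
  refine sum_congr rfl fun c _ => ?_
  rw [hq.divisors, sum_pair hq.one_lt.ne]
  simp only [mul_one]

theorem chb_ind {t m : ℕ} (V : Finset ℕ) : ∀ W : ℕ, 1 ≤ W → Nat.Coprime t W → Nat.Coprime m W →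
    (∀ q ∈ V, q.Prime ∧ Nat.Coprime W q ∧ Nat.Coprime t q ∧ Nat.Coprime m q) →
    ∑ c ∈ W.divisors, ∑ ψ ∈ prim (c * pr V), ψ (t : ZMod (c * pr V))⁻¹ * ψ (m : ZMod (c * pr V)) =
      (if m ≡ t [MOD W] then (Nat.totient W : ℂ) else 0) *
        ∏ q ∈ V, ((if m ≡ t [MOD q] then (q : ℂ) - 1 else 0) - 1) := by
  obtain ⟨G, hG⟩ : ∃ G : ℕ → ℂ, ∀ k, G k = ∑ ψ ∈ prim k, ψ (t : ZMod k)⁻¹ * ψ (m : ZMod k) :=
    ⟨_, fun _ => rfl⟩
  simp only [← hG]
  induction V using Finset.induction_on with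
  | empty =>
    intro W hW ht hm _
    simp only [pr, prod_empty, mul_one, hG]
    exact prim_sum hW ht hm
  | insert q V hq ih =>
    intro W hW ht hm hV
    obtain ⟨hp, hc, htq, hmq⟩ := hV q (mem_insert_self _ _)
    have h1 := ih W hW ht hm fun q' hq' => hV q' (mem_insert_of_mem hq')
    have h2 := ih (W * q) (Nat.mul_pos hW hp.pos) (ht.mul_right htq) (hm.mul_right hmq)
      fun q' hq' => by
        obtain ⟨hp', hc', h'⟩ := hV q' (mem_insert_of_mem hq')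
        exact ⟨hp', hc'.mul_left ((Nat.coprime_primes hp hp').2 fun e => hq (e ▸ hq')), h'⟩
    rw [chb_div hp hc, h1] at h2
    have h3 : pr (insert q V) = q * pr V := prod_insert hq
    have h4 : (if m ≡ t [MOD W * q] then (Nat.totient (W * q) : ℂ) else 0) =
        (if m ≡ t [MOD W] then (Nat.totient W : ℂ) else 0) *
          if m ≡ t [MOD q] then (q : ℂ) - 1 else 0 := by
      rw [Nat.totient_mul hc, Nat.totient_prime hp, Nat.cast_mul, Nat.cast_pred hp.pos,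
        ite_zero_mul_ite_zero]
      simp only [Nat.modEq_and_modEq_iff_modEq_mul hc]
    simp only [h3, ← mul_assoc]
    rw [prod_insert hq]
    rw [h4] at h2
    linear_combination h2

/-- Choose `t` with `t ≡ a [MOD W]` and `t + u q ≡ v q [MOD q]` for `q ∈ U` (Chinese remainder
theorem), so `t` is coprime to `W * pr U`; `co k ψ = ψ (t : ZMod k)⁻¹`. If some `q ∈ U` divides `m`
both sides vanish. Otherwise put `F V = ∑ c ∈ W.divisors, ∑ ψ ∈ prim (c * pr V), …` for `V ⊆ U`.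
The divisors of `W * pr V` are the `c * pr V'` with `c ∣ W`, `V' ⊆ V`, each once, so `prim_sum`
gives `∑ V' ⊆ V, F V' = φ W 1_W ∏ q ∈ V, (q - 1) 1_q = φ W 1_W ∑ V' ⊆ V, ∏ q ∈ V', x q` with
`x q = (q - 1) 1_q - 1 = (q - 1) xi` (`Finset.prod_one_add`); strong induction on `V` gives
`F V = φ W 1_W ∏ q ∈ V, x q`. -/
theorem xi_expand {W a : ℕ} (hW : 1 ≤ W) (ha : Nat.Coprime a W) (U : Finset ℕ)
    (hU : ∀ q ∈ U, q.Prime ∧ Nat.Coprime W q) (u v : ℕ → ℕ)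
    (huv : ∀ q ∈ U, ¬ u q ≡ v q [MOD q]) :
    ∃ co : (k : ℕ) → DirichletCharacter ℂ k → ℂ, (∀ k ψ, ‖co k ψ‖ ≤ 1) ∧
      ∀ m : ℕ, Nat.Coprime m W →
        (((if m ≡ a [MOD W] then 1 else 0) * ∏ q ∈ U, xi q (u q) (v q) m : ℝ) : ℂ) =
          ((1 / (Nat.totient W : ℝ) * wt U : ℝ) : ℂ) *
            ∑ c ∈ W.divisors, ∑ ψ ∈ prim (c * pr U), co (c * pr U) ψ * ψ m := by
  obtain ⟨t, hta, ht⟩ := chb_crt U (fun q => v q + (q - 1) * u q) W a hU
  have ht1 : ∀ q ∈ U, t + u q ≡ v q [MOD q] := by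
    intro q hq
    refine ((ht q hq).add_right _).trans ?_
    obtain ⟨n, rfl⟩ := Nat.exists_eq_add_one_of_ne_zero (hU q hq).1.ne_zero
    rw [Nat.add_sub_cancel, add_assoc, ← add_one_mul]
    exact Nat.ModEq.symm ((Nat.modEq_iff_dvd' (Nat.le_add_right _ _)).2
      (by rw [Nat.add_sub_cancel_left]; exact dvd_mul_right _ _))
  have ht2 : ∀ m, ∀ q ∈ U, m + u q ≡ v q [MOD q] ↔ m ≡ t [MOD q] := fun m q hq =>
    ⟨fun h => Nat.ModEq.add_right_cancel' _ (h.trans (ht1 q hq).symm),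
      fun h => (h.add_right _).trans (ht1 q hq)⟩
  have ht3 : ∀ m, ∀ q ∈ U, q ∣ m → ¬ m ≡ t [MOD q] := fun m q hq hd h => by
    have h1 := (ht2 m q hq).2 h
    have h2 := ((Nat.modEq_zero_iff_dvd.2 hd).add_right (u q)).symm.trans h1
    rw [zero_add] at h2
    exact huv q hq h2
  have htW : Nat.Coprime t W := by
    rw [Nat.Coprime, hta.gcd_eq]
    exact ha
  refine ⟨fun k ψ => ψ (t : ZMod k)⁻¹, fun k ψ => ψ.norm_le_one _, fun m hm => ?_⟩
  by_cases hd : ∃ q ∈ U, q ∣ m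
  · obtain ⟨q, hq, hqm⟩ := hd
    have h1 : xi q (u q) (v q) m = 0 := by
      rw [xi, if_neg fun h => ht3 m q hq hqm ((ht2 m q hq).1 h), if_pos hqm, sub_zero]
    rw [prod_eq_zero hq h1, mul_zero, Complex.ofReal_zero, sum_eq_zero, mul_zero]
    refine fun c _ => sum_eq_zero fun ψ _ => ?_
    rw [ψ.map_nonunit (a := (m : ZMod (c * pr U))), mul_zero]
    rw [ZMod.isUnit_iff_coprime]
    exact Nat.not_coprime_of_dvd_of_dvd (hU q hq).1.one_lt hqm
      ((dvd_prod_of_mem (fun q => q) hq).mul_left c)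
  have hd' : ∀ q ∈ U, ¬ q ∣ m := fun q hq h => hd ⟨q, hq, h⟩
  rw [chb_ind U W hW htW hm fun q hq => ⟨(hU q hq).1, (hU q hq).2,
    (((hU q hq).1.coprime_iff_not_dvd).2 fun h => ht3 t q hq h (Nat.ModEq.refl _)).symm,
    (((hU q hq).1.coprime_iff_not_dvd).2 (hd' q hq)).symm⟩]
  have h1 : ((∏ q ∈ U, xi q (u q) (v q) m : ℝ) : ℂ) =
      (wt U : ℂ) * ∏ q ∈ U, ((if m ≡ t [MOD q] then (q : ℂ) - 1 else 0) - 1) := by
    rw [wt, Complex.ofReal_prod, Complex.ofReal_prod, ← prod_mul_distrib]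
    refine prod_congr rfl fun q hq => ?_
    have h2 : (q : ℂ) - 1 ≠ 0 := sub_ne_zero.2 (by exact_mod_cast (hU q hq).1.one_lt.ne')
    rw [xi, if_neg (hd' q hq)]
    simp only [ht2 m q hq]
    split_ifs
    · push_cast
      field_simp
    · push_cast
      ring
  have h3 : (Nat.totient W : ℂ) ≠ 0 := by exact_mod_cast (Nat.totient_pos.2 hW).ne'
  have h4 : m ≡ t [MOD W] ↔ m ≡ a [MOD W] := ⟨fun h => h.trans hta, fun h => h.trans hta.symm⟩
  rw [Complex.ofReal_mul, h1]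
  simp only [h4]
  split_ifs
  · push_cast
    field_simp
  · simp

/-- Sum `xi_expand` over the pairs and use `ψ (p * r) = ψ p * ψ r`. -/
theorem xi_bil {W a : ℕ} (hW : 1 ≤ W) (ha : Nat.Coprime a W) (U : Finset ℕ)
    (hU : ∀ q ∈ U, q.Prime ∧ Nat.Coprime W q) (u v : ℕ → ℕ)
    (huv : ∀ q ∈ U, ¬ u q ≡ v q [MOD q]) (J R : Finset ℕ) (b : ℕ → ℝ)
    (hb : ∀ p ∈ J, ∀ r ∈ R, b r ≠ 0 → Nat.Coprime (p * r) W) :
    |∑ p ∈ J, ∑ r ∈ R, b r *
      ((if p * r ≡ a [MOD W] then 1 else 0) * ∏ q ∈ U, xi q (u q) (v q) (p * r))| ≤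
      1 / (Nat.totient W : ℝ) * wt U * ∑ c ∈ W.divisors, Xi J R b (c * pr U) := by
  obtain ⟨co, hco, h⟩ := xi_expand hW ha U hU u v huv
  have hκ : 0 ≤ 1 / (Nat.totient W : ℝ) * wt U := by
    refine mul_nonneg (by positivity) (prod_nonneg fun q hq => one_div_nonneg.2 (sub_nonneg.2 ?_))
    exact_mod_cast (hU q hq).1.one_lt.le
  generalize 1 / (Nat.totient W : ℝ) * wt U = κ at h hκ ⊢
  have h1 : ((∑ p ∈ J, ∑ r ∈ R, b r * ((if p * r ≡ a [MOD W] then 1 else 0) *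
      ∏ q ∈ U, xi q (u q) (v q) (p * r)) : ℝ) : ℂ) = κ * ∑ c ∈ W.divisors,
        ∑ ψ ∈ prim (c * pr U), co (c * pr U) ψ * ((∑ p ∈ J, ψ p) * ∑ r ∈ R, (b r : ℂ) * ψ r) := by
    have h2 : ∀ p ∈ J, ∀ r ∈ R, ((b r * ((if p * r ≡ a [MOD W] then 1 else 0) *
        ∏ q ∈ U, xi q (u q) (v q) (p * r)) : ℝ) : ℂ) = ∑ c ∈ W.divisors,
          ∑ ψ ∈ prim (c * pr U), κ * (co (c * pr U) ψ * (ψ p * ((b r : ℂ) * ψ r))) := by
      intro p hp r hr
      by_cases hb0 : b r = 0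
      · simp [hb0]
      rw [Complex.ofReal_mul, h _ (hb p hp r hr hb0)]
      simp only [mul_sum, Nat.cast_mul, map_mul]
      exact sum_congr rfl fun c _ => sum_congr rfl fun ψ _ => by ring
    simp only [Complex.ofReal_sum]
    rw [sum_congr rfl fun p hp => sum_congr rfl (h2 p hp)]
    simp only [sum_mul_sum]
    simp only [mul_sum]
    rw [sum_congr rfl fun p _ => sum_comm, sum_comm]
    refine sum_congr rfl fun c _ => ?_
    rw [sum_congr rfl fun p _ => sum_comm, sum_comm]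
  rw [← Real.norm_eq_abs, ← Complex.norm_real, h1, norm_mul, Complex.norm_real,
    Real.norm_of_nonneg hκ]
  refine mul_le_mul_of_nonneg_left ((norm_sum_le _ _).trans (sum_le_sum fun c _ =>
    (norm_sum_le _ _).trans (sum_le_sum fun ψ _ => ?_))) hκ
  rw [norm_mul, norm_mul]
  exact mul_le_of_le_one_left (by positivity) (hco _ _)

end Pool.Agent.Lib.MP_c03ca8_nt.P3
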