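import Pool.Agent.Lib.MP_c03ca8_nt.P3.CellC
import Pool.Agent.Lib.MP_c03ca8_nt.P3.Rep
import Pool.Agent.Lib.MP_c03ca8_nt.P3.MapB

set_option autoImplicit false

noncomputable section

namespace Pool.Agent.Lib.MP_c03ca8_nt.P3

open Finset Real Pool.Agent.Lib.MP_c03ca8_nt.Q

theorem low_mem {y K : ℝ} {d q : ℕ} (hd : 1 ≤ d) (hq : q ∈ pI (3 * y / d) (K * y / d)) :
    q.Prime ∧ 3 * y ≤ ((d * q : ℕ) : ℝ) ∧ ((d * q : ℕ) : ℝ) < K * y := by
  have hd0 : (0 : ℝ) < d := by exact_mod_cast hd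
  rw [pI, mem_filter, Nat.mem_primesLE] at hq
  obtain ⟨⟨-, hp⟩, h1, h2⟩ := hq
  rw [div_le_iff₀ hd0] at h1
  rw [lt_div_iff₀ hd0] at h2
  push_cast
  exact ⟨hp, by linarith, by linarith⟩

theorem low_dd {H : ℝ} (hH : 1 < H) {N d : ℕ} (hN : 1 ≤ N) (hd : d ∈ DD H N) :
    1 ≤ d ∧ (d : ℝ) * H ≤ H ^ N ∧ Rough H d ∧ om d ≤ 2 := by
  classical
  rw [DD, mem_filter, mem_Icc] at hd
  obtain ⟨⟨h1, h2⟩, -, h3, h4⟩ := hd
  refine ⟨h1, ?_, h3, h4⟩
  have h5 : (d : ℝ) ≤ H ^ (N - 1) :=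
    le_trans (by exact_mod_cast h2) (Nat.floor_le (by positivity))
  calc (d : ℝ) * H ≤ H ^ (N - 1) * H := by gcongr
    _ = H ^ N := by rw [← pow_succ, Nat.sub_add_cancel hN]

/-- The inequality for one `H` with `H ^ N = y`. -/
theorem low_core {c : Cert} {k : Ker} (hv : k.Valid c) {N W K y a : ℕ} (hN1 : 1 ≤ N)
    {H C1 C2 : ℝ} (hH : 1 < H) (hy : H ^ N = y) (hWH : (W : ℝ) < H) (hW : 1 ≤ W) (hK : 3 ≤ K)
    (ha : Nat.Coprime a W)
    (h1 : ∀ a d : ℕ, Nat.Coprime a W → Nat.Coprime d W → 1 ≤ d → ∀ Y Z : ℝ, 1 ≤ Y → Y ≤ Z →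
      Real.log (Z / Y) / Nat.totient W - C1 - om d ≤
        ∑ q ∈ (pI Y Z).filter (fun q => d * q ≡ a [MOD W] ∧ ¬ q ∣ d), Real.log q / q)
    (h2 : ∀ (κ : ℝ) (d q : ℕ), d ∈ DD H N → q.Prime → H ≤ (q : ℝ) → ¬ q ∣ d →
      |Real.log ((d * q : ℕ) : ℝ) / Real.log H - N| ≤ κ →
      ∑ β ∈ range (c.U + 1), c.Mb β * k.Mk β β * Idl H N c.M (c.Gf β) d ^ 2 - C2 * κ ≤
        rho c k H (d * q))
    (hL : 0 ≤ Real.log (K / 3) / Nat.totient W - C1 - 2) :
    (Real.log (K / 3) / Nat.totient W - C1 - 2) *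
      Sg H N (fun d => ∑ β ∈ range (c.U + 1), c.Mb β * k.Mk β β * Idl H N c.M (c.Gf β) d ^ 2 -
        C2 * (Real.log K / Real.log H)) ≤
      Real.log (K * y) * ∑ m ∈ (Ioc (2 * y) (K * y)).filter (fun m => m ≡ a [MOD W]),
        rho c k H m / m := by
  classical
  set L := Real.log (K / 3) / Nat.totient W - C1 - 2 with hLd
  set ψ : ℕ → ℝ := fun d => ∑ β ∈ range (c.U + 1), c.Mb β * k.Mk β β *
    Idl H N c.M (c.Gf β) d ^ 2 - C2 * (Real.log K / Real.log H) with hψ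
  have hy1 : (1 : ℝ) ≤ y := by rw [← hy]; exact one_le_pow₀ hH.le
  have hK3 : (3 : ℝ) ≤ K := by exact_mod_cast hK
  have hlH : 0 < Real.log H := Real.log_pos hH
  have hly : Real.log y = N * Real.log H := by rw [← hy, Real.log_pow]
  set Qs : ℕ → Finset ℕ := fun d => (pI (3 * y / d) (K * y / d)).filter
    (fun q => d * q ≡ a [MOD W] ∧ ¬ q ∣ d) with hQs
  have hrep := rep (ρ := rho c k H) (rho_nonneg hv H)
    ((Ioc (2 * y) (K * y)).filter (fun m => m ≡ a [MOD W])) (DD H N) Qs (Z := K * y)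
    (fun m hm => by
      rw [mem_filter, mem_Ioc] at hm
      refine ⟨by omega, ?_⟩
      exact_mod_cast hm.1.2)
    (fun d hd q hq => by
      rw [hQs, mem_filter] at hq
      obtain ⟨hd1, -, -, -⟩ := low_dd hH hN1 hd
      obtain ⟨hp, h3, h4⟩ := low_mem hd1 hq.1
      refine ⟨hp, ?_⟩
      rw [mem_filter, mem_Ioc]
      refine ⟨⟨?_, ?_⟩, hq.2.1⟩
      · have : ((2 * y : ℕ) : ℝ) < ((d * q : ℕ) : ℝ) := by
          push_cast at h3 ⊢
          linarith
        exact_mod_cast this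
      · have : ((d * q : ℕ) : ℝ) ≤ ((K * y : ℕ) : ℝ) := by
          push_cast at h4 ⊢
          linarith
        exact_mod_cast this)
  refine le_trans ?_ hrep
  have hs : Sg H N ψ ≤ ∑ d ∈ DD H N, max 0 (ψ d) / d :=
    (sg_mono H N fun d => le_max_right 0 (ψ d)).trans
      (sg_le hH N (φ := fun d => max 0 (ψ d)) fun d => le_max_left _ _)
  refine (mul_le_mul_of_nonneg_left hs hL).trans ?_
  rw [mul_sum]
  refine sum_le_sum fun d hd => ?_
  obtain ⟨hd1, hdH, hr, ho⟩ := low_dd hH hN1 hd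
  have hd0 : (0 : ℝ) < d := by exact_mod_cast hd1
  rw [hy] at hdH
  have hyd : H ≤ y / d := by rw [le_div_iff₀ hd0]; linarith
  have hcop : Nat.Coprime d W := hr.coprime fun q _ hq => by
    have : (q : ℝ) ≤ W := by exact_mod_cast Nat.le_of_dvd hW hq
    linarith
  have hY : 3 * (y : ℝ) / d = 3 * (y / d) := by ring
  have hm := h1 a d ha hcop hd1 (3 * y / d) (K * y / d) (by rw [hY]; linarith) (by gcongr)
  have hq : (K * (y : ℝ) / d) / (3 * y / d) = K / 3 := by field_simp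
  rw [hq] at hm
  have ho' : (om d : ℝ) ≤ 2 := by exact_mod_cast ho
  have hLs : L ≤ ∑ q ∈ Qs d, Real.log q / q := le_trans (by rw [hLd]; linarith) hm
  have hφ : 0 ≤ max 0 (ψ d) / d := div_nonneg (le_max_left _ _) hd0.le
  refine (mul_le_mul_of_nonneg_right hLs hφ).trans ?_
  rw [sum_mul]
  refine sum_le_sum fun q hq => ?_
  rw [hQs, mem_filter] at hq
  obtain ⟨hp, h3, h4⟩ := low_mem hd1 hq.1
  have hlq : 0 ≤ Real.log q / q := div_nonneg (Real.log_natCast_nonneg q) (Nat.cast_nonneg q)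
  rw [mul_comm]
  refine mul_le_mul_of_nonneg_right (div_le_div_of_nonneg_right ?_ hd0.le) hlq
  refine max_le (rho_nonneg hv H _) (h2 _ d q hd hp ?_ hq.2.2 ?_)
  · have h5 : (d : ℝ) * H ≤ d * q := by
      push_cast at h3
      linarith
    exact le_of_mul_le_mul_left h5 hd0
  · have h5 : Real.log y ≤ Real.log ((d * q : ℕ) : ℝ) :=
      Real.log_le_log (by linarith) (by linarith)
    have h6 : Real.log ((d * q : ℕ) : ℝ) ≤ Real.log K + Real.log y := by
      rw [← Real.log_mul (by linarith) (by linarith)]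
      exact Real.log_le_log (by linarith) h4.le
    have h7 : Real.log ((d * q : ℕ) : ℝ) / Real.log H - N =
        (Real.log ((d * q : ℕ) : ℝ) - Real.log y) / Real.log H := by
      rw [hly]; field_simp
    rw [h7, abs_of_nonneg (div_nonneg (by linarith) hlH.le)]
    exact div_le_div_of_nonneg_right (by linarith) hlH.le

theorem low_arith {D ε B φ lK ly R T : ℝ} (hε : 0 < ε) (hD : ε < D) (hB : 0 ≤ B) (hφ : 0 < φ)
    (hK : 4 * B * D / ε ≤ lK) (hly : 0 < ly) (hy : 4 * D * lK / ε ≤ ly)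
    (hT : D - ε / 2 ≤ T) (h : (lK - B) / φ * T ≤ (lK + ly) * R) :
    (D - ε) * lK / (φ * ly) ≤ R := by
  rw [div_le_iff₀ hε] at hK hy
  have hBD : 0 ≤ B * D := mul_nonneg hB (by linarith)
  have hlK : 0 ≤ lK := by
    by_contra hc
    have := mul_neg_of_neg_of_pos (not_le.mp hc) hε
    linarith
  have hBK : B ≤ lK := by
    by_contra hc
    have h1 : lK * ε < B * ε := mul_lt_mul_of_pos_right (not_le.mp hc) hε
    have h2 : B * ε ≤ B * D := mul_le_mul_of_nonneg_left hD.le hB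
    linarith
  have h1 : (lK - B) * (D - ε / 2) ≤ (lK - B) * T := mul_le_mul_of_nonneg_left hT (by linarith)
  have h2 : (D - 3 * ε / 4) * lK ≤ (lK - B) * (D - ε / 2) := by
    have : 0 ≤ B * ε := mul_nonneg hB hε.le
    nlinarith
  have h3 : (D - ε) * (lK + ly) ≤ (D - 3 * ε / 4) * ly := by
    have : 0 ≤ lK * ε := mul_nonneg hlK hε.le
    nlinarith
  have h4 : (lK - B) * T ≤ φ * ((lK + ly) * R) := by
    rw [div_mul_eq_mul_div, div_le_iff₀ hφ] at h
    linarith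
  have h5 : 0 < lK + ly := by linarith
  rw [div_le_iff₀ (mul_pos hφ hly)]
  refine le_of_mul_le_mul_right ?_ h5
  have h6 : (D - ε) * (lK + ly) * lK ≤ (D - 3 * ε / 4) * ly * lK :=
    mul_le_mul_of_nonneg_right h3 hlK
  have h7 : (D - 3 * ε / 4) * lK * ly ≤ φ * ((lK + ly) * R) * ly :=
    mul_le_mul_of_nonneg_right (h2.trans (h1.trans h4)) hly.le
  nlinarith

/-- `H = y ^ (1 / N)`. `rep` with `D = DD H N`, `Z = K y` and the primes `q` of
`pI (3 y / d) (K y / d)` with `d * q ≡ a`, `q ∤ d` (`d ≤ y / H`, so `q ≥ 3 H`; `d` is coprime to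
`W` when `W < H`). `mertens_ap'` gives `(1 - ε') log K / φ W` for `K ≥ K0`; `rho_ge` with
`κ = N log K / log y`; put `φ d = max 0 (…)`, then `sg_le`, `sg_mono`, `sg_lin`, `sg_low`,
`sg_one`; `log (K y) ≤ (1 + ε') log y`. If `Dtot ≤ ε` there is nothing to prove. -/
theorem low_bound (c : Cert) (k : Ker) (hv : k.Valid c) {N : ℕ} (hN : c.M ≤ N) (hN1 : 1 ≤ N)
    {ε : ℝ} (hε : 0 < ε) {W : ℕ} (hW : 1 ≤ W) : ∃ K0 : ℕ, ∀ K : ℕ, K0 ≤ K → ∃ y0 : ℕ,
    ∀ y : ℕ, y0 ≤ y → ∀ a : ℕ, Nat.Coprime a W →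
      (Dtot c k N - ε) * Real.log K / (Nat.totient W * Real.log y) ≤
        ∑ m ∈ (Ioc (2 * y) (K * y)).filter (fun m => m ≡ a [MOD W]),
          rho c k ((y : ℝ) ^ (1 / (N : ℝ))) m / m := by
  rcases le_or_gt (Dtot c k N) ε with hD | hD
  · refine ⟨0, fun K _ => ⟨0, fun y _ a _ => le_trans ?_
      (sum_nonneg fun m _ => div_nonneg (rho_nonneg hv _ m) (Nat.cast_nonneg m))⟩⟩
    exact div_nonpos_of_nonpos_of_nonneg
      (mul_nonpos_of_nonpos_of_nonneg (by linarith) (Real.log_natCast_nonneg K))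
      (mul_nonneg (Nat.cast_nonneg _) (Real.log_natCast_nonneg y))
  obtain ⟨C1, hC1, h1⟩ := mertens_ap' hW
  obtain ⟨C2, hC2, h2⟩ := rho_ge hv N
  have hφ : (0 : ℝ) < Nat.totient W := by exact_mod_cast Nat.totient_pos.mpr hW
  set D := Dtot c k N with hDd
  set B : ℝ := Real.log 3 + Nat.totient W * (C1 + 2) with hB
  have hB0 : 0 ≤ B := add_nonneg (Real.log_nonneg (by norm_num)) (by positivity)
  set A : ℝ := ∑ β ∈ range (c.U + 1), c.Mb β * k.Mk β β with hA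
  have hw : ∀ β ∈ range (c.U + 1), 0 ≤ c.Mb β * k.Mk β β := fun β hβ =>
    mul_nonneg (Mb_nonneg c β) (hv.pos β (Nat.lt_succ_iff.mp (mem_range.mp hβ)))
  have hA0 : 0 ≤ A := sum_nonneg hw
  set S : ℝ := 1 + 2 * N + 2 * N ^ 2 with hS
  have hS0 : 0 < S := by positivity
  have hN0 : (0 : ℝ) < N := by exact_mod_cast hN1
  have hlog : Filter.Tendsto (fun n : ℕ => Real.log n) Filter.atTop Filter.atTop :=
    Real.tendsto_log_atTop.comp tendsto_natCast_atTop_atTop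
  obtain ⟨K0, hK0⟩ := Filter.eventually_atTop.mp
    ((hlog.eventually_ge_atTop (4 * B * D / ε)).and
      ((hlog.eventually_ge_atTop B).and (Filter.eventually_ge_atTop 3)))
  refine ⟨K0, fun K hK => ?_⟩
  obtain ⟨hK1, hK2, hK3⟩ := hK0 K hK
  have hHt : Filter.Tendsto (fun y : ℕ => (y : ℝ) ^ (1 / (N : ℝ))) Filter.atTop Filter.atTop :=
    (tendsto_rpow_atTop (by positivity)).comp tendsto_natCast_atTop_atTop
  have hev : ∀ᶠ H : ℝ in Filter.atTop, (∀ β ∈ range (c.U + 1),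
      Dv (c.Gf β) N - ε / (4 * (A + 1)) ≤ Sg H N fun d => Idl H N c.M (c.Gf β) d ^ 2) ∧
      Sg H N (fun _ => 1) ≤ S ∧ 1 < H ∧ (W : ℝ) < H ∧
      4 * C2 * Real.log K * S / ε ≤ Real.log H :=
    ((Filter.eventually_all_finset _).mpr fun β _ =>
      sg_low (row_Gf hv hN β) (by positivity)).and ((sg_one N).and
        ((Filter.eventually_gt_atTop 1).and ((Filter.eventually_gt_atTop _).and
          (Real.tendsto_log_atTop.eventually_ge_atTop _))))
  obtain ⟨y0, hy0⟩ := Filter.eventually_atTop.mp ((hHt.eventually hev).and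
    ((hlog.eventually_ge_atTop (4 * D * Real.log K / ε)).and (Filter.eventually_ge_atTop 2)))
  refine ⟨y0, fun y hy a ha => ?_⟩
  obtain ⟨⟨e1, e2, e3, e4, e5⟩, e6, e7⟩ := hy0 y hy
  set H : ℝ := (y : ℝ) ^ (1 / (N : ℝ)) with hH
  have hy2 : (2 : ℝ) ≤ y := by exact_mod_cast e7
  have hK3' : (3 : ℝ) ≤ K := by exact_mod_cast hK3
  have hHN : H ^ N = y := by
    rw [hH, one_div]
    exact Real.rpow_inv_natCast_pow (by linarith) (by omega)
  have hLe : Real.log (K / 3) / Nat.totient W - C1 - 2 = (Real.log K - B) / Nat.totient W := by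
    rw [Real.log_div (by linarith) (by norm_num), hB]
    field_simp
    ring
  have hc := low_core hv hN1 e3 hHN e4 hW hK3 ha h1 (fun κ d q => h2 H κ d q e3)
    (by rw [hLe]; exact div_nonneg (by linarith) hφ.le)
  rw [hLe, Real.log_mul (by linarith) (by linarith),
    sg_lin H N (range (c.U + 1)) (fun β => c.Mb β * k.Mk β β)
      (fun β d => Idl H N c.M (c.Gf β) d ^ 2)] at hc
  refine low_arith hε hD hB0 hφ hK1 (Real.log_pos (by linarith)) e6 ?_ hc
  have hlH : 0 < Real.log H := Real.log_pos e3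
  have hlK : 0 ≤ Real.log K := Real.log_natCast_nonneg K
  have s1 : D - A * (ε / (4 * (A + 1))) ≤ ∑ β ∈ range (c.U + 1), c.Mb β * k.Mk β β *
      Sg H N fun d => Idl H N c.M (c.Gf β) d ^ 2 := by
    rw [hDd, Dtot, hA, sum_mul, ← sum_sub_distrib]
    refine sum_le_sum fun β hβ => ?_
    have := mul_le_mul_of_nonneg_left (e1 β hβ) (hw β hβ)
    rw [← hA]
    linarith
  have s2 : A * (ε / (4 * (A + 1))) ≤ ε / 4 := by
    rw [← mul_div_assoc, div_le_div_iff₀ (by positivity) (by norm_num)]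
    nlinarith
  have s3 : C2 * (Real.log K / Real.log H) * Sg H N (fun _ => 1) ≤ ε / 4 := by
    refine (mul_le_mul_of_nonneg_left e2 (by positivity)).trans ?_
    rw [div_le_iff₀ hε] at e5
    have : C2 * (Real.log K / Real.log H) * S = C2 * Real.log K * S / Real.log H := by ring
    rw [this, div_le_iff₀ hlH]
    linarith
  linarith

end Pool.Agent.Lib.MP_c03ca8_nt.P3
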