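import Pool.Agent.Lib.MP_c03ca8_nt.P3.Sums
import Pool.Agent.Lib.MP_c03ca8_nt.P3.Low

set_option autoImplicit false

noncomputable section

namespace Pool.Agent.Lib.MP_c03ca8_nt.P3

open Finset Real Pool.Agent.Lib.MP_c03ca8_nt.Q

theorem core_pow {θ γ : ℝ} (hθ : θ < 1) (hγ : 0 < γ) :
    ∃ x2 : ℕ, ∀ x : ℕ, x2 ≤ x → (x : ℝ) ^ θ ≤ γ * x := by
  have h1 : Filter.Tendsto (fun x : ℕ => (x : ℝ) ^ (-(1 - θ))) Filter.atTop (nhds 0) :=
    (tendsto_rpow_neg_atTop (by linarith)).comp tendsto_natCast_atTop_atTop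
  obtain ⟨x2, hx2⟩ := Filter.eventually_atTop.1 (h1.eventually (ge_mem_nhds hγ))
  refine ⟨x2 + 1, fun x hx => ?_⟩
  have h0 : (0 : ℝ) < x := by exact_mod_cast (show 0 < x by omega)
  have e : (x : ℝ) ^ θ = (x : ℝ) ^ (-(1 - θ)) * x := by
    rw [← Real.rpow_add_one h0.ne']; congr 1; ring
  rw [e]
  exact mul_le_mul_of_nonneg_right (hx2 x (by omega)) h0.le

theorem core_shift {ρ : ℕ → ℝ} (hρ : ∀ m, 0 ≤ ρ m) {y Z W a u : ℕ} (hu : u ≤ y) :
    ∑ m ∈ (Ioc (2 * y) Z).filter (fun m => m ≡ a + u [MOD W]), ρ m / m ≤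
      ∑ n ∈ (Ioc y Z).filter (fun n => n ≡ a [MOD W]), ρ (n + u) / n := by
  have hsub : (Ioc (2 * y) Z).filter (fun m => m ≡ a + u [MOD W]) ⊆
      ((Ioc y Z).filter (fun n => n ≡ a [MOD W])).image (· + u) := by
    intro m hm
    obtain ⟨h1, h2⟩ := mem_filter.1 hm
    obtain ⟨h3, h4⟩ := mem_Ioc.1 h1
    refine mem_image.2 ⟨m - u, mem_filter.2 ⟨mem_Ioc.2 ⟨by omega, by omega⟩, ?_⟩, by omega⟩
    refine Nat.ModEq.add_right_cancel' u ?_
    rwa [Nat.sub_add_cancel (by omega)]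
  refine (sum_le_sum_of_subset_of_nonneg hsub fun m _ _ =>
    div_nonneg (hρ m) (Nat.cast_nonneg _)).trans ?_
  rw [sum_image fun a _ b _ h => add_right_cancel h]
  refine sum_le_sum fun n hn => ?_
  have h1 : 0 < n := by have := (mem_Ioc.1 (mem_filter.1 hn).1).1; omega
  refine div_le_div_of_nonneg_left (hρ _) (by exact_mod_cast h1) ?_
  exact_mod_cast Nat.le_add_right n u

theorem core_A (c : Cert) (k : Ker) (hv : k.Valid c) : 0 ≤ 3 * c.Ival + 4 * Kv c k.Nk := by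
  have h1 : 0 ≤ c.Ival := sum_nonneg fun β _ =>
    mul_nonneg (Mb_nonneg c β) (sum_nonneg fun _ _ => sq_nonneg _)
  have h2 : 0 ≤ Kv c k.Nk := sum_nonneg fun β _ => mul_nonneg (Mb_nonneg c β)
    (mul_nonneg (mul_nonneg (mul_self_nonneg _) (le_min (hv.el β) (hv.el β)))
      (sum_nonneg fun _ _ => sq_nonneg _))
  linarith

theorem core_t {N A D : ℝ} (hN : 0 ≤ N) (hA : 0 ≤ A) (h : N * A < 4 * D) :
    ∃ t : ℝ, 0 < t ∧ t ≤ 1 / 4 ∧ (A + t) * N * (1 + 4 * t) + t ≤ 4 * (D - t) := by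
  have hK : 0 < 5 * N + 4 * (N * A) + 5 := by positivity
  refine ⟨min (1 / 4) ((4 * D - N * A) / (5 * N + 4 * (N * A) + 5)),
    lt_min (by norm_num) (div_pos (by linarith) hK), min_le_left _ _, ?_⟩
  have h1 := min_le_left (1 / 4 : ℝ) ((4 * D - N * A) / (5 * N + 4 * (N * A) + 5))
  have h2 := min_le_right (1 / 4 : ℝ) ((4 * D - N * A) / (5 * N + 4 * (N * A) + 5))
  have h0 : 0 < min (1 / 4 : ℝ) ((4 * D - N * A) / (5 * N + 4 * (N * A) + 5)) :=
    lt_min (by norm_num) (div_pos (by linarith) hK)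
  generalize min (1 / 4 : ℝ) ((4 * D - N * A) / (5 * N + 4 * (N * A) + 5)) = t at *
  rw [le_div_iff₀ hK] at h2
  have h3 : t * N * t ≤ t * N * 1 := mul_le_mul_of_nonneg_left (by linarith) (by positivity)
  nlinarith

theorem core_mem {h : Fin 4 → ℕ} {y : ℝ} {I : Finset ℕ} {n : ℕ} : n ∈ gd h y I ↔
    n ∈ I ∧ ∀ l, Rough y (n + h l) ∧ ArithmeticFunction.cardFactors (n + h l) ≤ 3 := by
  classical
  unfold gd
  exact mem_filter

/-- One tile. -/
theorem core_tile (c : Cert) (k : Ker) {N : ℕ} (hN : c.nu = N) (hN1 : 1 ≤ N) {A η κ C τ : ℝ}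
    (hA : 0 ≤ A) (hη : 0 < η) (hη1 : η < 1) (hC : 0 < C) (hτκ : τ ≤ κ) (hτη : τ ≤ 1 - η)
    (E : Env) {y K : ℕ} (hy : 2 ≤ y) (hK : 1 ≤ K) (hyx : y ≤ E.x) (hxy : E.x ≤ K * y)
    (hX : E.X ≤ E.x) (hlog : Real.log K ≤ τ * Real.log y)
    (h : ∀ H2 : ℝ, E.H c.nu ^ η ≤ H2 → |Real.log (E.H c.nu) / Real.log H2 - 1| ≤ κ →
      ∑ i, ∑ n ∈ E.I, rho c k H2 (n + E.h i) ≤ A * (E.X / E.W / E.L c.nu) +
        C * E.L c.nu ^ 3 * (gd E.h (E.H c.nu ^ η) E.I).card) :
    ∑ n ∈ Ioc E.x (E.x + E.X), (if n ≡ E.a [MOD E.W] then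
        ∑ i, rho c k ((y : ℝ) ^ (1 / (N : ℝ))) (n + E.h i) else 0) ≤
      A * N / (Nat.totient E.W * Real.log y) * E.X + ∑ n ∈ Ioc E.x (E.x + E.X),
        if n ∈ gd E.h ((y : ℝ) ^ (η / N)) (cls y (2 * K * y - y) E.W E.a) then
          8 * C * Real.log y ^ 3 else 0 := by
  have hN0 : (0 : ℝ) < N := by exact_mod_cast hN1
  have hN1' : (1 : ℝ) ≤ N := by exact_mod_cast hN1
  have hy2 : (2 : ℝ) ≤ y := by exact_mod_cast hy
  have hy0 : (0 : ℝ) < y := by linarith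
  have hK0 : (0 : ℝ) < K := by exact_mod_cast hK
  have hyx' : (y : ℝ) ≤ E.x := by exact_mod_cast hyx
  have hxy' : (E.x : ℝ) ≤ K * y := by exact_mod_cast hxy
  have hx0 : (0 : ℝ) < E.x := by linarith
  have hl : 0 < Real.log y := Real.log_pos (by linarith)
  have hl1 : Real.log y ≤ Real.log E.x := Real.log_le_log hy0 hyx'
  have hl2 : Real.log E.x ≤ (1 + τ) * Real.log y := by
    have := Real.log_le_log hx0 hxy'
    rw [Real.log_mul hK0.ne' hy0.ne'] at this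
    linarith
  have hτ0 : 0 ≤ τ := by
    have h1 : 0 ≤ Real.log K := Real.log_natCast_nonneg K
    exact nonneg_of_mul_nonneg_left (h1.trans hlog) hl
  have hH : E.H c.nu = (E.x : ℝ) ^ (1 / (N : ℝ)) := by rw [Env.H, hN]
  have hlH : Real.log (E.H c.nu) = 1 / N * Real.log E.x := by rw [hH, Real.log_rpow hx0]
  have hHη : E.H c.nu ^ η = (E.x : ℝ) ^ (η / N) := by
    rw [hH, ← Real.rpow_mul hx0.le]; congr 1; ring
  have a1 : E.H c.nu ^ η ≤ (y : ℝ) ^ (1 / (N : ℝ)) := by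
    rw [hHη, ← Real.log_le_log_iff (Real.rpow_pos_of_pos hx0 _) (Real.rpow_pos_of_pos hy0 _),
      Real.log_rpow hx0, Real.log_rpow hy0]
    have b1 : η * Real.log E.x ≤ η * ((1 + τ) * Real.log y) := mul_le_mul_of_nonneg_left hl2 hη.le
    have b2 : η * (1 + τ) ≤ 1 := by nlinarith
    have b3 : η * (1 + τ) * Real.log y ≤ 1 * Real.log y := mul_le_mul_of_nonneg_right b2 hl.le
    have b4 : η * Real.log E.x ≤ Real.log y := by linarith
    calc η / N * Real.log E.x = η * Real.log E.x / N := by ring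
      _ ≤ Real.log y / N := div_le_div_of_nonneg_right b4 hN0.le
      _ = _ := by ring
  have a2 : |Real.log (E.H c.nu) / Real.log ((y : ℝ) ^ (1 / (N : ℝ))) - 1| ≤ κ := by
    rw [hlH, Real.log_rpow hy0, mul_div_mul_left _ _ (by positivity), abs_le]
    have b1 : 1 ≤ Real.log E.x / Real.log y := by rw [le_div_iff₀ hl]; linarith
    have b2 : Real.log E.x / Real.log y ≤ 1 + τ := by rw [div_le_iff₀ hl]; exact hl2
    constructor <;> linarith
  have hW : (0 : ℝ) < E.W := by exact_mod_cast primorial_pos E.w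
  have hφ : (E.W : ℝ) * cW E.w = Nat.totient E.W := W_cW E.w
  have hc0 := cW_pos E.w
  have hφ0 : (0 : ℝ) < Nat.totient E.W := by rw [← hφ]; positivity
  have hc1 : cW E.w ≤ 1 := by
    have b1 : (Nat.totient E.W : ℝ) ≤ E.W := by exact_mod_cast Nat.totient_le E.W
    rw [← hφ] at b1
    exact (mul_le_iff_le_one_right hW).1 b1
  have hL : E.L c.nu = cW E.w * (1 / N * Real.log E.x) := by rw [Env.L, hlH]
  have hlx : 0 < Real.log E.x := by linarith
  have hL0 : 0 < E.L c.nu := by rw [hL]; positivity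
  have hL2 : E.L c.nu ≤ 2 * Real.log y := by
    rw [hL]
    have b1 : 1 / (N : ℝ) ≤ 1 := by rw [div_le_one hN0]; exact hN1'
    have b2 : 1 / (N : ℝ) * Real.log E.x ≤ 1 * Real.log E.x := mul_le_mul_of_nonneg_right b1 hlx.le
    have b3 : cW E.w * (1 / N * Real.log E.x) ≤ 1 * (1 / N * Real.log E.x) :=
      mul_le_mul_of_nonneg_right hc1 (by positivity)
    have b4 : (1 + τ) * Real.log y ≤ 2 * Real.log y :=
      mul_le_mul_of_nonneg_right (by linarith) hl.le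
    linarith
  have a3 : (E.X : ℝ) / E.W / E.L c.nu ≤ N / (Nat.totient E.W * Real.log y) * E.X := by
    have e : (E.X : ℝ) / E.W / E.L c.nu = N / (Nat.totient E.W * Real.log E.x) * E.X := by
      rw [hL, ← hφ]; field_simp
    rw [e]
    gcongr
  have a4 : C * E.L c.nu ^ 3 * (gd E.h (E.H c.nu ^ η) E.I).card ≤ ∑ n ∈ Ioc E.x (E.x + E.X),
      if n ∈ gd E.h ((y : ℝ) ^ (η / N)) (cls y (2 * K * y - y) E.W E.a) then
        8 * C * Real.log y ^ 3 else 0 := by
    rw [sum_ite_mem, sum_const, nsmul_eq_mul, mul_comm]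
    have b1 : C * E.L c.nu ^ 3 ≤ 8 * C * Real.log y ^ 3 := by
      calc C * E.L c.nu ^ 3 ≤ C * (2 * Real.log y) ^ 3 := by gcongr
        _ = _ := by ring
    refine mul_le_mul ?_ b1 (by positivity) (Nat.cast_nonneg _)
    refine Nat.cast_le.2 (card_le_card fun n hn => ?_)
    obtain ⟨h1, h2⟩ := core_mem.1 hn
    obtain ⟨h3, h4⟩ := mem_filter.1 h1
    rw [mem_inter, core_mem]
    refine ⟨h3, mem_filter.2 ⟨?_, h4⟩, fun l => ⟨(h2 l).1.mono ?_, (h2 l).2⟩⟩
    · obtain ⟨h5, h6⟩ := mem_Ioc.1 h3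
      have h7 : 2 * K * y = 2 * (K * y) := by ring
      exact mem_Ioc.2 ⟨by omega, by omega⟩
    · rw [hHη]
      exact Real.rpow_le_rpow hy0.le hyx' (by positivity)
  have a5 := h _ a1 a2
  rw [← sum_filter, sum_comm]
  refine a5.trans (add_le_add ?_ a4)
  calc A * (E.X / E.W / E.L c.nu) ≤ A * (N / (Nat.totient E.W * Real.log y) * E.X) :=
        mul_le_mul_of_nonneg_left a3 hA
    _ = _ := by ring

/-- Choose `ε` and `γ ≤ 1 / 2` with `N (3 I + 4 Kv Nk + ε) (1 + 4 γ) + ε < 4 (Dtot - ε)`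
(`0 ≤ Ival`, `0 ≤ Kv Nk`), then `η', κ, C, θ', w` from `sums3` (`η = η' / N`), `a` from
`exists_residue`, `K' ≥ 3` from `low_bound`, `K = 2 K'`, then `y`. Apply `sums3` to all
`E = ⟨h, w, a, x, ⌈γ x⌉₊⟩`, `y ≤ x ≤ K' y`, with `H2 = y ^ (1 / N)`; `W L ≥ φ W log y / N`
(`W_cW`), `L ≤ log (K' y) ≤ 2 log y`, `Rough.mono`. `tile` for
`f n = if n ≡ a [MOD W] then ∑ i, rho (n + h i) else 0` and `g = 8 C log ^ 3 y` on the good `n`;
`low_bound` for the four classes `a + h i` (`m = n + h i`, `1 / m ≤ 1 / n`, `h i ≤ y`). This gives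
`ε / (φ W log y) ≤ 8 C log ^ 3 y * card / y`. See `Q/Core.lean`. -/
theorem core3 (c : Cert) (k : Ker) (hv : k.Valid c) {N : ℕ} (hN : c.nu = N) {θ : ℝ}
    (hr : Rng c.nu θ c.T1 c.T2 c.M) (hθ : θ < 1)
    (hin : N * (3 * c.Ival + 4 * Kv c k.Nk) < 4 * Dtot c k N) (h : Fin 4 → ℕ)
    (hinj : Function.Injective h) (adm : ∀ p : ℕ, p.Prime → ∃ a, ∀ l, ¬ p ∣ a + h l) :
    ∃ η : ℝ, 0 < η ∧ ∀ w1 : ℕ, ∃ (w a K y0 : ℕ) (δ : ℝ), w1 ≤ w ∧ 10 ≤ w ∧ (∀ l, h l < w) ∧
      (∀ l, Nat.Coprime (a + h l) (primorial w)) ∧ 1 ≤ K ∧ 0 < δ ∧ ∀ y : ℕ, y0 ≤ y →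
        δ * y / Real.log y ^ 4 ≤
          (gd h ((y : ℝ) ^ η) (cls y (K * y - y) (primorial w) a)).card := by
  have hN0 : (0 : ℝ) < N := hN ▸ hr.pos
  have hN1 : 1 ≤ N := by exact_mod_cast hN0
  have hM : c.M ≤ N := by
    have h1 : (c.M : ℝ) ≤ c.T1 := by exact_mod_cast hr.mt
    have h2 : θ * c.nu ≤ 1 * c.nu := mul_le_mul_of_nonneg_right hr.le_one hr.pos.le
    have h3 := hr.t1
    have h4 : (c.M : ℝ) ≤ N := by linarith
    exact_mod_cast h4
  have hA := core_A c k hv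
  obtain ⟨t, ht, ht4, hkey⟩ := core_t hN0.le hA hin
  obtain ⟨η, κ, C, hη, hη1, hκ, hC, θ', hθ', w0, hw0⟩ := sums3 c k hv hr hθ ht
  refine ⟨η / N, by positivity, fun w1 => ?_⟩
  obtain ⟨w, hw⟩ : ∃ w, w = w0 + w1 + 10 + ∑ l, h l + 1 := ⟨_, rfl⟩
  have hlt : ∀ l, h l < w := fun l => by
    have : h l ≤ ∑ l, h l := single_le_sum (f := h) (fun _ _ => Nat.zero_le _) (mem_univ l)
    omega
  obtain ⟨x0, hx0⟩ := hw0 w (by omega)
  obtain ⟨a, ha⟩ := exists_residue h adm w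
  obtain ⟨K0, hK0⟩ := low_bound c k hv hM hN1 ht (W := primorial w) (primorial_pos w)
  obtain ⟨K, hK⟩ : ∃ K, K = K0 + 3 := ⟨_, rfl⟩
  obtain ⟨y1, hy1⟩ := hK0 K (by omega)
  obtain ⟨x2, hx2⟩ := core_pow hθ' ht
  have hφ : (0 : ℝ) < Nat.totient (primorial w) := by
    exact_mod_cast Nat.totient_pos.2 (primorial_pos w)
  obtain ⟨τ, hτ, hτκ, hτη⟩ : ∃ τ : ℝ, 0 < τ ∧ τ ≤ κ ∧ τ ≤ 1 - η :=
    ⟨min κ (1 - η), lt_min hκ (by linarith), min_le_left _ _, min_le_right _ _⟩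
  refine ⟨w, a, 2 * K, x0 + y1 + x2 + w + ⌈1 / t⌉₊ + ⌈Real.exp (Real.log K / τ)⌉₊,
    t / (8 * C * Nat.totient (primorial w)), by omega, by omega, hlt, ha, by omega, by positivity,
    fun y hy => ?_⟩
  have hy2 : (2 : ℝ) ≤ y := by exact_mod_cast (show 2 ≤ y by omega)
  have hy0 : (0 : ℝ) < y := by linarith
  have hl : 0 < Real.log y := Real.log_pos (by linarith)
  have hty : 1 ≤ t * y := by
    have h1 : 1 / t ≤ y := (Nat.le_ceil _).trans (by exact_mod_cast (show ⌈1 / t⌉₊ ≤ y by omega))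
    rw [div_le_iff₀ ht] at h1
    linarith
  have hlog : Real.log K ≤ τ * Real.log y := by
    have h1 : Real.exp (Real.log K / τ) ≤ y := (Nat.le_ceil _).trans
      (by exact_mod_cast (show ⌈Real.exp (Real.log K / τ)⌉₊ ≤ y by omega))
    have h2 := (Real.le_log_iff_exp_le hy0).2 h1
    rw [div_le_iff₀ hτ] at h2
    linarith
  have hK3 : (3 : ℝ) ≤ K := by exact_mod_cast (show 3 ≤ K by omega)
  have hlK : 1 ≤ Real.log K := by
    rw [Real.le_log_iff_exp_le (by linarith)]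
    have := Real.exp_one_lt_d9
    linarith
  set S := gd h ((y : ℝ) ^ (η / N)) (cls y (2 * K * y - y) (primorial w) a) with hS
  set A := 3 * c.Ival + 4 * Kv c k.Nk + t with hAd
  have hA0 : 0 ≤ A := by linarith
  have hρ := rho_nonneg hv ((y : ℝ) ^ (1 / (N : ℝ)))
  have htile := tile
    (f := fun n => if n ≡ a [MOD primorial w] then
      ∑ i, rho c k ((y : ℝ) ^ (1 / (N : ℝ))) (n + h i) else 0)
    (g := fun n => if n ∈ S then 8 * C * Real.log y ^ 3 else 0)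
    (fun n => by
      split_ifs
      · exact sum_nonneg fun i _ => hρ _
      · exact le_rfl)
    (fun n => by split_ifs <;> positivity) (γ := t)
    (C := A * N / (Nat.totient (primorial w) * Real.log y)) ht (by linarith) (by positivity)
    (y := y) (Z := K * y) hty (Nat.le_mul_of_pos_left y (by omega)) (fun x hyx hxy => by
      have hX : ⌈t * x⌉₊ ≤ x := Nat.ceil_le.2
        (mul_le_of_le_one_left (Nat.cast_nonneg _) (by linarith))
      have hE : Env.Good ⟨h, w, a, x, ⌈t * x⌉₊⟩ :=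
        ⟨hinj, hlt, ha, show 10 ≤ w by omega, show w ≤ x by omega, hX⟩
      exact core_tile c k hN hN1 hA0 hη hη1 hC hτκ hτη ⟨h, w, a, x, ⌈t * x⌉₊⟩ (by omega) (by omega)
        hyx hxy hX hlog (hx0 _ rfl (show x0 ≤ x by omega) hE
          ((hx2 x (by omega)).trans (Nat.le_ceil _))))
  have hlow : 4 * ((Dtot c k N - t) * Real.log K / (Nat.totient (primorial w) * Real.log y)) ≤
      ∑ n ∈ Ioc y (K * y), (if n ≡ a [MOD primorial w] then
        ∑ i, rho c k ((y : ℝ) ^ (1 / (N : ℝ))) (n + h i) else 0) / n := by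
    have e : ∑ n ∈ Ioc y (K * y), (if n ≡ a [MOD primorial w] then
        ∑ i, rho c k ((y : ℝ) ^ (1 / (N : ℝ))) (n + h i) else 0) / n =
        ∑ i, ∑ n ∈ (Ioc y (K * y)).filter (fun n => n ≡ a [MOD primorial w]),
          rho c k ((y : ℝ) ^ (1 / (N : ℝ))) (n + h i) / n := by
      rw [sum_comm, sum_filter]
      refine sum_congr rfl fun n _ => ?_
      split_ifs
      · rw [sum_div]
      · rw [zero_div]
    rw [e]
    have h1 := sum_le_sum (s := (univ : Finset (Fin 4))) fun i _ =>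
      (hy1 y (by omega) (a + h i) (ha i)).trans
        (core_shift hρ (u := h i) (by have := hlt i; omega))
    simpa using h1
  have hg : ∑ n ∈ Ioc y (2 * (K * y)), (if n ∈ S then 8 * C * Real.log y ^ 3 else 0) ≤
      8 * C * Real.log y ^ 3 * S.card := by
    rw [sum_ite_mem, sum_const, nsmul_eq_mul, mul_comm]
    exact mul_le_mul_of_nonneg_left (Nat.cast_le.2 (card_le_card inter_subset_right))
      (by positivity)
  have hq : ((K * y : ℕ) : ℝ) / y = K := by push_cast; field_simp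
  rw [hq] at htile
  have hB : 0 < (Nat.totient (primorial w) : ℝ) * Real.log y := by positivity
  have h1 : A * N / (Nat.totient (primorial w) * Real.log y) * ((1 + 2 * t) * Real.log K + 2 * t) ≤
      A * N / (Nat.totient (primorial w) * Real.log y) * ((1 + 4 * t) * Real.log K) :=
    mul_le_mul_of_nonneg_left (by nlinarith) (by positivity)
  have h2 : 1 / (y : ℝ) * ∑ n ∈ Ioc y (2 * (K * y)), (if n ∈ S then 8 * C * Real.log y ^ 3 else 0) ≤
      1 / (y : ℝ) * (8 * C * Real.log y ^ 3 * S.card) :=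
    mul_le_mul_of_nonneg_left hg (by positivity)
  have h3 : (A * N * (1 + 4 * t) + t) * (Real.log K / (Nat.totient (primorial w) * Real.log y)) ≤
      4 * (Dtot c k N - t) * (Real.log K / (Nat.totient (primorial w) * Real.log y)) :=
    mul_le_mul_of_nonneg_right hkey (by positivity)
  have h4 : t * (1 / (Nat.totient (primorial w) * Real.log y)) ≤
      t * (Real.log K / (Nat.totient (primorial w) * Real.log y)) := by gcongr
  have h5 : t * (1 / (Nat.totient (primorial w) * Real.log y)) ≤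
      1 / (y : ℝ) * (8 * C * Real.log y ^ 3 * S.card) := by
    have e1 : A * N / (Nat.totient (primorial w) * Real.log y) * ((1 + 4 * t) * Real.log K) =
        A * N * (1 + 4 * t) * (Real.log K / (Nat.totient (primorial w) * Real.log y)) := by ring
    have e2 : 4 * ((Dtot c k N - t) * Real.log K / (Nat.totient (primorial w) * Real.log y)) =
        4 * (Dtot c k N - t) * (Real.log K / (Nat.totient (primorial w) * Real.log y)) := by ring
    linarith
  have h6 := mul_le_mul_of_nonneg_left h5 (show 0 ≤ y / (8 * C * Real.log y ^ 3) by positivity)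
  calc t / (8 * C * Nat.totient (primorial w)) * y / Real.log y ^ 4
      = y / (8 * C * Real.log y ^ 3) * (t * (1 / (Nat.totient (primorial w) * Real.log y))) := by
        field_simp
    _ ≤ _ := h6
    _ = _ := by field_simp

end Pool.Agent.Lib.MP_c03ca8_nt.P3
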