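import Pool.Agent.Lib.MP_c03ca8_nt.Q.All

/-!
Four forms with at most three prime factors each: definitions. See the blueprint `p3_BP.md`.
-/

set_option autoImplicit false

noncomputable section

namespace Pool.Agent.Lib.MP_c03ca8_nt.P3

open Finset Real Pool.Agent.Lib.MP_c03ca8_nt.Q

/-- All primes of `m` are at least `y`. -/
def Rough (y : ℝ) (m : ℕ) : Prop := ∀ q : ℕ, q.Prime → q ∣ m → y ≤ (q : ℝ)

/-- Number of distinct primes. -/
def om (m : ℕ) : ℕ := m.primeFactors.card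

/-- First `w` large, then `x` large, for intervals of length `x ^ θ` with some `θ < 1`. -/
def Ev1 (Φ : Env → Prop) : Prop := ∃ θ : ℝ, θ < 1 ∧ Ev θ Φ

/-- Coefficients of the weight that is identically one. -/
def dlt (r : ℕ) : ℝ := if r = 1 then 1 else 0

/-- Coefficients of the Selberg weight of level `Z`. -/
def low (Z : ℝ) (r : ℕ) : ℝ := if (r : ℝ) < Z then 1 else 0

/-- The Selberg sum. -/
def gs (P : Finset ℕ) (Z : ℝ) : ℝ := ∑ T ∈ P.powerset.filter (fun T => (pr T : ℝ) < Z), wt T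

/-- Remove the two slots of the form `i`. -/
def zo (z : Slot → ℕ → ℝ) (i : Fin 4) : Slot → ℕ → ℝ := fun s => if s.1 = i then dlt else z s

/-- The weight of the three forms other than `i`. -/
def Psi (E : Env) (ν : ℝ) (jj : Slot → ℕ) (i : Fin 4) (n : ℕ) : ℝ :=
  Pw E.P E.h (zo (cz (E.H ν) jj) i) n

/-- Its expected value. -/
def c0 (E : Env) (ν : ℝ) (jj : Slot → ℕ) (i : Fin 4) : ℝ :=
  E.L ν ^ 3 * ∏ l ∈ univ.erase i, dl (jj (l, false)) (jj (l, true))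

/-- `S` has no slot of the form `i`. -/
def Out (i : Fin 4) (S : Finset Slot) : Prop := (i, false) ∉ S ∧ (i, true) ∉ S

instance (i : Fin 4) (S : Finset Slot) : Decidable (Out i S) := by
  unfold Out; infer_instance

/-- Jump of the local factor when `q` divides the form `l`. -/
def ee (i : Fin 4) (q : ℕ) (S : Finset Slot) (l : Fin 4) : ℝ :=
  val 1 i q S (some l) - val 1 i q S none

/-- Mean of the local factor over the units modulo `q`. -/
def mu (i : Fin 4) (q : ℕ) (S : Finset Slot) : ℝ :=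
  if Out i S then val 1 i q S none + ∑ l ∈ univ.erase i, ee i q S l / ((q : ℝ) - 1) else 0

/-- The independent model for three forms. -/
def v3 (i : Fin 4) (q : ℕ) (S : Finset Slot) : ℝ := if Out i S then v0 1 i q S else 0

/-- Indicator of a class minus its mean over the units. -/
def xi (q u v m : ℕ) : ℝ :=
  (if m + u ≡ v [MOD q] then 1 else 0) - if q ∣ m then 0 else 1 / ((q : ℝ) - 1)

/-- The part of the local factor with mean zero. -/
def nu (h : Fin 4 → ℕ) (i : Fin 4) (q : ℕ) (S : Finset Slot) (m : ℕ) : ℝ :=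
  if Out i S then ∑ l ∈ univ.erase i, ee i q S l * xi q (h l) (h i) m else 0

/-- The weight as a function on the units. -/
def Pst (P : Finset ℕ) (h : Fin 4 → ℕ) (z : Slot → ℕ → ℝ) (i : Fin 4) (m : ℕ) : ℝ :=
  ∑ T ∈ Fintype.piFinset (fun _ : Slot => P.powerset),
    (∏ s, zo z i s (pr (T s))) * ∏ q ∈ P, (mu i q (cfg T q) + nu h i q (cfg T q) m)

/-- Its mean. -/
def c1 (P : Finset ℕ) (z : Slot → ℕ → ℝ) (i : Fin 4) : ℝ :=
  ∑ T ∈ Fintype.piFinset (fun _ : Slot => P.powerset),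
    (∏ s, zo z i s (pr (T s))) * ∏ q ∈ P, mu i q (cfg T q)

/-- Bilinear sum over the primitive characters modulo `k`. -/
def Xi (J R : Finset ℕ) (b : ℕ → ℝ) (k : ℕ) : ℝ :=
  ∑ ψ ∈ prim k, ‖∑ p ∈ J, ψ p‖ * ‖∑ r ∈ R, (b r : ℂ) * ψ r‖

/-- The centred weight on the class `a` modulo `W`, as a function of `m = n + h i`. -/
def Th (P : Finset ℕ) (h : Fin 4 → ℕ) (z : Slot → ℕ → ℝ) (i : Fin 4) (W a m : ℕ) : ℝ :=
  if m ≡ a [MOD W] then Pw P h (zo z i) (m - h i) - c1 P z i else 0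

/-- The shape of the bound for one box. -/
def bxB (α β D Q Δ Λ : ℝ) : ℝ :=
  α * ((Δ + D) * (Λ + D)) + β * (√(Δ * Λ) * (√Δ + √Λ + Q))

open Classical in
/-- Bilinear weight: sum over the primes `p ≥ y` of `m`. -/
def bil (y : ℝ) (B : ℕ → ℕ → ℝ) (m : ℕ) : ℝ :=
  ∑ p ∈ m.primeFactors.filter (fun p : ℕ => y ≤ (p : ℝ)), B p (m / p)

/-- The admissible coefficients of a bilinear weight. -/
structure Adm (y : ℝ) (B : ℕ → ℕ → ℝ) : Prop where
  bd : ∀ p r, |B p r| ≤ 1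
  supp : ∀ p r, B p r ≠ 0 → Rough y r ∧ y ≤ (r : ℝ)
  lip : ∀ p p' r : ℕ, 1 ≤ p → p ≤ p' → |B p r - B p' r| ≤ Real.log p' - Real.log p

/-- Length of `[σ, σ + 1) ∩ [t, ∞)`. -/
def cs (σ : ℕ) (t : ℝ) : ℝ := max 0 (min 1 (σ + 1 - t))

/-- The limit of `sv (cell H σ) m / L` on rough `m`, with a shift `t`. -/
def Phi (H : ℝ) (σ : ℕ) (t : ℝ) (m : ℕ) : ℝ :=
  ∑ D ∈ m.primeFactors.powerset, (-1) ^ D.card * cs σ (t + Real.log (pr D) / Real.log H)

/-- The same for a row of coefficients. -/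
def PhG (H : ℝ) (M : ℕ) (G : ℕ → ℝ) (t : ℝ) (m : ℕ) : ℝ := ∑ σ ∈ range M, G σ * Phi H σ t m

/-- The tail of a row. -/
def tl (M : ℕ) (G : ℕ → ℝ) (t : ℝ) : ℝ := ∑ σ ∈ range M, G σ * cs σ t

/-- The value of `PhG` at `d q` when `d q = H ^ N`. -/
def Idl (H : ℝ) (N M : ℕ) (G : ℕ → ℝ) (d : ℕ) : ℝ :=
  PhG H M G 0 d - PhG H M G (N - Real.log d / Real.log H) d

open Classical in
/-- Indicator of the squarefree rough integers with at least four primes. -/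
def uu (y : ℝ) (m : ℕ) : ℝ := if Squarefree m ∧ Rough y m ∧ 4 ≤ om m then 1 else 0

open Classical in
/-- Indicator of the squarefree rough integers with at most three primes. -/
def r3 (y : ℝ) (m : ℕ) : ℝ := if Squarefree m ∧ Rough y m ∧ om m ≤ 3 then 1 else 0

open Classical in
/-- The integers of the class with `n + h i` rough. -/
def rgh (E : Env) (y : ℝ) (i : Fin 4) : Finset ℕ := E.I.filter fun n => Rough y (n + E.h i)

open Classical in
/-- The `n ∈ I` with all four forms rough and with at most three prime factors. -/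
def gd (h : Fin 4 → ℕ) (y : ℝ) (I : Finset ℕ) : Finset ℕ :=
  I.filter fun n => ∀ l, Rough y (n + h l) ∧ ArithmeticFunction.cardFactors (n + h l) ≤ 3

/-- Data of the kernels on the bands. -/
structure Ker where
  al : ℕ → ℝ
  ga : ℕ → ℝ
  el : ℕ → ℝ

namespace Ker

variable (k : Ker)

def Nk (β β' : ℕ) : ℝ := k.ga β * k.ga β' * min (k.el β) (k.el β')

def Pk (β β' : ℕ) : ℝ := k.al β * k.al β' * (1 + min (k.el β) (k.el β'))

def Mk (β β' : ℕ) : ℝ := 1 + k.Nk β β' - k.Pk β β'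

structure Valid (c : Cert) : Prop where
  el : ∀ β, 0 ≤ k.el β
  zero : ∀ β β', β ≤ c.U → β' ≤ c.U → c.T2 < β + β' + 6 → k.Mk β β' = 0
  pos : ∀ β, β ≤ c.U → 0 ≤ k.Mk β β
  lev : 2 * c.U + 9 ≤ c.T1
  two : 2 * c.M ≤ c.T1
  g : ∀ u, 0 ≤ c.g u
  om : ∀ σ, 0 ≤ c.om σ

end Ker

/-- The form with a kernel on the bands of the form `i`. -/
def Fm (c : Cert) (i : Fin 4) (K : ℕ → ℕ → ℝ) (b : (Fin 4 → ℕ) → ℝ) : ℝ :=
  ∑ j ∈ c.J, ∑ j' ∈ c.J, K (Cert.bt i j) (Cert.bt i j') * (b j * b j')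

/-- Square norm of a row. -/
def rI (c : Cert) (β : ℕ) : ℝ := ∑ σ ∈ range c.M, c.Gf β σ ^ 2

/-- Main term of `Fm`. -/
def Kv (c : Cert) (K : ℕ → ℕ → ℝ) : ℝ := ∑ β ∈ range (c.U + 1), c.Mb β * (K β β * rI c β)

/-- The weight of the integers with at most three primes. -/
def rho (c : Cert) (k : Ker) (H : ℝ) (m : ℕ) : ℝ :=
  r3 H m * ∑ β ∈ range (c.U + 1), c.Mb β * (k.Mk β β * PhG H c.M (c.Gf β) 0 m ^ 2)

/-- Primes of a cell. -/
def cP (H : ℝ) (a : ℕ) : Finset ℕ := pI (H ^ a) (H ^ (a + 1))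

/-- The sum over `d` with at most two primes, cell by cell. -/
def Sg (H : ℝ) (N : ℕ) (φ : ℕ → ℝ) : ℝ :=
  φ 1 + ∑ a ∈ Ico 1 (N - 1), ∑ p ∈ cP H a, φ p / p +
    1 / 2 * ∑ a ∈ Ico 1 N, ∑ b ∈ Ico 1 (N - 2 - a), ∑ p ∈ cP H a, ∑ p' ∈ (cP H b).erase p,
      φ (p * p') / (p * p')

open Classical in
/-- The squarefree rough `d ≤ H ^ (N - 1)` with at most two primes. -/
def DD (H : ℝ) (N : ℕ) : Finset ℕ :=
  (Icc 1 ⌊H ^ (N - 1)⌋₊).filter fun d => Squarefree d ∧ Rough H d ∧ om d ≤ 2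

def s1 (G : ℕ → ℝ) (k : ℕ) : ℝ := ∑ j ∈ range k, G j

def es (G : ℕ → ℝ) (N k : ℕ) : ℝ := G k + G (N - 1 - k)

def s2 (G : ℕ → ℝ) (N k : ℕ) : ℝ := ∑ j ∈ range k, es G N j

def cR (G : ℕ → ℝ) (N a : ℕ) : ℝ := 2 * s2 G N a + es G N a - es G N a / (6 * a)

def cV (G : ℕ → ℝ) (N k : ℕ) : ℝ := 2 * s2 G N k + max 0 (es G N k - es G N (k - 1))

def c2 (G : ℕ → ℝ) (N a : ℕ) : ℝ :=
  max 0 (s1 G a + G a * (1 / 2 - 1 / (12 * a)) + s1 G (N - a) - G (N - 1 - a) / 2 - s1 G N)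

def c3 (G : ℕ → ℝ) (N a b : ℕ) : ℝ := max 0 ((cR G N a + cR G N b - cV G N (a + b + 1)) / 2)

/-- Mass of a cell. -/
def m0 (a : ℕ) : ℝ := Real.log (1 + 1 / (a : ℝ))

/-- Lower bound for the contribution of one row. -/
def Dv (G : ℕ → ℝ) (N : ℕ) : ℝ :=
  s1 G N ^ 2 + ∑ a ∈ Ico 1 (N - 1), m0 a * c2 G N a ^ 2 +
    1 / 2 * ∑ a ∈ Ico 1 N, ∑ b ∈ Ico 1 (N - 2 - a), m0 a * m0 b * c3 G N a b ^ 2

def Dtot (c : Cert) (k : Ker) (N : ℕ) : ℝ :=
  ∑ β ∈ range (c.U + 1), c.Mb β * (k.Mk β β * Dv (c.Gf β) N)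

/-- A row: nonnegative, zero from `M` on, `M ≤ N`. -/
structure Row (G : ℕ → ℝ) (M N : ℕ) : Prop where
  nn : ∀ σ, 0 ≤ G σ
  zero : ∀ σ, M ≤ σ → G σ = 0
  le : M ≤ N

end Pool.Agent.Lib.MP_c03ca8_nt.P3
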