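import Pool.Agent.Lib.MP_c03ca8_nt.P3.Basic
import Pool.Agent.Lib.MP_c03ca8_nt.P3.Loc

set_option autoImplicit false

noncomputable section

namespace Pool.Agent.Lib.MP_c03ca8_nt.P3

open Finset Real Pool.Agent.Lib.MP_c03ca8_nt.Q

/-- The local factor of the weight of the three forms. -/
def exa_a (h : Fin 4 → ℕ) (i : Fin 4) (n q : ℕ) (S : Finset Slot) : ℝ :=
  if Out i S then ∏ s ∈ S, zl q (n + h s.1) else 0

theorem exa_count {Y G : ℝ} (hG : Tame Y G) {P : Finset ℕ} (hP : ∀ q ∈ P, q.Prime) {N : ℕ}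
    (h1 : 1 ≤ N) (hY : (N : ℝ) ≤ Y) : (2 : ℝ) ^ (P.filter fun q => q ∣ N).card ≤ G := by
  refine le_trans (pow_le_pow_right₀ (by norm_num) (card_le_card fun q hq => ?_)) (hG.pow N h1 hY)
  rw [mem_filter] at hq
  exact Nat.mem_primeFactors.2 ⟨hP q hq.1, hq.2, by omega⟩

theorem exa_expand (h : Fin 4 → ℕ) {P : Finset ℕ} (hP : ∀ q ∈ P, q.Prime) (z : Slot → ℕ → ℝ)
    (i : Fin 4) (n : ℕ) : Pw P h (zo z i) n =
      ∑ T ∈ Fintype.piFinset (fun _ : Slot => P.powerset),
        (∏ s, zo z i s (pr (T s))) * ∏ q ∈ P, exa_a h i n q (cfg T q) := by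
  unfold Pw sv
  rw [prod_univ_sum]
  refine sum_congr rfl fun T hT => ?_
  have hT' : ∀ s, T s ⊆ P := fun s => mem_powerset.1 (Fintype.mem_piFinset.1 hT s)
  rw [prod_mul_distrib, ← k1_swap P T hT' (fun q s => zl q (n + h s.1))]
  by_cases hO : ∀ q ∈ P, Out i (cfg T q)
  · congr 1
    exact prod_congr rfl fun q hq => by rw [exa_a, if_pos (hO q hq)]
  · push Not at hO
    obtain ⟨q, -, hq⟩ := hO
    obtain ⟨b, hb⟩ : ∃ b, q ∈ T (i, b) := by
      by_contra hc
      push Not at hc
      exact hq ⟨by simp [cfg, hc], by simp [cfg, hc]⟩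
    have h0 : ∏ s, zo z i s (pr (T s)) = 0 := by
      refine prod_eq_zero (mem_univ (i, b)) ?_
      have e : zo z i (i, b) = dlt := by simp [zo]
      rw [e, dlt_pr fun r hr => hP r (hT' _ hr), if_neg (ne_empty_of_mem hb)]
    rw [h0, zero_mul, zero_mul]

theorem exa_local {h : Fin 4 → ℕ} (hinj : Function.Injective h) {w : ℕ} (hw : ∀ l, h l < w)
    {q : ℕ} (hq : q.Prime) (hwq : w < q) (i : Fin 4) (n : ℕ) (S : Finset Slot) :
    |exa_a h i n q S - (mu i q S + nu h i q S (n + h i))| ≤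
      if q ∣ n + h i then 6 / ((q : ℝ) - 1) else 0 := by
  have h2 : (2 : ℝ) ≤ q := by exact_mod_cast hq.two_le
  have hu : (0 : ℝ) < (q : ℝ) - 1 := by linarith
  by_cases hO : Out i S
  · have e1 := k1_local hinj hw hwq n 1 i S
    rw [if_neg hq.ne_one, one_mul, ← add_sum_erase univ _ (mem_univ i)] at e1
    have e0 : val 1 i q S (some i) - val 1 i q S none = 0 := ee_self hq.two_le hO
    rw [e0, zero_mul, zero_add] at e1
    have e2 : ∀ l, xi q (h l) (h i) (n + h i) =
        ind q (n + h l) - if q ∣ n + h i then 0 else 1 / ((q : ℝ) - 1) := by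
      intro l
      have e : n + h i + h l ≡ h i [MOD q] ↔ q ∣ n + h l := by
        rw [← Nat.modEq_zero_iff_dvd, show n + h i + h l = n + h l + h i by ring]
        constructor
        · intro hh
          exact Nat.ModEq.add_right_cancel' (h i) (by simpa using hh)
        · intro hh
          simpa using hh.add_right (h i)
      simp only [xi, ind, e]
    have e3 : exa_a h i n q S - (mu i q S + nu h i q S (n + h i)) =
        -∑ l ∈ univ.erase i, ee i q S l * if q ∣ n + h i then 1 / ((q : ℝ) - 1) else 0 := by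
      rw [exa_a, mu, nu, if_pos hO, if_pos hO, if_pos hO, e1, add_assoc, add_sub_add_left_eq_sub,
        ← sum_add_distrib, ← sum_sub_distrib, ← sum_neg_distrib]
      refine sum_congr rfl fun l _ => ?_
      rw [e2, ee]
      split_ifs <;> ring
    rw [e3, abs_neg]
    split_ifs
    · refine (abs_sum_le_sum_abs _ _).trans ?_
      have e4 : ∀ l ∈ univ.erase i, |ee i q S l * (1 / ((q : ℝ) - 1))| ≤ 2 / ((q : ℝ) - 1) := by
        intro l _
        rw [mul_one_div, abs_div, abs_of_pos hu]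
        exact div_le_div_of_nonneg_right (abs_ee_le hq.two_le i S l) hu.le
      refine (sum_le_sum e4).trans (le_of_eq ?_)
      rw [sum_const, card_erase_of_mem (mem_univ i), nsmul_eq_mul]
      simp
      ring
    · simp
  · rw [exa_a, mu, nu, if_neg hO, if_neg hO, if_neg hO]
    split_ifs
    · simp only [add_zero, sub_zero, abs_zero]
      positivity
    · simp

theorem exa_abs_le {h : Fin 4 → ℕ} {q : ℕ} (hq : q.Prime) (i : Fin 4) (n : ℕ) (S : Finset Slot) :
    |exa_a h i n q S| ≤ 1 ∧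
      ((∀ l, ¬q ∣ n + h l) → |exa_a h i n q S| ≤ ∏ _s ∈ S, 1 / ((q : ℝ) - 1)) := by
  have h2 : (2 : ℝ) ≤ q := by exact_mod_cast hq.two_le
  have hu : (0 : ℝ) < 1 / ((q : ℝ) - 1) := div_pos one_pos (by linarith)
  have hu1 : 1 / ((q : ℝ) - 1) ≤ 1 := by rw [div_le_one (by linarith)]; linarith
  unfold exa_a
  split_ifs
  · rw [abs_prod]
    refine ⟨prod_le_one (fun _ _ => abs_nonneg _) fun s _ => ?_, fun hn => le_of_eq ?_⟩
    · unfold zl
      split_ifs
      · simp
      · rwa [abs_of_pos hu]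
    · exact prod_congr rfl fun s _ => by rw [zl, if_neg (hn s.1), abs_of_pos hu]
  · rw [abs_zero]
    exact ⟨zero_le_one, fun _ => prod_nonneg fun _ _ => hu.le⟩

theorem exa_max {h : Fin 4 → ℕ} (hinj : Function.Injective h) {w : ℕ} (hw : ∀ l, h l < w)
    {q : ℕ} (hq : q.Prime) (hwq : w < q) (i : Fin 4) (n : ℕ) :
    ∑ S : Finset Slot, max |exa_a h i n q S| |mu i q S + nu h i q S (n + h i)| ≤
      (1 + 1 / ((q : ℝ) - 1)) ^ 8 * ∏ l, if q ∣ n + h l then (2 : ℝ) ^ 11 else 1 := by
  have h2 : (2 : ℝ) ≤ q := by exact_mod_cast hq.two_le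
  have hu : (0 : ℝ) < 1 / ((q : ℝ) - 1) := div_pos one_pos (by linarith)
  have hb : ∀ S, |mu i q S + nu h i q S (n + h i)| ≤
      |exa_a h i n q S| + if q ∣ n + h i then 6 / ((q : ℝ) - 1) else 0 := fun S => by
    have e1 := exa_local hinj hw hq hwq i n S
    have e2 := abs_sub_abs_le_abs_sub (mu i q S + nu h i q S (n + h i)) (exa_a h i n q S)
    rw [abs_sub_comm] at e2
    linarith
  by_cases hn : ∀ l, ¬q ∣ n + h l
  · rw [prod_eq_one fun l _ => if_neg (hn l), mul_one]
    have e : (1 + 1 / ((q : ℝ) - 1)) ^ 8 = ∑ S : Finset Slot, ∏ _s ∈ S, 1 / ((q : ℝ) - 1) := by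
      rw [← powerset_univ, ← prod_one_add, prod_const, card_univ]
      simp [Slot]
    rw [e]
    refine sum_le_sum fun S _ => ?_
    have e1 := (exa_abs_le (h := h) hq i n S).2 hn
    have e2 := hb S
    rw [if_neg (hn i), add_zero] at e2
    exact max_le e1 (e2.trans e1)
  · push Not at hn
    obtain ⟨l0, hl0⟩ := hn
    have e1 : ∀ S, max |exa_a h i n q S| |mu i q S + nu h i q S (n + h i)| ≤ 7 := fun S => by
      have e2 := (exa_abs_le (h := h) hq i n S).1
      have e3 := hb S
      have e4 : 6 / ((q : ℝ) - 1) ≤ 6 := by rw [div_le_iff₀ (by linarith)]; linarith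
      refine max_le (by linarith) ?_
      split_ifs at e3 <;> linarith
    have e5 : (2 : ℝ) ^ 11 ≤ ∏ l, if q ∣ n + h l then (2 : ℝ) ^ 11 else 1 := by
      rw [← mul_prod_erase univ _ (mem_univ l0), if_pos hl0]
      refine le_mul_of_one_le_right (by positivity) (one_le_prod fun l _ => ?_)
      split_ifs <;> norm_num
    have e6 : (1 : ℝ) ≤ (1 + 1 / ((q : ℝ) - 1)) ^ 8 := one_le_pow₀ (by linarith)
    refine (sum_le_sum fun S _ => e1 S).trans ?_
    rw [sum_const, card_univ, nsmul_eq_mul]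
    have hcard : (Fintype.card (Finset Slot) : ℝ) = 256 := by simp
    rw [hcard]
    refine le_trans (by norm_num) (e5.trans (le_mul_of_one_le_left (le_trans ?_ e5) e6))
    positivity

/-- Put `n = m - h i`. Expand `Pw` over `T` as in `k1` (`Finset.prod_univ_sum`, `k1_swap`,
`k1_local` with `p = 1`). Only `T` with `Out i (cfg T q)` for all `q` count (`dlt_pr`). The local
factor is `φ = val none + ∑ l, ee l * ind q (n + h l)`, and `φ = mu + nu` if `q ∤ m`, while for
`q ∣ m` one has `nu = 0` and `|φ - mu| ≤ 6 / (q - 1) ≤ 12 / y` (`q` divides no other form).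
`abs_prod_sub_prod` and `sum_cfg`: at most `G` primes `q0 ∣ m`, the factor at `q0` is at most
`256 * 12 / y`; at a prime dividing no form both factors are `(1 / (q - 1)) ^ |S|` with sum
`(1 + 1 / (q - 1)) ^ 8`; at a prime dividing some form the sum is at most `256 * 7 ≤ 2 ^ 11`, which
gives `G ^ 44`. -/
theorem pst_err {Y G y : ℝ} (hG : Tame Y G) (h : Fin 4 → ℕ) (hinj : Function.Injective h) (w : ℕ)
    (hw : ∀ l, h l < w) (P : Finset ℕ) (hP : ∀ q ∈ P, q.Prime ∧ w < q) (hm2 : mert P ≤ G ^ 2)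
    (z : Slot → ℕ → ℝ) (hz : ∀ s r, |z s r| ≤ 1) (i : Fin 4) (hy : 0 < y) {m : ℕ}
    (hm : h i < m) (hmY : (m : ℝ) + w ≤ Y) (hr : Rough y m) :
    |Pw P h (zo z i) (m - h i) - Pst P h z i m| ≤ G ^ 70 / y := by
  obtain ⟨n, rfl⟩ : ∃ n, m = n + h i := ⟨m - h i, by omega⟩
  rw [Nat.add_sub_cancel]
  have hP1 : ∀ q ∈ P, q.Prime := fun q hq => (hP q hq).1
  have hG10 := hG.ten
  have hG0 : (0 : ℝ) < G := by linarith
  have hn1 : 1 ≤ n := by omega
  have hnY : ∀ l, ((n + h l : ℕ) : ℝ) ≤ Y := fun l => by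
    have e : n + h l ≤ n + h i + w := by have := hw l; omega
    have e' : ((n + h l : ℕ) : ℝ) ≤ ((n + h i + w : ℕ) : ℝ) := by exact_mod_cast e
    push_cast at e' hmY ⊢
    linarith
  set a := exa_a h i n with ha
  set b : ℕ → Finset Slot → ℝ := fun q S => mu i q S + nu h i q S (n + h i) with hb
  set c : ℕ → ℝ := fun q =>
    (1 + 1 / ((q : ℝ) - 1)) ^ 8 * ∏ l, if q ∣ n + h l then (2 : ℝ) ^ 11 else 1 with hc
  have hu : ∀ q ∈ P, (0 : ℝ) < (q : ℝ) - 1 := fun q hq => by
    have h2 : (2 : ℝ) ≤ q := by exact_mod_cast (hP1 q hq).two_le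
    linarith
  have hc1 : ∀ q ∈ P, 1 ≤ c q := fun q hq => by
    have e : (0 : ℝ) < 1 / ((q : ℝ) - 1) := div_pos one_pos (hu q hq)
    refine one_le_mul_of_one_le_of_one_le (one_le_pow₀ (by linarith))
      (one_le_prod fun l _ => ?_)
    split_ifs <;> norm_num
  have hcP : ∏ q ∈ P, c q ≤ G ^ 60 := by
    have hm0 : 0 ≤ mert P := prod_nonneg fun q hq => by
      have e : (0 : ℝ) < 1 / ((q : ℝ) - 1) := div_pos one_pos (hu q hq)
      linarith
    have e1 : ∏ q ∈ P, (1 + 1 / ((q : ℝ) - 1)) ^ 8 ≤ (G ^ 2) ^ 8 := by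
      rw [prod_pow]
      exact pow_le_pow_left₀ hm0 hm2 8
    have e2 : ∏ q ∈ P, ∏ l, (if q ∣ n + h l then (2 : ℝ) ^ 11 else 1) ≤ ∏ _l : Fin 4, G ^ 11 := by
      rw [prod_comm]
      refine prod_le_prod (fun l _ => prod_nonneg fun q _ => by split_ifs <;> norm_num)
        fun l _ => ?_
      rw [← prod_filter, prod_const, ← pow_mul, mul_comm, pow_mul]
      exact pow_le_pow_left₀ (by positivity) (exa_count hG hP1 (by omega) (hnY l)) 11
    rw [hc, prod_mul_distrib]
    refine (mul_le_mul e1 e2 (prod_nonneg fun q _ => prod_nonneg fun l _ => by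
      split_ifs <;> norm_num) (by positivity)).trans (le_of_eq ?_)
    rw [prod_const, card_univ, Fintype.card_fin]
    ring
  have hstep : ∀ q0 ∈ P, ∏ q ∈ P, ∑ S : Finset Slot,
      (if q = q0 then |a q S - b q S| else max |a q S| |b q S|) ≤
      if q0 ∣ n + h i then G ^ 60 * (3072 / y) else 0 := by
    intro q0 hq0
    have hd : ∑ S : Finset Slot, |a q0 S - b q0 S| ≤ if q0 ∣ n + h i then 3072 / y else 0 := by
      refine (sum_le_sum fun S _ => exa_local hinj hw (hP1 q0 hq0) (hP q0 hq0).2 i n S).trans ?_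
      rw [sum_const, card_univ, nsmul_eq_mul]
      have hcard : (Fintype.card (Finset Slot) : ℝ) = 256 := by simp
      rw [hcard]
      split_ifs with hq
      · have e1 := hr q0 (hP1 q0 hq0) hq
        have h2 : (2 : ℝ) ≤ q0 := by exact_mod_cast (hP1 q0 hq0).two_le
        rw [← mul_div_assoc, div_le_div_iff₀ (hu q0 hq0) hy]
        linarith
      · simp
    have hd0 : (0 : ℝ) ≤ if q0 ∣ n + h i then 3072 / y else 0 := by
      split_ifs
      · positivity
      · exact le_rfl
    calc ∏ q ∈ P, ∑ S : Finset Slot, (if q = q0 then |a q S - b q S| else max |a q S| |b q S|)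
        ≤ ∏ q ∈ P, (c q * if q = q0 then (if q0 ∣ n + h i then 3072 / y else 0) else 1) := by
          refine prod_le_prod (fun q _ => sum_nonneg fun S _ => ?_) fun q hq => ?_
          · split_ifs
            · exact abs_nonneg _
            · exact le_max_of_le_left (abs_nonneg _)
          · by_cases e : q = q0
            · subst e
              simp only [if_true]
              exact hd.trans (le_mul_of_one_le_left hd0 (hc1 q hq))
            · simp only [if_neg e, mul_one]
              exact exa_max hinj hw (hP1 q hq) (hP q hq).2 i n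
      _ = (∏ q ∈ P, c q) * if q0 ∣ n + h i then 3072 / y else 0 := by
          rw [prod_mul_distrib, prod_ite_eq' P q0, if_pos hq0]
      _ ≤ G ^ 60 * if q0 ∣ n + h i then 3072 / y else 0 := mul_le_mul_of_nonneg_right hcP hd0
      _ = _ := by split_ifs <;> simp
  have hcount : ((P.filter fun q => q ∣ n + h i).card : ℝ) ≤ G := by
    refine le_trans ?_ (exa_count hG hP1 (by omega) (hnY i))
    exact_mod_cast Nat.lt_two_pow_self.le
  rw [exa_expand h hP1, Pst, ← sum_sub_distrib]
  calc |∑ T ∈ Fintype.piFinset (fun _ : Slot => P.powerset),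
        ((∏ s, zo z i s (pr (T s))) * ∏ q ∈ P, a q (cfg T q) -
          (∏ s, zo z i s (pr (T s))) * ∏ q ∈ P, b q (cfg T q))|
      ≤ ∑ T ∈ Fintype.piFinset (fun _ : Slot => P.powerset), ∑ q0 ∈ P, ∏ q ∈ P,
          (if q = q0 then |a q (cfg T q) - b q (cfg T q)|
            else max |a q (cfg T q)| |b q (cfg T q)|) := by
        refine (abs_sum_le_sum_abs _ _).trans (sum_le_sum fun T _ => ?_)
        rw [← mul_sub, abs_mul]
        refine (mul_le_of_le_one_left (abs_nonneg _) ?_).trans (abs_prod_sub_prod P _ _)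
        exact (decouple_abs_z (abs_zo_le hz i) T (i, false)).trans (abs_zo_le hz i _ _)
    _ = ∑ q0 ∈ P, ∏ q ∈ P, ∑ S : Finset Slot,
          (if q = q0 then |a q S - b q S| else max |a q S| |b q S|) := by
        rw [sum_comm]
        exact sum_congr rfl fun q0 _ => sum_cfg P fun q S =>
          if q = q0 then |a q S - b q S| else max |a q S| |b q S|
    _ ≤ ∑ q0 ∈ P, if q0 ∣ n + h i then G ^ 60 * (3072 / y) else 0 := sum_le_sum hstep
    _ = (P.filter fun q => q ∣ n + h i).card * (G ^ 60 * (3072 / y)) := by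
        rw [← sum_filter, sum_const, nsmul_eq_mul]
    _ ≤ G * (G ^ 60 * (G ^ 9 / y)) := by
        have e : (3072 : ℝ) ≤ G ^ 9 :=
          le_trans (by norm_num) (pow_le_pow_left₀ (by norm_num) hG10 9)
        gcongr
    _ = G ^ 70 / y := by ring

end Pool.Agent.Lib.MP_c03ca8_nt.P3
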