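import Pool.Agent.Lib.MP_c03ca8_nt.P3.Defs
import Pool.Agent.Lib.MP_e97e2b_nt.Ln.A2a

set_option autoImplicit false

noncomputable section

namespace Pool.Agent.Lib.MP_c03ca8_nt.P3

open Finset Real Pool.Agent.Lib.MP_c03ca8_nt.Q

theorem mapa_dir {a : ℕ → ℂ} {B : ℝ} (hB : ∀ n, ‖∑ t ∈ Ioc 0 n, a t‖ ≤ B) {w : ℕ → ℝ} {N M : ℕ}
    (hw : ∀ t, N < t → w (t + 1) ≤ w t) (h0 : ∀ t, 0 ≤ w t) (hM : N ≤ M) :
    ‖∑ t ∈ Ioc N M, a t * (w t : ℂ)‖ ≤ 2 * B * w (N + 1) := by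
  have hD : ∀ M, N ≤ M → ‖∑ t ∈ Ioc N M, a t‖ ≤ 2 * B := fun M hM => by
    rw [eq_sub_of_add_eq' (sum_Ioc_consecutive a (Nat.zero_le N) hM)]
    linarith [norm_sub_le (∑ t ∈ Ioc 0 M, a t) (∑ t ∈ Ioc 0 N, a t), hB M, hB N]
  have key : ‖∑ t ∈ Ioc N M, a t * (w t : ℂ) - (∑ t ∈ Ioc N M, a t) * (w (M + 1) : ℂ)‖ ≤
      2 * B * (w (N + 1) - w (M + 1)) := by
    induction M, hM using Nat.le_induction with
    | base => simp
    | succ M hM ih =>
      have h1 := hD (M + 1) (by omega)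
      have h2 := sub_nonneg.2 (hw (M + 1) (by omega))
      have e : ∑ t ∈ Ioc N (M + 1), a t * (w t : ℂ) -
          (∑ t ∈ Ioc N (M + 1), a t) * (w (M + 1 + 1) : ℂ) =
          (∑ t ∈ Ioc N M, a t * (w t : ℂ) - (∑ t ∈ Ioc N M, a t) * (w (M + 1) : ℂ)) +
            (∑ t ∈ Ioc N (M + 1), a t) * ((w (M + 1) - w (M + 1 + 1) : ℝ) : ℂ) := by
        rw [sum_Ioc_succ_top hM, sum_Ioc_succ_top hM]
        push_cast
        ring
      rw [e]
      refine (norm_add_le _ _).trans ?_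
      rw [norm_mul, Complex.norm_real, Real.norm_of_nonneg h2]
      linarith [mul_le_mul_of_nonneg_right h1 h2]
  have h3 := norm_add_le (∑ t ∈ Ioc N M, a t * (w t : ℂ) - (∑ t ∈ Ioc N M, a t) * (w (M + 1) : ℂ))
    ((∑ t ∈ Ioc N M, a t) * (w (M + 1) : ℂ))
  rw [sub_add_cancel, norm_mul, Complex.norm_real, Real.norm_of_nonneg (h0 _)] at h3
  linarith [mul_le_mul_of_nonneg_right (hD M hM) (h0 (M + 1))]

theorem mapa_inv {a : ℕ → ℂ} {B : ℝ} (hB : ∀ n, ‖∑ t ∈ Ioc 0 n, a t‖ ≤ B) {N M : ℕ} (hM : N ≤ M) :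
    ‖∑ t ∈ Ioc N M, a t / t‖ ≤ 2 * B / (N + 1) := by
  have h := mapa_dir hB (w := fun t => (t : ℝ)⁻¹) (N := N) (fun t ht => inv_anti₀
    (by exact_mod_cast (Nat.zero_le N).trans_lt ht) (by push_cast; linarith))
    (fun t => by positivity) hM
  simpa [div_eq_mul_inv] using h

theorem mapa_log {a : ℕ → ℂ} {B : ℝ} (hB : ∀ n, ‖∑ t ∈ Ioc 0 n, a t‖ ≤ B) (n : ℕ) :
    ‖∑ t ∈ Ioc 0 n, a t / t * (Real.log t : ℝ)‖ ≤ 4 * B := by
  have h1 := mapa_dir hB (w := fun t => (1 + Real.log t) / t) (N := 0) (fun t ht => ?_)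
    (fun t => div_nonneg (by linarith [Real.log_natCast_nonneg t]) (Nat.cast_nonneg t))
    (Nat.zero_le n)
  · have h2 := mapa_inv hB (Nat.zero_le n)
    have e : ∑ t ∈ Ioc 0 n, a t / t * (Real.log t : ℝ) =
        ∑ t ∈ Ioc 0 n, a t * (((1 + Real.log t) / t : ℝ) : ℂ) - ∑ t ∈ Ioc 0 n, a t / t := by
      rw [← sum_sub_distrib]
      refine sum_congr rfl fun t _ => ?_
      rw [Complex.ofReal_div, Complex.ofReal_add, Complex.ofReal_one, Complex.ofReal_natCast]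
      ring
    rw [e]
    refine (norm_sub_le _ _).trans ?_
    simp only [zero_add, Nat.cast_one, Real.log_one, add_zero, div_one, mul_one,
      Nat.cast_zero] at h1 h2
    linarith
  · have ht0 : (0 : ℝ) < t := by exact_mod_cast ht
    have h1 : (0 : ℝ) < t + 1 := by linarith
    have h2 := Real.log_le_sub_one_of_pos (div_pos h1 ht0)
    have h3 := Real.log_natCast_nonneg t
    have e : ((t : ℝ) + 1) / t - 1 = 1 / t := by field_simp; ring
    rw [Real.log_div h1.ne' ht0.ne', e, le_div_iff₀ ht0] at h2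
    push_cast
    rw [div_le_div_iff₀ h1 ht0]
    nlinarith

open ArithmeticFunction in
theorem mapa_conv {w : ℕ → ℂ} (hw : ∀ s t, w (s * t) = w s * w t) (n : ℕ) :
    ∑ m ∈ Ioc 0 n, w m * (Real.log m : ℝ) =
      ∑ d ∈ Ioc 0 n, w d * (vonMangoldt d : ℝ) * ∑ l ∈ Ioc 0 (n / d), w l := by
  have h := sum_Ioc_mul_eq_sum_sum (R := ℂ) ⟨fun d => w d * (vonMangoldt d : ℝ), by simp⟩
    ⟨fun l => if l = 0 then 0 else w l, by simp⟩ n
  refine (sum_congr rfl fun m hm => ?_).trans (h.trans (sum_congr rfl fun d _ => ?_))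
  · refine Eq.trans ?_ (ArithmeticFunction.mul_apply).symm
    rw [← vonMangoldt_sum, Complex.ofReal_sum, mul_sum,
      ← Nat.sum_divisorsAntidiagonal fun d _ => w m * (vonMangoldt d : ℝ)]
    refine sum_congr rfl fun x hx => ?_
    obtain ⟨h1, h2⟩ := Nat.mem_divisorsAntidiagonal.1 hx
    have h3 : x.2 ≠ 0 := fun h0 => h2 (by rw [← h1, h0, mul_zero])
    simp only [coe_mk, if_neg h3]
    rw [← h1, hw]
    ring
  · simp only [coe_mk]
    congr 1
    exact sum_congr rfl fun l hl => if_neg (mem_Ioc.1 hl).1.ne'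

open ArithmeticFunction in
theorem mapa_eta {η : ℕ → ℂ} {B : ℝ} {κ : ℂ} (hm : ∀ s t, η (s * t) = η s * η t)
    (h1 : ∀ t, ‖η t‖ ≤ 1) (hB : ∀ n, ‖∑ t ∈ Ioc 0 n, η t‖ ≤ B) (h0 : κ ≠ 0)
    (hκ : ∀ n : ℕ, ‖∑ t ∈ Ioc 0 n, η t / t - κ‖ ≤ 2 * B / (n + 1)) :
    ∃ C : ℝ, ∀ n : ℕ, ‖∑ d ∈ Ioc 0 n, η d / d * (vonMangoldt d : ℝ)‖ ≤ C := by
  have hB0 : 0 ≤ B := (norm_nonneg _).trans (hB 0)
  have h4 : 0 ≤ Real.log 4 + 4 := by linarith [Real.log_nonneg (show (1 : ℝ) ≤ 4 by norm_num)]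
  refine ⟨(4 * B + 2 * B * (Real.log 4 + 4)) / ‖κ‖, fun n => ?_⟩
  rcases Nat.eq_zero_or_pos n with rfl | hn
  · rw [Ioc_self, sum_empty, norm_zero]
    positivity
  have hn0 : (0 : ℝ) < n := by exact_mod_cast hn
  have h2 := mapa_conv (w := fun t => η t / t) (fun a b => by
    rw [hm, Nat.cast_mul, mul_div_mul_comm]) n
  have h5 : ‖∑ d ∈ Ioc 0 n, η d / d * (vonMangoldt d : ℝ) *
      (∑ l ∈ Ioc 0 (n / d), η l / l - κ)‖ ≤ 2 * B * (Real.log 4 + 4) := by
    refine (norm_sum_le _ _).trans ?_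
    refine (sum_le_sum (g := fun d => 2 * B / n * vonMangoldt d) fun d hd => ?_).trans ?_
    · have hd1 := (mem_Ioc.1 hd).1
      have hd0 : (0 : ℝ) < d := by exact_mod_cast hd1
      have h8 : (n : ℝ) / d ≤ ((n / d : ℕ) : ℝ) + 1 := by
        rw [div_le_iff₀ hd0]
        have h9 : (n : ℝ) < ((n / d : ℕ) : ℝ) * d + d := by
          exact_mod_cast Nat.lt_div_mul_add (a := n) hd1
        linarith
      have h6 : ‖∑ l ∈ Ioc 0 (n / d), η l / l - κ‖ ≤ 2 * B / (n / d) :=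
        (hκ (n / d)).trans (div_le_div_of_nonneg_left (by positivity) (by positivity) h8)
      have h7 := vonMangoldt_nonneg (n := d)
      rw [norm_mul, norm_mul, norm_div, Complex.norm_real, Real.norm_of_nonneg h7,
        Complex.norm_natCast]
      calc _ ≤ 1 / d * vonMangoldt d * (2 * B / (n / d)) := by
            gcongr
            exact h1 d
        _ = _ := by field_simp
    · have h := Chebyshev.psi_le_const_mul_self (x := n) (Nat.cast_nonneg n)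
      rw [Chebyshev.psi, Nat.floor_natCast] at h
      rw [← mul_sum]
      refine (mul_le_mul_of_nonneg_left h (by positivity)).trans (le_of_eq ?_)
      field_simp
  have h6 : (∑ d ∈ Ioc 0 n, η d / d * (vonMangoldt d : ℝ)) * κ =
      ∑ t ∈ Ioc 0 n, η t / t * (Real.log t : ℝ) - ∑ d ∈ Ioc 0 n, η d / d * (vonMangoldt d : ℝ) *
        (∑ l ∈ Ioc 0 (n / d), η l / l - κ) := by
    rw [h2, ← sum_sub_distrib, sum_mul]
    exact sum_congr rfl fun d _ => by ring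
  rw [le_div_iff₀ (norm_pos_iff.2 h0), ← norm_mul, h6]
  exact (norm_sub_le _ _).trans (add_le_add (mapa_log hB n) h5)

open ArithmeticFunction in
theorem mapa_nonprime : ∃ C : ℝ, ∀ S : Finset ℕ,
    ∑ d ∈ S.filter (fun d => ¬d.Prime), vonMangoldt d / d ≤ C := by
  have h := vonMangoldt.summable_residueClass_non_primes_div (q := 1) 0
  have e : ∀ n : ℕ, vonMangoldt.residueClass (q := 1) 0 n = vonMangoldt n := fun n =>
    Set.indicator_of_mem (s := {n : ℕ | (n : ZMod 1) = 0}) (Subsingleton.elim (n : ZMod 1) 0) _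
  simp only [e] at h
  refine ⟨_, fun S => le_trans (le_of_eq ?_) (h.sum_le_tsum S fun d _ => ?_)⟩
  · rw [sum_filter]
    refine sum_congr rfl fun d _ => ?_
    by_cases hd : d.Prime <;> simp [hd]
  · have := vonMangoldt_nonneg (n := d)
    positivity

/-- Mertens for a nontrivial character. Model: `mertens_eta`, `hmert_conv`, `sum_nonprime` in
`Pool/Agent/Lib/MP_bcfefa_nt/HMert.lean` (real valued; copy, do not import). Partial sums of `χ`
are at most `q` (`char_interval`); Abel summation bounds `∑ χ n log n / n` and gives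
`‖∑ n ≤ N, χ n / n - L‖ ≤ 2 q / (N + 1)` with `L = χ.LFunction 1 ≠ 0`
(`Pool.Agent.Lib.MP_e97e2b_nt.Ln.lfun_tendsto`, `DirichletCharacter.LFunction_apply_one_ne_zero`);
`χ log / n = (χ Λ / n) * (χ / n)` and Chebyshev; prime powers contribute a bounded amount. -/
theorem mertens_char {q : ℕ} (hq : 1 ≤ q) (χ : DirichletCharacter ℂ q) (hχ : χ ≠ 1) :
    ∃ C : ℝ, ∀ n : ℕ, ‖∑ p ∈ Nat.primesBelow n, χ p * ((Real.log p / p : ℝ) : ℂ)‖ ≤ C := by
  have : NeZero q := ⟨by omega⟩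
  have hB : ∀ n : ℕ, ‖∑ t ∈ Ioc 0 n, χ t‖ ≤ q := char_interval hq χ hχ 0
  have hL := Pool.Agent.Lib.MP_e97e2b_nt.Ln.lfun_tendsto χ hχ (s := 1) (by simp)
  simp only [Complex.cpow_neg_one, ← div_eq_mul_inv] at hL
  obtain ⟨C, hC⟩ := mapa_eta (η := fun t => χ (t : ZMod q)) (fun s t => by simp)
    (fun t => χ.norm_le_one _) hB (DirichletCharacter.LFunction_apply_one_ne_zero hχ) fun n => by
      refine le_of_tendsto ((tendsto_const_nhds.sub hL).norm) ?_
      filter_upwards [Filter.eventually_ge_atTop n] with M hM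
      rw [norm_sub_rev, ← sum_Ioc_consecutive _ (Nat.zero_le n) hM, add_sub_cancel_left]
      exact mapa_inv hB hM
  obtain ⟨C', hC'⟩ := mapa_nonprime
  refine ⟨C + C', fun n => ?_⟩
  have e1 : Nat.primesBelow n = (Ioc 0 (n - 1)).filter Nat.Prime := by
    ext p
    simp only [Nat.mem_primesBelow, mem_filter, mem_Ioc]
    exact ⟨fun h => ⟨⟨h.2.pos, by omega⟩, h.2⟩, fun h => ⟨by omega, h.2⟩⟩
  have e2 : ∑ p ∈ Nat.primesBelow n, χ p * ((Real.log p / p : ℝ) : ℂ) =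
      ∑ d ∈ Ioc 0 (n - 1), χ d / d * (ArithmeticFunction.vonMangoldt d : ℝ) -
      ∑ d ∈ (Ioc 0 (n - 1)).filter (fun d => ¬d.Prime),
        χ d / d * (ArithmeticFunction.vonMangoldt d : ℝ) := by
    rw [← sum_filter_add_sum_filter_not (Ioc 0 (n - 1)) Nat.Prime, add_sub_cancel_right, e1]
    refine sum_congr rfl fun p hp => ?_
    rw [ArithmeticFunction.vonMangoldt_apply_prime (mem_filter.1 hp).2, Complex.ofReal_div,
      Complex.ofReal_natCast]
    ring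
  rw [e2]
  refine (norm_sub_le _ _).trans (add_le_add (hC _) ((norm_sum_le _ _).trans
    ((sum_le_sum fun d _ => ?_).trans (hC' (Ioc 0 (n - 1))))))
  have h7 := ArithmeticFunction.vonMangoldt_nonneg (n := d)
  rw [norm_mul, norm_div, Complex.norm_real, Real.norm_of_nonneg h7, Complex.norm_natCast,
    div_mul_eq_mul_div]
  exact div_le_div_of_nonneg_right (mul_le_of_le_one_left h7 (χ.norm_le_one _)) (Nat.cast_nonneg d)

end Pool.Agent.Lib.MP_c03ca8_nt.P3
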