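import Pool.Agent.Lib.MP_c03ca8_nt.P3.Basic

set_option autoImplicit false

noncomputable section

namespace Pool.Agent.Lib.MP_c03ca8_nt.P3

open Finset Real Pool.Agent.Lib.MP_c03ca8_nt.Q

/-- A product over a subset as a product over the whole set. -/
theorem or1_prod {P T : Finset ℕ} (hT : T ⊆ P) (f : ℕ → ℝ) :
    ∏ q ∈ P, (if q ∈ T then f q else 1) = ∏ q ∈ T, f q := by
  rw [Finset.prod_ite_mem, Finset.inter_eq_right.2 hT]

/-- Value of the local factor at a prime that does not divide. -/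
def or1_c (T T' : Finset ℕ) (q : ℕ) : ℝ :=
  (if q ∈ T then 1 / ((q : ℝ) - 1) else 1) * (if q ∈ T' then 1 / ((q : ℝ) - 1) else 1)

/-- Jump of the local factor at a prime that divides. -/
def or1_e (T T' : Finset ℕ) (q : ℕ) (l : Fin 4) : ℝ :=
  if l = 0 then (if q ∈ T then -1 else 1) * (if q ∈ T' then -1 else 1) - or1_c T T' q else 0

theorem or1_local (T T' : Finset ℕ) (q m : ℕ) :
    or1_c T T' q + ∑ l, or1_e T T' q l * ind q m =
      (if q ∈ T then zl q m else 1) * (if q ∈ T' then zl q m else 1) := by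
  simp only [or1_e, ite_mul, zero_mul, Finset.sum_ite_eq', Finset.mem_univ, if_true]
  unfold ind zl or1_c
  by_cases hd : q ∣ m <;> by_cases h1 : q ∈ T <;> by_cases h2 : q ∈ T' <;> simp [hd, h1, h2]

theorem or1_mean (T T' : Finset ℕ) {q : ℕ} (hq : 2 ≤ q) :
    or1_c T T' q + ∑ l, or1_e T T' q l / q =
      if q ∈ T then (if q ∈ T' then 1 / ((q : ℝ) - 1) else 0) else (if q ∈ T' then 0 else 1) := by
  have h2 : (2 : ℝ) ≤ q := by exact_mod_cast hq
  have h3 : (q : ℝ) - 1 ≠ 0 := by linarith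
  have h4 : (q : ℝ) ≠ 0 := by linarith
  simp only [or1_e, ite_div, zero_div, Finset.sum_ite_eq', Finset.mem_univ, if_true]
  unfold or1_c
  by_cases h1 : q ∈ T <;> by_cases h2 : q ∈ T' <;> simp only [h1, h2, if_true, if_false] <;>
    field_simp <;> ring

theorem or1_err (T T' : Finset ℕ) {q : ℕ} (hq : 2 ≤ q) :
    |or1_c T T' q| + ∑ l, |or1_e T T' q l| ≤
      (if q ∈ T then 9 else 1) * (if q ∈ T' then 9 else 1) := by
  have h2 : (2 : ℝ) ≤ q := by exact_mod_cast hq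
  have h0 : 0 ≤ 1 / ((q : ℝ) - 1) := one_div_nonneg.2 (by linarith)
  have h1 : 1 / ((q : ℝ) - 1) ≤ 1 := by
    rw [div_le_one (by linarith)]
    linarith
  have e : ∑ l, |or1_e T T' q l| = |or1_e T T' q 0| := by
    refine Finset.sum_eq_single 0 (fun l _ hl => ?_) (fun h => absurd (Finset.mem_univ _) h)
    simp [or1_e, hl]
  rw [e]
  simp only [or1_e, if_true]
  unfold or1_c
  set u : ℝ := 1 / ((q : ℝ) - 1) with hu
  have hu2 : 0 ≤ u * u := mul_nonneg h0 h0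
  have hu3 : u * u ≤ 1 := mul_le_one₀ h1 h0 h1
  by_cases a1 : q ∈ T <;> by_cases a2 : q ∈ T' <;> simp only [a1, a2, if_true, if_false]
  · have b1 : |u * u| ≤ 1 := abs_le.2 ⟨by linarith, hu3⟩
    have b2 : |(-1 : ℝ) * -1 - u * u| ≤ 2 := abs_le.2 ⟨by linarith, by linarith⟩
    linarith
  · have b1 : |u * 1| ≤ 1 := abs_le.2 ⟨by linarith, by linarith⟩
    have b2 : |(-1 : ℝ) * 1 - u * 1| ≤ 2 := abs_le.2 ⟨by linarith, by linarith⟩
    linarith
  · have b1 : |1 * u| ≤ 1 := abs_le.2 ⟨by linarith, by linarith⟩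
    have b2 : |(1 : ℝ) * -1 - 1 * u| ≤ 2 := abs_le.2 ⟨by linarith, by linarith⟩
    linarith
  · norm_num

theorem or1_main {P T T' : Finset ℕ} (hP : ∀ q ∈ P, q.Prime) (hT : T ⊆ P) (hT' : T' ⊆ P) :
    ∏ q ∈ P, (or1_c T T' q + ∑ l, or1_e T T' q l / q) = if T = T' then wt T else 0 := by
  rw [Finset.prod_congr rfl fun q hq => or1_mean T T' (hP q hq).two_le]
  split_ifs with h
  · subst h
    unfold wt
    rw [← or1_prod hT]
    refine Finset.prod_congr rfl fun q _ => ?_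
    by_cases h1 : q ∈ T <;> simp [h1]
  · have hex : ∃ q, ¬ (q ∈ T ↔ q ∈ T') := by
      by_contra hc
      push Not at hc
      exact h (Finset.ext hc)
    obtain ⟨q, hq⟩ := hex
    by_cases h1 : q ∈ T
    · have h2 : q ∉ T' := fun h2 => hq ⟨fun _ => h2, fun _ => h1⟩
      exact Finset.prod_eq_zero (hT h1) (by simp [h1, h2])
    · have h2 : q ∈ T' := by
        by_contra h2
        exact hq ⟨fun h => absurd h h1, fun h => absurd h h2⟩
      exact Finset.prod_eq_zero (hT' h2) (by simp [h1, h2])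

theorem or1_fixed {Y G : ℝ} (hG : Tame Y G) {P : Finset ℕ} (hP : ∀ q ∈ P, q.Prime)
    (x X Q a k : ℕ) (hQ : 0 < Q) (hc : ∀ q ∈ P, Nat.Coprime Q q) {T T' : Finset ℕ}
    (hT : T ⊆ P) (hT' : T' ⊆ P) (hY : (pr T : ℝ) ≤ Y) (hY' : (pr T' : ℝ) ≤ Y) :
    |∑ n ∈ cls x X Q a, (∏ q ∈ T, zl q (n + k)) * ∏ q ∈ T', zl q (n + k) -
      X / Q * (if T = T' then wt T else 0)| ≤ G ^ 8 := by
  have h1 := sum_prod_loc (fun _ => k) (or1_c T T') (or1_e T T') x X P hP Q a hQ hc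
  have e1 : ∀ n, (∏ q ∈ T, zl q (n + k)) * ∏ q ∈ T', zl q (n + k) =
      ∏ q ∈ P, (or1_c T T' q + ∑ l, or1_e T T' q l * ind q (n + k)) := by
    intro n
    rw [Finset.prod_congr rfl fun q _ => or1_local T T' q (n + k), Finset.prod_mul_distrib,
      or1_prod hT, or1_prod hT']
  rw [Finset.sum_congr rfl fun n _ => e1 n, ← or1_main hP hT hT']
  refine h1.trans ?_
  have hG0 : (0 : ℝ) ≤ G := by linarith [hG.ten]
  calc ∏ q ∈ P, (|or1_c T T' q| + ∑ l, |or1_e T T' q l|)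
      ≤ ∏ q ∈ P, ((if q ∈ T then (9 : ℝ) else 1) * (if q ∈ T' then 9 else 1)) := by
        apply Finset.prod_le_prod
        · intro q _
          positivity
        · intro q hq
          exact or1_err T T' (hP q hq).two_le
    _ = (∏ _q ∈ T, (9 : ℝ)) * ∏ _q ∈ T', (9 : ℝ) := by
        rw [Finset.prod_mul_distrib, or1_prod hT (fun _ => 9), or1_prod hT' (fun _ => 9)]
    _ ≤ G ^ 4 * G ^ 4 :=
        mul_le_mul (k1_nine hG (fun q hq => hP q (hT hq)) hY)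
          (k1_nine hG (fun q hq => hP q (hT' hq)) hY') (by positivity) (by positivity)
    _ = G ^ 8 := by ring

/-- Orthogonality for one form. Expand over pairs `(T, T')`; the summand is
`∏ q ∈ T ∪ T', (c q + e q * ind q (n + k))` with `|c| + |e| ≤ 3`, mean `0` at a prime of exactly
one set and `1 / (q - 1)` at a common prime. `sum_prod_loc` with `h = fun _ => k` and
`e q l = 0` for `l ≠ 0`; `expand_pow_le`, `k1_count`. -/
theorem or1 {Y G Z Z' : ℝ} (hG : Tame Y G) {P : Finset ℕ} (hP : ∀ q ∈ P, q.Prime)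
    (x X Q a k : ℕ) (hQ : 0 < Q) (hc : ∀ q ∈ P, Nat.Coprime Q q) {z z' : ℕ → ℝ}
    (hz : Supp z Z) (hz' : Supp z' Z') (h0 : 0 ≤ Z) (h0' : 0 ≤ Z') (hZ : Z ≤ Y) (hZ' : Z' ≤ Y) :
    |∑ n ∈ cls x X Q a, sv P z (n + k) * sv P z' (n + k) - X / Q * ip P z z'| ≤
      G ^ 8 * (Z * Z') := by
  have hG0 : (0 : ℝ) ≤ G := by linarith [hG.ten]
  have e1 : ∀ n, sv P z (n + k) * sv P z' (n + k) =
      ∑ T ∈ P.powerset, ∑ T' ∈ P.powerset, z (pr T) * z' (pr T') *
        ((∏ q ∈ T, zl q (n + k)) * ∏ q ∈ T', zl q (n + k)) := by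
    intro n
    unfold sv
    rw [Finset.sum_mul_sum]
    refine Finset.sum_congr rfl fun T _ => Finset.sum_congr rfl fun T' _ => ?_
    ring
  have e0 : ip P z z' = ∑ T ∈ P.powerset, ∑ T' ∈ P.powerset, z (pr T) * z' (pr T') *
      (if T = T' then wt T else 0) := by
    unfold ip
    refine Finset.sum_congr rfl fun T hT => ?_
    simp only [mul_ite, mul_zero]
    rw [Finset.sum_ite_eq, if_pos hT]
  have e2 : ∑ n ∈ cls x X Q a, sv P z (n + k) * sv P z' (n + k) - X / Q * ip P z z' =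
      ∑ T ∈ P.powerset, ∑ T' ∈ P.powerset, z (pr T) * z' (pr T') *
        (∑ n ∈ cls x X Q a, (∏ q ∈ T, zl q (n + k)) * ∏ q ∈ T', zl q (n + k) -
          X / Q * (if T = T' then wt T else 0)) := by
    rw [Finset.sum_congr rfl fun n _ => e1 n, Finset.sum_comm, e0, Finset.mul_sum,
      ← Finset.sum_sub_distrib]
    refine Finset.sum_congr rfl fun T _ => ?_
    rw [Finset.sum_comm, Finset.mul_sum, ← Finset.sum_sub_distrib]
    refine Finset.sum_congr rfl fun T' _ => ?_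
    rw [← Finset.mul_sum]
    ring
  rw [e2]
  have h3 : ∀ T ∈ P.powerset, ∀ T' ∈ P.powerset, |z (pr T) * z' (pr T') *
      (∑ n ∈ cls x X Q a, (∏ q ∈ T, zl q (n + k)) * ∏ q ∈ T', zl q (n + k) -
        X / Q * (if T = T' then wt T else 0))| ≤ G ^ 8 * (|z (pr T)| * |z' (pr T')|) := by
    intro T hT T' hT'
    rw [abs_mul, abs_mul, mul_comm]
    by_cases a1 : z (pr T) = 0
    · rw [a1, abs_zero, zero_mul, mul_zero, mul_zero]
    by_cases a2 : z' (pr T') = 0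
    · rw [a2, abs_zero, mul_zero, mul_zero, mul_zero]
    refine mul_le_mul_of_nonneg_right ?_ (by positivity)
    exact or1_fixed hG hP x X Q a k hQ hc (Finset.mem_powerset.1 hT) (Finset.mem_powerset.1 hT')
      (((hz _).2 a1).le.trans hZ) (((hz' _).2 a2).le.trans hZ')
  calc _ ≤ ∑ T ∈ P.powerset, ∑ T' ∈ P.powerset, G ^ 8 * (|z (pr T)| * |z' (pr T')|) := by
        refine (Finset.abs_sum_le_sum_abs _ _).trans (Finset.sum_le_sum fun T hT => ?_)
        exact (Finset.abs_sum_le_sum_abs _ _).trans (Finset.sum_le_sum fun T' hT' => h3 T hT T' hT')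
    _ = G ^ 8 * ((∑ T ∈ P.powerset, |z (pr T)|) * ∑ T' ∈ P.powerset, |z' (pr T')|) := by
        rw [Finset.sum_mul_sum, Finset.mul_sum]
        refine Finset.sum_congr rfl fun T _ => ?_
        rw [Finset.mul_sum]
    _ ≤ G ^ 8 * (Z * Z') := by
        refine mul_le_mul_of_nonneg_left ?_ (by positivity)
        exact mul_le_mul (k1_count hP hz h0) (k1_count hP hz' h0')
          (Finset.sum_nonneg fun _ _ => abs_nonneg _) h0

/-- `or1` with `low Z`, `sv_low`, `ip_low`. -/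
theorem rough_count {Y G Z : ℝ} (hG : Tame Y G) {P : Finset ℕ} (hP : ∀ q ∈ P, q.Prime)
    (x X Q a k : ℕ) (hQ : 0 < Q) (hc : ∀ q ∈ P, Nat.Coprime Q q) (h0 : 0 ≤ Z) (hZ : Z ≤ Y)
    (S : Finset ℕ) (hS : ∀ n ∈ S, n ∈ cls x X Q a ∧ Rough Z (n + k)) :
    (S.card : ℝ) * gs P Z ^ 2 ≤ X / Q * gs P Z + G ^ 8 * Z ^ 2 := by
  have h1 := or1 hG hP x X Q a k hQ hc (supp_low Z) (supp_low Z) h0 h0 hZ hZ
  rw [ip_low] at h1
  have h2 : (S.card : ℝ) * gs P Z ^ 2 =
      ∑ n ∈ S, sv P (low Z) (n + k) * sv P (low Z) (n + k) := by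
    rw [Finset.sum_congr rfl fun n hn => by rw [sv_low hP (hS n hn).2], Finset.sum_const,
      nsmul_eq_mul, sq]
  have h3 : ∑ n ∈ S, sv P (low Z) (n + k) * sv P (low Z) (n + k) ≤
      ∑ n ∈ cls x X Q a, sv P (low Z) (n + k) * sv P (low Z) (n + k) :=
    Finset.sum_le_sum_of_subset_of_nonneg (fun n hn => (hS n hn).1)
      fun n _ _ => mul_self_nonneg _
  have h4 := (abs_le.1 h1).2
  rw [h2, sq]
  linarith

/-- From `A W ≤ ε H ^ δ` and `B ≤ H ^ t` with `δ + t ≤ θ ν` to `A B ≤ ε X / W`. -/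
theorem or1_fin {ν θ ε δ t A B : ℝ} {E : Env} (hε : 0 < ε) (hH : 2 ≤ E.H ν)
    (hx : E.H ν ^ ν = E.x) (hX : (E.x : ℝ) ^ θ ≤ E.X) (hA0 : 0 ≤ A)
    (hA : A * E.W ≤ ε * E.H ν ^ δ) (hB : B ≤ E.H ν ^ t) (ht : δ + t ≤ θ * ν) :
    A * B ≤ ε * (E.X / E.W) := by
  have h0 : (0 : ℝ) < E.H ν := by linarith
  have h1 : (1 : ℝ) ≤ E.H ν := by linarith
  have hW : (0 : ℝ) < E.W := by exact_mod_cast erra_Wpos E
  have e1 : E.H ν ^ δ * E.H ν ^ t ≤ E.X := by
    rw [← Real.rpow_add h0]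
    refine le_trans (Real.rpow_le_rpow_of_exponent_le h1 ht) ?_
    rw [mul_comm, Real.rpow_mul h0.le, hx]
    exact hX
  have e2 : A * B * E.W ≤ ε * E.X := by
    have hp : 0 ≤ E.H ν ^ t := by positivity
    calc A * B * E.W ≤ A * E.H ν ^ t * E.W := by gcongr
      _ = A * E.W * E.H ν ^ t := by ring
      _ ≤ ε * E.H ν ^ δ * E.H ν ^ t := by gcongr
      _ = ε * (E.H ν ^ δ * E.H ν ^ t) := by ring
      _ ≤ ε * E.X := by gcongr
  rw [← mul_div_assoc, le_div_iff₀ hW]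
  exact e2

/-- `or1` and the first part of `inner`; sizes as in `err1` (`ev_tame`, `ev_size`). -/
theorem or_ev {ν θ : ℝ} {T1 T2 M : ℕ} (hr : Rng ν θ T1 T2 M) (h2 : 2 * M ≤ T1) {ε : ℝ}
    (hε : 0 < ε) :
    Ev θ fun E => ∀ (i : Fin 4) (σ σ' : ℕ), σ < M → σ' < M →
      |∑ n ∈ E.I, sv E.P (cell (E.H ν) σ) (n + E.h i) * sv E.P (cell (E.H ν) σ') (n + E.h i) -
        E.X / E.W * E.L ν * dl σ σ'| ≤ ε * (E.X / E.W * E.L ν) := by
  obtain ⟨A, hA, hin⟩ := inner M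
  choose! B hB0 hB using hin
  obtain ⟨C, hC, hsz⟩ := ev_size (θ := θ) hr.pos
  have hδ : 0 < θ * ν - T1 := by linarith [hr.t1]
  have hε2 : 0 < ε / 2 := half_pos hε
  obtain ⟨w1, hw1⟩ := exists_nat_ge (4 * A / ε)
  refine (((hsz (fun w => 4 * B w / ε) one_pos).and (maina_ev_w θ w1)).and
    (ev_tame (θ := θ) hr.pos hδ hε2 8)).mono ?_
  rintro E hE hX ⟨⟨⟨-, b2, -, -, -, -⟩, b7⟩, G, hG, hGW, hL, hH, hx, -⟩ i σ σ' hσ hσ'
  have hw10 := hE.w10
  have hw0 : (0 : ℝ) < E.w := by exact_mod_cast (by omega : 0 < E.w)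
  have hw1' : (w1 : ℝ) ≤ E.w := by exact_mod_cast b7
  have hwA : 4 * A / ε ≤ E.w := hw1.trans hw1'
  have h0 : (0 : ℝ) < E.H ν := by linarith
  have h1 : (1 : ℝ) ≤ E.H ν := by linarith
  have hG0 : (0 : ℝ) ≤ G ^ 8 := by have := hG.ten; positivity
  have hXW : (0 : ℝ) ≤ E.X / E.W := by positivity
  have k1 := or1 hG (P := E.P) (fun q hq => (erra_memP hq).1) E.x E.X E.W E.a (E.h i)
    (erra_Wpos E) (fun q hq => erra_cop hq) (k1_supp_cell (E.H ν) σ) (k1_supp_cell (E.H ν) σ')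
    (by positivity) (by positivity) (erra_pow_le hr hH hx (by omega))
    (erra_pow_le hr hH hx (by omega))
  have k2 : G ^ 8 * (E.H ν ^ (σ + 1) * E.H ν ^ (σ' + 1)) ≤ ε / 2 * (E.X / E.W) := by
    refine or1_fin (t := (T1 : ℝ)) hε2 hH hx hX hG0 hGW ?_ (by linarith)
    rw [← pow_add, Real.rpow_natCast]
    exact pow_le_pow_right₀ h1 (by omega)
  have k3 : |ip E.P (cell (E.H ν) σ) (cell (E.H ν) σ') - dl σ σ' * E.L ν| ≤ ε / 2 * E.L ν := by
    have e0 := (hB E.w hw10 (E.H ν) (3 * E.x) (by linarith) (maina_pow_le hr hH hx) _ _ hσ hσ').1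
    have e1 : A / E.w ≤ ε / 4 := by
      rw [div_le_iff₀ hε] at hwA
      rw [div_le_iff₀ hw0]
      linarith
    have e2 : B E.w ≤ ε / 4 * E.L ν := by
      have := b2
      rw [div_le_iff₀ hε] at this
      linarith
    have e3 : A / E.w * E.L ν ≤ ε / 4 * E.L ν := by gcongr
    refine e0.trans ?_
    change A / E.w * E.L ν + B E.w ≤ _
    linarith
  have k4 : |E.X / E.W * ip E.P (cell (E.H ν) σ) (cell (E.H ν) σ') -
      E.X / E.W * E.L ν * dl σ σ'| ≤ ε / 2 * (E.X / E.W * E.L ν) := by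
    have e : E.X / E.W * ip E.P (cell (E.H ν) σ) (cell (E.H ν) σ') -
        E.X / E.W * E.L ν * dl σ σ' =
        E.X / E.W * (ip E.P (cell (E.H ν) σ) (cell (E.H ν) σ') - dl σ σ' * E.L ν) := by ring
    rw [e, abs_mul, abs_of_nonneg hXW]
    calc _ ≤ E.X / E.W * (ε / 2 * E.L ν) := mul_le_mul_of_nonneg_left k3 hXW
      _ = _ := by ring
  have k5 : ε / 2 * (E.X / E.W) ≤ ε / 2 * (E.X / E.W * E.L ν) := by
    refine mul_le_mul_of_nonneg_left ?_ hε2.le
    exact le_mul_of_one_le_right hXW hL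
  have tri := abs_sub_le
    (∑ n ∈ E.I, sv E.P (cell (E.H ν) σ) (n + E.h i) * sv E.P (cell (E.H ν) σ') (n + E.h i))
    (E.X / E.W * ip E.P (cell (E.H ν) σ) (cell (E.H ν) σ')) (E.X / E.W * E.L ν * dl σ σ')
  have k6 : |∑ n ∈ E.I, sv E.P (cell (E.H ν) σ) (n + E.h i) * sv E.P (cell (E.H ν) σ') (n + E.h i) -
      E.X / E.W * ip E.P (cell (E.H ν) σ) (cell (E.H ν) σ')| ≤ ε / 2 * (E.X / E.W) := k1.trans k2
  linarith

end Pool.Agent.Lib.MP_c03ca8_nt.P3
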