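import Pool.Agent.Lib.MP_c03ca8_nt.P3.Basic

set_option autoImplicit false

noncomputable section

namespace Pool.Agent.Lib.MP_c03ca8_nt.P3

open Finset Real Pool.Agent.Lib.MP_c03ca8_nt.Q

theorem pt_N (c : Cert) (k : Ker) (hv : k.Valid c) (i : Fin 4) (b : (Fin 4 → ℕ) → ℝ) :
    0 ≤ Fm c i k.Nk b := by
  have h := min_psd c.J (fun j => k.el (Cert.bt i j)) (fun j => k.ga (Cert.bt i j) * b j)
    fun j _ => hv.el _
  refine h.trans (le_of_eq ?_)
  unfold Fm Ker.Nk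
  exact Finset.sum_congr rfl fun j _ => Finset.sum_congr rfl fun j' _ => by ring

theorem pt_P (c : Cert) (k : Ker) (hv : k.Valid c) (i : Fin 4) (b : (Fin 4 → ℕ) → ℝ) :
    0 ≤ Fm c i k.Pk b := by
  have h := min_psd c.J (fun j => 1 + k.el (Cert.bt i j)) (fun j => k.al (Cert.bt i j) * b j)
    fun j _ => add_nonneg zero_le_one (hv.el _)
  refine h.trans (le_of_eq ?_)
  unfold Fm Ker.Pk
  refine Finset.sum_congr rfl fun j _ => Finset.sum_congr rfl fun j' _ => ?_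
  rw [min_add_add_left]
  ring

theorem pt_M (c : Cert) (k : Ker) (i : Fin 4) (b : (Fin 4 → ℕ) → ℝ) :
    Fm c i k.Pk b + Fm c i k.Mk b = (∑ j ∈ c.J, b j) ^ 2 + Fm c i k.Nk b := by
  unfold Fm Ker.Mk
  rw [sq, Finset.sum_mul_sum, ← Finset.sum_add_distrib, ← Finset.sum_add_distrib]
  refine Finset.sum_congr rfl fun j _ => ?_
  rw [← Finset.sum_add_distrib, ← Finset.sum_add_distrib]
  exact Finset.sum_congr rfl fun j' _ => by ring

theorem pt_uu (y : ℝ) (m : ℕ) : uu y m = 0 ∨ uu y m = 1 := by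
  unfold uu
  split_ifs <;> simp

theorem pt_bracket (c : Cert) (k : Ker) (hv : k.Valid c) (i : Fin 4) (b : (Fin 4 → ℕ) → ℝ)
    (y : ℝ) (m : ℕ) :
    uu y m * (∑ j ∈ c.J, b j) ^ 2 ≤ Fm c i k.Pk b + uu y m * Fm c i k.Mk b := by
  have h1 := pt_N c k hv i b
  have h2 := pt_P c k hv i b
  have h3 := pt_M c k i b
  rcases pt_uu y m with h | h <;> rw [h] <;> linarith

theorem pt_bracket0 (c : Cert) (k : Ker) (hv : k.Valid c) (i : Fin 4) (b : (Fin 4 → ℕ) → ℝ)
    (y : ℝ) (m : ℕ) : 0 ≤ Fm c i k.Pk b + uu y m * Fm c i k.Mk b := by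
  refine le_trans (mul_nonneg ?_ (sq_nonneg _)) (pt_bracket c k hv i b y m)
  rcases pt_uu y m with h | h <;> rw [h] <;> norm_num

theorem pt_ind (p N : ℕ) : 0 ≤ ind p N := by
  unfold ind
  split_ifs <;> norm_num

theorem pt_junk (E : Env) (ν η : ℝ) (n : ℕ) (i : Fin 4) :
    0 ≤ ∑ p ∈ E.tiny ν η, ind p (n + E.h i) + if n ∈ E.sq ν η i then 1 else 0 :=
  add_nonneg (Finset.sum_nonneg fun p _ => pt_ind _ _) (by split_ifs <;> norm_num)

/-- `min_psd` gives `0 ≤ Fm Nk` and `0 ≤ Fm Pk` (`1 + min a b = min (1 + a) (1 + b)`), and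
`Fm Mk = a ^ 2 + Fm Nk - Fm Pk`, so each bracket is at least `uu * a ^ 2 ≥ 0`. Let `n ∉ gd`. If
some `n + h l` is not rough it has a tiny prime (its primes exceed `w` by `cop` and are at most
`3 x`). Otherwise `4 ≤ Ω (n + h l)` for some `l`, and `n ∈ E.sq` or `uu = 1`. See the proof of
`point` in `Q/Point.lean` (`point_card`, `erra_memI`). -/
theorem point3 (c : Cert) (k : Ker) (hv : k.Valid c) (E : Env) (hE : E.Good) {η : ℝ} {n : ℕ}
    (hn : n ∈ E.I) (hR : n ∉ gd E.h (E.H c.nu ^ η) E.I) :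
    (∑ j ∈ c.J, bb c E n j) ^ 2 ≤
      ∑ i, (Fm c i k.Pk (bb c E n) + uu (E.H c.nu ^ η) (n + E.h i) * Fm c i k.Mk (bb c E n)) +
      ∑ i, (∑ p ∈ E.tiny c.nu η, ind p (n + E.h i) + if n ∈ E.sq c.nu η i then 1 else 0) *
        (∑ j ∈ c.J, bb c E n j) ^ 2 := by
  obtain ⟨hI, hmod⟩ := mem_filter.1 hn
  obtain ⟨hn1, hn2⟩ := mem_Ioc.1 hI
  have hpos : ∀ i, 0 < n + E.h i := fun i => by omega
  have hle : ∀ i, n + E.h i ≤ 3 * E.x := fun i => by
    have := hE.hlt i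
    have := hE.wx
    have := hE.Xx
    omega
  have hB := fun i => pt_bracket c k hv i (bb c E n) (E.H c.nu ^ η) (n + E.h i)
  have hB0 := fun i => pt_bracket0 c k hv i (bb c E n) (E.H c.nu ^ η) (n + E.h i)
  have hX := pt_junk E c.nu η n
  set A := (∑ j ∈ c.J, bb c E n j) ^ 2 with hA
  have hA0 : 0 ≤ A := sq_nonneg _
  rw [← Finset.sum_mul]
  by_cases hb : ∃ i, (∃ p ∈ E.tiny c.nu η, p ∣ n + E.h i) ∨ n ∈ E.sq c.nu η i
  · obtain ⟨i, hi⟩ := hb
    have h2 : 1 ≤ ∑ p ∈ E.tiny c.nu η, ind p (n + E.h i) +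
        if n ∈ E.sq c.nu η i then 1 else 0 := by
      rcases hi with ⟨p, hp, hd⟩ | hi
      · have h3 := Finset.single_le_sum (f := fun p => ind p (n + E.h i))
          (fun p _ => pt_ind _ _) hp
        have h4 : ind p (n + E.h i) = 1 := if_pos hd
        have h5 : (0 : ℝ) ≤ if n ∈ E.sq c.nu η i then 1 else 0 := by split_ifs <;> norm_num
        linarith
      · rw [if_pos hi]
        linarith [Finset.sum_nonneg (s := E.tiny c.nu η) fun p _ => pt_ind p (n + E.h i)]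
    have h3 := h2.trans (Finset.single_le_sum (f := fun i => ∑ p ∈ E.tiny c.nu η,
      ind p (n + E.h i) + if n ∈ E.sq c.nu η i then 1 else 0) (fun i _ => hX i) (mem_univ i))
    have h4 := mul_le_mul_of_nonneg_right h3 hA0
    have h5 := Finset.sum_nonneg fun i (_ : i ∈ (univ : Finset (Fin 4))) => hB0 i
    linarith
  · have hb1 : ∀ i, ∀ p ∈ E.tiny c.nu η, ¬ p ∣ n + E.h i := fun i p hp hd =>
      hb ⟨i, Or.inl ⟨p, hp, hd⟩⟩
    have hb2 : ∀ i, n ∉ E.sq c.nu η i := fun i h => hb ⟨i, Or.inr h⟩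
    have hP : ∀ i, Rough (E.H c.nu ^ η) (n + E.h i) := by
      intro i p hp hd
      have h2 : p ∈ E.P := by
        refine mem_filter.2 ⟨Nat.mem_primesLE.2 ⟨(Nat.le_of_dvd (hpos i) hd).trans (hle i), hp⟩, ?_⟩
        by_contra hw
        have hW : p ∣ E.W := hp.dvd_primorial_iff.2 (not_lt.1 hw)
        have h3 : p ∣ E.a + E.h i :=
          (((hmod.of_dvd hW).add_right (E.h i)).dvd_iff dvd_rfl).1 hd
        exact hp.one_lt.ne' (Nat.eq_one_of_dvd_coprimes (hE.cop i) h3 hW)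
      exact not_lt.1 fun h => hb1 i p (mem_filter.2 ⟨h2, h⟩) hd
    have hs : ∀ i, Squarefree (n + E.h i) := by
      intro i
      rw [Nat.squarefree_iff_prime_squarefree]
      intro p hp hd
      refine hb2 i ?_
      classical
      exact mem_filter.2 ⟨hn, p, hp, hP i p hp ((dvd_mul_right p p).trans hd), by rwa [sq]⟩
    have hl : ∃ l, 4 ≤ om (n + E.h l) := by
      by_contra hc
      refine hR ?_
      classical
      refine mem_filter.2 ⟨hn, fun l => ⟨hP l, ?_⟩⟩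
      rw [point_card (hs l)]
      have := not_exists.1 hc l
      unfold om at this
      omega
    obtain ⟨l, hl⟩ := hl
    have hu : uu (E.H c.nu ^ η) (n + E.h l) = 1 := if_pos ⟨hs l, hP l, hl⟩
    have h1 := hB l
    have h2 := Finset.single_le_sum (f := fun i => Fm c i k.Pk (bb c E n) +
      uu (E.H c.nu ^ η) (n + E.h i) * Fm c i k.Mk (bb c E n)) (fun i _ => hB0 i) (mem_univ l)
    have h4 := mul_nonneg (Finset.sum_nonneg fun i (_ : i ∈ (univ : Finset (Fin 4))) => hX i) hA0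
    rw [hu, one_mul] at h1
    rw [hu] at h2
    linarith

/-- The right side of `point3` is never negative. -/
theorem point3_nonneg (c : Cert) (k : Ker) (hv : k.Valid c) (E : Env) (η : ℝ) (n : ℕ) :
    0 ≤ ∑ i, (Fm c i k.Pk (bb c E n) + uu (E.H c.nu ^ η) (n + E.h i) * Fm c i k.Mk (bb c E n)) +
      ∑ i, (∑ p ∈ E.tiny c.nu η, ind p (n + E.h i) + if n ∈ E.sq c.nu η i then 1 else 0) *
        (∑ j ∈ c.J, bb c E n j) ^ 2 := by
  exact add_nonneg (Finset.sum_nonneg fun i _ => pt_bracket0 c k hv i _ _ _)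
    (Finset.sum_nonneg fun i _ => mul_nonneg (pt_junk E c.nu η n i) (sq_nonneg _))

end Pool.Agent.Lib.MP_c03ca8_nt.P3
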