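import Pool.Agent.Lib.MP_c03ca8_nt.P3.Basic

set_option autoImplicit false

noncomputable section

namespace Pool.Agent.Lib.MP_c03ca8_nt.P3

open Finset Real Pool.Agent.Lib.MP_c03ca8_nt.Q

/-- The drop of `Phi` under a shift. -/
def ram_A (H : ℝ) (σ : ℕ) (t : ℝ) (r : ℕ) : ℝ := Phi H σ 0 r - Phi H σ t r

theorem ram_A_le (H : ℝ) (σ : ℕ) (t : ℝ) {r R : ℕ} (h : om r ≤ R) :
    |ram_A H σ t r| ≤ 2 * 2 ^ R := by
  have h1 : (2 : ℝ) ^ om r ≤ 2 ^ R := pow_le_pow_right₀ one_le_two h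
  have h2 := abs_Phi_le H σ 0 r
  have h3 := abs_Phi_le H σ t r
  have h4 := abs_sub (Phi H σ 0 r) (Phi H σ t r)
  unfold ram_A
  linarith

theorem ram_A_lip (H : ℝ) (σ : ℕ) (t t' : ℝ) {r R : ℕ} (h : om r ≤ R) :
    |ram_A H σ t r - ram_A H σ t' r| ≤ 2 ^ R * |t - t'| := by
  have h1 : (2 : ℝ) ^ om r ≤ 2 ^ R := pow_le_pow_right₀ one_le_two h
  have h2 : ram_A H σ t r - ram_A H σ t' r = -(Phi H σ t r - Phi H σ t' r) := by
    unfold ram_A
    ring
  rw [h2, abs_neg]
  exact (Phi_lip H σ t t' r).trans (mul_le_mul_of_nonneg_right h1 (abs_nonneg _))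

theorem ram_sq (R : ℕ) : (4 : ℝ) ^ R = 2 ^ R * 2 ^ R := by
  rw [← mul_pow]
  norm_num

open Classical in
/-- The coefficients. -/
def ram_B (H y : ℝ) (R σ σ' : ℕ) (p r : ℕ) : ℝ :=
  if Squarefree r ∧ Rough y r ∧ 3 ≤ om r ∧ om r ≤ R then
    1 / ((om r : ℝ) + 1) * (ram_A H σ (Real.log p / Real.log H) r *
      ram_A H σ' (Real.log p / Real.log H) r / (4 * 4 ^ R))
  else 0

theorem ram_good {H y : ℝ} {R σ σ' p r : ℕ} (h : ram_B H y R σ σ' p r ≠ 0) :
    Squarefree r ∧ Rough y r ∧ 3 ≤ om r ∧ om r ≤ R := by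
  by_contra hc
  exact h (if_neg hc)

theorem ram_inv (r : ℕ) : |1 / ((om r : ℝ) + 1)| ≤ 1 := by
  have : (0 : ℝ) ≤ om r := Nat.cast_nonneg _
  rw [abs_of_nonneg (by positivity)]
  exact div_le_one_of_le₀ (by linarith) (by linarith)

theorem ram_adm {H y : ℝ} (hH : 1 ≤ Real.log H) (R σ σ' : ℕ) : Adm y (ram_B H y R σ σ') := by
  have h4 : (0 : ℝ) < 4 * 4 ^ R := by positivity
  have h2 : (0 : ℝ) < 2 ^ R := by positivity
  refine ⟨fun p r => ?_, fun p r h => ?_, fun p p' r hp hpp => ?_⟩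
  · unfold ram_B
    split_ifs with hc
    · rw [abs_mul]
      refine mul_le_one₀ (ram_inv r) (abs_nonneg _) ?_
      rw [abs_div, abs_of_pos h4, div_le_one h4, abs_mul, ram_sq]
      refine (mul_le_mul (ram_A_le H σ _ hc.2.2.2) (ram_A_le H σ' _ hc.2.2.2) (abs_nonneg _)
        (by positivity)).trans (le_of_eq (by ring))
    · simp
  · obtain ⟨h1, h2, h3, -⟩ := ram_good h
    refine ⟨h2, ?_⟩
    obtain ⟨q, hq⟩ : r.primeFactors.Nonempty := Finset.card_pos.1 (by unfold om at h3; omega)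
    have h5 := Nat.mem_primeFactors.1 hq
    exact (h2 q h5.1 h5.2.1).trans (by exact_mod_cast Nat.le_of_mem_primeFactors hq)
  · have hp0 : (0 : ℝ) < p := by exact_mod_cast hp
    have hl : Real.log p ≤ Real.log p' := Real.log_le_log hp0 (by exact_mod_cast hpp)
    unfold ram_B
    split_ifs with hc
    · have ht : |Real.log p / Real.log H - Real.log p' / Real.log H| ≤ Real.log p' - Real.log p := by
        rw [← sub_div, abs_div, abs_sub_comm, abs_of_nonneg (by linarith),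
          abs_of_pos (by linarith : 0 < Real.log H)]
        exact div_le_self (by linarith) hH
      generalize Real.log p / Real.log H = t at ht ⊢
      generalize Real.log p' / Real.log H = t' at ht ⊢
      rw [← mul_sub, abs_mul, ← sub_div]
      refine (mul_le_of_le_one_left (abs_nonneg _) (ram_inv r)).trans (le_trans ?_ ht)
      rw [abs_div, abs_of_pos h4, div_le_iff₀ h4]
      have e : ram_A H σ t r * ram_A H σ' t r - ram_A H σ t' r * ram_A H σ' t' r =
          ram_A H σ t r * (ram_A H σ' t r - ram_A H σ' t' r) +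
            (ram_A H σ t r - ram_A H σ t' r) * ram_A H σ' t' r := by ring
      rw [e]
      refine (abs_add_le _ _).trans ?_
      rw [abs_mul, abs_mul, ram_sq]
      have a1 := mul_le_mul (ram_A_le H σ t hc.2.2.2) (ram_A_lip H σ' t t' hc.2.2.2) (abs_nonneg _)
        (by positivity)
      have a2 := mul_le_mul (ram_A_lip H σ t t' hc.2.2.2) (ram_A_le H σ' t' hc.2.2.2) (abs_nonneg _)
        (by positivity)
      refine (add_le_add a1 a2).trans (le_of_eq (by ring))
    · simpa using hl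

theorem ram_fac {m p : ℕ} (hm : Squarefree m) (hp : p ∈ m.primeFactors) :
    p.Prime ∧ m = p * (m / p) ∧ m / p ≠ 0 ∧ ¬ p ∣ m / p ∧ Squarefree (m / p) := by
  have h := Nat.mem_primeFactors.1 hp
  have e : m = p * (m / p) := (Nat.mul_div_cancel' h.2.1).symm
  refine ⟨h.1, e, fun h0 => h.2.2 (by rw [e, h0, mul_zero]), fun hd => ?_,
    hm.squarefree_of_dvd (Nat.div_dvd_of_dvd h.2.1)⟩
  have : p * p ∣ m := by
    rw [e]
    exact mul_dvd_mul_left p hd
  exact h.1.one_lt.ne' (Nat.isUnit_iff.1 (hm p this))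

/-- The identity of Ramaré. Take `B p r = 1 / (om r + 1) * (Phi σ 0 r - Phi σ t r) *
(Phi σ' 0 r - Phi σ' t r) / (4 * 4 ^ R)` with `t = log p / log H` if `r` is squarefree, rough,
`3 ≤ om r ≤ R`, and `0` otherwise. `abs_Phi_le`, `Phi_lip` (`1 ≤ log H`); such `r` has a prime, so
`y ≤ r`. For squarefree `m` use `Phi_mul`, `om_mul` (a prime `q < y` of `m` divides `m / p`). If `m`
is not squarefree and `B p (m / p) ≠ 0` then `p ∣ m / p`. -/
theorem ramare {H y : ℝ} (hH : 1 ≤ Real.log H) (R σ σ' : ℕ) : ∃ B : ℕ → ℕ → ℝ, Adm y B ∧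
    ∀ m : ℕ, 1 ≤ m → om m ≤ R →
      (Squarefree m → 4 * 4 ^ R * bil y B m = uu y m * (Phi H σ 0 m * Phi H σ' 0 m)) ∧
      (¬ Squarefree m → bil y B m ≠ 0 → ∃ p : ℕ, p.Prime ∧ y ≤ (p : ℝ) ∧ p ^ 2 ∣ m) ∧
      |bil y B m| ≤ R := by
  have hA := ram_adm (y := y) hH R σ σ'
  refine ⟨ram_B H y R σ σ', hA, fun m hm hR => ⟨fun hs => ?_, fun hs hb => ?_, ?_⟩⟩
  · by_cases hc : Rough y m ∧ 4 ≤ om m
    · have h0 : (0 : ℝ) < om m := by exact_mod_cast (by omega : 0 < om m)
      have h1 : m.primeFactors.filter (fun p : ℕ => y ≤ (p : ℝ)) = m.primeFactors :=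
        Finset.filter_true_of_mem fun p hp =>
          hc.1 p (Nat.prime_of_mem_primeFactors hp) (Nat.dvd_of_mem_primeFactors hp)
      have h2 : ∀ p ∈ m.primeFactors, ram_B H y R σ σ' p (m / p) =
          1 / (om m : ℝ) * (Phi H σ 0 m * Phi H σ' 0 m / (4 * 4 ^ R)) := fun p hp => by
        obtain ⟨a1, a2, a3, a4, a5⟩ := ram_fac hs hp
        have b1 : om m = om (m / p) + 1 := by
          conv_lhs => rw [a2]
          exact om_mul a1 a3 a4
        have b2 : ∀ τ, Phi H τ 0 m = ram_A H τ (Real.log p / Real.log H) (m / p) := fun τ => by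
          conv_lhs => rw [a2]
          rw [Phi_mul H τ 0 a1 a3 a4, zero_add, ram_A]
        have b3 := hc.2
        unfold ram_B
        rw [if_pos ⟨a5, hc.1.of_dvd (Nat.div_dvd_of_dvd (Nat.dvd_of_mem_primeFactors hp)),
          by omega, by omega⟩, b2, b2, b1]
        push_cast
        rfl
      have h3 : uu y m = 1 := if_pos ⟨hs, hc⟩
      unfold bil
      rw [h1, Finset.sum_congr rfl h2, Finset.sum_const, nsmul_eq_mul, h3]
      change 4 * 4 ^ R * ((om m : ℝ) * _) = _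
      field_simp
    · have h3 : uu y m = 0 := if_neg fun h => hc h.2
      have h2 : bil y (ram_B H y R σ σ') m = 0 := by
        refine Finset.sum_eq_zero fun p hp => ?_
        by_contra hne
        obtain ⟨hp1, hp2⟩ := Finset.mem_filter.1 hp
        obtain ⟨a1, a2, a3, a4, -⟩ := ram_fac hs hp1
        obtain ⟨-, b2, b3, -⟩ := ram_good hne
        refine hc ?_
        rw [a2, om_mul a1 a3 a4]
        exact ⟨(rough_prime a1 hp2).mul b2, by omega⟩
      rw [h2, h3, mul_zero, zero_mul]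
  · obtain ⟨p, hp, hne⟩ := Finset.exists_ne_zero_of_sum_ne_zero hb
    obtain ⟨hp1, hp2⟩ := Finset.mem_filter.1 hp
    have h := Nat.mem_primeFactors.1 hp1
    have e : m = p * (m / p) := (Nat.mul_div_cancel' h.2.1).symm
    refine ⟨p, h.1, hp2, ?_⟩
    by_cases hd : p ∣ m / p
    · rw [e, sq]
      exact mul_dvd_mul_left p hd
    · refine absurd ?_ hs
      rw [e]
      exact Nat.squarefree_mul_iff.2 ⟨(Nat.Prime.coprime_iff_not_dvd h.1).2 hd,
        h.1.prime.squarefree, (ram_good hne).1⟩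
  · refine (Finset.abs_sum_le_sum_abs _ _).trans ?_
    refine (Finset.sum_le_sum fun p _ => hA.bd p (m / p)).trans ?_
    rw [Finset.sum_const, nsmul_eq_mul, mul_one]
    exact_mod_cast (Finset.card_filter_le _ _).trans hR

end Pool.Agent.Lib.MP_c03ca8_nt.P3
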