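import Pool.Agent.Lib.MP_c03ca8_nt.P3.Basic

set_option autoImplicit false

noncomputable section

namespace Pool.Agent.Lib.MP_c03ca8_nt.P3

open Finset Real Pool.Agent.Lib.MP_c03ca8_nt.Q

theorem rb4_mass : ∃ B : ℕ → ℝ, ∀ w : ℕ, 10 ≤ w → ∀ (y : ℕ) (Z : ℝ), 1 ≤ Z → Z ≤ y →
    3 / 5 * (cW w * Real.log Z) - B w ≤ gs (PP w y) Z := by
  have h : ∀ w : ℕ, ∃ B : ℝ, 10 ≤ w → ∀ (y : ℕ) (Z : ℝ), 1 ≤ Z → Z ≤ y →
      3 / 5 * (cW w * Real.log Z) - B ≤ gs (PP w y) Z := by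
    intro w
    by_cases hw : 10 ≤ w
    · obtain ⟨B, -, hB⟩ := mass w hw
      refine ⟨B, fun _ y Z h1 h2 => ?_⟩
      have hb := hB y 1 Z le_rfl h1 h2
      rw [div_one] at hb
      have e : (PP w y).powerset.filter (fun T => (1 : ℝ) ≤ (pr T : ℝ) ∧ (pr T : ℝ) < Z) =
          (PP w y).powerset.filter (fun T => (pr T : ℝ) < Z) := by
        refine filter_congr fun T hT => ⟨fun h => h.2, fun h => ⟨?_, h⟩⟩
        have hp : 0 < pr T := pr_pos fun q hq =>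
          Nat.prime_of_mem_primesLE (mem_filter.1 (mem_powerset.1 hT hq)).1
        exact_mod_cast hp
      rw [e] at hb
      have hL : 0 ≤ cW w * Real.log Z := mul_nonneg (cW_pos w).le (Real.log_nonneg h1)
      have hw' : (10 : ℝ) ≤ w := by exact_mod_cast hw
      have h4 : 4 / (w : ℝ) ≤ 2 / 5 := by
        rw [div_le_div_iff₀ (by linarith) (by norm_num)]
        linarith
      have h5 := mul_le_mul_of_nonneg_right h4 hL
      have h6 := (abs_le.1 hb).1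
      unfold gs
      linarith
    · exact ⟨0, fun h => absurd h hw⟩
  choose B hB using h
  exact ⟨B, hB⟩

theorem rb4_nonneg (P : Finset ℕ) (h : Fin 4 → ℕ) (z : ℕ → ℝ) (n : ℕ) :
    0 ≤ Pw P h (fun _ => z) n := by
  unfold Pw
  rw [Fintype.prod_prod_type]
  refine prod_nonneg fun l _ => ?_
  rw [Fintype.prod_bool]
  exact mul_self_nonneg _

theorem rb4_card {P : Finset ℕ} (hP : ∀ q ∈ P, q.Prime) (h : Fin 4 → ℕ) (Z : ℝ) (I : Finset ℕ) :
    ((gd h Z I).card : ℝ) * gs P Z ^ 8 ≤ ∑ n ∈ I, Pw P h (fun _ => low Z) n := by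
  classical
  have h1 : ∑ n ∈ gd h Z I, Pw P h (fun _ => low Z) n = ((gd h Z I).card : ℝ) * gs P Z ^ 8 := by
    rw [← nsmul_eq_mul, ← sum_const]
    refine sum_congr rfl fun n hn => ?_
    have hn' := (mem_filter.1 hn).2
    unfold Pw
    rw [prod_congr rfl fun s _ => sv_low hP (hn' s.1).1, prod_const]
    simp
  rw [← h1]
  exact sum_le_sum_of_subset_of_nonneg (filter_subset _ _) fun n _ _ => rb4_nonneg P h _ n

/-- As the second part of `rb` with `ν = 1` and `low (H ^ η)` in all eight slots: with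
`g = gs E.P (H ^ η) ≥ η L / 2` (`mass`, `ev_size`), `g ^ 8` times the number is at most
`∑ n ∈ E.I, Pw ≤ X / W (1 + K) mert ^ 4 + G ^ 33 H ^ (8 η)` (`sv_low`, `k1`, `decouple`, `ip_low`,
`gs_le_mert`, `ev_tame` with `δ = θ - 8 η`). -/
theorem rb4 {θ η : ℝ} (hθ : θ ≤ 1) (hη : 0 < η) (h8 : 8 * η < θ) : ∃ C : ℝ, 0 < C ∧
    Ev θ fun E => ((gd E.h (E.H 1 ^ η) E.I).card : ℝ) ≤ C * (E.X / E.W / E.L 1 ^ 4) := by
  obtain ⟨B, hB⟩ := rb4_mass
  obtain ⟨K, hK, hdec⟩ := decouple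
  obtain ⟨C, hC, hsz⟩ := ev_size (ν := 1) (θ := θ) one_pos
  have hδ : 0 < θ - 8 * η := by linarith
  refine ⟨((1 + K) * C ^ 4 + 1) / (η / 2) ^ 8, by positivity, ?_⟩
  refine ((hsz (fun w => 10 * B w / η) hη).and
    (ev_tame (ν := 1) (θ := θ) one_pos hδ one_pos 33)).mono ?_
  rintro E hE hX ⟨⟨hm, hBL, -, -, -, -⟩, G, hG, hGW, hL, hH, hx, -⟩
  have h0 : (0 : ℝ) < E.H 1 := by linarith
  have h1 : (1 : ℝ) ≤ E.H 1 := by linarith
  have hG0 : (0 : ℝ) ≤ G ^ 33 := by have := hG.ten; positivity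
  have hP : ∀ q ∈ E.P, q.Prime := fun q hq => (erra_memP hq).1
  have hZ1 : 1 ≤ E.H 1 ^ η := Real.one_le_rpow h1 hη.le
  have hZx : E.H 1 ^ η ≤ 3 * (E.x : ℝ) := by
    have a1 : E.H 1 ^ η ≤ E.H 1 ^ (1 : ℝ) :=
      Real.rpow_le_rpow_of_exponent_le h1 (by linarith)
    have a2 : (0 : ℝ) ≤ E.x := Nat.cast_nonneg _
    rw [hx] at a1
    exact a1.trans (le_mul_of_one_le_left a2 (by norm_num))
  have hg : η / 2 * E.L 1 ≤ gs E.P (E.H 1 ^ η) := by
    have a1 := hB E.w hE.w10 (3 * E.x) (E.H 1 ^ η) hZ1 (by push_cast; exact hZx)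
    rw [Real.log_rpow h0] at a1
    have a2 : cW E.w * (η * Real.log (E.H 1)) = η * E.L 1 := by unfold Env.L; ring
    rw [a2] at a1
    rw [div_le_iff₀ hη] at hBL
    unfold Env.P
    linarith
  have hk := k1 hG E.h hE.inj E.w hE.hlt E.P (fun q hq => erra_memP hq) E.x E.X E.W E.a
    (erra_Wpos E) (fun q hq => erra_cop hq) (fun _ => low (E.H 1 ^ η)) (fun _ => E.H 1 ^ η)
    (fun _ => supp_low _) (fun _ => by linarith) (fun _ => hZx) 1 (Or.inl rfl) 0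
  simp only [ind, one_dvd, if_true, one_mul] at hk
  have hd := hdec E.w hE.w10 E.P (fun q hq => erra_memP hq) (fun _ => low (E.H 1 ^ η))
    (fun _ r => (supp_low _ r).1) 1 0 (Or.inl rfl)
    (fun h => absurd (hP 1 h) Nat.not_prime_one)
  simp only [ip_low, prod_const, card_univ, Fintype.card_fin, Nat.cast_one, div_one,
    one_mul] at hd
  have herr : G ^ 33 * ∏ _s : Slot, E.H 1 ^ η ≤ 1 * E.Sc 1 := by
    refine erra_fin (t := 8 * η) one_pos hH hx hX hL hG0 hGW ?_ (by linarith)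
    rw [prod_const, ← Real.rpow_natCast, ← Real.rpow_mul h0.le]
    refine Real.rpow_le_rpow_of_exponent_le h1 (le_of_eq ?_)
    simp only [card_univ, Fintype.card_prod, Fintype.card_fin, Fintype.card_bool]
    push_cast
    ring
  have hg0 := gs_nonneg hP (E.H 1 ^ η)
  have hgm := gs_le_mert hP (E.H 1 ^ η)
  have hm0 : 0 ≤ mert E.P := hg0.trans hgm
  have hm4 : mert E.P ^ 4 ≤ C ^ 4 * E.L 1 ^ 4 := by
    rw [← mul_pow]
    exact pow_le_pow_left₀ hm0 hm 4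
  have hM : M1 E.P (fun _ => low (E.H 1 ^ η)) 1 0 ≤ (1 + K) * C ^ 4 * E.L 1 ^ 4 := by
    have a1 : gs E.P (E.H 1 ^ η) ^ 4 ≤ mert E.P ^ 4 := pow_le_pow_left₀ hg0 hgm 4
    have hw : (1 : ℝ) ≤ E.w := by exact_mod_cast le_trans (by norm_num) hE.w10
    have a2 : K * mert E.P ^ 4 / (E.w : ℝ) ≤ K * mert E.P ^ 4 :=
      div_le_self (by positivity) hw
    have a3 := (abs_le.1 hd).2
    have a4 : (1 + K) * mert E.P ^ 4 ≤ (1 + K) * (C ^ 4 * E.L 1 ^ 4) :=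
      mul_le_mul_of_nonneg_left hm4 (by linarith)
    linarith
  have hc := asym_c E
  have hsum : ∑ n ∈ E.I, Pw E.P E.h (fun _ => low (E.H 1 ^ η)) n ≤
      ((1 + K) * C ^ 4 + 1) * (E.X / E.W * E.L 1 ^ 4) := by
    have a1 := (abs_le.1 hk).2
    have a2 := mul_le_mul_of_nonneg_left hM hc
    unfold Env.Sc at herr
    unfold Env.I
    linarith
  have hcard := rb4_card hP E.h (E.H 1 ^ η) E.I
  have hL0 : 0 < E.L 1 := by linarith
  have h8' : (η / 2 * E.L 1) ^ 8 ≤ gs E.P (E.H 1 ^ η) ^ 8 :=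
    pow_le_pow_left₀ (by positivity) hg 8
  have hfin : ((gd E.h (E.H 1 ^ η) E.I).card : ℝ) * (η / 2 * E.L 1) ^ 8 ≤
      ((1 + K) * C ^ 4 + 1) * (E.X / E.W * E.L 1 ^ 4) :=
    ((mul_le_mul_of_nonneg_left h8' (Nat.cast_nonneg _)).trans hcard).trans hsum
  rw [← le_div_iff₀ (by positivity)] at hfin
  refine hfin.trans (le_of_eq ?_)
  field_simp

end Pool.Agent.Lib.MP_c03ca8_nt.P3
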