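import Pool.Agent.Lib.MP_c03ca8_nt.P3.Or1
import Pool.Agent.Lib.MP_c03ca8_nt.P3.ChA

set_option autoImplicit false

noncomputable section

namespace Pool.Agent.Lib.MP_c03ca8_nt.P3

open Finset Real Pool.Agent.Lib.MP_c03ca8_nt.Q

theorem sla_diag {Y G Z : ℝ} (hG : Tame Y G) {P : Finset ℕ} (hP : ∀ q ∈ P, q.Prime) (h1 : 1 ≤ Z)
    (hZ : Z * Z ≤ Y) {A B : ℕ} (hAB : A ≤ B) :
    ∑ n ∈ Ioc A B, sv P (low Z) n ^ 2 ≤ ((B : ℝ) - A) * gs P Z + G ^ 8 * Z ^ 2 := by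
  have hZ1 : Z ≤ Y := by nlinarith
  have h := or1 hG hP A (B - A) 1 0 0 one_pos (fun q _ => Nat.coprime_one_left q) (supp_low Z)
    (supp_low Z) (by linarith) (by linarith) hZ1 hZ1
  have e : cls A (B - A) 1 0 = Ioc A B := by
    rw [cls, Nat.add_sub_cancel' hAB]
    exact filter_true_of_mem fun n _ => Nat.modEq_one
  rw [e, ip_low, Nat.cast_sub hAB, Nat.cast_one, div_one] at h
  have h2 := (abs_le.1 h).2
  simp only [add_zero, ← sq] at h2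
  linarith

theorem sla_off {Y G Z : ℝ} (hG : Tame Y G) {P : Finset ℕ} (hP : ∀ q ∈ P, q.Prime) (h1 : 1 ≤ Z)
    (hZ : Z * Z ≤ Y) (A B : ℕ) (u : ℕ → ℂ) {K : ℝ} (hK : 0 ≤ K)
    (hu : ∀ d, 1 ≤ d → ‖∑ n ∈ Ioc A B, (if d ∣ n then (1 : ℂ) else 0) * u n‖ ≤ K) :
    ‖∑ n ∈ Ioc A B, ((sv P (low Z) n * sv P (low Z) n : ℝ) : ℂ) * u n‖ ≤ G ^ 8 * Z ^ 2 * K := by
  obtain ⟨D, c, hD, he⟩ := sv_mul_expand hG hP (supp_low Z) (supp_low Z) h1 h1 hZ
  have hp : ∀ d ∈ D, 1 ≤ d := fun d hd => Nat.one_le_iff_ne_zero.2 (hD d hd).1.ne_zero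
  have hc := boxa_card_D D (Dm := Z * Z) (by nlinarith) fun d hd => ⟨hp d hd, (hD d hd).2.1⟩
  have hG0 : (0 : ℝ) ≤ G := by linarith [hG.ten]
  have e : ∑ n ∈ Ioc A B, ((sv P (low Z) n * sv P (low Z) n : ℝ) : ℂ) * u n =
      ∑ d ∈ D, (c d : ℂ) * ∑ n ∈ Ioc A B, (if d ∣ n then (1 : ℂ) else 0) * u n := by
    simp only [he, mul_sum]
    rw [sum_comm]
    refine sum_congr rfl fun n _ => ?_
    rw [Complex.ofReal_sum, sum_mul]
    refine sum_congr rfl fun d _ => ?_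
    split_ifs <;> simp
  rw [e]
  refine (norm_sum_le _ _).trans ((sum_le_card_nsmul _ _ (G ^ 8 * K) fun d hd => ?_).trans ?_)
  · rw [norm_mul, Complex.norm_real, Real.norm_eq_abs]
    exact mul_le_mul (hD d hd).2.2.1 (hu d (hp d hd)) (norm_nonneg _) (by positivity)
  · rw [nsmul_eq_mul]
    calc (D.card : ℝ) * (G ^ 8 * K) ≤ Z * Z * (G ^ 8 * K) := by gcongr
      _ = _ := by ring

theorem sla_card (C : ℕ) : (((Icc 1 C).sigma prim).card : ℝ) ≤ (C : ℝ) ^ 2 := by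
  have h : ((Icc 1 C).sigma prim).card ≤ C ^ 2 := by
    rw [card_sigma]
    refine (sum_le_card_nsmul _ _ C fun k hk =>
      (card_prim_le (mem_Icc.1 hk).1).trans (mem_Icc.1 hk).2).trans ?_
    rw [Nat.card_Icc, Nat.add_sub_cancel, smul_eq_mul, pow_two]
  exact_mod_cast h

/-- Large sieve for sifted sequences, by duality. `lsadd_dual` with the index set
`(Icc 1 C).sigma prim` (at most `C ^ 2` elements, `card_prim_le`), vectors
`e ⟨k, ψ⟩ n = sv P (low Z) n * ψ n` and `γ = f`; on the support of `f` the weight is `gs P Z`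
(`sv_low`). Diagonal: at most `∑ sv ^ 2 ≤ (B - A) gs + G ^ 8 Z ^ 2` (`or1` with `Q = 1`,
`cls A (B - A) 1 0 = Ioc A B`). Off the diagonal: `sv_mul_expand`, `boxa_card_D` and `gram_off`
give `Z ^ 2 G ^ 8 C ^ 2`. -/
theorem sls {Y G Z : ℝ} (hG : Tame Y G) {P : Finset ℕ} (hP : ∀ q ∈ P, q.Prime) (h1 : 1 ≤ Z)
    (hZ : Z * Z ≤ Y) {C : ℕ} (hC : 1 ≤ C) {A B : ℕ} (hAB : A ≤ B) (f : ℕ → ℂ)
    (hf : ∀ n, f n ≠ 0 → Rough Z n) :
    gs P Z ^ 2 * ∑ k ∈ Icc 1 C, ∑ ψ ∈ prim k, ‖∑ n ∈ Ioc A B, f n * ψ n‖ ^ 2 ≤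
      (((B : ℝ) - A) * gs P Z + 2 * G ^ 8 * Z ^ 2 * (C : ℝ) ^ 4) * ∑ n ∈ Ioc A B, ‖f n‖ ^ 2 := by
  classical
  have hG0 : (0 : ℝ) ≤ G := by linarith [hG.ten]
  have hg := gs_nonneg hP Z
  have hBA : (0 : ℝ) ≤ (B : ℝ) - A := sub_nonneg.2 (by exact_mod_cast hAB)
  have hC1 : (1 : ℝ) ≤ C := by exact_mod_cast hC
  have main := lsadd_dual ((Icc 1 C).sigma prim) (Ioc A B)
    (fun a n => ((sv P (low Z) n : ℝ) : ℂ) * a.2 n) f
    (fun a a' => (if a = a' then ((B : ℝ) - A) * gs P Z + G ^ 8 * Z ^ 2 else 0) +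
      G ^ 8 * Z ^ 2 * (C : ℝ) ^ 2)
    (((B : ℝ) - A) * gs P Z + 2 * G ^ 8 * Z ^ 2 * (C : ℝ) ^ 4) (by positivity)
    (fun a a' => by simp only [eq_comm]) ?_ ?_
  · refine le_trans (le_of_eq ?_) main
    rw [sum_sigma', mul_sum]
    refine sum_congr rfl fun a _ => ?_
    have e : ∑ n ∈ Ioc A B, f n * (((sv P (low Z) n : ℝ) : ℂ) * a.2 n) =
        ((gs P Z : ℝ) : ℂ) * ∑ n ∈ Ioc A B, f n * a.2 n := by
      rw [mul_sum]
      refine sum_congr rfl fun n _ => ?_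
      by_cases h : f n = 0
      · simp [h]
      · rw [sv_low hP (hf n h)]
        ring
    rw [e, norm_mul, mul_pow, Complex.norm_real, Real.norm_eq_abs, sq_abs]
  · intro a ha a' ha'
    obtain ⟨b1, b2⟩ := mem_sigma.1 ha
    obtain ⟨b3, b4⟩ := mem_sigma.1 ha'
    have e : ∀ n : ℕ, ((sv P (low Z) n : ℝ) : ℂ) * a.2 n *
        (starRingEnd ℂ) (((sv P (low Z) n : ℝ) : ℂ) * a'.2 n) =
        ((sv P (low Z) n * sv P (low Z) n : ℝ) : ℂ) * (a.2 n * (starRingEnd ℂ) (a'.2 n)) := by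
      intro n
      rw [map_mul, Complex.conj_ofReal, Complex.ofReal_mul]
      ring
    simp only [e]
    split_ifs with h
    · refine (norm_sum_le _ _).trans (le_trans ?_ (le_add_of_nonneg_right (by positivity)))
      refine le_trans (sum_le_sum fun n _ => ?_) (sla_diag hG hP h1 hZ hAB)
      rw [norm_mul, norm_mul, Complex.norm_real, Real.norm_eq_abs, ← pow_two, abs_sq,
        Complex.norm_conj]
      exact mul_le_of_le_one_right (sq_nonneg _) (mul_le_one₀ (a.2.norm_le_one _) (norm_nonneg _)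
        (a'.2.norm_le_one _))
    · rw [zero_add]
      refine sla_off hG hP h1 hZ A B _ (by positivity) fun d hd =>
        (gram_off (mem_Icc.1 b1).1 (mem_Icc.1 b3).1 b2 b4 h hd A B).trans ?_
      have c1 : (a.1 : ℝ) ≤ C := by exact_mod_cast (mem_Icc.1 b1).2
      have c2 : (a'.1 : ℝ) ≤ C := by exact_mod_cast (mem_Icc.1 b3).2
      rw [pow_two]
      gcongr
  · intro a ha
    rw [sum_add_distrib, sum_ite_eq, if_pos ha, sum_const, nsmul_eq_mul]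
    have c1 := mul_le_mul_of_nonneg_right (sla_card C)
      (show 0 ≤ G ^ 8 * Z ^ 2 * (C : ℝ) ^ 2 by positivity)
    have c2 : G ^ 8 * Z ^ 2 * 1 ≤ G ^ 8 * Z ^ 2 * (C : ℝ) ^ 4 :=
      mul_le_mul_of_nonneg_left (one_le_pow₀ hC1) (by positivity)
    linarith

end Pool.Agent.Lib.MP_c03ca8_nt.P3
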