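import Pool.Agent.Lib.MP_c03ca8_nt.P3.Basic

set_option autoImplicit false

noncomputable section

namespace Pool.Agent.Lib.MP_c03ca8_nt.P3

open Finset Real Pool.Agent.Lib.MP_c03ca8_nt.Q

/-- `form0` in the proof of `sums` in `Q/CoreA.lean` (`corea_expand`, `corea_main0`, `form_est`,
`asym0`). -/
theorem sum_form (c : Cert) (hl : 2 * c.U + 9 ≤ c.T1) {θ : ℝ} (hr : Rng c.nu θ c.T1 c.T2 c.M)
    (K : ℕ → ℕ → ℝ) {ε : ℝ} (hε : 0 < ε) :
    Ev θ fun E => ∀ i, |∑ n ∈ E.I, Fm c i K (bb c E n) - Kv c K * E.Sc c.nu| ≤ ε * E.Sc c.nu := by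
  obtain ⟨A, hA, hA1⟩ : ∃ A : ℝ, 0 < A ∧ ∀ i : Fin 4, ∑ j ∈ c.J, ∑ j' ∈ c.J,
      |K (Cert.bt i j) (Cert.bt i j') * (c.F j * c.F j')| ≤ A := by
    have p1 : ∀ i : Fin 4, 0 ≤ ∑ j ∈ c.J, ∑ j' ∈ c.J,
        |K (Cert.bt i j) (Cert.bt i j') * (c.F j * c.F j')| := fun i =>
      Finset.sum_nonneg fun _ _ => Finset.sum_nonneg fun _ _ => abs_nonneg _
    refine ⟨1 + ∑ i : Fin 4, ∑ j ∈ c.J, ∑ j' ∈ c.J,
      |K (Cert.bt i j) (Cert.bt i j') * (c.F j * c.F j')|,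
      add_pos_of_pos_of_nonneg one_pos (Finset.sum_nonneg fun i _ => p1 i), fun i => ?_⟩
    exact (Finset.single_le_sum (fun i _ => p1 i) (Finset.mem_univ i)).trans (by linarith)
  have he0 : 0 < ε / A := by positivity
  refine (asym0 hr he0).mono ?_
  intro E _ _ a0 i
  have hS := corea_Sc_nonneg E c.nu
  have h1 := corea_expand c E E.I (fun _ => 1) (fun j j' => K (Cert.bt i j) (Cert.bt i j'))
  simp only [one_mul] at h1
  have h2 := corea_main0 c i (fun β _ β' _ => K β β') (E.Sc c.nu)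
  simp only [← Finset.mul_sum (range c.M)] at h2
  unfold Fm Kv rI
  rw [h1, ← h2]
  refine (form_est c _ _ _ (e := ε / A * E.Sc c.nu) (fun j hj j' hj' _ => ?_)
    (by positivity)).trans ?_
  · exact a0 _ (corea_lt c hj hj') ((corea_sum_le c hj hj').trans (by omega))
  · refine (mul_le_mul_of_nonneg_right (hA1 i) (by positivity)).trans (le_of_eq ?_)
    field_simp

/-- The last part of the proof of `sums` (`asym2`, `asym3`, `corea_form_le`). -/
theorem sum_junk (c : Cert) (hl : 2 * c.U + 9 ≤ c.T1) {θ : ℝ} (hr : Rng c.nu θ c.T1 c.T2 c.M)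
    {ε : ℝ} (hε : 0 < ε) : ∃ η : ℝ, 0 < η ∧ η < 1 ∧ Ev θ fun E => ∀ i,
      ∑ n ∈ E.I, (∑ p ∈ E.tiny c.nu η, ind p (n + E.h i) +
        if n ∈ E.sq c.nu η i then 1 else 0) * (∑ j ∈ c.J, bb c E n j) ^ 2 ≤ ε * E.Sc c.nu := by
  obtain ⟨A, hA, hA0, -⟩ := corea_const c
  obtain ⟨K, hK, h2⟩ := asym2 hr
  obtain ⟨e, he0, heA⟩ : ∃ e : ℝ, 0 < e ∧ A * (3 * e) = ε :=
    ⟨ε / (3 * A), by positivity, by field_simp⟩
  have hD : (0 : ℝ) < K + 1 := by positivity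
  obtain ⟨η, hη0, hη1, hηe⟩ : ∃ η : ℝ, 0 < η ∧ η < 1 ∧ η * (K + 1) ≤ e :=
    ⟨min (1 / 2) (e / (K + 1)), lt_min (by norm_num) (by positivity),
      (min_le_left _ _).trans_lt (by norm_num), (le_div_iff₀ hD).1 (min_le_right _ _)⟩
  refine ⟨η, hη0, hη1, ((h2 he0 hη0 hη1).and (asym3 hr he0 hη0)).mono ?_⟩
  rintro E - - ⟨a2, a3⟩ i
  have hS := corea_Sc_nonneg E c.nu
  have hsub : E.I.filter (fun n => n ∈ E.sq c.nu η i) = E.sq c.nu η i := by
    ext n
    rw [Finset.mem_filter]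
    refine ⟨fun h => h.2, fun h => ⟨?_, h⟩⟩
    classical
    unfold Env.sq at h
    exact Finset.mem_of_mem_filter _ h
  have h1 : ∑ n ∈ E.I, (∑ p ∈ E.tiny c.nu η, ind p (n + E.h i) +
        if n ∈ E.sq c.nu η i then 1 else 0) * (∑ j ∈ c.J, bb c E n j) ^ 2 =
      ∑ j ∈ c.J, ∑ j' ∈ c.J, (1 : ℝ) * (c.F j * c.F j') *
        (∑ p ∈ E.tiny c.nu η, ∑ n ∈ E.I,
            ind p (n + E.h i) * Pw E.P E.h (cz (E.H c.nu) (pairS j j')) n +
          ∑ n ∈ E.sq c.nu η i, Pw E.P E.h (cz (E.H c.nu) (pairS j j')) n) := by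
    simp only [corea_sq]
    rw [corea_expand c E E.I _ (fun _ _ => 1)]
    refine Finset.sum_congr rfl fun j _ => Finset.sum_congr rfl fun j' _ => ?_
    congr 1
    simp only [add_mul, Finset.sum_add_distrib, Finset.sum_mul]
    congr 1
    · exact Finset.sum_comm
    · conv_rhs => rw [← hsub, Finset.sum_filter]
      refine Finset.sum_congr rfl fun n _ => ?_
      split_ifs <;> simp
  rw [h1]
  refine (corea_form_le c _ _ (e := 3 * e * E.Sc c.nu) (fun j hj j' hj' => ?_)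
    (by positivity)).trans ?_
  · have b2 := a2 (pairS j j') i (by have := corea_sum_le c hj hj'; omega)
    have b3 := a3 (pairS j j') i (corea_lt c hj hj')
    refine (abs_add_le _ _).trans ?_
    have c2 := (Finset.abs_sum_le_sum_abs _ _).trans b2
    have c3 := (Finset.abs_sum_le_sum_abs _ _).trans b3
    have c4 : K * η * E.Sc c.nu ≤ e * E.Sc c.nu := mul_le_mul_of_nonneg_right (by linarith) hS
    linarith
  · refine (mul_le_mul_of_nonneg_right hA0 (by positivity)).trans (le_of_eq ?_)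
    rw [← heA]
    ring

theorem Fm_one (c : Cert) (i : Fin 4) (b : (Fin 4 → ℕ) → ℝ) :
    Fm c i (fun _ _ => 1) b = (∑ j ∈ c.J, b j) ^ 2 := by
  rw [corea_sq]
  rfl

theorem Kv_one (c : Cert) : Kv c (fun _ _ => 1) = c.Ival := by
  simp only [Kv, rI, Cert.Ival, one_mul]

end Pool.Agent.Lib.MP_c03ca8_nt.P3
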