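import Pool.Agent.Lib.MP_c03ca8_nt.P3.T2

set_option autoImplicit false

noncomputable section

namespace Pool.Agent.Lib.MP_c03ca8_nt.P3

open Finset Real Pool.Agent.Lib.MP_c03ca8_nt.Q

theorem sumb_sq (M : ℕ) (A : Finset ℕ) (u : ℕ → ℝ) (G : ℕ → ℝ) (f : ℕ → ℕ → ℝ) (t : ℝ) :
    ∑ σ ∈ range M, ∑ σ' ∈ range M, t * (∑ n ∈ A, u n * (f σ n * f σ' n)) * (G σ * G σ') =
      t * ∑ n ∈ A, u n * (∑ σ ∈ range M, G σ * f σ n) ^ 2 := by
  simp only [sq, Finset.mul_sum, Finset.sum_mul]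
  rw [Finset.sum_comm (s := A)]
  refine Finset.sum_congr rfl fun σ _ => ?_
  rw [Finset.sum_comm (s := A)]
  refine Finset.sum_congr rfl fun σ' _ => Finset.sum_congr rfl fun n _ => ?_
  ring

theorem sumb_main (c : Cert) (E : Env) (i : Fin 4) (K : ℕ → ℕ → ℝ) (u : ℕ → ℝ)
    (f : ℕ → ℕ → ℝ) :
    ∑ j ∈ c.J, ∑ j' ∈ c.J, K (Cert.bt i j) (Cert.bt i j') * (c.F j * c.F j') *
      (c0 E c.nu (pairS j j') i * ∑ n ∈ E.I, u n *
        (f (pairS j j' (i, false)) n * f (pairS j j' (i, true)) n)) =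
    E.L c.nu ^ 3 * ∑ β ∈ range (c.U + 1), c.Mb β * (K β β *
      ∑ n ∈ E.I, u n * (∑ σ ∈ range c.M, c.Gf β σ * f σ n) ^ 2) := by
  have h := reduce c i (fun β σ β' σ' => K β β' * ∑ n ∈ E.I, u n * (f σ n * f σ' n))
  simp only [sumb_sq] at h
  rw [← h, Finset.mul_sum]
  refine Finset.sum_congr rfl fun j _ => ?_
  rw [Finset.mul_sum]
  refine Finset.sum_congr rfl fun j' _ => ?_
  simp only [c0, pairS, Bool.false_eq_true, if_false, if_true]
  ring

theorem sumb_t2 (j j' : Fin 4 → ℕ) (i : Fin 4) :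
    ∑ s ∈ univ.filter (fun s : Slot => s.1 ≠ i), (pairS j j' s + 1) =
      Cert.bt i j + Cert.bt i j' + 6 := by
  have h3 := reduce_pairS_aux j j' (univ.erase i)
  have h4 : univ.filter (fun s : Slot => s.1 ≠ i) =
      univ.filter (fun s : Slot => s.1 ∈ univ.erase i) := by
    ext s
    simp
  have h5 : (univ.erase i).card = 3 := by simp
  rw [h4, h3, h5]
  rfl

theorem sumb_t1 (j : Fin 4 → ℕ) (i : Fin 4) :
    ∑ l ∈ univ.erase i, (j l + 1) = Cert.bt i j + 3 := by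
  have h5 : (univ.erase i).card = 3 := by simp
  rw [Finset.sum_add_distrib, Finset.sum_const, h5]
  rfl

/-- `corea_expand` with `u = uu`, `form_est`, `t2` for the pairs with `Mk ≠ 0` (`Valid.zero`,
`reduce_pairS_aux`, `pointa_mem`), and `reduce` with `Ψ β σ β' σ' = Mk β β' * Y σ σ'`, where
`Y σ σ' = ∑ n, uu * (sv σ * sv σ')`. -/
theorem sum_u (c : Cert) (k : Ker) (hv : k.Valid c) {θ : ℝ} (hr : Rng c.nu θ c.T1 c.T2 c.M)
    (hθ : θ < 1) {ε η : ℝ} (hε : 0 < ε) (hη : 0 < η) (hη1 : η < 1) :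
    Ev1 fun E => ∀ i,
      |∑ n ∈ E.I, uu (E.H c.nu ^ η) (n + E.h i) * Fm c i k.Mk (bb c E n) -
        E.L c.nu ^ 3 * ∑ β ∈ range (c.U + 1), c.Mb β * (k.Mk β β *
          ∑ n ∈ E.I, uu (E.H c.nu ^ η) (n + E.h i) *
            (∑ σ ∈ range c.M, c.Gf β σ * sv E.P (cell (E.H c.nu) σ) (n + E.h i)) ^ 2)| ≤
        ε * E.Sc c.nu := by
  set a : Fin 4 → ℝ := fun i => ∑ j ∈ c.J, ∑ j' ∈ c.J,
    |k.Mk (Cert.bt i j) (Cert.bt i j') * (c.F j * c.F j')| with ha
  have p1 : ∀ i, 0 ≤ a i := fun i =>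
    Finset.sum_nonneg fun _ _ => Finset.sum_nonneg fun _ _ => abs_nonneg _
  have s1 : 0 ≤ ∑ i, a i := Finset.sum_nonneg fun i _ => p1 i
  have hA : 0 < 1 + ∑ i, a i := by linarith
  set e : ℝ := ε / (1 + ∑ i, a i) with he
  have he0 : 0 < e := by positivity
  have heA : (1 + ∑ i, a i) * e = ε := by
    rw [he]
    field_simp
  refine Ev1.mono (t2 hr hθ he0 hη hη1) ?_
  intro E _ h2 i
  have hS := corea_Sc_nonneg E c.nu
  have h1 := corea_expand c E E.I (fun n => uu (E.H c.nu ^ η) (n + E.h i))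
    (fun j j' => k.Mk (Cert.bt i j) (Cert.bt i j'))
  have h3 := sumb_main c E i k.Mk (fun n => uu (E.H c.nu ^ η) (n + E.h i))
    (fun σ n => sv E.P (cell (E.H c.nu) σ) (n + E.h i))
  unfold Fm
  rw [h1, ← h3]
  refine (form_est c _ _ _ (e := e * E.Sc c.nu) (fun j hj j' hj' hne => ?_)
    (by positivity)).trans ?_
  · have m1 := (pointa_mem c i hj).2
    have m2 := (pointa_mem c i hj').2
    have hl := hv.lev
    refine h2 (pairS j j') i (corea_lt c hj hj') ?_ fun b => ?_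
    · rw [sumb_t2]
      by_contra hc
      apply hne
      rw [hv.zero _ _ (by omega) (by omega) (by omega), zero_mul]
    · cases b
      · have h4 := sumb_t1 j i
        simp only [pairS, Bool.false_eq_true, if_false]
        omega
      · have h4 := sumb_t1 j' i
        simp only [pairS, if_true]
        omega
  · have h4 : a i ≤ ∑ i, a i := Finset.single_le_sum (fun i _ => p1 i) (Finset.mem_univ i)
    have h5 : a i * e ≤ ε := by nlinarith
    change a i * (e * E.Sc c.nu) ≤ _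
    calc a i * (e * E.Sc c.nu) = a i * e * E.Sc c.nu := by ring
      _ ≤ ε * E.Sc c.nu := mul_le_mul_of_nonneg_right h5 hS

end Pool.Agent.Lib.MP_c03ca8_nt.P3
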