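import Pool.Agent.Lib.MP_c03ca8_nt.P3.Basic

set_option autoImplicit false

noncomputable section

namespace Pool.Agent.Lib.MP_c03ca8_nt.P3

open Finset Real Pool.Agent.Lib.MP_c03ca8_nt.Q

theorem sv_union {A B : Finset ℕ} (h : Disjoint A B) (f : Finset ℕ → ℝ) :
    ∑ T ∈ (A ∪ B).powerset, f T = ∑ D ∈ A.powerset, ∑ T ∈ B.powerset, f (D ∪ T) := by
  induction A using Finset.induction_on generalizing f with
  | empty => simp
  | insert a A ha ih =>
    rw [Finset.disjoint_insert_left] at h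
    have ha' : a ∉ A ∪ B := by simp [ha, h.1]
    rw [Finset.insert_union, Finset.sum_powerset_insert ha', Finset.sum_powerset_insert ha,
      ih h.2, ih h.2]
    simp only [Finset.insert_union]

theorem sv_mert_sum (P : Finset ℕ) : ∑ T ∈ P.powerset, wt T = mert P :=
  (Finset.prod_one_add P).symm

theorem sv_mert_sub {A B : Finset ℕ} (h : Disjoint A B) (hP : ∀ q ∈ A ∪ B, q.Prime) {y : ℝ}
    (hy : 0 < y) (hA : ∀ q ∈ A, y ≤ (q : ℝ)) :
    mert (A ∪ B) - mert B ≤ A.card * (mert (A ∪ B) / y) := by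
  induction A using Finset.induction_on with
  | empty => simp
  | insert a A ha ih =>
    rw [Finset.disjoint_insert_left] at h
    have ha' : a ∉ A ∪ B := by simp [ha, h.1]
    rw [Finset.insert_union] at hP ⊢
    have hP' : ∀ q ∈ A ∪ B, q.Prime := fun q hq => hP q (Finset.mem_insert_of_mem hq)
    have h1 := ih h.2 hP' fun q hq => hA q (Finset.mem_insert_of_mem hq)
    have h0 := maina_mert_nonneg hP'
    have h2 : (2 : ℝ) ≤ a := by exact_mod_cast (hP a (Finset.mem_insert_self _ _)).two_le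
    have h3 : y ≤ (a : ℝ) := hA a (Finset.mem_insert_self _ _)
    have h4 : mert (insert a (A ∪ B)) = (1 + 1 / ((a : ℝ) - 1)) * mert (A ∪ B) :=
      Finset.prod_insert ha'
    have h5 : (0 : ℝ) < (a : ℝ) - 1 := by linarith
    have h6 : mert (insert a (A ∪ B)) - mert (A ∪ B) = mert (insert a (A ∪ B)) / a := by
      rw [h4]
      field_simp
      ring
    have h7 : 0 ≤ mert (insert a (A ∪ B)) := maina_mert_nonneg hP
    have h8 : mert (insert a (A ∪ B)) / a ≤ mert (insert a (A ∪ B)) / y := by gcongr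
    have h9 : 0 ≤ mert (insert a (A ∪ B)) / a := by positivity
    have h10 : (A.card : ℝ) * (mert (A ∪ B) / y) ≤ A.card * (mert (insert a (A ∪ B)) / y) := by
      have : mert (A ∪ B) ≤ mert (insert a (A ∪ B)) := by linarith
      gcongr
    rw [Finset.card_insert_of_notMem ha]
    push_cast
    linarith

theorem sv_exact {P : Finset ℕ} (hP : ∀ q ∈ P, q.Prime) (z : ℕ → ℝ) {m : ℕ} (hm : 1 ≤ m)
    (hsub : m.primeFactors ⊆ P) :
    sv P z m = ∑ D ∈ m.primeFactors.powerset, (-1) ^ D.card *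
      ∑ T ∈ (P \ m.primeFactors).powerset, z (pr D * pr T) * wt T := by
  unfold sv
  conv_lhs => rw [← Finset.union_sdiff_of_subset hsub]
  rw [sv_union Finset.disjoint_sdiff]
  refine Finset.sum_congr rfl fun D hD => ?_
  rw [Finset.mul_sum]
  refine Finset.sum_congr rfl fun T hT => ?_
  rw [Finset.mem_powerset] at hD hT
  have hd : Disjoint D T := Finset.disjoint_of_subset_left hD
    (Finset.disjoint_of_subset_right hT Finset.disjoint_sdiff)
  have h1 : pr (D ∪ T) = pr D * pr T := Finset.prod_union hd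
  have h2 : ∏ q ∈ D, zl q m = (-1) ^ D.card := by
    rw [← Finset.prod_const]
    exact Finset.prod_congr rfl fun q hq => if_pos (Nat.dvd_of_mem_primeFactors (hD hq))
  have h3 : ∏ q ∈ T, zl q m = wt T := by
    refine Finset.prod_congr rfl fun q hq => if_neg fun hqm => ?_
    obtain ⟨h4, h5⟩ := Finset.mem_sdiff.1 (hT hq)
    exact h5 (Nat.mem_primeFactors.2 ⟨hP q h4, hqm, by omega⟩)
  rw [h1, Finset.prod_union hd, h2, h3]
  ring

theorem sv_alt (F : Finset ℕ) (a b : Finset ℕ → ℝ) {e : ℝ}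
    (h : ∀ D ∈ F.powerset, |a D - b D| ≤ e) :
    |∑ D ∈ F.powerset, (-1) ^ D.card * a D - ∑ D ∈ F.powerset, (-1) ^ D.card * b D| ≤
      2 ^ F.card * e := by
  rw [← Finset.sum_sub_distrib]
  refine (Finset.abs_sum_le_sum_abs _ _).trans ?_
  refine (Finset.sum_le_card_nsmul _ _ e fun D hD => ?_).trans ?_
  · rw [← mul_sub, abs_mul, abs_pow, abs_neg, abs_one, one_pow, one_mul]
    exact h D hD
  · rw [Finset.card_powerset, nsmul_eq_mul]
    push_cast
    exact le_rfl

/-- Exact form. Split `T ⊆ P` into `D = T ∩ m.primeFactors` and `T' = T \ m.primeFactors`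
(`zl = -1` on `D`, `1 / (q - 1)` on `T'`). Then let `T'` run over all subsets of `P`: the sets that
meet `m.primeFactors` have total `wt` at most `∑ q ∣ m, mert P / (q - 1) ≤ om m * 2 mert P / y`. -/
theorem sv_rough {P : Finset ℕ} (hP : ∀ q ∈ P, q.Prime) {z : ℕ → ℝ} (hz : ∀ r, |z r| ≤ 1)
    {y : ℝ} (hy : 0 < y) {m : ℕ} (hm : 1 ≤ m) (hr : Rough y m) (hsub : m.primeFactors ⊆ P) :
    |sv P z m - ∑ D ∈ m.primeFactors.powerset, (-1) ^ D.card *
      ∑ T ∈ P.powerset, z (pr D * pr T) * wt T| ≤ 2 ^ om m * (om m * (2 * mert P / y)) := by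
  rw [sv_exact hP z hm hsub]
  refine sv_alt _ _ _ fun D _ => ?_
  have hs : (P \ m.primeFactors).powerset ⊆ P.powerset :=
    Finset.powerset_mono.2 Finset.sdiff_subset
  have h1 := sv_mert_sub (A := m.primeFactors) (B := P \ m.primeFactors) Finset.disjoint_sdiff
    (by rwa [Finset.union_sdiff_of_subset hsub]) hy
    fun q hq => hr q (Nat.prime_of_mem_primeFactors hq) (Nat.dvd_of_mem_primeFactors hq)
  rw [Finset.union_sdiff_of_subset hsub] at h1
  have h0 := maina_mert_nonneg hP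
  have h2 : (m.primeFactors.card : ℝ) * (mert P / y) ≤ om m * (2 * mert P / y) := by
    unfold om
    have : mert P ≤ 2 * mert P := by linarith
    gcongr
  refine le_trans ?_ (h1.trans h2)
  rw [abs_sub_comm, ← Finset.sum_sdiff_eq_sub hs, ← sv_mert_sum, ← sv_mert_sum,
    ← Finset.sum_sdiff_eq_sub hs]
  refine (Finset.abs_sum_le_sum_abs _ _).trans (Finset.sum_le_sum fun T hT => ?_)
  have hw : 0 ≤ wt T := inner_wt_nonneg fun q hq =>
    hP q (Finset.mem_powerset.1 (Finset.mem_sdiff.1 hT).1 hq)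
  rw [abs_mul, abs_of_nonneg hw]
  exact mul_le_of_le_one_left hw (hz _)

theorem sv_inner (w : ℕ) (hw : 10 ≤ w) : ∃ B : ℝ, 0 ≤ B ∧ ∀ (H : ℝ) (y σ d : ℕ), 1 < H →
    H ^ (σ + 1) ≤ y → 1 ≤ d →
    |∑ T ∈ (PP w y).powerset, cell H σ (d * pr T) * wt T -
      cW w * Real.log H * cs σ (0 + Real.log d / Real.log H)| ≤
        4 / w * (cW w * Real.log H) + B := by
  obtain ⟨B, hB0, hB⟩ := mass w hw
  refine ⟨B, hB0, fun H y σ d hH hy hd => ?_⟩
  have hH0 : 0 < H := by linarith
  have hl : 0 < Real.log H := Real.log_pos hH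
  have hc := cW_pos w
  have hd1 : (1 : ℝ) ≤ d := by exact_mod_cast hd
  have hd0 : (0 : ℝ) < d := by linarith
  have hpr : ∀ T ∈ (PP w y).powerset, (1 : ℝ) ≤ pr T := fun T hT => by
    have : 0 < pr T := pr_pos fun q hq => by
      have h1 := Finset.mem_powerset.1 hT hq
      unfold PP at h1
      rw [Finset.mem_filter, Nat.mem_primesLE] at h1
      exact h1.1.2
    exact_mod_cast this
  have hlog : ∀ n : ℕ, Real.log (H ^ n) = n * Real.log H := fun n => Real.log_pow H n
  rw [zero_add]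
  rcases le_total (H ^ (σ + 1)) (d : ℝ) with h | h
  · have h1 : ∑ T ∈ (PP w y).powerset, cell H σ (d * pr T) * wt T = 0 := by
      refine Finset.sum_eq_zero fun T hT => ?_
      have h2 : H ^ (σ + 1) ≤ ((d * pr T : ℕ) : ℝ) := by
        push_cast
        exact h.trans (le_mul_of_one_le_right hd0.le (hpr T hT))
      unfold cell
      rw [if_neg fun h3 => absurd h3.2 (not_lt.2 h2), zero_mul]
    have h2 : cs σ (Real.log d / Real.log H) = 0 := by
      have h3 := Real.log_le_log (by positivity) h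
      rw [hlog] at h3
      have h4 : (σ : ℝ) + 1 ≤ Real.log d / Real.log H := by
        rw [le_div_iff₀ hl]
        exact_mod_cast h3
      unfold cs
      exact max_eq_left ((min_le_right _ _).trans (by linarith))
    rw [h1, h2, mul_zero, sub_zero, abs_zero]
    positivity
  · have hs : H ^ σ ≤ H ^ (σ + 1) := pow_le_pow_right₀ hH.le (by omega)
    have h1 := hB y (max 1 (H ^ σ / d)) (H ^ (σ + 1) / d) (le_max_left _ _)
      (max_le ((one_le_div hd0).2 h) (by gcongr)) ((div_le_self (by positivity) hd1).trans hy)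
    have h2 : ∑ T ∈ (PP w y).powerset, cell H σ (d * pr T) * wt T =
        ∑ T ∈ (PP w y).powerset.filter (fun T => max 1 (H ^ σ / d) ≤ (pr T : ℝ) ∧
          (pr T : ℝ) < H ^ (σ + 1) / d), wt T := by
      rw [Finset.sum_filter]
      refine Finset.sum_congr rfl fun T hT => ?_
      unfold cell
      rw [ite_mul, one_mul, zero_mul]
      refine if_congr ?_ rfl rfl
      rw [max_le_iff, div_le_iff₀ hd0, lt_div_iff₀ hd0, Nat.cast_mul, mul_comm (d : ℝ)]
      exact ⟨fun h3 => ⟨⟨hpr T hT, h3.1⟩, h3.2⟩, fun h3 => ⟨h3.1.2, h3.2⟩⟩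
    have h3 : Real.log (H ^ (σ + 1) / d / max 1 (H ^ σ / d)) =
        Real.log H * cs σ (Real.log d / Real.log H) := by
      unfold cs
      rcases le_total (H ^ σ) (d : ℝ) with h4 | h4
      · have h5 := Real.log_le_log (by positivity) h4
        have h6 := Real.log_le_log hd0 h
        rw [hlog] at h5 h6
        push_cast at h6
        have h7 : (σ : ℝ) ≤ Real.log d / Real.log H := by rwa [le_div_iff₀ hl]
        have h8 : Real.log d / Real.log H ≤ σ + 1 := by rwa [div_le_iff₀ hl]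
        rw [max_eq_left ((div_le_one hd0).2 h4), div_one, min_eq_right (by linarith),
          max_eq_right (by linarith), Real.log_div (by positivity) hd0.ne', hlog]
        push_cast
        field_simp
      · have h5 := Real.log_le_log hd0 h4
        rw [hlog] at h5
        have h7 : Real.log d / Real.log H ≤ σ := by rwa [div_le_iff₀ hl]
        rw [max_eq_right ((one_le_div hd0).2 h4), min_eq_left (by linarith),
          max_eq_right zero_le_one, mul_one]
        congr 1
        rw [pow_succ]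
        field_simp
    rw [h3, ← mul_assoc] at h1
    rw [h2]
    refine h1.trans ?_
    have h4 : cW w * Real.log H * cs σ (Real.log d / Real.log H) ≤ cW w * Real.log H :=
      mul_le_of_le_one_right (by positivity) (cs_le_one _ _)
    gcongr

/-- `sv_rough`; for `d = pr D` the inner sum is the mass of `max 1 (H ^ σ / d) ≤ pr T <
H ^ (σ + 1) / d` (empty if `d > H ^ (σ + 1)`), which is `L * cs σ (log d / log H)` up to
`4 L / w + B` (`mass`). `om_le`, `ev_size`; `mert / H ^ η ≤ C L / H ^ η`. -/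
theorem sv_phi {ν θ : ℝ} {T1 T2 M : ℕ} (hr : Rng ν θ T1 T2 M) {ε η : ℝ} (hε : 0 < ε)
    (hη : 0 < η) :
    Ev θ fun E => ∀ (σ m : ℕ), σ < M → 1 ≤ m → m ≤ 3 * E.x → Rough (E.H ν ^ η) m →
      |sv E.P (cell (E.H ν) σ) m - E.L ν * Phi (E.H ν) σ 0 m| ≤ ε * E.L ν := by
  choose! B hB0 hB using sv_inner
  obtain ⟨C, hC, hsz⟩ := ev_size (θ := θ) hr.pos
  set K : ℕ := ⌈2 * ν / η⌉₊ with hK
  obtain ⟨w1, hw1⟩ := exists_nat_ge (2 * (2 ^ K * (K * (2 * C) + 4)) / ε)
  refine ((hsz (fun w => 2 * (2 ^ K * B w) / ε) hη).and (maina_ev_w θ w1)).mono ?_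
  rintro E hG - ⟨⟨h1, h2, -, h4, h5, h6⟩, h7⟩ σ m hσ hm hm3 hro
  have hw10 := hG.w10
  have hw0 : (0 : ℝ) < E.w := by exact_mod_cast (by omega : 0 < E.w)
  have hw1' : (w1 : ℝ) ≤ E.w := by exact_mod_cast h7
  have hH : 1 < E.H ν := by linarith
  have hlog : 0 < Real.log (E.H ν) := Real.log_pos hH
  have hL : 0 < E.L ν := mul_pos (cW_pos _) hlog
  have hP : ∀ q ∈ E.P, q.Prime := fun q hq => (maina_mem_P hq).1
  have hsub : m.primeFactors ⊆ E.P := by
    intro q hq
    have hq1 := Nat.prime_of_mem_primeFactors hq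
    have hq2 := Nat.dvd_of_mem_primeFactors hq
    have hq3 : (E.w : ℝ) < q := h4.trans_le (hro q hq1 hq2)
    unfold Env.P PP
    rw [Finset.mem_filter, Nat.mem_primesLE]
    exact ⟨⟨(Nat.le_of_dvd hm hq2).trans hm3, hq1⟩, by exact_mod_cast hq3⟩
  have hom : om m ≤ K := om_le hr.pos hη hH h6 (by exact_mod_cast (by
    have := hG.wx
    omega : 3 ≤ E.x)) hm (by exact_mod_cast hm3) hro
  have e1 := sv_rough hP (z := cell (E.H ν) σ) (fun r => (k1_supp_cell _ σ r).1)
    (hw0.trans h4) hm hro hsub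
  have hy : E.H ν ^ (σ + 1) ≤ ((3 * E.x : ℕ) : ℝ) :=
    (pow_le_pow_right₀ hH.le hσ).trans (maina_pow_le hr h5 h6)
  have e2 := sv_alt m.primeFactors
    (fun D => ∑ T ∈ E.P.powerset, cell (E.H ν) σ (pr D * pr T) * wt T)
    (fun D => E.L ν * cs σ (0 + Real.log (pr D) / Real.log (E.H ν)))
    (e := 4 / E.w * E.L ν + B E.w) fun D hD =>
      hB E.w hw10 (E.H ν) (3 * E.x) σ (pr D) hH hy
        (pr_pos fun q hq => Nat.prime_of_mem_primeFactors (Finset.mem_powerset.1 hD hq))
  have e3 : E.L ν * Phi (E.H ν) σ 0 m = ∑ D ∈ m.primeFactors.powerset, (-1) ^ D.card *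
      (E.L ν * cs σ (0 + Real.log (pr D) / Real.log (E.H ν))) := by
    unfold Phi
    rw [Finset.mul_sum]
    exact Finset.sum_congr rfl fun D _ => by ring
  rw [e3]
  refine (abs_sub_le _ _ _).trans ((add_le_add e1 e2).trans ?_)
  have hm0 := maina_mert_nonneg hP
  have hBw := hB0 E.w hw10
  have hom' : (om m : ℝ) ≤ K := by exact_mod_cast hom
  have h2K : (2 : ℝ) ^ om m ≤ 2 ^ K := pow_le_pow_right₀ one_le_two hom
  have e4 : 2 * mert E.P / E.H ν ^ η ≤ 2 * (C * E.L ν) / E.w := by gcongr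
  have e5 : (2 : ℝ) ^ om m * (om m * (2 * mert E.P / E.H ν ^ η)) ≤
      2 ^ K * (K * (2 * (C * E.L ν) / E.w)) := by
    have : 0 < E.H ν ^ η := hw0.trans h4
    gcongr
  have e6 : (2 : ℝ) ^ m.primeFactors.card * (4 / E.w * E.L ν + B E.w) ≤
      2 ^ K * (4 / E.w * E.L ν + B E.w) := mul_le_mul_of_nonneg_right h2K (by positivity)
  have e7 : 2 ^ K * (K * (2 * C) + 4) / E.w ≤ ε / 2 := by
    have := hw1.trans hw1'
    rw [div_le_iff₀ hε] at this
    rw [div_le_iff₀ hw0]
    linarith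
  have e8 : 2 ^ K * B E.w ≤ ε / 2 * E.L ν := by
    have := h2
    rw [div_le_iff₀ hε] at this
    linarith
  have e9 : (2 : ℝ) ^ K * (K * (2 * (C * E.L ν) / E.w)) + 2 ^ K * (4 / E.w * E.L ν + B E.w) =
      2 ^ K * (K * (2 * C) + 4) / E.w * E.L ν + 2 ^ K * B E.w := by ring
  have e10 := mul_le_mul_of_nonneg_right e7 hL.le
  linarith

end Pool.Agent.Lib.MP_c03ca8_nt.P3
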