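import Pool.Agent.Lib.MP_c03ca8_nt.P3.Rb
import Pool.Agent.Lib.MP_c03ca8_nt.P3.Sv

set_option autoImplicit false

noncomputable section

namespace Pool.Agent.Lib.MP_c03ca8_nt.P3

open Finset Real Pool.Agent.Lib.MP_c03ca8_nt.Q

theorem sumc_abs_sum {M : ℕ} (G f : ℕ → ℝ) {b : ℝ} (h : ∀ σ, σ < M → |f σ| ≤ b) :
    |∑ σ ∈ range M, G σ * f σ| ≤ (∑ σ ∈ range M, |G σ|) * b := by
  refine (Finset.abs_sum_le_sum_abs _ _).trans ?_
  rw [Finset.sum_mul]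
  refine Finset.sum_le_sum fun σ hσ => ?_
  rw [abs_mul]
  exact mul_le_mul_of_nonneg_left (h σ (mem_range.1 hσ)) (abs_nonneg _)

theorem sumc_dl {M : ℕ} (G : ℕ → ℝ) :
    ∑ σ ∈ range M, G σ * ∑ σ' ∈ range M, G σ' * dl σ σ' = ∑ σ ∈ range M, G σ ^ 2 := by
  refine Finset.sum_congr rfl fun σ hσ => ?_
  have : ∑ σ' ∈ range M, G σ' * dl σ σ' = G σ := by
    rw [Finset.sum_eq_single σ]
    · simp [dl]
    · intro b _ hb
      simp [dl, Ne.symm hb]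
    · intro h
      exact absurd hσ h
  rw [this, sq]

/-- The square of a row. -/
theorem sumc_sq {M : ℕ} (G : ℕ → ℝ) (I : Finset ℕ) (f : ℕ → ℕ → ℝ) {c e : ℝ}
    (h : ∀ σ σ', σ < M → σ' < M → |∑ n ∈ I, f σ n * f σ' n - c * dl σ σ'| ≤ e) :
    ∑ n ∈ I, (∑ σ ∈ range M, G σ * f σ n) ^ 2 ≤
      (∑ σ ∈ range M, G σ ^ 2) * c + (∑ σ ∈ range M, |G σ|) ^ 2 * e := by
  have e1 : ∑ n ∈ I, (∑ σ ∈ range M, G σ * f σ n) ^ 2 =
      ∑ σ ∈ range M, G σ * ∑ σ' ∈ range M, G σ' * ∑ n ∈ I, f σ n * f σ' n := by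
    simp only [sq, Finset.sum_mul_sum]
    simp only [Finset.mul_sum]
    rw [Finset.sum_comm]
    refine Finset.sum_congr rfl fun σ _ => ?_
    rw [Finset.sum_comm]
    refine Finset.sum_congr rfl fun σ' _ => Finset.sum_congr rfl fun n _ => by ring
  have e2 : ∑ σ ∈ range M, G σ * ∑ σ' ∈ range M, G σ' * ∑ n ∈ I, f σ n * f σ' n =
      (∑ σ ∈ range M, G σ * ∑ σ' ∈ range M, G σ' * dl σ σ') * c +
        ∑ σ ∈ range M, G σ * ∑ σ' ∈ range M, G σ' *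
          (∑ n ∈ I, f σ n * f σ' n - c * dl σ σ') := by
    rw [Finset.sum_mul, ← Finset.sum_add_distrib]
    refine Finset.sum_congr rfl fun σ _ => ?_
    rw [mul_assoc, ← mul_add, Finset.sum_mul, ← Finset.sum_add_distrib]
    congr 1
    exact Finset.sum_congr rfl fun σ' _ => by ring
  rw [e1, e2, sumc_dl]
  have e3 := sumc_abs_sum (M := M) G (fun σ => ∑ σ' ∈ range M, G σ' *
    (∑ n ∈ I, f σ n * f σ' n - c * dl σ σ')) (b := (∑ σ ∈ range M, |G σ|) * e)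
    (fun σ hσ => sumc_abs_sum G _ fun σ' hσ' => h σ σ' hσ hσ')
  have e4 := (le_abs_self _).trans e3
  rw [sq, mul_assoc]
  linarith

theorem sumc_alg {s L F a d : ℝ} (hL : 0 ≤ L) (hF : |F| ≤ a) (hd : |s - L * F| ≤ d * L) :
    L ^ 2 * F ^ 2 ≤ s ^ 2 + 2 * a * d * L ^ 2 := by
  have h1 : L * F * (L * F - s) ≤ L * a * (d * L) := by
    refine (le_abs_self _).trans ?_
    rw [abs_mul, abs_mul, abs_of_nonneg hL, abs_sub_comm]
    exact mul_le_mul (mul_le_mul_of_nonneg_left hF hL) hd (abs_nonneg _)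
      (mul_nonneg hL ((abs_nonneg _).trans hF))
  nlinarith [sq_nonneg (L * F - s)]

open Classical in
/-- The bound at one integer. -/
theorem sumc_pt {M m : ℕ} (G : ℕ → ℝ) (f : ℕ → ℝ) {H H2 y L ν κ : ℝ} (hν : 0 < ν) (hκ : 0 < κ)
    (hL : 0 ≤ L) (hH : 1 < H) (hy : 1 < y) (hyH : y ≤ H2) (hm : 1 ≤ m)
    (hlog : Real.log m / Real.log H ≤ 2 * ν) (hb : |Real.log H / Real.log H2 - 1| ≤ κ)
    (hf : Rough y m → ∀ σ, σ < M → |f σ - L * Phi H σ 0 m| ≤ 16 * ν * κ * L) :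
    uu y m * (∑ σ ∈ range M, G σ * f σ) ^ 2 + L ^ 2 * (r3 H2 m * PhG H2 M G 0 m ^ 2) ≤
      (∑ σ ∈ range M, G σ * f σ) ^ 2 +
        (if Rough y m then 512 * ν * κ * (∑ σ ∈ range M, |G σ|) ^ 2 * L ^ 2 else 0) := by
  set s := ∑ σ ∈ range M, G σ * f σ with hs
  set S := ∑ σ ∈ range M, |G σ| with hS
  have hS0 : 0 ≤ S := Finset.sum_nonneg fun _ _ => abs_nonneg _
  by_cases h3 : Squarefree m ∧ Rough H2 m ∧ om m ≤ 3
  · have hr : Rough y m := h3.2.1.mono hyH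
    have hu : uu y m = 0 := by
      unfold uu
      rw [if_neg]
      rintro ⟨-, -, h4⟩
      have := h3.2.2
      omega
    have hr3 : r3 H2 m = 1 := by
      unfold r3
      rw [if_pos h3]
    have h8 : (2 : ℝ) ^ om m ≤ 8 := by
      calc (2 : ℝ) ^ om m ≤ 2 ^ 3 := pow_le_pow_right₀ (by norm_num) h3.2.2
        _ = 8 := by norm_num
    have hF : |PhG H2 M G 0 m| ≤ S * 8 :=
      sumc_abs_sum G _ fun σ _ => (abs_Phi_le H2 σ 0 m).trans h8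
    have hlog0 : 0 ≤ Real.log m / Real.log H :=
      div_nonneg (Real.log_natCast_nonneg m) (Real.log_nonneg hH.le)
    have hd : |s - L * PhG H2 M G 0 m| ≤ S * (32 * ν * κ) * L := by
      have e : s - L * PhG H2 M G 0 m =
          ∑ σ ∈ range M, G σ * (f σ - L * Phi H2 σ 0 m) := by
        rw [hs, PhG, Finset.mul_sum, ← Finset.sum_sub_distrib]
        exact Finset.sum_congr rfl fun σ _ => by ring
      rw [e, mul_assoc]
      refine sumc_abs_sum G _ fun σ hσ => ?_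
      have b1 := hf hr σ hσ
      have b2 : |Phi H σ 0 m - Phi H2 σ 0 m| ≤ 8 * (2 * ν * κ) := by
        refine (Phi_base hH (hy.trans_le hyH) σ hm).trans ?_
        refine mul_le_mul h8 (mul_le_mul hlog hb (abs_nonneg _) (by positivity))
          (mul_nonneg hlog0 (abs_nonneg _)) (by norm_num)
      have b3 : |L * (Phi H σ 0 m - Phi H2 σ 0 m)| ≤ L * (8 * (2 * ν * κ)) := by
        rw [abs_mul, abs_of_nonneg hL]
        exact mul_le_mul_of_nonneg_left b2 hL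
      calc |f σ - L * Phi H2 σ 0 m|
          = |(f σ - L * Phi H σ 0 m) + L * (Phi H σ 0 m - Phi H2 σ 0 m)| := by
            congr 1; ring
        _ ≤ 16 * ν * κ * L + L * (8 * (2 * ν * κ)) := (abs_add_le _ _).trans (add_le_add b1 b3)
        _ = 32 * ν * κ * L := by ring
    rw [hu, hr3, if_pos hr, zero_mul, zero_add, one_mul]
    calc L ^ 2 * PhG H2 M G 0 m ^ 2 ≤ s ^ 2 + 2 * (S * 8) * (S * (32 * ν * κ)) * L ^ 2 :=
          sumc_alg hL hF hd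
      _ = _ := by ring
  · have hr3 : r3 H2 m = 0 := by
      unfold r3
      rw [if_neg h3]
    have h1 : uu y m * s ^ 2 ≤ s ^ 2 := mul_le_of_le_one_left (sq_nonneg _) (uu_mem y m).2
    have h2 : (0 : ℝ) ≤ if Rough y m then 512 * ν * κ * S ^ 2 * L ^ 2 else 0 := by
      split_ifs
      · positivity
      · exact le_rfl
    rw [hr3, zero_mul, mul_zero, add_zero]
    linarith

theorem sumc_mem {E : Env} (hg : E.Good) (i : Fin 4) {n : ℕ} (hn : n ∈ E.I) :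
    1 ≤ n + E.h i ∧ n + E.h i ≤ 3 * E.x := by
  have h1 := mem_Ioc.1 (mem_filter.1 hn).1
  have h2 := hg.hlt i
  have h3 := hg.wx
  have h4 := hg.Xx
  omega

theorem sumc_log {ν H : ℝ} {x m : ℕ} (hH : 1 < H) (hx : H ^ ν = x) (h3 : 3 ≤ x) (hm : 1 ≤ m)
    (hm3 : m ≤ 3 * x) : Real.log m / Real.log H ≤ 2 * ν := by
  have hl : 0 < Real.log H := Real.log_pos hH
  rw [div_le_iff₀ hl]
  have h1 : (m : ℝ) ≤ (x : ℝ) ^ 2 := by
    have : m ≤ x ^ 2 := by nlinarith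
    exact_mod_cast this
  have h2 : Real.log m ≤ Real.log ((x : ℝ) ^ 2) :=
    Real.log_le_log (by exact_mod_cast hm) h1
  rw [Real.log_pow, ← hx, Real.log_rpow (by linarith)] at h2
  push_cast at h2
  linarith

/-- `uu (H ^ η) m + r3 H2 m ≤ 1`, so with `s = ∑ σ, G σ * sv σ` the sum of `(uu + r3) s ^ 2` is
at most `∑ s ^ 2 ≤ (∑ G ^ 2 + ε) X / W L` (`or_ev`). Where `r3 ≠ 0`, `m` is `H ^ η` rough with
at most three primes, `|s - L PhG H2| ≤ ε' L` (`sv_phi`, `Phi_base`, `log m / log H ≤ 2 ν`),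
`|PhG| ≤ 8 ∑ |G|`; the number of such `n` is bounded by the first part of `rb`. -/
theorem sum_row {ν θ : ℝ} {T1 T2 M : ℕ} (hr : Rng ν θ T1 T2 M) (h2 : 2 * M ≤ T1) (G : ℕ → ℝ)
    {ε η : ℝ} (hε : 0 < ε) (hη : 0 < η) (hη1 : η < 1) : ∃ κ : ℝ, 0 < κ ∧ Ev θ fun E =>
      ∀ (i : Fin 4) (H2 : ℝ), E.H ν ^ η ≤ H2 → |Real.log (E.H ν) / Real.log H2 - 1| ≤ κ →
      ∑ n ∈ E.I, uu (E.H ν ^ η) (n + E.h i) *
          (∑ σ ∈ range M, G σ * sv E.P (cell (E.H ν) σ) (n + E.h i)) ^ 2 +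
        E.L ν ^ 2 * ∑ n ∈ E.I, r3 H2 (n + E.h i) * PhG H2 M G 0 (n + E.h i) ^ 2 ≤
        (∑ σ ∈ range M, G σ ^ 2 + ε) * (E.X / E.W * E.L ν) := by
  classical
  have hν := hr.pos
  have hM := hr.one_le
  obtain ⟨C, hC, hrb⟩ := rb hr (by omega) hη hη1
  obtain ⟨C', -, hsz⟩ := ev_size (θ := θ) hν
  set S := ∑ σ ∈ range M, |G σ| with hS
  have hS1 : 0 < S ^ 2 + 1 := by positivity
  set κ := ε / (1024 * ν * C * (S ^ 2 + 1)) with hκd
  have hκ : 0 < κ := by positivity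
  refine ⟨κ, hκ, ?_⟩
  have hor := or_ev hr h2 (ε := ε / (2 * (S ^ 2 + 1))) (by positivity)
  have hsv := sv_phi hr (ε := 16 * ν * κ) (by positivity) hη
  refine (((hrb.and hor).and hsv).and (hsz (fun _ => 1) hη)).mono ?_
  rintro E hg - ⟨⟨⟨h1, h3⟩, h4⟩, -, hL1, -, -, hH2, hHx⟩ i H2 hyH hb
  have hL : 0 < E.L ν := by linarith
  have hH : 1 < E.H ν := by linarith
  have hy : 1 < E.H ν ^ η := Real.one_lt_rpow hH hη
  have hx3 : 3 ≤ E.x := by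
    have := hg.w10
    have := hg.wx
    omega
  have hc := asym_c E
  set c : ℝ := E.X / E.W with hcd
  have hpt : ∀ n ∈ E.I, uu (E.H ν ^ η) (n + E.h i) *
      (∑ σ ∈ range M, G σ * sv E.P (cell (E.H ν) σ) (n + E.h i)) ^ 2 +
      E.L ν ^ 2 * (r3 H2 (n + E.h i) * PhG H2 M G 0 (n + E.h i) ^ 2) ≤
      (∑ σ ∈ range M, G σ * sv E.P (cell (E.H ν) σ) (n + E.h i)) ^ 2 +
        (if Rough (E.H ν ^ η) (n + E.h i) then 512 * ν * κ * S ^ 2 * E.L ν ^ 2 else 0) := by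
    intro n hn
    obtain ⟨m1, m3⟩ := sumc_mem hg i hn
    exact sumc_pt G (fun σ => sv E.P (cell (E.H ν) σ) (n + E.h i)) hν hκ hL.le hH hy hyH m1
      (sumc_log hH hHx hx3 m1 m3) hb fun hro σ hσ => h4 σ _ hσ m1 m3 hro
  have hsum := Finset.sum_le_sum hpt
  rw [Finset.sum_add_distrib, Finset.sum_add_distrib, ← Finset.mul_sum] at hsum
  refine hsum.trans ?_
  have b1 := sumc_sq G E.I (fun σ n => sv E.P (cell (E.H ν) σ) (n + E.h i))
    (fun σ σ' hσ hσ' => h3 i σ σ' hσ hσ')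
  have b2 : ∑ n ∈ E.I, (if Rough (E.H ν ^ η) (n + E.h i) then
      512 * ν * κ * S ^ 2 * E.L ν ^ 2 else 0) =
      ((rgh E (E.H ν ^ η) i).card : ℝ) * (512 * ν * κ * S ^ 2 * E.L ν ^ 2) := by
    rw [← Finset.sum_filter, Finset.sum_const, nsmul_eq_mul]
    rfl
  have b3 : ((rgh E (E.H ν ^ η) i).card : ℝ) * (512 * ν * κ * S ^ 2 * E.L ν ^ 2) ≤
      C * (c / E.L ν) * (512 * ν * κ * S ^ 2 * E.L ν ^ 2) :=
    mul_le_mul_of_nonneg_right (h1 i).1 (by positivity)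
  have hcL : 0 ≤ c * E.L ν := mul_nonneg hc hL.le
  have hq : S ^ 2 / (S ^ 2 + 1) ≤ 1 := by
    rw [div_le_one hS1]
    linarith
  have b4 : C * (c / E.L ν) * (512 * ν * κ * S ^ 2 * E.L ν ^ 2) =
      S ^ 2 / (S ^ 2 + 1) * (ε / 2 * (c * E.L ν)) := by
    rw [hκd]
    field_simp
    ring
  have b5 : S ^ 2 * (ε / (2 * (S ^ 2 + 1)) * (c * E.L ν)) =
      S ^ 2 / (S ^ 2 + 1) * (ε / 2 * (c * E.L ν)) := by
    field_simp
  have b6 : S ^ 2 / (S ^ 2 + 1) * (ε / 2 * (c * E.L ν)) ≤ ε / 2 * (c * E.L ν) :=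
    mul_le_of_le_one_left (by positivity) hq
  rw [b2]
  rw [← hS, b5] at b1
  rw [b4] at b3
  linarith

end Pool.Agent.Lib.MP_c03ca8_nt.P3
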