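import Pool.Agent.Lib.MP_c03ca8_nt.P3.Pt
import Pool.Agent.Lib.MP_c03ca8_nt.P3.SumA
import Pool.Agent.Lib.MP_c03ca8_nt.P3.SumB
import Pool.Agent.Lib.MP_c03ca8_nt.P3.SumC

set_option autoImplicit false

noncomputable section

namespace Pool.Agent.Lib.MP_c03ca8_nt.P3

open Finset Real Pool.Agent.Lib.MP_c03ca8_nt.Q

/-- On `gd` every `sv` is at most `9 L` (`sv_phi` with `ε = 1`, `abs_Phi_le`, `om ≤ Ω ≤ 3`). -/
theorem gd_bound (c : Cert) {θ : ℝ} (hr : Rng c.nu θ c.T1 c.T2 c.M) : ∃ C : ℝ, 0 < C ∧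
    ∀ {η : ℝ}, 0 < η → Ev θ fun E => ∀ n ∈ gd E.h (E.H c.nu ^ η) E.I,
      (∑ j ∈ c.J, bb c E n j) ^ 2 ≤ C * E.L c.nu ^ 8 := by
  refine ⟨(∑ j ∈ c.J, |c.F j| * 9 ^ 4) ^ 2 + 1, by positivity, fun {η} hη => ?_⟩
  refine ((sv_phi hr one_pos hη).and (ev_tame hr.pos one_pos one_pos 0)).mono ?_
  rintro E hE - ⟨h1, G, -, -, hL, -⟩ n hn
  classical
  obtain ⟨hI, hg⟩ := mem_filter.1 hn
  have hL0 : 0 ≤ E.L c.nu := by linarith
  have key : ∀ j ∈ c.J, |bb c E n j| ≤ |c.F j| * 9 ^ 4 * E.L c.nu ^ 4 := by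
    intro j hj
    have hj' := Fintype.mem_piFinset.1 (mem_filter.1 hj).1
    have h2 : ∀ l, |sv E.P (cell (E.H c.nu) (j l)) (n + E.h l)| ≤ 9 * E.L c.nu := by
      intro l
      have hm := erra_memI hE hI l
      have h3 := h1 (j l) (n + E.h l) (mem_range.1 (hj' l)) hm.2.1 hm.2.2 (hg l).1
      have h4 : om (n + E.h l) ≤ 3 := by
        refine le_trans ?_ (hg l).2
        rw [ArithmeticFunction.cardFactors_apply]
        exact List.toFinset_card_le _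
      have h5 : |Phi (E.H c.nu) (j l) 0 (n + E.h l)| ≤ 8 :=
        (abs_Phi_le _ _ _ _).trans ((pow_le_pow_right₀ one_le_two h4).trans_eq (by norm_num))
      have h6 : |E.L c.nu * Phi (E.H c.nu) (j l) 0 (n + E.h l)| ≤ E.L c.nu * 8 := by
        rw [abs_mul, abs_of_nonneg hL0]
        exact mul_le_mul_of_nonneg_left h5 hL0
      rw [abs_le] at h3 h6 ⊢
      constructor <;> linarith [h3.1, h3.2, h6.1, h6.2]
    rw [bb, abs_mul, abs_prod, mul_assoc, ← mul_pow]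
    refine mul_le_mul_of_nonneg_left ?_ (abs_nonneg _)
    refine (prod_le_prod (fun l _ => abs_nonneg _) fun l _ => h2 l).trans_eq ?_
    rw [prod_const, card_univ, Fintype.card_fin]
  have h7 : |∑ j ∈ c.J, bb c E n j| ≤ (∑ j ∈ c.J, |c.F j| * 9 ^ 4) * E.L c.nu ^ 4 := by
    rw [sum_mul]
    exact (abs_sum_le_sum_abs _ _).trans (sum_le_sum key)
  have h8 := pow_le_pow_left₀ (abs_nonneg _) h7 2
  rw [sq_abs, mul_pow, ← pow_mul] at h8
  refine h8.trans (mul_le_mul_of_nonneg_right (by linarith) (by positivity))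

theorem sums_kv (c : Cert) (k : Ker) : Kv c k.Pk + Kv c k.Mk = c.Ival + Kv c k.Nk := by
  rw [← Kv_one]
  unfold Kv
  rw [← sum_add_distrib, ← sum_add_distrib]
  refine sum_congr rfl fun β _ => ?_
  unfold Ker.Mk
  ring

theorem sums_rho (c : Cert) (k : Ker) (H : ℝ) (I : Finset ℕ) (u : ℕ) :
    ∑ n ∈ I, rho c k H (n + u) = ∑ β ∈ range (c.U + 1), c.Mb β * (k.Mk β β *
      ∑ n ∈ I, r3 H (n + u) * PhG H c.M (c.Gf β) 0 (n + u) ^ 2) := by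
  unfold rho
  simp only [mul_sum]
  rw [sum_comm]
  exact sum_congr rfl fun β _ => sum_congr rfl fun n _ => by ring

/-- Sum `point3` over `E.I` (on `gd` use `point3_nonneg` and `gd_bound`); `sum_form` for the
kernels `1` and `Pk`, `sum_junk`, `sum_u`, `sum_row` for all rows (`ev1_all`, the least `κ`),
`Pk + Mk = 1 + Nk`, `Sc = X / W * L ^ 4`, `1 ≤ L` (`ev_tame`). Divide by `L ^ 5`. -/
theorem sums3 (c : Cert) (k : Ker) (hv : k.Valid c) {θ : ℝ} (hr : Rng c.nu θ c.T1 c.T2 c.M)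
    (hθ : θ < 1) {ε : ℝ} (hε : 0 < ε) : ∃ η κ C : ℝ, 0 < η ∧ η < 1 ∧ 0 < κ ∧ 0 < C ∧ Ev1 fun E =>
      ∀ H2 : ℝ, E.H c.nu ^ η ≤ H2 → |Real.log (E.H c.nu) / Real.log H2 - 1| ≤ κ →
      ∑ i, ∑ n ∈ E.I, rho c k H2 (n + E.h i) ≤
        (3 * c.Ival + 4 * Kv c k.Nk + ε) * (E.X / E.W / E.L c.nu) +
          C * E.L c.nu ^ 3 * (gd E.h (E.H c.nu ^ η) E.I).card := by
  have hMM : ∀ β ∈ range (c.U + 1), 0 ≤ c.Mb β * k.Mk β β := fun β hβ =>
    mul_nonneg (Mb_nonneg c β) (hv.pos β (Nat.lt_succ_iff.1 (mem_range.1 hβ)))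
  obtain ⟨A, hA⟩ : ∃ A, A = ∑ β ∈ range (c.U + 1), c.Mb β * k.Mk β β := ⟨_, rfl⟩
  have hA0 : 0 ≤ A := hA ▸ sum_nonneg hMM
  obtain ⟨e, he, hee⟩ : ∃ e : ℝ, 0 < e ∧ e * (13 + 4 * A) = ε :=
    ⟨ε / (13 + 4 * A), by positivity, div_mul_cancel₀ _ (by positivity)⟩
  obtain ⟨η, hη, hη1, hj⟩ := sum_junk c hv.lev hr he
  obtain ⟨C, hC, hb⟩ := gd_bound c hr
  choose κ hκ hrow using fun β => sum_row hr hv.two (c.Gf β) he hη hη1
  have hne : (range (c.U + 1)).Nonempty := ⟨0, by simp⟩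
  obtain ⟨β₀, -, hβ₀⟩ := exists_min_image (range (c.U + 1)) κ hne
  refine ⟨η, κ β₀, C, hη, hη1, hκ β₀, hC, ?_⟩
  refine (((ev1_of hθ (((((sum_form c hv.lev hr (fun _ _ => 1) he).and
    (sum_form c hv.lev hr k.Pk he)).and hj).and (hb hη)).and
    (ev_tame hr.pos one_pos one_pos 0))).and (sum_u c k hv hr hθ he hη hη1)).and
    (ev1_all (range (c.U + 1)) fun β _ => ev1_of hθ (hrow β))).mono ?_
  rintro E hE ⟨⟨⟨⟨⟨⟨h1, h2⟩, h3⟩, h4⟩, G, -, -, hL, -⟩, h5⟩, h6⟩ H2 hH hk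
  classical
  have hL0 : 0 < E.L c.nu := by linarith
  have hsub : gd E.h (E.H c.nu ^ η) E.I ⊆ E.I := filter_subset _ _
  have s0 : ∑ n ∈ E.I, (if n ∈ gd E.h (E.H c.nu ^ η) E.I then C * E.L c.nu ^ 8 else 0) =
      C * E.L c.nu ^ 8 * (gd E.h (E.H c.nu ^ η) E.I).card := by
    rw [sum_ite_mem, inter_eq_right.2 hsub, sum_const, nsmul_eq_mul, mul_comm]
  have s1 : ∑ n ∈ E.I, (∑ j ∈ c.J, bb c E n j) ^ 2 ≤ ∑ n ∈ E.I,
      ((∑ i, (Fm c i k.Pk (bb c E n) + uu (E.H c.nu ^ η) (n + E.h i) * Fm c i k.Mk (bb c E n)) +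
      ∑ i, (∑ p ∈ E.tiny c.nu η, ind p (n + E.h i) + if n ∈ E.sq c.nu η i then 1 else 0) *
        (∑ j ∈ c.J, bb c E n j) ^ 2) +
      if n ∈ gd E.h (E.H c.nu ^ η) E.I then C * E.L c.nu ^ 8 else 0) := by
    refine sum_le_sum fun n hn => ?_
    by_cases hg : n ∈ gd E.h (E.H c.nu ^ η) E.I
    · rw [if_pos hg]
      linarith [point3_nonneg c k hv E η n, h4 n hg]
    · rw [if_neg hg, add_zero]
      exact point3 c k hv E hE hn hg
  rw [sum_add_distrib, s0, sum_add_distrib, sum_comm, sum_comm (s := E.I)] at s1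
  have s2 : ∀ i, ∑ n ∈ E.I,
      (Fm c i k.Pk (bb c E n) + uu (E.H c.nu ^ η) (n + E.h i) * Fm c i k.Mk (bb c E n)) ≤
      (Kv c k.Pk + Kv c k.Mk + e * (2 + A)) * E.Sc c.nu -
        E.L c.nu ^ 5 * ∑ n ∈ E.I, rho c k H2 (n + E.h i) := by
    intro i
    have t1 := (abs_le.1 (h2 i)).2
    have t2 := (abs_le.1 (h5 i)).2
    have t3 : E.L c.nu ^ 3 * ∑ β ∈ range (c.U + 1), c.Mb β * (k.Mk β β *
          ∑ n ∈ E.I, uu (E.H c.nu ^ η) (n + E.h i) *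
            (∑ σ ∈ range c.M, c.Gf β σ * sv E.P (cell (E.H c.nu) σ) (n + E.h i)) ^ 2) +
        E.L c.nu ^ 5 * ∑ n ∈ E.I, rho c k H2 (n + E.h i) ≤ (Kv c k.Mk + e * A) * E.Sc c.nu := by
      rw [sums_rho, hA, Kv, mul_sum, mul_sum, mul_sum _ _ e, ← sum_add_distrib, ← sum_add_distrib,
        sum_mul]
      refine sum_le_sum fun β hβ => ?_
      have t4 := mul_le_mul_of_nonneg_left (h6 β hβ i H2 hH (hk.trans (hβ₀ β hβ)))
        (mul_nonneg (pow_pos hL0 3).le (hMM β hβ))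
      unfold Env.Sc rI
      linarith
    rw [sum_add_distrib]
    linarith
  have s3 := sum_le_sum fun i (_ : i ∈ (univ : Finset (Fin 4))) => s2 i
  have s4 := sum_le_sum fun i (_ : i ∈ (univ : Finset (Fin 4))) => h3 i
  have s5 := (abs_le.1 (h1 0)).1
  simp only [Fm_one, Kv_one] at s5
  rw [sum_sub_distrib, ← mul_sum, ← mul_sum, sums_kv] at s3
  rw [sum_const, card_univ, Fintype.card_fin, nsmul_eq_mul, Nat.cast_ofNat] at s3 s4
  refine le_of_mul_le_mul_left ?_ (pow_pos hL0 5)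
  have s6 : E.L c.nu ^ 5 * ((3 * c.Ival + 4 * Kv c k.Nk + ε) * (E.X / E.W / E.L c.nu) +
      C * E.L c.nu ^ 3 * (gd E.h (E.H c.nu ^ η) E.I).card) =
      (3 * c.Ival + 4 * Kv c k.Nk + e * (13 + 4 * A)) * E.Sc c.nu +
        C * E.L c.nu ^ 8 * (gd E.h (E.H c.nu ^ η) E.I).card := by
    rw [hee]
    unfold Env.Sc
    generalize (E.X : ℝ) / E.W = z
    field_simp
  rw [s6]
  linarith

end Pool.Agent.Lib.MP_c03ca8_nt.P3
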