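import Pool.Agent.Lib.MP_c03ca8_nt.P3.Bt
import Pool.Agent.Lib.MP_c03ca8_nt.P3.Sv
import Pool.Agent.Lib.MP_c03ca8_nt.P3.Ram

set_option autoImplicit false

noncomputable section

namespace Pool.Agent.Lib.MP_c03ca8_nt.P3

open Finset Real Pool.Agent.Lib.MP_c03ca8_nt.Q

theorem t2_range {E : Env} (hE : E.Good) (i : Fin 4) {n : ℕ} (hn : n ∈ E.I) :
    1 ≤ n + E.h i ∧ n + E.h i ≤ 3 * E.x := by
  have h1 := hE.hlt i
  have h2 := hE.wx
  have h3 := hE.Xx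
  simp only [Env.I, cls, mem_filter, mem_Ioc] at hn
  omega

theorem t2_c0 (E : Env) (ν : ℝ) (jj : Slot → ℕ) (i : Fin 4) (hL : 0 ≤ E.L ν) :
    |c0 E ν jj i| ≤ E.L ν ^ 3 := by
  unfold c0
  rw [abs_mul, abs_of_nonneg (pow_nonneg hL 3), Finset.abs_prod]
  refine mul_le_of_le_one_right (pow_nonneg hL 3) ?_
  refine Finset.prod_le_one (fun _ _ => abs_nonneg _) fun l _ => ?_
  unfold dl
  split_ifs <;> simp

theorem t2_bil_zero {y : ℝ} {B : ℕ → ℕ → ℝ} (hB : Adm y B) {m : ℕ} (h : ¬ Rough y m) :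
    bil y B m = 0 := by
  unfold bil
  refine Finset.sum_eq_zero fun p hp => ?_
  by_contra hne
  rw [mem_filter] at hp
  have hpp := Nat.prime_of_mem_primeFactors hp.1
  have hd := Nat.dvd_of_mem_primeFactors hp.1
  have h1 := (rough_prime hpp hp.2).mul (hB.supp _ _ hne).1
  rw [Nat.mul_div_cancel' hd] at h1
  exact h h1

theorem t2_uu_zero {y : ℝ} {m : ℕ} (h : ¬ Rough y m ∨ ¬ Squarefree m) : uu y m = 0 := by
  unfold uu
  rw [if_neg]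
  rintro ⟨h1, h2, -⟩
  rcases h with h | h
  · exact h h2
  · exact h h1

theorem t2_prod {a a' L Φ Φ' e K : ℝ} (hL : 0 ≤ L) (he : 0 ≤ e) (he1 : e ≤ 1)
    (h : |a - L * Φ| ≤ e * L) (h' : |a' - L * Φ'| ≤ e * L) (hΦ : |Φ| ≤ K) (hΦ' : |Φ'| ≤ K) :
    |a * a' - L ^ 2 * (Φ * Φ')| ≤ e * (1 + 2 * K) * L ^ 2 := by
  have hK : 0 ≤ K := (abs_nonneg _).trans hΦ
  have e1 : a * a' - L ^ 2 * (Φ * Φ') = (a - L * Φ) * (a' - L * Φ') + (a - L * Φ) * (L * Φ') +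
      (L * Φ) * (a' - L * Φ') := by ring
  have heL : 0 ≤ e * L := mul_nonneg he hL
  have hLK : 0 ≤ L * K := mul_nonneg hL hK
  have b1 : |L * Φ| ≤ L * K := by
    rw [abs_mul, abs_of_nonneg hL]; exact mul_le_mul_of_nonneg_left hΦ hL
  have b2 : |L * Φ'| ≤ L * K := by
    rw [abs_mul, abs_of_nonneg hL]; exact mul_le_mul_of_nonneg_left hΦ' hL
  have c1 : |(a - L * Φ) * (a' - L * Φ')| ≤ (e * L) * (e * L) := by
    rw [abs_mul]; exact mul_le_mul h h' (abs_nonneg _) heL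
  have c2 : |(a - L * Φ) * (L * Φ')| ≤ (e * L) * (L * K) := by
    rw [abs_mul]; exact mul_le_mul h b2 (abs_nonneg _) heL
  have c3 : |(L * Φ) * (a' - L * Φ')| ≤ (L * K) * (e * L) := by
    rw [abs_mul]; exact mul_le_mul b1 h' (abs_nonneg _) hLK
  have c4 : (e * L) * (e * L) ≤ e * L ^ 2 := by
    have : (e * L) * (e * L) = e * (e * L ^ 2) := by ring
    rw [this]
    exact mul_le_of_le_one_left (mul_nonneg he (sq_nonneg L)) he1
  rw [e1]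
  calc _ ≤ |(a - L * Φ) * (a' - L * Φ')| + |(a - L * Φ) * (L * Φ')| +
        |(L * Φ) * (a' - L * Φ')| := abs_add_three _ _ _
    _ ≤ e * L ^ 2 + (e * L) * (L * K) + (L * K) * (e * L) := by linarith
    _ = _ := by ring

open Classical in
theorem t2_point {y H L e D a a' : ℝ} {R σ σ' m : ℕ} {B : ℕ → ℕ → ℝ} (hB : Adm y B)
    (hL : 0 ≤ L) (he : 0 ≤ e) (he1 : e ≤ 1) (hom : Rough y m → om m ≤ R)
    (ha : Rough y m → |a - L * Phi H σ 0 m| ≤ e * L)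
    (ha' : Rough y m → |a' - L * Phi H σ' 0 m| ≤ e * L)
    (hr : om m ≤ R →
      (Squarefree m → 4 * 4 ^ R * bil y B m = uu y m * (Phi H σ 0 m * Phi H σ' 0 m)) ∧
      (¬ Squarefree m → bil y B m ≠ 0 → ∃ p : ℕ, p.Prime ∧ y ≤ (p : ℝ) ∧ p ^ 2 ∣ m) ∧
      |bil y B m| ≤ R) :
    |uu y m * (a * a') * D - L ^ 2 * (4 * 4 ^ R) * (bil y B m * D)| ≤
      e * (1 + 2 * 2 ^ R) * L ^ 2 * (if Rough y m then |D| else 0) +
        L ^ 2 * (4 * 4 ^ R) * R *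
          (if ∃ p : ℕ, p.Prime ∧ y ≤ (p : ℝ) ∧ p ^ 2 ∣ m then |D| else 0) := by
  have p1 : 0 ≤ e * (1 + 2 * 2 ^ R) * L ^ 2 := by positivity
  have p2 : 0 ≤ L ^ 2 * (4 * 4 ^ R) * (R : ℝ) := by positivity
  have q2 : 0 ≤ L ^ 2 * (4 * 4 ^ R) * R *
      (if ∃ p : ℕ, p.Prime ∧ y ≤ (p : ℝ) ∧ p ^ 2 ∣ m then |D| else 0) := by
    refine mul_nonneg p2 ?_
    split_ifs
    · exact abs_nonneg _
    · exact le_rfl
  by_cases hm : Rough y m
  · obtain ⟨r1, r2, r3⟩ := hr (hom hm)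
    rw [if_pos hm]
    have q1 : 0 ≤ e * (1 + 2 * 2 ^ R) * L ^ 2 * |D| := mul_nonneg p1 (abs_nonneg _)
    by_cases hs : Squarefree m
    · have hK : (2 : ℝ) ^ om m ≤ 2 ^ R := pow_le_pow_right₀ (by norm_num) (hom hm)
      have h1 := t2_prod hL he he1 (ha hm) (ha' hm) ((abs_Phi_le H σ 0 m).trans hK)
        ((abs_Phi_le H σ' 0 m).trans hK)
      have e1 : uu y m * (a * a') * D - L ^ 2 * (4 * 4 ^ R) * (bil y B m * D) =
          uu y m * ((a * a' - L ^ 2 * (Phi H σ 0 m * Phi H σ' 0 m)) * D) := by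
        have : L ^ 2 * (4 * 4 ^ R) * (bil y B m * D) = L ^ 2 * (4 * 4 ^ R * bil y B m) * D := by
          ring
        rw [this, r1 hs]; ring
      rw [e1, abs_mul, abs_mul, abs_of_nonneg (uu_mem y m).1]
      have h2 : |a * a' - L ^ 2 * (Phi H σ 0 m * Phi H σ' 0 m)| * |D| ≤
          e * (1 + 2 * 2 ^ R) * L ^ 2 * |D| := mul_le_mul_of_nonneg_right h1 (abs_nonneg _)
      have h3 := mul_le_of_le_one_left (mul_nonneg (abs_nonneg
        (a * a' - L ^ 2 * (Phi H σ 0 m * Phi H σ' 0 m))) (abs_nonneg D)) (uu_mem y m).2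
      linarith
    · rw [t2_uu_zero (Or.inr hs)]
      by_cases hb : bil y B m = 0
      · rw [hb]
        simp only [zero_mul, mul_zero, sub_zero, abs_zero]
        exact add_nonneg q1 q2
      · rw [if_pos (r2 hs hb)]
        have p3 : (0 : ℝ) ≤ L ^ 2 * (4 * 4 ^ R) := by positivity
        rw [zero_mul, zero_mul, zero_sub, abs_neg, abs_mul, abs_mul (bil y B m),
          abs_of_nonneg p3]
        have h4 : |bil y B m| * |D| ≤ R * |D| := mul_le_mul_of_nonneg_right r3 (abs_nonneg _)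
        have h5 := mul_le_mul_of_nonneg_left h4 p3
        have h6 : L ^ 2 * (4 * 4 ^ R) * (R * |D|) = L ^ 2 * (4 * 4 ^ R) * R * |D| := by ring
        linarith
  · rw [t2_uu_zero (Or.inl hm), t2_bil_zero hB hm, if_neg hm]
    simp only [zero_mul, mul_zero, sub_zero, abs_zero, zero_add]
    exact q2

/-- `pw_split`: the difference is `∑ n, uu * sv * sv' * (Psi - c0)`. Replace `sv * sv'` by
`L ^ 2 Phi Phi'` on rough `m` (`sv_phi`, `abs_Phi_le`, `om_le` with `R = ⌈2 ν / η⌉₊`, both parts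
of `rb`, `|c0| ≤ L ^ 3`). On rough `m`, `ramare` turns `uu Phi Phi'` into `4 * 4 ^ R * bil` up to
the `n ∈ E.sq` (`sq_small`); on other `m` both `uu` and `bil` vanish (`Adm.supp`). Then `bt`. -/
theorem t2 {ν θ : ℝ} {T1 T2 M : ℕ} (hr : Rng ν θ T1 T2 M) (hθ : θ < 1) {ε η : ℝ} (hε : 0 < ε)
    (hη : 0 < η) (hη1 : η < 1) :
    Ev1 fun E => ∀ (jj : Slot → ℕ) (i : Fin 4), (∀ s, jj s < M) →
      ∑ s ∈ univ.filter (fun s : Slot => s.1 ≠ i), (jj s + 1) ≤ T2 →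
      (∀ b, 2 + 2 * ∑ l ∈ univ.erase i, (jj (l, b) + 1) ≤ T1) →
      |∑ n ∈ E.I, uu (E.H ν ^ η) (n + E.h i) * Pw E.P E.h (cz (E.H ν) jj) n -
        c0 E ν jj i * ∑ n ∈ E.I, uu (E.H ν ^ η) (n + E.h i) *
          (sv E.P (cell (E.H ν) (jj (i, false))) (n + E.h i) *
            sv E.P (cell (E.H ν) (jj (i, true))) (n + E.h i))| ≤ ε * E.Sc ν := by
  classical
  by_cases h2 : 2 ≤ T1
  swap
  · refine ev1_of hθ ⟨0, fun w _ => ⟨0, fun E _ _ _ _ jj i _ _ h => ?_⟩⟩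
    exact absurd (le_trans (Nat.le_add_right _ _) (h true)) h2
  obtain ⟨C, hC, hrb⟩ := rb hr h2 hη hη1
  obtain ⟨C', -, hsz⟩ := ev_size (θ := θ) hr.pos
  set R : ℕ := ⌈2 * ν / η⌉₊ with hR
  have hA : (0 : ℝ) < (1 + 2 * 2 ^ R) * (2 * C) := by positivity
  have hF : (0 : ℝ) < 4 * 4 ^ R := by positivity
  have hR1 : (0 : ℝ) < (R : ℝ) + 1 := by positivity
  set e1 : ℝ := min 1 (ε / 3 / ((1 + 2 * 2 ^ R) * (2 * C))) with he1
  set e2 : ℝ := ε / 3 / (4 * 4 ^ R * ((R : ℝ) + 1)) with he2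
  set e3 : ℝ := ε / 3 / (4 * 4 ^ R) with he3
  have p1 : 0 < e1 := lt_min one_pos (by positivity)
  have p2 : 0 < e2 := by positivity
  have p3 : 0 < e3 := by positivity
  have f1 : e1 * ((1 + 2 * 2 ^ R) * (2 * C)) ≤ ε / 3 :=
    (le_div_iff₀ hA).1 (min_le_right _ _)
  have f2 : 4 * 4 ^ R * (R : ℝ) * e2 ≤ ε / 3 := by
    have : 4 * 4 ^ R * ((R : ℝ) + 1) * e2 = ε / 3 := by
      rw [he2]; field_simp
    rw [← this]
    exact mul_le_mul_of_nonneg_right (mul_le_mul_of_nonneg_left (by linarith) hF.le) p2.le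
  have f3 : 4 * 4 ^ R * e3 = ε / 3 := by
    rw [he3]; field_simp
  refine ((ev1_of hθ (((hrb.and (hsz (fun _ => 1) hη)).and (sv_phi hr p1 hη)).and
    (sq_small hr p2 hη))).and (bt hr hθ h2 p3 hη hη1)).mono ?_
  rintro E hE ⟨⟨⟨⟨hb, -, hL1, hlog, -, hH2, hHx⟩, hsv⟩, hsq⟩, hbt⟩ jj i hjj hT2 hT1
  have hL : 0 < E.L ν := lt_of_lt_of_le one_pos hL1
  have hP : ∀ q ∈ E.P, q.Prime := fun q hq =>
    Nat.prime_of_mem_primesLE (mem_filter.1 hq).1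
  have hx3 : (3 : ℝ) ≤ E.x := by
    have := hE.w10.trans hE.wx
    exact_mod_cast le_trans (by norm_num) this
  obtain ⟨B, hB, hram⟩ := ramare (y := E.H ν ^ η) hlog R (jj (i, false)) (jj (i, true))
  have hS : (0 : ℝ) ≤ E.X / E.W := by positivity
  set D : ℕ → ℝ := fun n => Psi E ν jj i n - c0 E ν jj i with hD
  have e0 : ∑ n ∈ E.I, uu (E.H ν ^ η) (n + E.h i) * Pw E.P E.h (cz (E.H ν) jj) n -
      c0 E ν jj i * ∑ n ∈ E.I, uu (E.H ν ^ η) (n + E.h i) *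
        (sv E.P (cell (E.H ν) (jj (i, false))) (n + E.h i) *
          sv E.P (cell (E.H ν) (jj (i, true))) (n + E.h i)) =
      ∑ n ∈ E.I, (uu (E.H ν ^ η) (n + E.h i) *
        (sv E.P (cell (E.H ν) (jj (i, false))) (n + E.h i) *
          sv E.P (cell (E.H ν) (jj (i, true))) (n + E.h i)) * D n -
        E.L ν ^ 2 * (4 * 4 ^ R) * (bil (E.H ν ^ η) B (n + E.h i) * D n)) +
      E.L ν ^ 2 * (4 * 4 ^ R) * ∑ n ∈ E.I, bil (E.H ν ^ η) B (n + E.h i) * D n := by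
    rw [Finset.mul_sum, Finset.mul_sum, ← Finset.sum_sub_distrib, ← Finset.sum_add_distrib]
    refine Finset.sum_congr rfl fun n _ => ?_
    rw [pw_split hP E.h (cz (E.H ν) jj) i n]
    simp only [hD, Psi, cz]
    ring
  have hpt : ∀ n ∈ E.I, |uu (E.H ν ^ η) (n + E.h i) *
        (sv E.P (cell (E.H ν) (jj (i, false))) (n + E.h i) *
          sv E.P (cell (E.H ν) (jj (i, true))) (n + E.h i)) * D n -
        E.L ν ^ 2 * (4 * 4 ^ R) * (bil (E.H ν ^ η) B (n + E.h i) * D n)| ≤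
      e1 * (1 + 2 * 2 ^ R) * E.L ν ^ 2 * (if Rough (E.H ν ^ η) (n + E.h i) then |D n| else 0) +
        E.L ν ^ 2 * (4 * 4 ^ R) * R * (if ∃ p : ℕ, p.Prime ∧ E.H ν ^ η ≤ (p : ℝ) ∧
          p ^ 2 ∣ n + E.h i then |D n| else 0) := by
    intro n hn
    obtain ⟨m1, m3⟩ := t2_range hE i hn
    refine t2_point hB hL.le p1.le (min_le_left _ _) (fun h => ?_)
      (hsv _ _ (hjj _) m1 m3) (hsv _ _ (hjj _) m1 m3) (hram _ m1)
    exact om_le hr.pos hη (lt_of_lt_of_le one_lt_two hH2) hHx hx3 m1 (by exact_mod_cast m3) h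
  have s1 : ∑ n ∈ rgh E (E.H ν ^ η) i, |D n| ≤ 2 * C * (E.X / E.W * E.L ν ^ 2) := by
    have a1 : ∑ n ∈ rgh E (E.H ν ^ η) i, |D n| ≤
        ∑ n ∈ rgh E (E.H ν ^ η) i, (|Psi E ν jj i n| + E.L ν ^ 3) :=
      Finset.sum_le_sum fun n _ =>
        (abs_sub _ _).trans (add_le_add le_rfl (t2_c0 E ν jj i hL.le))
    rw [Finset.sum_add_distrib, Finset.sum_const, nsmul_eq_mul] at a1
    have a2 := (hb i).2 jj hT1
    have a3 := mul_le_mul_of_nonneg_right (hb i).1 (pow_nonneg hL.le 3)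
    have a4 : C * (E.X / E.W / E.L ν) * E.L ν ^ 3 = C * (E.X / E.W * E.L ν ^ 2) := by
      field_simp
    linarith
  have s2 : ∑ n ∈ E.sq ν η i, |D n| ≤ e2 * (E.X / E.W * E.L ν ^ 2) := hsq jj i hjj
  have s3 : |∑ n ∈ E.I, bil (E.H ν ^ η) B (n + E.h i) * D n| ≤
      e3 * (E.X / E.W * E.L ν ^ 2) := hbt jj i B hjj hT2 hB
  have s4 := (Finset.abs_sum_le_sum_abs _ _).trans (Finset.sum_le_sum hpt)
  rw [Finset.sum_add_distrib, ← Finset.mul_sum, ← Finset.mul_sum, ← Finset.sum_filter,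
    ← Finset.sum_filter] at s4
  have hL2 : 0 ≤ E.L ν ^ 2 := sq_nonneg _
  have t1 := mul_le_mul_of_nonneg_left s1
    (show 0 ≤ e1 * (1 + 2 * 2 ^ R) * E.L ν ^ 2 by positivity)
  have t2' := mul_le_mul_of_nonneg_left s2
    (show 0 ≤ E.L ν ^ 2 * (4 * 4 ^ R) * (R : ℝ) by positivity)
  have hF2 : 0 ≤ E.L ν ^ 2 * (4 * 4 ^ R) := by positivity
  have t3 := mul_le_mul_of_nonneg_left s3 hF2
  have hSc : 0 ≤ E.Sc ν := by unfold Env.Sc; positivity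
  have u1 : e1 * (1 + 2 * 2 ^ R) * E.L ν ^ 2 * (2 * C * (E.X / E.W * E.L ν ^ 2)) =
      e1 * ((1 + 2 * 2 ^ R) * (2 * C)) * E.Sc ν := by unfold Env.Sc; ring
  have u2 : E.L ν ^ 2 * (4 * 4 ^ R) * (R : ℝ) * (e2 * (E.X / E.W * E.L ν ^ 2)) =
      4 * 4 ^ R * (R : ℝ) * e2 * E.Sc ν := by unfold Env.Sc; ring
  have u3 : E.L ν ^ 2 * (4 * 4 ^ R) * (e3 * (E.X / E.W * E.L ν ^ 2)) =
      4 * 4 ^ R * e3 * E.Sc ν := by unfold Env.Sc; ring
  have v1 := mul_le_mul_of_nonneg_right f1 hSc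
  have v2 := mul_le_mul_of_nonneg_right f2 hSc
  rw [f3] at u3
  rw [e0]
  refine (abs_add_le _ _).trans ?_
  rw [abs_mul (E.L ν ^ 2 * (4 * 4 ^ R)), abs_of_nonneg hF2]
  unfold rgh at t1
  unfold Env.sq at t2'
  linarith

end Pool.Agent.Lib.MP_c03ca8_nt.P3
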