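import Pool.Agent.Lib.MP_c03ca8_nt.P3.ZDefs

set_option autoImplicit false

noncomputable section

namespace Pool.Agent.Lib.MP_c03ca8_nt.P3

open Finset Real Pool.Agent.Lib.MP_c03ca8_nt.Q

theorem force_eq (x : ℕ) (f : ℕ → ℕ) : force x f = f x := by
  cases x <;> rfl

theorem za_mkL (f : ℕ → ℕ) (k : List ℕ → ℕ) (n : ℕ) (acc : List ℕ) :
    Nat.rec (motive := fun _ => List ℕ → ℕ) k
      (fun i ih acc => force (f i) fun v => ih (v :: acc)) n acc =
      k ((List.range n).map f ++ acc) := by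
  induction n generalizing acc with
  | zero => rfl
  | succ n ih =>
    rw [List.range_succ, List.map_append, List.append_assoc, ← ih]
    exact force_eq _ _

theorem mkL_eq (n : ℕ) (f : ℕ → ℕ) (k : List ℕ → ℕ) : mkL n f k = k ((List.range n).map f) := by
  rw [mkL, za_mkL, List.append_nil]

theorem za_pk_succ (n : ℕ) (f : ℕ → ℕ) : pk (n + 1) f = pk n f + (2 ^ 64) ^ n * f n := by
  have e : pk (n + 1) f = pk n f + f n <<< (64 * n) := rfl
  rw [e, Nat.shiftLeft_eq, pow_mul, mul_comm]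

theorem za_dg (t i : ℕ) : dg t i = t / (2 ^ 64) ^ i % 2 ^ 64 := by
  have e : dg t i = (t >>> (64 * i)) % 18446744073709551616 := rfl
  rw [e, Nat.shiftRight_eq_div_pow, pow_mul]
  norm_num

theorem za_pk_lt {n : ℕ} {f : ℕ → ℕ} (hf : ∀ k < n, f k < 2 ^ 64) : pk n f < (2 ^ 64) ^ n := by
  induction n with
  | zero => exact Nat.one_pos
  | succ n ih =>
    have h1 := ih fun k hk => hf k (by omega)
    have h2 : f n + 1 ≤ 2 ^ 64 := hf n (by omega)
    rw [za_pk_succ, pow_succ (2 ^ 64) n]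
    generalize (2 ^ 64 : ℕ) = B at *
    calc pk n f + B ^ n * f n < B ^ n + B ^ n * f n := by omega
      _ = B ^ n * (f n + 1) := by ring
      _ ≤ B ^ n * B := Nat.mul_le_mul_left _ h2

/-- Digits in base `2 ^ 64`. -/
theorem dg_pk {n i : ℕ} {f : ℕ → ℕ} (hf : ∀ k < n, f k < 2 ^ 64) (hi : i < n) :
    dg (pk n f) i = f i := by
  induction n with
  | zero => omega
  | succ n ih =>
    have h1 := za_pk_lt (n := n) (f := f) fun k hk => hf k (by omega)
    have hB : 0 < 2 ^ 64 := by positivity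
    rcases Nat.lt_succ_iff_lt_or_eq.1 hi with h | rfl
    · have h2 := ih (fun k hk => hf k (by omega)) h
      obtain ⟨d, rfl⟩ := Nat.exists_eq_add_of_lt h
      rw [za_dg] at h2 ⊢
      rw [za_pk_succ]
      generalize (2 ^ 64 : ℕ) = B at *
      have e : B ^ (i + d + 1) * f (i + d + 1) = B ^ i * (B * (B ^ d * f (i + d + 1))) := by ring
      rw [e, Nat.add_mul_div_left _ _ (by positivity), Nat.add_mul_mod_self_left, h2]
    · have h2 := hf i (by omega)
      rw [za_dg, za_pk_succ]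
      generalize (2 ^ 64 : ℕ) = B at *
      rw [Nat.add_mul_div_left _ _ (by positivity), Nat.div_eq_of_lt h1, zero_add,
        Nat.mod_eq_of_lt h2]

theorem za_map (n : ℕ) (f : ℕ → ℕ) :
    (List.range (n + 1)).map f = f 0 :: (List.range n).map fun k => f (k + 1) := by
  rw [List.range_succ_eq_map, List.map_cons, List.map_map]
  rfl

theorem za_innr (ra n : ℕ) : ∀ (m : ℕ) (v w r : ℕ → ℕ), n ≤ m →
    innr ra ((List.range n).map v) ((List.range m).map w) ((List.range m).map r) =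
      ∑ b ∈ range n, w b * (ra + r b - v b) ^ 2 := by
  induction n with
  | zero => intro m v w r _; rfl
  | succ n ih =>
    intro m v w r hm
    obtain ⟨m, rfl⟩ : ∃ m', m = m' + 1 := ⟨m - 1, by omega⟩
    rw [za_map, za_map, za_map, Finset.sum_range_succ', add_comm,
      ← ih m (fun k => v (k + 1)) (fun k => w (k + 1)) (fun k => r (k + 1)) (by omega)]
    rfl

theorem za_outr (N : ℕ) (w r : ℕ → ℕ) (n : ℕ) : ∀ (m : ℕ) (v w' r' : ℕ → ℕ), n ≤ m → n ≤ N →
    outr ((List.range N).map w) ((List.range N).map r) ((List.range n).map v)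
      ((List.range m).map w') ((List.range m).map r') =
      ∑ a ∈ range n, w' a * ∑ b ∈ range (n - 1 - a), w b * (r' a + r b - v (a + b + 1)) ^ 2 := by
  induction n with
  | zero => intro m v w' r' _ _; rfl
  | succ n ih =>
    intro m v w' r' hm hN
    obtain ⟨m, rfl⟩ : ∃ m', m = m' + 1 := ⟨m - 1, by omega⟩
    have h1 := ih m (fun k => v (k + 1)) (fun k => w' (k + 1)) (fun k => r' (k + 1)) (by omega)
      (by omega)
    have h2 := za_innr (r' 0) n N (fun k => v (k + 1)) w r (by omega)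
    have h3 : ∑ a ∈ range n, w' (a + 1) * ∑ b ∈ range (n + 1 - 1 - (a + 1)),
        w b * (r' (a + 1) + r b - v (a + 1 + b + 1)) ^ 2 =
        ∑ a ∈ range n, w' (a + 1) * ∑ b ∈ range (n - 1 - a),
          w b * (r' (a + 1) + r b - v (a + b + 1 + 1)) ^ 2 := by
      refine Finset.sum_congr rfl fun a _ => ?_
      rw [show n + 1 - 1 - (a + 1) = n - 1 - a by omega]
      refine congrArg _ (Finset.sum_congr rfl fun b _ => ?_)
      rw [show a + 1 + b + 1 = a + b + 1 + 1 by omega]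
    rw [za_map n v, za_map m w', za_map m r', Finset.sum_range_succ', add_comm, h3, ← h1]
    simp only [Nat.add_sub_cancel, Nat.sub_zero, zero_add]
    rw [← h2]
    rfl

/-- Induction on the lists (state it for `List.range'` or for shifted functions). -/
theorem outr_eq (N : ℕ) (w r v : ℕ → ℕ) :
    outr ((List.range N).map w) ((List.range N).map r) ((List.range (N - 1)).map v)
      ((List.range N).map w) ((List.range N).map r) =
      ∑ a ∈ range (N - 1), w a * ∑ b ∈ range (N - 2 - a), w b * (r a + r b - v (a + b + 1)) ^ 2 := by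
  rw [za_outr N w r (N - 1) N v w r (by omega) (by omega)]
  rfl

theorem za_el (c : Z3) (β : ℕ) :
    c.el β = if 2 * β ≤ c.T then tb c.tl (c.T + 1 - β) else tb c.tl β := by
  rw [Z3.el, Z3.isLow, zval_cond]

theorem za_mix (c : Z3) {β β' : ℕ} (h : 2 * β ≤ c.T) (h' : ¬ 2 * β' ≤ c.T)
    (hle : c.el β ≤ c.el β') : c.toKer.Mk β β' = 0 ∧ c.toKer.Mk β' β = 0 := by
  have h1 : (c.el β : ℝ) / 1000 ≤ (c.el β' : ℝ) / 1000 :=
    div_le_div_of_nonneg_right (by exact_mod_cast hle) (by norm_num)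
  have h2 : (0 : ℝ) < 2 + 5 * ((c.el β : ℝ) / 1000) := by positivity
  simp only [Ker.Mk, Ker.Nk, Ker.Pk, Z3.toKer, if_pos h, if_neg h', min_eq_left h1,
    min_eq_right h1]
  generalize (c.el β : ℝ) / 1000 = e at *
  constructor
  · field_simp
    ring
  · field_simp
    ring

theorem za_low (c : Z3) {β : ℕ} (h : 2 * β ≤ c.T) :
    c.toKer.Mk β β = ((2000 + 5 * (c.el β : ℝ)) ^ 2 + 5000 * c.el β - 4000000) /
      (2000 + 5 * (c.el β : ℝ)) ^ 2 := by
  have h0 : (0 : ℝ) ≤ c.el β := Nat.cast_nonneg _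
  simp only [Ker.Mk, Ker.Nk, Ker.Pk, Z3.toKer, if_pos h, min_self]
  generalize (c.el β : ℝ) = e at *
  have e1 : 2 + 5 * (e / 1000) = (2000 + 5 * e) / 1000 := by ring
  have h1 : 0 < 2000 + 5 * e := by positivity
  rw [e1]
  field_simp
  ring

/-- High and high: `1 + min - (1 + min)`. Low `β` and high `β'` with `T < β + β'`:
`el β = tl (T + 1 - β) ≤ tl β' = el β'` (`zval_mono`). Two low bands have `β + β' ≤ T`. -/
theorem valid3 (c : Z3) (h : c.ok1 = true) : c.toKer.Valid c.zc.toCert := by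
  simp only [Z3.ok1, Bool.and_eq_true, allTo_iff, Nat.ble_eq] at h
  obtain ⟨⟨⟨⟨h1, h2⟩, h3⟩, h4⟩, -⟩ := h
  have hh : ∀ β β', ¬ 2 * β ≤ c.T → ¬ 2 * β' ≤ c.T → c.toKer.Mk β β' = 0 := fun β β' a b => by
    simp only [Ker.Mk, Ker.Nk, Ker.Pk, Z3.toKer, if_neg a, if_neg b]
    ring
  have hm : ∀ β β', 2 * β ≤ c.T → ¬ 2 * β' ≤ c.T → β' ≤ c.U → c.T < β + β' →
      c.el β ≤ c.el β' := fun β β' a b hu hT => by
    rw [za_el, za_el, if_pos a, if_neg b]
    exact zval_mono (f := tb c.tl) h4 (by omega) (by omega)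
  refine ⟨fun β => ?_, fun β β' hb hb' hT => ?_, fun β _ => ?_, ?_, ?_, fun u => ?_, fun σ => ?_⟩
  · exact div_nonneg (Nat.cast_nonneg _) (by norm_num)
  · have hb1 : β ≤ c.U := hb
    have hb2 : β' ≤ c.U := hb'
    have hT1 : c.T + 6 < β + β' + 6 := hT
    by_cases a : 2 * β ≤ c.T <;> by_cases b : 2 * β' ≤ c.T
    · omega
    · exact (za_mix c a b (hm β β' a b hb2 (by omega))).1
    · exact (za_mix c b a (hm β' β b a hb1 (by omega))).2
    · exact hh β β' a b
  · by_cases a : 2 * β ≤ c.T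
    · rw [za_low c a]
      have h0 : (0 : ℝ) ≤ c.el β := Nat.cast_nonneg _
      exact div_nonneg (by nlinarith) (by positivity)
    · exact (hh β β a a).ge
  · show 2 * c.U + 9 ≤ c.N - 1
    omega
  · show 2 * c.M ≤ c.N - 1
    omega
  · exact Nat.cast_nonneg _
  · exact Nat.cast_nonneg _

theorem nk_le (c : Z3) (β : ℕ) : 1000000 * c.toKer.Nk β β ≤ c.nhi β := by
  have h0 : (0 : ℝ) ≤ c.el β := Nat.cast_nonneg _
  rw [Z3.nhi, Z3.isLow, zval_cond]
  by_cases h : 2 * β ≤ c.T
  · have hd : 0 < c.den β := by rw [Z3.den]; positivity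
    have n3 := Nat.lt_mul_div_succ (9000 * c.el β * 1000000) hd
    have n4 : ((9000 * c.el β * 1000000 : ℕ) : ℝ) <
        (c.den β : ℝ) * ((9000 * c.el β * 1000000 / c.den β + 1 : ℕ) : ℝ) := by exact_mod_cast n3
    rw [if_pos h]
    generalize ((9000 * c.el β * 1000000 / c.den β + 1 : ℕ) : ℝ) = Z at n4 ⊢
    rw [Z3.den] at n4
    push_cast at n4
    simp only [Ker.Nk, Z3.toKer, if_pos h, min_self]
    generalize (c.el β : ℝ) = e at *
    have h1 : 0 < 2000 + 5 * e := by positivity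
    have e1 : 2 + 5 * (e / 1000) = (2000 + 5 * e) / 1000 := by ring
    have e2 : 1000000 * (3 / ((2000 + 5 * e) / 1000) * (3 / ((2000 + 5 * e) / 1000)) *
        (e / 1000)) = 9000 * e * 1000000 / (2000 + 5 * e) ^ 2 := by
      field_simp
      ring
    rw [e1, e2, div_le_iff₀ (by positivity)]
    linarith
  · simp only [Ker.Nk, Z3.toKer, if_neg h, min_self]
    push_cast
    linarith

theorem le_mk (c : Z3) {β : ℕ} (h : 2 * β ≤ c.T) : (c.mlo β : ℝ) ≤ 1000000 * c.toKer.Mk β β := by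
  have h1 : 4000000 ≤ c.den β + 5000 * c.el β := by
    have : 2000 ^ 2 ≤ c.den β := Nat.pow_le_pow_left (by omega) 2
    omega
  rw [za_low c h, Z3.mlo]
  refine Nat.cast_div_le.trans (le_of_eq ?_)
  rw [Nat.cast_mul, Nat.cast_sub h1, Z3.den]
  push_cast
  ring

end Pool.Agent.Lib.MP_c03ca8_nt.P3
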