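import Pool.Agent.Lib.MP_c03ca8_nt.P3.Defs

/-!
The integer certificate, evaluated by the kernel. Input tables are stored in base `2 ^ 24`, the
row sums of one row in base `2 ^ 64`.
-/

set_option autoImplicit false

namespace Pool.Agent.Lib.MP_c03ca8_nt.P3

open Pool.Agent.Lib.MP_c03ca8_nt.Q

/-- Evaluate `x` before it is used. -/
noncomputable def force (x : ℕ) (f : ℕ → ℕ) : ℕ := Nat.rec (f 0) (fun k _ => f (Nat.succ k)) x

/-- The values `f 0, …, f (n - 1)` as digits in base `2 ^ 64`. -/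
def pk (n : ℕ) (f : ℕ → ℕ) : ℕ := sumTo n fun k => Nat.shiftLeft (f k) (Nat.mul 64 k)

/-- Digit `i` of `t` in base `2 ^ 64`. -/
def dg (t i : ℕ) : ℕ := Nat.mod (Nat.shiftRight t (Nat.mul 64 i)) 18446744073709551616

/-- Pass the list of the values `f 0, …, f (n - 1)` to `k`. -/
noncomputable def mkL (n : ℕ) (f : ℕ → ℕ) (k : List ℕ → ℕ) : ℕ :=
  Nat.rec (motive := fun _ => List ℕ → ℕ) k
    (fun i ih acc => force (f i) fun v => ih (v :: acc)) n []

/-- `∑ b, w b * (ra + r b - v b) ^ 2` along three lists. -/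
noncomputable def innr (ra : ℕ) (lv : List ℕ) : List ℕ → List ℕ → ℕ :=
  List.rec (motive := fun _ => List ℕ → List ℕ → ℕ) (fun _ _ => 0) (fun v _ ih lw lr =>
    List.rec (motive := fun _ => ℕ) 0 (fun w lw' _ =>
      List.rec (motive := fun _ => ℕ) 0 (fun r lr' _ =>
        Nat.add (Nat.mul w (Nat.pow (Nat.sub (Nat.add ra r) v) 2)) (ih lw' lr')) lr) lw) lv

/-- `∑ a, w a * ∑ b, w0 b * (r a + r0 b - v (a + 1 + b)) ^ 2`. -/
noncomputable def outr (lw0 lr0 : List ℕ) (lv : List ℕ) : List ℕ → List ℕ → ℕ :=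
  List.rec (motive := fun _ => List ℕ → List ℕ → ℕ) (fun _ _ => 0) (fun _ lv' ih lw lr =>
    List.rec (motive := fun _ => ℕ) 0 (fun w lw' _ =>
      List.rec (motive := fun _ => ℕ) 0 (fun r lr' _ =>
        Nat.add (Nat.mul w (innr r lv' lw0 lr0)) (ih lw' lr')) lr) lw) lv

/-- `el` is stored times `1000`. -/
structure Z3 where
  N : ℕ
  T : ℕ
  U : ℕ
  M : ℕ
  tg : ℕ
  tom : ℕ
  tl : ℕ

namespace Z3

variable (c : Z3)

/-- The weight, in the format of the earlier certificates. -/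
def zc : ZC := ⟨10 * c.N, c.N - 1, c.T + 6, c.U, c.M, 0, c.tg, c.tom, 0, 0, 0⟩

def isLow (β : ℕ) : Bool := Nat.ble (2 * β) c.T

def el (β : ℕ) : ℕ := cond (c.isLow β) (tb c.tl (c.T + 1 - β)) (tb c.tl β)

def den (β : ℕ) : ℕ := (2000 + 5 * c.el β) ^ 2

/-- Upper bound for `10 ^ 6 Nk β β`. -/
def nhi (β : ℕ) : ℕ := cond (c.isLow β) (9000 * c.el β * 1000000 / c.den β + 1) (1000 * c.el β)

/-- Lower bound for `10 ^ 6 Mk β β` on a low band. -/
def mlo (β : ℕ) : ℕ := (c.den β + 5000 * c.el β - 4000000) * 1000000 / c.den β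

def S1 (β k : ℕ) : ℕ := sumTo k (c.zc.G β)

def E (β k : ℕ) : ℕ := c.zc.G β k + c.zc.G β (c.N - 1 - k)

/-- `s2`, from the table `t` of `S1`. -/
def S2 (t k : ℕ) : ℕ := dg t k + dg t c.N - dg t (c.N - k)

/-- Lower bound for `cR`. -/
def R (β t a : ℕ) : ℕ := 2 * c.S2 t a + c.E β a - (c.E β a / (6 * a) + 1)

def V (β t k : ℕ) : ℕ := 2 * c.S2 t k + (c.E β k - c.E β (k - 1))

/-- Lower bound for `2 c2`. -/
def C2 (β t a : ℕ) : ℕ :=
  2 * dg t a + c.zc.G β a + 2 * dg t (c.N - a) -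
    (c.zc.G β a / (6 * a) + 1 + c.zc.G β (c.N - 1 - a) + 2 * dg t c.N)

/-- Lower bound for `8 * 10 ^ 12 Dv`. -/
noncomputable def D (β : ℕ) : ℕ :=
  force (pk (c.N + 1) (c.S1 β)) fun t =>
    8000000000000 * dg t c.N ^ 2 + 2000000 * sumTo (c.N - 1) (fun a => wlo a * c.C2 β t a ^ 2) +
      mkL c.N wlo fun lw => mkL c.N (c.R β t) fun lr => mkL (c.N - 1) (c.V β t) fun lv =>
        outr lw lr lv lw lr

/-- The row `β` of the left side. -/
def lhs (β : ℕ) : ℕ := c.N * 8000000000000 * (c.zc.Mb β * c.zc.rI β * (3000000 + 4 * c.nhi β))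

/-- The row `β` of the right side. -/
noncomputable def rhs (β : ℕ) : ℕ := cond (c.isLow β) (4 * (c.zc.Mb β * (c.mlo β * c.D β))) 0

/-- The checks behind `Ker.Valid`; the last one keeps the row sums below `2 ^ 64`. -/
def ok1 : Bool :=
  Nat.ble (2 * c.U + 10) c.N && Nat.ble (2 * c.M + 1) c.N && Nat.ble c.U c.T &&
    allTo (c.T + 1) (fun u => Nat.ble (tb c.tl u) (tb c.tl (u + 1))) && Nat.ble c.N 1000

/-- The final inequality. -/
noncomputable def ok2 : Bool :=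
  Nat.ble (sumTo (c.U + 1) c.lhs + 1) (sumTo (c.U + 1) c.rhs)

noncomputable def toKer : Ker where
  al β := if 2 * β ≤ c.T then 2 / (2 + 5 * ((c.el β : ℝ) / 1000)) else 1
  ga β := if 2 * β ≤ c.T then 3 / (2 + 5 * ((c.el β : ℝ) / 1000)) else -1
  el β := c.el β / 1000

end Z3

end Pool.Agent.Lib.MP_c03ca8_nt.P3
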